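import Pool.Agent.AVG.Avg

/-!
# AVG: algebra of net multiplicities

`net` is additive, `net (S.map (-·)) = - net S`, `net S = (S.map sg).sum`. A multiset of types, resp. an even multiset
of weights, whose net multiplicity lies in the group `R0`, resp. `R`, belongs to `Cls`, resp. `Gen2`
(`cls_of_mem`, `gen2_of_mem`).
-/

set_option linter.unusedSectionVars false
set_option linter.unusedVariables false

namespace Pool.Agent.AVG

open Finset Pool.Agent.AVF

variable {G : Type} [Group G] [Fintype G] {D : Subgroup G} {c : G} {κ : G →* ℤˣ}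

theorem net_add' (S T : Multiset (G → ℚ)) : net (S + T) = net S + net T := by
  funext w
  exact net_add S T w

theorem net_zero' : net (0 : Multiset (G → ℚ)) = 0 := by
  funext w
  simp [net]

theorem net_map_neg' (S : Multiset (G → ℚ)) : net (S.map fun w => -w) = - net S := by
  funext w
  exact net_map_neg S w

theorem sg_neg (w : G → ℚ) : sg (-w) = - sg w := by
  have h := net_map_neg' ({w} : Multiset (G → ℚ))
  rw [Multiset.map_singleton] at h
  exact h

theorem sg_zero : sg (0 : G → ℚ) = 0 := by
  funext w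
  have h := congrFun (sg_neg (0 : G → ℚ)) w
  rw [neg_zero, Pi.neg_apply] at h
  rw [Pi.zero_apply]
  omega

theorem net_eq_sum (S : Multiset (G → ℚ)) : net S = (S.map sg).sum := by
  induction S using Multiset.induction with
  | empty =>
    rw [Multiset.map_zero, Multiset.sum_zero]
    exact net_zero'
  | cons a S ih =>
    rw [Multiset.map_cons, Multiset.sum_cons, ← Multiset.singleton_add, net_add', ih]
    rfl

/-- the indicator of a half set is the sum of the classes of its elements -/
theorem ind_eq_sum {W : Finset (G → ℚ)} (hW : ∀ w ∈ W, -w ∉ W) : ind W = ∑ w ∈ W, sg w := by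
  have h1 : net W.val = ind W := funext fun w => net_val hW w
  rw [← h1, net_eq_sum]
  rfl

private theorem alg_neg {f : G → ℚ} (hf : IsType c f) : IsType c (-f) := by
  refine ⟨fun g => ?_, fun g => ?_⟩
  · rw [Pi.neg_apply, Pi.neg_apply, hf.1 g]
  · rw [Pi.neg_apply]
    rcases hf.2 g with h | h
    · right
      rw [h]
    · left
      rw [h, neg_neg]

private theorem alg_chi (hκ : κ c = -1) : IsType c (chi κ) := by
  refine ⟨fun g => ?_, fun g => ?_⟩
  · rw [chi_apply, chi_apply, map_mul, hκ]
    push_cast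
    ring
  · rw [chi_apply]
    rcases Int.units_eq_one_or (κ g) with h | h
    · left
      rw [h]
      norm_num
    · right
      rw [h]
      norm_num

theorem surf_type (hc : ∀ g, c * g = g * c) (hκ : κ c = -1) {T : Finset (G → ℚ)}
    (hT : ∀ f ∈ T, IsType c f) (hK : ∀ h, κ h = 1 → ∀ f ∈ T, tr h f ∈ T)
    (h1 : ∑ f ∈ T, (f 1 + 1 / 2) = 1) {x y : G → ℚ} (hx : x ∈ T) (hy : y ∈ T) (hxy : x ≠ y) :
    IsType c (x + y + chi κ) := by
  classical
  have hodd : ∀ g, (x + y + chi κ) (c * g) = -(x + y + chi κ) g := by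
    intro g
    have e1 := (hT x hx).1 g
    have e2 := (hT y hy).1 g
    have e3 := (alg_chi hκ).1 g
    simp only [Pi.add_apply]
    rw [e1, e2, e3]
    ring
  have hone : ∀ g, κ g = 1 → (x + y + chi κ) g = 1 / 2 ∨ (x + y + chi κ) g = -(1 / 2) := by
    intro g hg
    have hs : ∑ f ∈ T, (f g + 1 / 2) = 1 := by
      refine Eq.trans ?_ h1
      have him : T.image (tr g) = T := by
        refine Finset.eq_of_subset_of_card_le ?_ ?_
        · intro f hf
          obtain ⟨f', hf', rfl⟩ := Finset.mem_image.1 hf
          exact hK g hg f' hf'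
        · rw [Finset.card_image_of_injective T fun u v e => tr_inj g e]
      conv_rhs => rw [← him]
      rw [Finset.sum_image fun u _ v _ e => tr_inj g e]
      refine Finset.sum_congr rfl fun f _ => ?_
      rw [tr_eval]
    have hnn : ∀ f ∈ T, 0 ≤ f g + 1 / 2 := by
      intro f hf
      rcases (hT f hf).2 g with h | h <;> rw [h] <;> norm_num
    have hle : (x g + 1 / 2) + (y g + 1 / 2) ≤ 1 := by
      refine le_trans ?_ (le_of_eq hs)
      have h2 : ({x, y} : Finset (G → ℚ)) ⊆ T := by
        intro f hf
        rcases Finset.mem_insert.1 hf with rfl | hf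
        · exact hx
        · rw [Finset.mem_singleton.1 hf]
          exact hy
      rw [← Finset.sum_pair (f := fun f : G → ℚ => f g + 1 / 2) hxy]
      exact Finset.sum_le_sum_of_subset_of_nonneg h2 fun f hf _ => hnn f hf
    have e3 : chi κ g = 1 / 2 := by
      rw [chi_apply, hg]
      norm_num
    simp only [Pi.add_apply]
    rw [e3]
    rcases (hT x hx).2 g with h | h <;> rcases (hT y hy).2 g with h' | h' <;>
      rw [h, h'] at hle ⊢ <;> revert hle <;> norm_num
  refine ⟨hodd, fun g => ?_⟩
  rcases Int.units_eq_one_or (κ g) with hg | hg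
  · exact hone g hg
  · have h2 : κ (c * g) = 1 := by
      rw [map_mul, hκ, hg]
      rfl
    have h3 := hone (c * g) h2
    rw [hodd g] at h3
    rcases h3 with h3 | h3
    · right
      rw [← h3, neg_neg]
    · left
      exact neg_injective h3

theorem ks_type (hc : ∀ g, c * g = g * c) (hκ : κ c = -1) {T : Finset (G → ℚ)}
    (hT : ∀ f ∈ T, IsType c f) (hK : ∀ h, κ h = 1 → ∀ f ∈ T, tr h f ∈ T)
    (h1 : ∑ f ∈ T, (f 1 + 1 / 2) = 1) {X : Finset (G → ℚ)} (hX : X ⊆ T) :
    IsType c (∑ f ∈ X, f + ((X.card : ℚ) - 1) • chi κ) := by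
  classical
  have hev : ∀ g, (∑ f ∈ X, f + ((X.card : ℚ) - 1) • chi κ) g =
      ∑ f ∈ X, f g + ((X.card : ℚ) - 1) * chi κ g := by
    intro g
    rw [Pi.add_apply, Finset.sum_apply, Pi.smul_apply, smul_eq_mul]
  have hodd : ∀ g, (∑ f ∈ X, f + ((X.card : ℚ) - 1) • chi κ) (c * g) =
      -(∑ f ∈ X, f + ((X.card : ℚ) - 1) • chi κ) g := by
    intro g
    rw [hev, hev, (alg_chi hκ).1 g, Finset.sum_congr rfl fun f hf => (hT f (hX hf)).1 g,
      Finset.sum_neg_distrib]
    ring
  have hone : ∀ g, κ g = 1 → (∑ f ∈ X, f + ((X.card : ℚ) - 1) • chi κ) g = 1 / 2 ∨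
      (∑ f ∈ X, f + ((X.card : ℚ) - 1) • chi κ) g = -(1 / 2) := by
    intro g hg
    have hs : ∑ f ∈ T, (f g + 1 / 2) = 1 := by
      refine Eq.trans ?_ h1
      have him : T.image (tr g) = T := by
        refine Finset.eq_of_subset_of_card_le ?_ ?_
        · intro f hf
          obtain ⟨f', hf', rfl⟩ := Finset.mem_image.1 hf
          exact hK g hg f' hf'
        · rw [Finset.card_image_of_injective T fun u v e => tr_inj g e]
      conv_rhs => rw [← him]
      rw [Finset.sum_image fun u _ v _ e => tr_inj g e]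
      refine Finset.sum_congr rfl fun f _ => ?_
      rw [tr_eval]
    have hnn : ∀ f ∈ T, 0 ≤ f g + 1 / 2 := by
      intro f hf
      rcases (hT f hf).2 g with h | h <;> rw [h] <;> norm_num
    have hle : ∑ f ∈ X, (f g + 1 / 2) ≤ 1 := by
      refine le_trans ?_ (le_of_eq hs)
      exact Finset.sum_le_sum_of_subset_of_nonneg hX fun f hf _ => hnn f hf
    have hcd : ∑ f ∈ X, (f g + 1 / 2) = ((X.filter fun f : G → ℚ => f g = 1 / 2).card : ℚ) := by
      rw [Finset.card_filter]
      push_cast
      refine Finset.sum_congr rfl fun f hf => ?_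
      rcases (hT f (hX hf)).2 g with h | h
      · rw [h, if_pos rfl]
        norm_num
      · rw [h, if_neg (by norm_num)]
        norm_num
    have e3 : chi κ g = 1 / 2 := by
      rw [chi_apply, hg]
      norm_num
    have e4 : (∑ f ∈ X, f + ((X.card : ℚ) - 1) • chi κ) g = ∑ f ∈ X, (f g + 1 / 2) - 1 / 2 := by
      rw [hev, e3, Finset.sum_add_distrib, Finset.sum_const, nsmul_eq_mul]
      ring
    rw [e4]
    rw [hcd] at hle ⊢
    have h5 : (X.filter fun f : G → ℚ => f g = 1 / 2).card ≤ 1 := by exact_mod_cast hle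
    rcases Nat.le_one_iff_eq_zero_or_eq_one.1 h5 with h6 | h6
    · right
      rw [h6]
      norm_num
    · left
      rw [h6]
      norm_num
  refine ⟨hodd, fun g => ?_⟩
  rcases Int.units_eq_one_or (κ g) with hg | hg
  · exact hone g hg
  · have h2 : κ (c * g) = 1 := by
      rw [map_mul, hκ, hg]
      rfl
    have h3 := hone (c * g) h2
    rw [hodd g] at h3
    rcases h3 with h3 | h3
    · right
      rw [← h3, neg_neg]
    · left
      exact neg_injective h3

theorem Cls.isType (hc : ∀ g, c * g = g * c) {S : Multiset (G → ℚ)} (h : Cls c κ S) :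
    ∀ f ∈ S, IsType c f := by
  induction h with
  | pair f hf =>
    intro v hv
    rw [Multiset.insert_eq_cons, Multiset.mem_cons, Multiset.mem_singleton] at hv
    rcases hv with rfl | rfl
    · exact hf
    · exact alg_neg hf
  | add hS hT ihS ihT =>
    intro v hv
    rcases Multiset.mem_add.1 hv with hv | hv
    · exact ihS v hv
    · exact ihT v hv
  | cancel f h ih => exact fun v hv => ih v (Multiset.mem_add.2 (Or.inl hv))
  | conj h ih =>
    intro v hv
    obtain ⟨u, hu, rfl⟩ := Multiset.mem_map.1 hv
    exact alg_neg (ih u hu)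
  | surf hκ T hT hK hn h1 x y hx hy hxy =>
    intro v hv
    rw [Multiset.insert_eq_cons, Multiset.insert_eq_cons, Multiset.insert_eq_cons,
      Multiset.mem_cons, Multiset.mem_cons, Multiset.mem_cons, Multiset.mem_singleton] at hv
    rcases hv with rfl | rfl | rfl | rfl
    · exact hT _ hx
    · exact hT _ hy
    · exact alg_chi hκ
    · exact alg_neg (surf_type hc hκ hT hK h1 hx hy hxy)
  | ks hκ T hT hK hn h1 X hX hX0 =>
    intro v hv
    rw [Multiset.mem_add, Multiset.mem_add, Multiset.mem_singleton] at hv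
    rcases hv with (hv | hv) | rfl
    · exact hT v (hX (show v ∈ X from hv))
    · rw [Multiset.eq_of_mem_replicate hv]
      exact alg_chi hκ
    · exact alg_neg (ks_type hc hκ hT hK h1 hX)

theorem Cls.even_card {S : Multiset (G → ℚ)} (h : Cls c κ S) : Even S.card := by
  induction h with
  | pair f hf =>
    rw [Multiset.card_pair]
    exact ⟨1, rfl⟩
  | add hS hT ihS ihT =>
    rw [Multiset.card_add]
    exact ihS.add ihT
  | cancel f h ih =>
    rw [Multiset.card_add, Multiset.card_pair] at ih
    exact (Nat.even_add.1 ih).2 ⟨1, rfl⟩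
  | conj h ih =>
    rw [Multiset.card_map]
    exact ih
  | surf hκ T hT hK hn h1 x y hx hy hxy =>
    rw [Multiset.insert_eq_cons, Multiset.insert_eq_cons, Multiset.insert_eq_cons,
      Multiset.card_cons, Multiset.card_cons, Multiset.card_cons, Multiset.card_singleton]
    exact ⟨2, rfl⟩
  | ks hκ T hT hK hn h1 X hX hX0 =>
    have h2 := Finset.card_pos.2 hX0
    have h3 : X.val.card = X.card := rfl
    rw [Multiset.card_add, Multiset.card_add, Multiset.card_replicate, Multiset.card_singleton, h3]
    exact ⟨X.card, by omega⟩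

theorem mem_R0 {f : (G → ℚ) → ℤ} (hf : f ∈ R0 c κ) :
    f = 0 ∨ ∃ S, Cls c κ S ∧ net S = f := by
  induction hf using AddSubgroup.closure_induction with
  | mem x hx => exact Or.inr hx
  | zero => exact Or.inl rfl
  | add x y hx hy ihx ihy =>
    rcases ihx with rfl | ⟨S, hS, rfl⟩
    · rw [zero_add]
      exact ihy
    · rcases ihy with rfl | ⟨T, hT, rfl⟩
      · rw [add_zero]
        exact Or.inr ⟨S, hS, rfl⟩
      · exact Or.inr ⟨S + T, Cls.add hS hT, net_add' S T⟩
  | neg x hx ihx =>
    rcases ihx with rfl | ⟨S, hS, rfl⟩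
    · left
      rw [neg_zero]
    · exact Or.inr ⟨S.map fun w => -w, Cls.conj hS, net_map_neg' S⟩

private theorem alg_gen2_neg (hc : ∀ g, c * g = g * c) {S : Multiset (G → ℚ)}
    (h : Gen2 D c κ S) : Gen2 D c κ (S.map fun w => -w) := by
  induction h with
  | weil h => exact Gen2.weil (h.map_neg hc)
  | @red S h =>
    have e : (S.map (avg D)).map (fun w => -w) = (S.map fun f => -f).map (avg D) := by
      rw [Multiset.map_map, Multiset.map_map]
      refine Multiset.map_congr rfl fun f _ => ?_
      exact (avg_neg D f).symm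
    rw [e]
    exact Gen2.red (Cls.conj h)
  | add hS hT ihS ihT =>
    rw [Multiset.map_add]
    exact Gen2.add ihS ihT
  | cancel w h ih =>
    rw [Multiset.map_add] at ih
    exact Gen2.cancel (-w) ih

theorem mem_R (hc : ∀ g, c * g = g * c) {f : (G → ℚ) → ℤ} (hf : f ∈ R D c κ) :
    ∃ S, Gen2 D c κ S ∧ net S = f := by
  induction hf using AddSubgroup.closure_induction with
  | mem x hx => exact hx
  | zero => exact ⟨0, Gen2.weil gen_zero, net_zero'⟩
  | add x y hx hy ihx ihy =>
    obtain ⟨S, hS, rfl⟩ := ihx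
    obtain ⟨T, hT, rfl⟩ := ihy
    exact ⟨S + T, Gen2.add hS hT, net_add' S T⟩
  | neg x hx ihx =>
    obtain ⟨S, hS, rfl⟩ := ihx
    exact ⟨S.map fun w => -w, alg_gen2_neg hc hS, net_map_neg' S⟩

theorem Cls.mem {S : Multiset (G → ℚ)} (h : Cls c κ S) : net S ∈ R0 c κ :=
  AddSubgroup.subset_closure ⟨S, h, rfl⟩

theorem Gen2.mem {S : Multiset (G → ℚ)} (h : Gen2 D c κ S) : net S ∈ R D c κ :=
  AddSubgroup.subset_closure ⟨S, h, rfl⟩

/-- what is realised in the old sense is realised -/
theorem mem_of_rea {f : (G → ℚ) → ℤ} (h : Rea D c f) : f ∈ R D c κ := by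
  obtain ⟨T, hT, hn⟩ := h
  exact AddSubgroup.subset_closure ⟨T, Gen2.weil hT, funext hn⟩

private theorem alg_pair (w : G → ℚ) : net ({w, -w} : Multiset (G → ℚ)) = 0 := by
  rw [net_eq_sum, Multiset.insert_eq_cons, Multiset.map_cons, Multiset.map_singleton,
    Multiset.sum_cons, Multiset.sum_singleton, sg_neg, add_neg_cancel]

private theorem alg_ne_zero {f : G → ℚ} (hf : IsType c f) : f ≠ 0 := by
  rintro rfl
  rcases hf.2 1 with h | h
  · rw [Pi.zero_apply] at h
    norm_num at h
  · rw [Pi.zero_apply] at h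
    norm_num at h

private theorem alg_cls_aux : ∀ (n : ℕ) (U : Multiset (G → ℚ)), U.card = n →
    (∀ f ∈ U, IsType c f) → U ≠ 0 → net U = 0 → Cls c κ U := by
  classical
  intro n
  induction n using Nat.strong_induction_on with
  | _ n ih =>
    intro U hn hw hU h
    obtain ⟨w, hwU⟩ := Multiset.exists_mem_of_ne_zero hU
    have hw0 : w ≠ 0 := alg_ne_zero (hw w hwU)
    have hle : ({w, -w} : Multiset (G → ℚ)) ≤ U := by
      have hpos : 0 < Multiset.count w U := Multiset.count_pos.2 hwU
      have h1 := congrFun h w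
      unfold net at h1
      rw [Pi.zero_apply] at h1
      have h2 : Multiset.count (-w) U = Multiset.count w U := by omega
      rw [Multiset.le_iff_count]
      intro x
      have hne := neg_ne_self hw0
      simp only [Multiset.insert_eq_cons, Multiset.count_cons, Multiset.count_singleton]
      by_cases hx1 : x = w
      · have hx2 : ¬ x = -w := fun e => hne (e.symm.trans hx1)
        rw [if_neg hx2, if_pos hx1, hx1]
        omega
      · by_cases hx2 : x = -w
        · rw [if_pos hx2, if_neg hx1, hx2]
          omega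
        · rw [if_neg hx2, if_neg hx1]
          omega
    obtain ⟨U', hU'⟩ := Multiset.le_iff_exists_add.1 hle
    by_cases h0 : U' = 0
    · rw [hU', h0, add_zero]
      exact Cls.pair w (hw w hwU)
    · have hc1 : U.card = 2 + U'.card := by
        rw [hU', Multiset.card_add, Multiset.card_pair]
      have h1 : Cls c κ U' := by
        refine ih U'.card (by omega) U' rfl (fun x hx => hw x ?_) h0 ?_
        · rw [hU']
          exact Multiset.mem_add.2 (Or.inr hx)
        · rw [hU', net_add', alg_pair, zero_add] at h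
          exact h
      rw [hU']
      exact Cls.add (Cls.pair w (hw w hwU)) h1

private theorem alg_shift (S T : Multiset (G → ℚ)) (w : G → ℚ) :
    S + (((w ::ₘ T).map fun w => -w) + (w ::ₘ T)) =
      S + ((T.map fun w => -w) + T) + {w, -w} := by
  rw [Multiset.map_cons, Multiset.insert_eq_cons, ← Multiset.singleton_add,
    ← Multiset.singleton_add (a := w) (s := T), ← Multiset.singleton_add (a := w)]
  abel

private theorem alg_cls_cancel (S T : Multiset (G → ℚ)) :
    Cls c κ (S + ((T.map fun w => -w) + T)) → Cls c κ S := by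
  induction T using Multiset.induction with
  | empty =>
    intro h
    rw [Multiset.map_zero, add_zero, add_zero] at h
    exact h
  | cons w T ih =>
    intro h
    apply ih
    refine Cls.cancel w ?_
    rw [← alg_shift]
    exact h

private theorem alg_gen2_cancel (S T : Multiset (G → ℚ)) :
    Gen2 D c κ (S + ((T.map fun w => -w) + T)) → Gen2 D c κ S := by
  induction T using Multiset.induction with
  | empty =>
    intro h
    rw [Multiset.map_zero, add_zero, add_zero] at h
    exact h
  | cons w T ih =>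
    intro h
    apply ih
    refine Gen2.cancel w ?_
    rw [← alg_shift]
    exact h

theorem cls_of_mem (hc : ∀ g, c * g = g * c) {S : Multiset (G → ℚ)} (hS : ∀ f ∈ S, IsType c f)
    (hS0 : S ≠ 0) (hE : Even S.card) (h : net S ∈ R0 c κ) : Cls c κ S := by
  rcases mem_R0 h with h | ⟨T, hT, hn⟩
  · exact alg_cls_aux S.card S rfl hS hS0 h
  · have h1 : Cls c κ (S + T.map fun w => -w) := by
      refine alg_cls_aux _ _ rfl (fun f hf => ?_) ?_ ?_
      · rcases Multiset.mem_add.1 hf with hf | hf
        · exact hS f hf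
        · obtain ⟨x, hx, rfl⟩ := Multiset.mem_map.1 hf
          exact alg_neg (hT.isType hc x hx)
      · intro h0
        exact hS0 (add_eq_zero.1 h0).1
      · rw [net_add', net_map_neg', hn, add_neg_cancel]
    have h2 := Cls.add h1 hT
    rw [add_assoc] at h2
    exact alg_cls_cancel S T h2

private theorem alg_gen2_wt (hc : ∀ g, c * g = g * c) {S : Multiset (G → ℚ)}
    (h : Gen2 D c κ S) : ∀ w ∈ S, IsWeight D c w := by
  induction h with
  | weil h => exact h.isWeight
  | red h =>
    intro v hv
    obtain ⟨f, hf, rfl⟩ := Multiset.mem_map.1 hv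
    exact isWeight_avg hc (h.isType hc f hf)
  | add hS hT ihS ihT =>
    intro v hv
    rcases Multiset.mem_add.1 hv with hv | hv
    · exact ihS v hv
    · exact ihT v hv
  | cancel w h ih => exact fun v hv => ih v (Multiset.mem_add.2 (Or.inl hv))

private theorem alg_gen2_even {S : Multiset (G → ℚ)} (h : Gen2 D c κ S) : Even S.card := by
  induction h with
  | weil h => exact h.even_card
  | red h =>
    rw [Multiset.card_map]
    exact h.even_card
  | add hS hT ihS ihT =>
    rw [Multiset.card_add]
    exact ihS.add ihT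
  | cancel w h ih =>
    rw [Multiset.card_add, Multiset.card_pair] at ih
    exact (Nat.even_add.1 ih).2 ⟨1, rfl⟩

theorem gen2_of_mem (hc : ∀ g, c * g = g * c) {S : Multiset (G → ℚ)}
    (hw : ∀ w ∈ S, IsWeight D c w) (hE : Even S.card) (h : net S ∈ R D c κ) : Gen2 D c κ S := by
  obtain ⟨T, hT, hn⟩ := mem_R hc h
  have h1 : Gen D c (S + T.map fun w => -w) := by
    refine gen_of_net_zero (fun w hw' => ?_) ?_ fun w => ?_
    · rcases Multiset.mem_add.1 hw' with hw' | hw'
      · exact hw w hw'
      · obtain ⟨x, hx, rfl⟩ := Multiset.mem_map.1 hw'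
        exact (alg_gen2_wt hc hT x hx).neg
    · rw [Multiset.card_add, Multiset.card_map]
      exact hE.add (alg_gen2_even hT)
    · rw [net_add, net_map_neg, hn, add_neg_cancel]
  have h2 := Gen2.add (Gen2.weil (κ := κ) h1) hT
  rw [add_assoc] at h2
  exact alg_gen2_cancel S T h2

/-- reduction of a realised multiset of types -/
theorem red_mem (hc : ∀ g, c * g = g * c) {S : Multiset (G → ℚ)} (hS : ∀ f ∈ S, IsType c f)
    (hE : Even S.card) (h : net S ∈ R0 c κ) : net (S.map (avg D)) ∈ R D c κ := by
  by_cases h0 : S = 0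
  · rw [h0, Multiset.map_zero, net_zero']
    exact AddSubgroup.zero_mem _
  · exact (Gen2.red (cls_of_mem hc hS h0 hE h)).mem

end Pool.Agent.AVG
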