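import Pool.Agent.AVG.Defs

/-!
# AVG: the mean value over the left translates by D

Plan. Every statement is a reindexing of the sum over `univ.filter (· ∈ D)` (`Finset.sum_bij'` or `Finset.sum_nbij'` with
`d ↦ d * d₀`, `d ↦ d * d₀⁻¹`), or linearity. The number of elements of `D` is positive (`1 ∈ D`).
-/

set_option linter.unusedSectionVars false
set_option linter.unusedVariables false

namespace Pool.Agent.AVG

open Finset Pool.Agent.AVF

variable {G : Type} [Group G] [Fintype G] {D : Subgroup G} {c : G}

open Classical in
private theorem avg_card_pos (D : Subgroup G) : (0 : ℚ) < ((univ.filter fun d : G => d ∈ D).card : ℚ) := by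
  have h : (univ.filter fun d : G => d ∈ D).Nonempty := ⟨1, by simp [D.one_mem]⟩
  exact_mod_cast h.card_pos

theorem avg_neg (D : Subgroup G) (f : G → ℚ) : avg D (-f) = - avg D f := by
  classical
  funext g
  simp only [avg, Pi.neg_apply, Finset.sum_neg_distrib, neg_div]

theorem avg_add (D : Subgroup G) (f f' : G → ℚ) : avg D (f + f') = avg D f + avg D f' := by
  classical
  funext g
  simp only [avg, Pi.add_apply, Finset.sum_add_distrib, add_div]

/-- the mean value of a type is a weight -/
theorem isWeight_avg (hc : ∀ g, c * g = g * c) {f : G → ℚ} (hf : IsType c f) :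
    IsWeight D c (avg D f) := by
  classical
  refine ⟨?_, ?_, ?_⟩
  · intro d hd g
    unfold avg
    congr 1
    refine Finset.sum_nbij' (fun x => x * d) (fun x => x * d⁻¹) ?_ ?_ ?_ ?_ ?_
    · intro x hx
      simp only [Finset.mem_filter, Finset.mem_univ, true_and] at hx ⊢
      exact D.mul_mem hx hd
    · intro x hx
      simp only [Finset.mem_filter, Finset.mem_univ, true_and] at hx ⊢
      exact D.mul_mem hx (D.inv_mem hd)
    · intro x _
      simp
    · intro x _
      simp
    · intro x _
      rw [mul_assoc]
  · intro g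
    have h : (fun d : G => f (d * (c * g))) = fun d => - f (d * g) := by
      funext d
      rw [← mul_assoc, ← hc d, mul_assoc, hf.1]
    unfold avg
    rw [show (∑ d ∈ univ.filter (fun d : G => d ∈ D), f (d * (c * g))) =
      ∑ d ∈ univ.filter (fun d : G => d ∈ D), - f (d * g) from
      Finset.sum_congr rfl (fun d _ => congrFun h d), Finset.sum_neg_distrib, neg_div]
  · intro g
    unfold avg
    have hp := avg_card_pos D
    rw [abs_div, abs_of_pos hp, div_le_iff₀ hp]
    refine (Finset.abs_sum_le_sum_abs _ _).trans ?_
    refine (Finset.sum_le_card_nsmul _ _ (1 / 2) ?_).trans ?_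
    · intro d _
      rcases hf.2 (d * g) with h | h
      · rw [h]
        norm_num
      · rw [h]
        norm_num
    · rw [nsmul_eq_mul, mul_comm]

theorem avg_of_inv {f : G → ℚ} (h : ∀ d ∈ D, ∀ g, f (d * g) = f g) : avg D f = f := by
  classical
  funext g
  unfold avg
  have hp := avg_card_pos D
  rw [Finset.sum_congr rfl (fun d hd => h d (Finset.mem_filter.1 hd).2 g), Finset.sum_const, nsmul_eq_mul,
    mul_div_cancel_left₀ _ hp.ne']

/-- an element `d` of `D` changes the sign of `f` -/
theorem avg_of_anti {f : G → ℚ} {d : G} (hd : d ∈ D) (h : ∀ g, f (d * g) = - f g) :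
    avg D f = 0 := by
  classical
  funext g
  unfold avg
  have h1 : (∑ x ∈ univ.filter (fun x : G => x ∈ D), f (x * g)) =
      ∑ x ∈ univ.filter (fun x : G => x ∈ D), f ((d * x) * g) := by
    refine Finset.sum_nbij' (fun x => d⁻¹ * x) (fun x => d * x) ?_ ?_ ?_ ?_ ?_
    · intro x hx
      simp only [Finset.mem_filter, Finset.mem_univ, true_and] at hx ⊢
      exact D.mul_mem (D.inv_mem hd) hx
    · intro x hx
      simp only [Finset.mem_filter, Finset.mem_univ, true_and] at hx ⊢
      exact D.mul_mem hd hx
    · intro x _
      simp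
    · intro x _
      simp
    · intro x _
      simp
  have h2 : (∑ x ∈ univ.filter (fun x : G => x ∈ D), f ((d * x) * g)) =
      - ∑ x ∈ univ.filter (fun x : G => x ∈ D), f (x * g) := by
    rw [← Finset.sum_neg_distrib]
    refine Finset.sum_congr rfl (fun x _ => ?_)
    rw [mul_assoc, h]
  have h3 : (∑ x ∈ univ.filter (fun x : G => x ∈ D), f (x * g)) = 0 := by
    have := h1.trans h2
    linarith
  rw [h3, zero_div]
  rfl

end Pool.Agent.AVG
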