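import Pool.Agent.AVG.Defs

/-!
# AVG: the homomorphism to the dihedral group given by an orbit of four weights

The orbit of `a` is `p x`, `x : ZMod 4`, with `p 0 = a`, `p 1 = b`, `p 2 = -a`, `p 3 = -b`
(`AVF.orb_four`). `DihedralGroup 4` acts on `ZMod 4` by `r i • x = x + i`, `sr i • x = - x - i`; for every
`g` there is exactly one `γ` with `tr g (p x) = p (γ • x)` for all `x`, and `φ g = γ`. The image contains a
rotation by `r 1`: otherwise `G` maps `a + b` to `±(a + b)`, against `AVF.no_line`.
-/

set_option linter.unusedSectionVars false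
set_option linter.unusedVariables false

namespace Pool.Agent.AVG

open Finset Pool.Agent.AVF DihedralGroup

variable {G : Type} [Group G] [Fintype G] {D : Subgroup G} {c : G}

theorem core_normal (w : G → ℚ) : (core w).Normal := by
  refine ⟨fun n hn g => ?_⟩
  intro x hx
  have h1 : tr g⁻¹ x ∈ orb ⊤ w := tr_mem_orb (Subgroup.mem_top _) hx
  have h2 : tr n (tr g⁻¹ x) = tr g⁻¹ x := hn _ h1
  rw [tr_mul, tr_mul, h2, tr_tr_inv]

/-- the four elements of the orbit -/
private def phi_p (a b : G → ℚ) (x : ZMod 4) : G → ℚ :=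
  if x = 0 then a else if x = 1 then b else if x = 2 then -a else -b

/-- the action of the dihedral group on `ZMod 4` -/
private def phi_act : DihedralGroup 4 → ZMod 4 → ZMod 4
  | r i, x => x + i
  | sr i, x => -x - i

private theorem phi_act_mul (γ δ : DihedralGroup 4) (x : ZMod 4) :
    phi_act (γ * δ) x = phi_act γ (phi_act δ x) := by
  rcases γ with i | i <;> rcases δ with j | j
  · rw [r_mul_r]; simp only [phi_act]; ring
  · rw [r_mul_sr]; simp only [phi_act]; ring
  · rw [sr_mul_r]; simp only [phi_act]; ring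
  · rw [sr_mul_sr]; simp only [phi_act]; ring

private theorem phi_act_inj {γ δ : DihedralGroup 4} (h : ∀ x, phi_act γ x = phi_act δ x) :
    γ = δ := by
  rcases γ with i | i <;> rcases δ with j | j
  · have h0 := h 0
    simp only [phi_act, zero_add] at h0
    rw [h0]
  · exfalso
    have h0 := h 0
    have h1 := h 1
    simp only [phi_act] at h0 h1
    revert h0 h1
    revert i j
    decide
  · exfalso
    have h0 := h 0
    have h1 := h 1
    simp only [phi_act] at h0 h1
    revert h0 h1
    revert i j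
    decide
  · have h0 := h 0
    simp only [phi_act, neg_zero, zero_sub, neg_inj] at h0
    rw [h0]

private theorem phi_p_two (a b : G → ℚ) (x : ZMod 4) : phi_p a b (x + 2) = - phi_p a b x := by
  have hx : x = 0 ∨ x = 1 ∨ x = 2 ∨ x = 3 := by
    revert x
    decide
  have e1 : (0 : ZMod 4) + 2 = 2 := by decide
  have e2 : (1 : ZMod 4) + 2 = 3 := by decide
  have e3 : (2 : ZMod 4) + 2 = 0 := by decide
  have e4 : (3 : ZMod 4) + 2 = 1 := by decide
  have n1 : (1 : ZMod 4) ≠ 0 := by decide
  have n2 : (2 : ZMod 4) ≠ 0 := by decide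
  have n3 : (3 : ZMod 4) ≠ 0 := by decide
  have n4 : (2 : ZMod 4) ≠ 1 := by decide
  have n5 : (3 : ZMod 4) ≠ 1 := by decide
  have n6 : (3 : ZMod 4) ≠ 2 := by decide
  rcases hx with rfl | rfl | rfl | rfl
  · rw [e1]; simp [phi_p, n2, n4]
  · rw [e2]; simp [phi_p, n1, n3, n5, n6]
  · rw [e3]; simp [phi_p, n2, n4]
  · rw [e4]; simp [phi_p, n1, n3, n5, n6]

private theorem phi_p_zero (a b : G → ℚ) : phi_p a b 0 = a := by simp [phi_p]

private theorem phi_p_one (a b : G → ℚ) : phi_p a b 1 = b := by
  have n1 : (1 : ZMod 4) ≠ 0 := by decide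
  simp [phi_p, n1]

private theorem phi_p_inj {a b : G → ℚ} (h1 : b ≠ a) (h2 : b ≠ -a) (ha : a ≠ 0) (hb : b ≠ 0)
    {x y : ZMod 4} (h : phi_p a b x = phi_p a b y) : x = y := by
  have hx : ∀ z : ZMod 4, z = 0 ∨ z = 1 ∨ z = 2 ∨ z = 3 := by
    decide
  have p0 : phi_p a b 0 = a := phi_p_zero a b
  have p1 : phi_p a b 1 = b := phi_p_one a b
  have p2 : phi_p a b 2 = -a := by
    have := phi_p_two a b 0
    rw [zero_add, p0] at this
    exact this
  have p3 : phi_p a b 3 = -b := by
    have := phi_p_two a b 1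
    rw [show (1 : ZMod 4) + 2 = 3 by decide, p1] at this
    exact this
  have ha' := neg_ne_self ha
  have hb' := neg_ne_self hb
  rcases hx x with rfl | rfl | rfl | rfl <;> rcases hx y with rfl | rfl | rfl | rfl <;>
    simp only [p0, p1, p2, p3] at h <;> first | rfl | skip
  · exact absurd h.symm h1
  · exact absurd h.symm ha'
  · exact absurd (by rw [h, neg_neg]) h2
  · exact absurd h h1
  · exact absurd h h2
  · exact absurd h.symm hb'
  · exact absurd h ha'
  · exact absurd h.symm h2
  · exact absurd (neg_injective h).symm h1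
  · exact absurd (by rw [← h, neg_neg]) h2
  · exact absurd h hb'
  · exact absurd (neg_injective h) h1

private theorem phi_z1 : ∀ k m : ZMod 4, m ≠ k → m ≠ k + 2 → m = k + 1 ∨ m = k + 3 := by
  decide

private theorem phi_z2 : ∀ k : ZMod 4, k + 1 + 2 = 3 + k := by
  decide

private theorem phi_z3 : ∀ k : ZMod 4, k + 3 = -1 - -k := by
  decide

private theorem phi_z4 : ∀ k : ZMod 4, k + 2 = -2 - -k := by
  decide

private theorem phi_z5 : ∀ k : ZMod 4, k + 3 + 2 = -3 - -k := by
  decide

private theorem phi_ex {a b : G → ℚ} (h1 : b ≠ a) (h2 : b ≠ -a)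
    (ho : ∀ g : G, ∀ x, ∃ y, tr g (phi_p a b x) = phi_p a b y)
    (ha : a ≠ 0) (hb : b ≠ 0) (g : G) :
    ∃ γ : DihedralGroup 4, ∀ x, tr g (phi_p a b x) = phi_p a b (phi_act γ x) := by
  obtain ⟨k, hk⟩ := ho g 0
  obtain ⟨m, hm⟩ := ho g 1
  have hk2 : tr g (phi_p a b 2) = phi_p a b (k + 2) := by
    have := phi_p_two a b 0
    rw [zero_add] at this
    rw [this, tr_neg, hk, phi_p_two]
  have hm2 : tr g (phi_p a b 3) = phi_p a b (m + 2) := by
    have := phi_p_two a b 1
    rw [show (1 : ZMod 4) + 2 = 3 by decide] at this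
    rw [this, tr_neg, hm, phi_p_two]
  have n1 : m ≠ k := by
    intro e
    rw [e, ← hk] at hm
    have := tr_inj g hm
    rw [phi_p_zero, phi_p_one] at this
    exact h1 this
  have n2 : m ≠ k + 2 := by
    intro e
    rw [e, ← hk2] at hm
    have := phi_p_inj h1 h2 ha hb (tr_inj g hm)
    exact absurd this (by decide)
  have n3 : m = k + 1 ∨ m = k + 3 := phi_z1 k m n1 n2
  have hx : ∀ z : ZMod 4, z = 0 ∨ z = 1 ∨ z = 2 ∨ z = 3 := by
    decide
  rcases n3 with rfl | rfl
  · refine ⟨r k, fun x => ?_⟩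
    rcases hx x with rfl | rfl | rfl | rfl
    · rw [hk]; simp only [phi_act]; rw [zero_add]
    · rw [hm]; simp only [phi_act]; rw [add_comm]
    · rw [hk2]; simp only [phi_act]; rw [add_comm]
    · rw [hm2]; simp only [phi_act]
      rw [phi_z2 k]
  · refine ⟨sr (-k), fun x => ?_⟩
    rcases hx x with rfl | rfl | rfl | rfl
    · rw [hk]; simp only [phi_act]; congr 1; ring
    · rw [hm]; simp only [phi_act]
      rw [phi_z3 k]
    · rw [hk2]; simp only [phi_act]
      rw [phi_z4 k]
    · rw [hm2]; simp only [phi_act]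
      rw [phi_z5 k]

theorem exists_phi (hc : ∀ g, c * g = g * c) {a : G → ℚ} (ha : IsWeight D c a) (ha0 : a ≠ 0)
    (h4 : (orb ⊤ a).card = 4) (he : idx D a = 1) :
    ∃ φ : G →* DihedralGroup 4, (∀ g, φ g = 1 ↔ g ∈ core a) ∧ φ c = r 2 ∧
      (Function.Surjective φ ∨ ((∀ g, ∃ i, φ g = r i) ∧ ∃ g, φ g = r 1)) := by
  obtain ⟨b, hb, hba, hbna, ho⟩ := orb_four hc ha ha0 h4
  have hb0 : b ≠ 0 := orb_ne_zero ha0 hb
  have hx : ∀ z : ZMod 4, z = 0 ∨ z = 1 ∨ z = 2 ∨ z = 3 := by
    decide
  have p0 : phi_p a b 0 = a := phi_p_zero a b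
  have p1 : phi_p a b 1 = b := phi_p_one a b
  have p2 : phi_p a b 2 = -a := by
    have := phi_p_two a b 0
    rw [zero_add, p0] at this
    exact this
  have p3 : phi_p a b 3 = -b := by
    have := phi_p_two a b 1
    rw [show (1 : ZMod 4) + 2 = 3 by decide, p1] at this
    exact this
  have hp : ∀ x, phi_p a b x ∈ orb ⊤ a := by
    intro x
    rcases hx x with rfl | rfl | rfl | rfl
    · rw [p0]; exact (ho _).2 (Or.inl rfl)
    · rw [p1]; exact (ho _).2 (Or.inr (Or.inr (Or.inl rfl)))
    · rw [p2]; exact (ho _).2 (Or.inr (Or.inl rfl))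
    · rw [p3]; exact (ho _).2 (Or.inr (Or.inr (Or.inr rfl)))
  have hq : ∀ v ∈ orb ⊤ a, ∃ x, v = phi_p a b x := by
    intro v hv
    rcases (ho v).1 hv with h | h | h | h
    · exact ⟨0, by rw [p0, h]⟩
    · exact ⟨2, by rw [p2, h]⟩
    · exact ⟨1, by rw [p1, h]⟩
    · exact ⟨3, by rw [p3, h]⟩
  have hinj : ∀ {x y : ZMod 4}, phi_p a b x = phi_p a b y → x = y :=
    fun h => phi_p_inj hba hbna ha0 hb0 h
  have hex : ∀ g : G, ∃ γ : DihedralGroup 4,
      ∀ x, tr g (phi_p a b x) = phi_p a b (phi_act γ x) := by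
    refine phi_ex hba hbna (fun g x => ?_) ha0 hb0
    exact hq _ (tr_mem_orb (Subgroup.mem_top g) (hp x))
  choose f hf using hex
  have huniq : ∀ (g : G) (γ : DihedralGroup 4),
      (∀ x, tr g (phi_p a b x) = phi_p a b (phi_act γ x)) → f g = γ := by
    intro g γ h
    refine phi_act_inj fun x => hinj ?_
    rw [← hf, h]
  let φ : G →* DihedralGroup 4 := MonoidHom.mk' f fun g h => by
    refine huniq _ _ fun x => ?_
    rw [tr_mul, hf h, hf g, phi_act_mul]
  have hφ : ∀ g, φ g = f g := fun g => rfl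
  have hcore : ∀ g, φ g = 1 ↔ g ∈ core a := by
    intro g
    constructor
    · intro h v hv
      obtain ⟨x, rfl⟩ := hq v hv
      rw [hf, ← hφ, h]
      show phi_p a b (phi_act (r 0) x) = _
      simp only [phi_act, add_zero]
    · intro h
      rw [hφ]
      refine huniq _ _ fun x => ?_
      rw [h _ (hp x)]
      show _ = phi_p a b (phi_act (r 0) x)
      simp only [phi_act, add_zero]
  have hcc : φ c = r 2 := by
    rw [hφ]
    refine huniq _ _ fun x => ?_
    have hw : IsWeight D c (phi_p a b x) := by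
      obtain ⟨h, hh⟩ := mem_orb_top.1 (hp x)
      rw [← hh]
      exact ha.tr h
    rw [hw.tr_c hc]
    simp only [phi_act]
    rw [phi_p_two]
  refine ⟨φ, hcore, hcc, ?_⟩
  by_cases h1 : ∃ g, φ g = r 1
  · obtain ⟨g1, hg1⟩ := h1
    by_cases h2 : ∃ g i, φ g = sr i
    · left
      obtain ⟨g, i, hgi⟩ := h2
      have hr : ∀ k : ZMod 4, ∃ h, φ h = r k := by
        intro k
        rcases hx k with rfl | rfl | rfl | rfl
        · exact ⟨1, by rw [map_one]; rfl⟩
        · exact ⟨g1, hg1⟩
        · exact ⟨g1 * g1, by rw [map_mul, hg1, r_mul_r]; rfl⟩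
        · exact ⟨g1 * g1 * g1, by rw [map_mul, map_mul, hg1, r_mul_r, r_mul_r]; rfl⟩
      intro γ
      rcases γ with k | k
      · exact hr k
      · obtain ⟨h, hh⟩ := hr (k - i)
        refine ⟨g * h, ?_⟩
        rw [map_mul, hgi, hh, sr_mul_r]
        congr 1
        ring
    · right
      refine ⟨fun g => ?_, g1, hg1⟩
      rcases hg : φ g with i | i
      · exact ⟨i, rfl⟩
      · exact absurd ⟨g, i, hg⟩ h2
  · exfalso
    have h3 : ∀ g, φ g ≠ r 3 := by
      intro g hg
      refine h1 ⟨c * g, ?_⟩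
      rw [map_mul, hcc, hg, r_mul_r]
      rfl
    obtain ⟨g0, hg0⟩ := mem_orb_top.1 hb
    have hg0' : φ g0 = sr 3 := by
      have h5 := hf g0 0
      rw [p0, hg0, ← p1] at h5
      have h6 := hinj h5
      rw [← hφ] at h6
      rcases hg : φ g0 with i | i
      · exfalso
        rw [hg] at h6
        simp only [phi_act, zero_add] at h6
        rw [← h6] at hg
        exact h1 ⟨g0, hg⟩
      · rw [hg] at h6
        simp only [phi_act, neg_zero, zero_sub] at h6
        congr 1
        revert h6
        clear hg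
        revert i
        decide
    have hall : ∀ g, φ g = r 0 ∨ φ g = r 2 ∨ φ g = sr 1 ∨ φ g = sr 3 := by
      intro g
      rcases hg : φ g with i | i
      · rcases hx i with rfl | rfl | rfl | rfl
        · left; rfl
        · exact absurd ⟨g, hg⟩ h1
        · right; left; rfl
        · exact absurd hg (h3 g)
      · have h5 : φ (g * g0) = r (3 - i) := by rw [map_mul, hg, hg0', sr_mul_sr]
        rcases hx i with rfl | rfl | rfl | rfl
        · exact absurd (h5.trans (by rfl)) (h3 _)
        · right; right; left; rfl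
        · exact absurd ⟨g * g0, h5.trans (by rfl)⟩ h1
        · right; right; right; rfl
    have hab : a + b = 0 := by
      refine no_line hc ha ha0 h4 he ?_ fun g => ?_
      · refine Submodule.add_mem _ (Submodule.subset_span ?_) (Submodule.subset_span ?_)
        · exact Finset.mem_coe.2 (self_mem_orb ⊤ a)
        · exact Finset.mem_coe.2 hb
      · have ea := hf g 0
        have eb := hf g 1
        rw [← hφ] at ea eb
        rw [p0] at ea
        rw [p1] at eb
        rw [tr_add, ea, eb]
        rcases hall g with h | h | h | h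
        · left
          rw [h]
          simp only [phi_act, add_zero]
          rw [p0, p1]
        · right
          rw [h]
          simp only [phi_act]
          rw [zero_add, show (1 : ZMod 4) + 2 = 3 by decide, p2, p3, neg_add]
        · right
          rw [h]
          simp only [phi_act]
          rw [show (-0 - 1 : ZMod 4) = 3 by decide, show (-1 - 1 : ZMod 4) = 2 by decide, p2, p3]
          abel
        · left
          rw [h]
          simp only [phi_act]
          rw [show (-0 - 3 : ZMod 4) = 1 by decide, show (-1 - 3 : ZMod 4) = 0 by decide, p0, p1]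
          abel
    exact hbna (eq_neg_of_add_eq_zero_right hab)

end Pool.Agent.AVG
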