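import Pool.Agent.AVG.DihC
import Pool.Agent.AVG.Phi
import Pool.Agent.AVG.Avg

/-!
# AVG: the class of one core, D acting trivially

`val_A`: `w` is fixed by the normal subgroup `core a`, which contains `D`, so `orb D (tr g w) = {tr g w}` and `idx D w = 1` gives
`w g = ±1/2`. `class_A`, dihedral case: `w = F ∘ φ` with `F = w ∘ s`, `s` a section of `φ`; `phi_red`.
Cyclic case: with `φ g₁ = r 1`, `b = tr g₁ a`, every `w` in `S` is `±a` or `±b`, and `AVF.indep`.
-/

set_option linter.unusedSectionVars false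
set_option linter.unusedVariables false

namespace Pool.Agent.AVG

open Finset Pool.Agent.AVF DihedralGroup

variable {G : Type} [Group G] [Fintype G] {D : Subgroup G} {c : G} {κ : G →* ℤˣ}

theorem val_A {a : G → ℚ} (hD : D ≤ core a) {w : G → ℚ} (hw : IsWeight D c w)
    (he : idx D w = 1) (hf : ∀ g ∈ core a, tr g w = w) (g : G) : w g = 1 / 2 ∨ w g = -(1 / 2) := by
  have h1 : orb D (tr g w) = {tr g w} := by
    ext x
    rw [mem_orb, Finset.mem_singleton]
    constructor
    · rintro ⟨d, hd, rfl⟩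
      have h2 : g⁻¹ * d * g ∈ core a := by
        have h3 := (core_normal a).conj_mem d (hD hd) g⁻¹
        rwa [inv_inv] at h3
      have h4 : d * g = g * (g⁻¹ * d * g) := by group
      rw [← tr_mul, h4, tr_mul, hf _ h2]
    · rintro rfl
      exact ⟨1, D.one_mem, tr_one _⟩
  obtain ⟨z, hz⟩ := idx_int D w g
  rw [he, h1, Finset.card_singleton] at hz
  have h5 : w g = (z : ℚ) - 1 / 2 := by
    push_cast at hz
    linarith
  have h6 := abs_le.1 (hw.2.2 g)
  rw [h5] at h6
  have h7 : (-1 : ℤ) < z := by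
    have : (-1 : ℚ) < z := by linarith
    exact_mod_cast this
  have h8 : z < 2 := by
    have : (z : ℚ) < 2 := by linarith
    exact_mod_cast this
  rcases (by omega : z = 0 ∨ z = 1) with h | h
  · right
    rw [h5, h]
    norm_num
  · left
    rw [h5, h]
    norm_num

/-- a function fixed by the core is constant on the fibres -/
private theorem cla_fib {a : G → ℚ} {φ : G →* DihedralGroup 4} (hφ : ∀ g, φ g = 1 ↔ g ∈ core a) {w : G → ℚ}
    (hf : ∀ g ∈ core a, tr g w = w) {g h : G} (e : φ g = φ h) : w g = w h := by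
  have h1 : h⁻¹ * g ∈ core a := by
    rw [← hφ, map_mul, map_inv, e, inv_mul_cancel]
  have h2 := congrFun (hf _ h1) h
  rw [tr_apply, mul_inv_cancel_left] at h2
  exact h2

/-- the additive map given by composition -/
private def cla_hom {H : Type} (s : H → G) : (G → ℚ) →+ (H → ℚ) where
  toFun w := w ∘ s
  map_zero' := rfl
  map_add' _ _ := rfl

private theorem cla_net_neg (a : G → ℚ) : net ({-a} : Multiset (G → ℚ)) = - sg a := by
  funext x
  have h := net_map_neg ({a} : Multiset (G → ℚ)) x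
  rw [Multiset.map_singleton] at h
  exact h

private theorem cla_cons (w : G → ℚ) (S : Multiset (G → ℚ)) : net (w ::ₘ S) = net {w} + net S := by
  funext x
  rw [← Multiset.singleton_add, net_add]
  rfl

private theorem cla_net (a b : G → ℚ) (S : Multiset (G → ℚ)) (h : ∀ w ∈ S, w = a ∨ w = -a ∨ w = b ∨ w = -b) :
    ∃ α β : ℤ, net S = α • sg a + β • sg b ∧ S.sum = (α : ℚ) • a + (β : ℚ) • b := by
  induction S using Multiset.induction_on with
  | empty =>
    refine ⟨0, 0, ?_, ?_⟩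
    · funext x
      simp [net]
    · simp
  | cons w S ih =>
    obtain ⟨α, β, h1, h2⟩ := ih fun x hx => h x (Multiset.mem_cons_of_mem hx)
    rw [cla_cons, Multiset.sum_cons, h1, h2]
    rcases h w (Multiset.mem_cons_self w S) with e | e | e | e
    · refine ⟨α + 1, β, ?_, ?_⟩
      · rw [e, add_smul, one_smul]
        change sg a + _ = _
        abel
      · rw [e]
        push_cast
        rw [add_smul, one_smul]
        abel
    · refine ⟨α - 1, β, ?_, ?_⟩
      · rw [e, cla_net_neg, sub_smul, one_smul]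
        abel
      · rw [e]
        push_cast
        rw [sub_smul, one_smul]
        abel
    · refine ⟨α, β + 1, ?_, ?_⟩
      · rw [e, add_smul, one_smul]
        change sg b + _ = _
        abel
      · rw [e]
        push_cast
        rw [add_smul, one_smul]
        abel
    · refine ⟨α, β - 1, ?_, ?_⟩
      · rw [e, cla_net_neg, sub_smul, one_smul]
        abel
      · rw [e]
        push_cast
        rw [sub_smul, one_smul]
        abel

private theorem cla_dih (hc : ∀ g, c * g = g * c) (hκ : κ c = -1) {a : G → ℚ} (hD : D ≤ core a)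
    {φ : G →* DihedralGroup 4} (hφ : ∀ g, φ g = 1 ↔ g ∈ core a) (hφc : φ c = r 2) (hs : Function.Surjective φ)
    {S : Multiset (G → ℚ)} (hS : ∀ w ∈ S, IsWeight D c w ∧ idx D w = 1 ∧ ∀ g ∈ core a, tr g w = w)
    (h0 : S.sum = 0) : net S ∈ R D c κ := by
  obtain ⟨s, hs'⟩ : ∃ s : DihedralGroup 4 → G, ∀ γ, φ (s γ) = γ := ⟨fun γ => (hs γ).choose, fun γ => (hs γ).choose_spec⟩
  have h1 : ∀ F ∈ S.map (cla_hom s), IsType (r 2) F := by
    intro F hF
    obtain ⟨w, hw, rfl⟩ := Multiset.mem_map.1 hF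
    obtain ⟨hw1, hw2, hw3⟩ := hS w hw
    refine ⟨fun γ => ?_, fun γ => val_A hD hw1 hw2 hw3 (s γ)⟩
    change w (s (r 2 * γ)) = - w (s γ)
    rw [← hw1.2.1 (s γ)]
    refine cla_fib hφ hw3 ?_
    rw [hs', map_mul, hφc, hs']
  have h2 : (S.map (cla_hom s)).sum = 0 := by
    rw [← map_multiset_sum, h0, map_zero]
  have h3 := phi_red (D := D) hc hκ φ hs hφc h1 h2
  have h4 : (S.map (cla_hom s)).map (fun F => avg D (F ∘ φ)) = S := by
    rw [Multiset.map_map]
    have h5 : S.map ((fun F => avg D (F ∘ φ)) ∘ (cla_hom s)) = S.map fun w => w := by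
      refine Multiset.map_congr rfl fun w hw => ?_
      obtain ⟨hw1, hw2, hw3⟩ := hS w hw
      have h6 : (cla_hom s w) ∘ φ = w := by
        funext g
        change w (s (φ g)) = w g
        exact cla_fib hφ hw3 (hs' (φ g))
      change avg D ((cla_hom s w) ∘ φ) = w
      rw [h6]
      exact avg_of_inv hw1.1
    rw [h5, Multiset.map_id']
  rw [h4] at h3
  exact h3

private theorem cla_zm : ∀ i : ZMod 4, i = 0 ∨ i = 1 ∨ i = 2 ∨ i = 3 := by decide

private theorem cla_cyc (hc : ∀ g, c * g = g * c) {a : G → ℚ} (ha : IsWeight D c a) (ha0 : a ≠ 0)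
    (he : idx D a = 1) (hD : D ≤ core a)
    {φ : G →* DihedralGroup 4} (hφ : ∀ g, φ g = 1 ↔ g ∈ core a) (hφc : φ c = r 2) (hr : ∀ g, ∃ i, φ g = r i)
    {g1 : G} (hg1 : φ g1 = r 1)
    {S : Multiset (G → ℚ)} (hS : ∀ w ∈ S, IsWeight D c w ∧ idx D w = 1 ∧ ∀ g ∈ core a, tr g w = w)
    (h0 : S.sum = 0) : net S ∈ R D c κ := by
  have hcore : ∀ g ∈ core a, tr g a = a := fun g hg => hg a (self_mem_orb ⊤ a)
  have hcom : ∀ g h, φ (g * h) = φ (h * g) := by
    intro g h
    obtain ⟨i, hi⟩ := hr g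
    obtain ⟨j, hj⟩ := hr h
    rw [map_mul, map_mul, hi, hj, r_mul_r, r_mul_r, add_comm]
  have hfix : ∀ g, tr g a = a → φ g = 1 := by
    intro g hg
    rw [hφ]
    intro x hx
    obtain ⟨h, -, rfl⟩ := mem_orb.1 hx
    have h1 : (h * g)⁻¹ * (g * h) ∈ core a := by
      rw [← hφ, map_mul, map_inv, hcom g h, inv_mul_cancel]
    have h2 : g * h = (h * g) * ((h * g)⁻¹ * (g * h)) := by group
    rw [← tr_mul, h2, tr_mul, hcore _ h1, tr_mul, hg]
  have hb1 : tr g1 a ≠ a := by
    intro h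
    have h1 := hfix g1 h
    rw [hg1] at h1
    exact absurd h1 (by decide)
  have hb2 : tr g1 a ≠ -a := by
    intro h
    rw [← ha.tr_c hc] at h
    have h1 : tr (c⁻¹ * g1) a = a := by rw [tr_mul, h, tr_inv_tr]
    have h2 := hfix _ h1
    rw [map_mul, map_inv, inv_mul_eq_one, hφc, hg1] at h2
    exact absurd h2 (by decide)
  have hdet : ∀ w w' : G → ℚ, IsWeight D c w → IsWeight D c w' → (∀ g ∈ core a, tr g w = w) →
      (∀ g ∈ core a, tr g w' = w') → w 1 = w' 1 → w g1 = w' g1 → w = w' := by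
    intro w w' hw hw' hf hf' e1 e2
    funext g
    obtain ⟨i, hi⟩ := hr g
    have hi4 := cla_zm i
    rcases hi4 with rfl | rfl | rfl | rfl
    · have h1 : φ g = φ 1 := by rw [hi, map_one]; rfl
      rw [cla_fib hφ hf h1, cla_fib hφ hf' h1, e1]
    · have h1 : φ g = φ g1 := by rw [hi, hg1]
      rw [cla_fib hφ hf h1, cla_fib hφ hf' h1, e2]
    · have h1 : φ g = φ (c * 1) := by rw [hi, mul_one, hφc]
      rw [cla_fib hφ hf h1, cla_fib hφ hf' h1, hw.2.1, hw'.2.1, e1]
    · have h1 : φ g = φ (c * g1) := by rw [hi, map_mul, hφc, hg1]; decide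
      rw [cla_fib hφ hf h1, cla_fib hφ hf' h1, hw.2.1, hw'.2.1, e2]
  have hbc : ∀ g ∈ core a, tr g (tr g1 a) = tr g1 a := fun g hg =>
    hg _ (mem_orb.2 ⟨g1, Subgroup.mem_top _, rfl⟩)
  have hb : IsWeight D c (tr g1 a) := ha.tr g1
  have hbb1 : tr g1 a 1 = a g1 := by rw [tr_apply, one_mul]
  have hbb2 : tr g1 a g1 = - a 1 := by
    rw [tr_apply, ← ha.2.1 1]
    refine cla_fib hφ hcore ?_
    rw [map_mul, hg1, mul_one, hφc]
    decide
  have hna : ∀ g ∈ core a, tr g (-a) = -a := fun g hg => by rw [tr_neg, hcore g hg]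
  have hnb : ∀ g ∈ core a, tr g (-(tr g1 a)) = -(tr g1 a) := fun g hg => by rw [tr_neg, hbc g hg]
  have ha1 := val_A hD ha he hcore 1
  have ha2 := val_A hD ha he hcore g1
  have h4 : ∀ w ∈ S, w = a ∨ w = -a ∨ w = tr g1 a ∨ w = -(tr g1 a) := by
    intro w hw
    obtain ⟨hw1, hw2, hw3⟩ := hS w hw
    have hwa := val_A hD hw1 hw2 hw3 1
    have hwb := val_A hD hw1 hw2 hw3 g1
    have k1 : w 1 = a 1 → w g1 = a g1 → w = a := hdet w a hw1 ha hw3 hcore
    have k2 : w 1 = - a 1 → w g1 = - a g1 → w = -a := hdet w (-a) hw1 ha.neg hw3 hna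
    have k3 : w 1 = a g1 → w g1 = - a 1 → w = tr g1 a := fun e1 e2 =>
      hdet w (tr g1 a) hw1 hb hw3 hbc (by rw [e1, hbb1]) (by rw [e2, hbb2])
    have k4 : w 1 = - a g1 → w g1 = a 1 → w = -(tr g1 a) := fun e1 e2 =>
      hdet w (-(tr g1 a)) hw1 hb.neg hw3 hnb (by rw [Pi.neg_apply, e1, hbb1])
        (by rw [Pi.neg_apply, e2, hbb2, neg_neg])
    rcases ha1 with p1 | p1 <;> rcases ha2 with p2 | p2 <;> rcases hwa with p3 | p3 <;>
      rcases hwb with p4 | p4 <;> rw [p1, p2, p3, p4] at k1 k2 k3 k4 <;>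
      first
        | (refine Or.inl (k1 ?_ ?_) <;> norm_num; done)
        | (refine Or.inr (Or.inl (k2 ?_ ?_)) <;> norm_num; done)
        | (refine Or.inr (Or.inr (Or.inl (k3 ?_ ?_))) <;> norm_num; done)
        | (refine Or.inr (Or.inr (Or.inr (k4 ?_ ?_))) <;> norm_num; done)
  obtain ⟨α, β, h5, h6⟩ := cla_net a (tr g1 a) S h4
  rw [h0] at h6
  obtain ⟨h7, h8⟩ := indep ha0 (ip_tr g1 a a).symm hb1 hb2 h6.symm
  have h9 : α = 0 := by exact_mod_cast h7
  have h10 : β = 0 := by exact_mod_cast h8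
  rw [h5, h9, h10, zero_smul, zero_smul, add_zero]
  exact (R D c κ).zero_mem

theorem class_A (hc : ∀ g, c * g = g * c) (hκ : κ c = -1) {a : G → ℚ} (ha : IsWeight D c a)
    (h4 : (orb ⊤ a).card = 4) (he : idx D a = 1) (hD : D ≤ core a) {S : Multiset (G → ℚ)}
    (hS : ∀ w ∈ S, IsWeight D c w ∧ idx D w = 1 ∧ ∀ g ∈ core a, tr g w = w) (hs : S.sum = 0) :
    net S ∈ R D c κ := by
  have ha0 : a ≠ 0 := by
    rintro rfl
    rw [orb_zero, Finset.card_singleton] at h4
    omega
  obtain ⟨φ, h1, h2, h3⟩ := exists_phi hc ha ha0 h4 he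
  rcases h3 with h3 | ⟨h3, g1, hg1⟩
  · exact cla_dih hc hκ hD h1 h2 h3 hS hs
  · exact cla_cyc hc ha ha0 he hD h1 h2 h3 hg1 hS hs

end Pool.Agent.AVG
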