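import Pool.Agent.AVG.DihC
import Pool.Agent.AVG.Phi
import Pool.Agent.AVG.Avg

/-!
# AVG: the class of one core, D acting non-trivially

Plan. Let `φ` be as in `exists_phi`, `d ∈ D`, `d ∉ core a`, `δ = φ d ≠ 1`. As `a (d' * g) = a g` for `d' ∈ D` and `a ≠ 0` is odd, no `φ d'`,
`d' ∈ D`, is `r 2`, so none is `r 1`, `r 3` (squares): all are `1` or reflections, so `φ` is surjective, and a product of
two different reflections in `φ D` would be a rotation `≠ 1`: `φ D = {1, δ}`, `δ = sr j`.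
Let `E1, E2 : DihedralGroup 4 → ℚ`, `E1 = 1/2` on `{1, δ}`, `-1/2` on `{r 2, r 2 * δ}`, `0` elsewhere, `E2 γ = E1 (γ * r 3)`.
`V = {1, r 2, δ, r 2 * δ}` and `V * r 1` cover the group. `w ∈ S`: `w = F ∘ φ`, `F (δ * γ) = F γ`, `F (r 2 * γ) = - F γ`, so
`F = 2 F(1) E1 + 2 F(r 1) E2`; `orb D (tr g w)` has at most two elements and `idx D w = 1`, so `F` has values `0, ±1/2`. With `e_i = E_i ∘ φ`:
`w = α e1 + β e2`, `α, β ∈ {0, 1, -1}`.
`three`: for `α, β ∈ {1, -1}`: `sg (α e1 + β e2) - sg (α e1) - sg (β e2) ∈ R`: let `θ` be a type with `θ (δ γ) = - θ γ`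
(`θ = 1/2` on `1`, `r 2 * δ`, `r 1`, `r 2 * δ * r 1`), `F1 = α E1` where `E1 ≠ 0` and `θ` elsewhere, `F2 = β E2` where `E2 ≠ 0` and `θ` elsewhere,
`F3 = α E1 + β E2`, so `F1 + F2 = F3 + θ`; `phi_red` for `{F1, F2, -F3, -θ}`; the mean values are `α e1`, `β e2`, `-(α e1 + β e2)`, `0`
(`avg_add`, `avg_of_inv`, `avg_of_anti` with the element `d`).
So `net S` is, modulo `R`, `(∑ α) sg e1 + (∑ β) sg e2` and `∑ α = ∑ β = 0` because `S.sum = 0` (values at `1` and at a `g` with `φ g = r 1`).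
-/

set_option linter.unusedSectionVars false
set_option linter.unusedVariables false

namespace Pool.Agent.AVG

open Finset Pool.Agent.AVF DihedralGroup

variable {G : Type} [Group G] [Fintype G] {D : Subgroup G} {c : G} {κ : G →* ℤˣ}

/-! ### functions on the dihedral group -/

/-- twice `E1` -/
private def clb_e (j : ZMod 4) (γ : DihedralGroup 4) : ℤ :=
  if γ = 1 ∨ γ = sr j then 1 else if γ = r 2 ∨ γ = r 2 * sr j then -1 else 0

/-- twice `θ` on `V` -/
private def clb_t (j : ZMod 4) (γ : DihedralGroup 4) : ℤ :=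
  if γ = 1 ∨ γ = r 2 * sr j then 1 else if γ = r 2 ∨ γ = sr j then -1 else 0

private theorem clb_e_sr : ∀ (j : ZMod 4) (γ : DihedralGroup 4),
    clb_e j (sr j * γ) = clb_e j γ := by
  unfold clb_e; decide

private theorem clb_e_r : ∀ (j : ZMod 4) (γ : DihedralGroup 4),
    clb_e j (r 2 * γ) = - clb_e j γ := by
  unfold clb_e; decide

private theorem clb_t_sr : ∀ (j : ZMod 4) (γ : DihedralGroup 4),
    clb_t j (sr j * γ) = - clb_t j γ := by
  unfold clb_t; decide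

private theorem clb_t_r : ∀ (j : ZMod 4) (γ : DihedralGroup 4),
    clb_t j (r 2 * γ) = - clb_t j γ := by
  unfold clb_t; decide

private theorem clb_cases : ∀ (j : ZMod 4) (γ : DihedralGroup 4),
    (clb_e j γ = 1 ∨ clb_e j γ = -1) ∧ (clb_t j γ = 1 ∨ clb_t j γ = -1) ∧
      clb_e j (γ * r 3) = 0 ∧ clb_t j (γ * r 3) = 0 ∨
    (clb_e j (γ * r 3) = 1 ∨ clb_e j (γ * r 3) = -1) ∧
      (clb_t j (γ * r 3) = 1 ∨ clb_t j (γ * r 3) = -1) ∧
      clb_e j γ = 0 ∧ clb_t j γ = 0 := by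
  unfold clb_e clb_t; decide

private theorem clb_all : ∀ (j : ZMod 4) (γ : DihedralGroup 4),
    (γ = 1 ∧ clb_e j γ = 1 ∧ clb_e j (γ * r 3) = 0) ∨
    (γ = sr j * 1 ∧ clb_e j γ = 1 ∧ clb_e j (γ * r 3) = 0) ∨
    (γ = r 2 * 1 ∧ clb_e j γ = -1 ∧ clb_e j (γ * r 3) = 0) ∨
    (γ = r 2 * (sr j * 1) ∧ clb_e j γ = -1 ∧ clb_e j (γ * r 3) = 0) ∨
    (γ = r 1 ∧ clb_e j γ = 0 ∧ clb_e j (γ * r 3) = 1) ∨
    (γ = sr j * r 1 ∧ clb_e j γ = 0 ∧ clb_e j (γ * r 3) = 1) ∨
    (γ = r 2 * r 1 ∧ clb_e j γ = 0 ∧ clb_e j (γ * r 3) = -1) ∨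
    (γ = r 2 * (sr j * r 1) ∧ clb_e j γ = 0 ∧ clb_e j (γ * r 3) = -1) := by
  unfold clb_e; decide

private theorem clb_F {F : DihedralGroup 4 → ℚ} {j : ZMod 4} (h1 : ∀ γ, F (sr j * γ) = F γ)
    (h2 : ∀ γ, F (r 2 * γ) = - F γ) (γ : DihedralGroup 4) :
    F γ = F 1 * clb_e j γ + F (r 1) * clb_e j (γ * r 3) := by
  rcases clb_all j γ with h | h | h | h | h | h | h | h <;> obtain ⟨h, ha, hb⟩ := h <;>
    rw [ha, hb, h] <;> (try simp only [h1, h2]) <;> push_cast <;> ring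


private theorem clb_r2 : ∀ γ : DihedralGroup 4, γ * γ ≠ r 2 → γ ≠ r 2 →
    γ = 1 ∨ ∃ i, γ = sr i := by
  decide

private theorem clb_srsr : ∀ i j : ZMod 4, (sr i * sr j : DihedralGroup 4) = 1 → i = j := by
  decide

private theorem clb_srr : ∀ i j k : ZMod 4, (sr i * sr j : DihedralGroup 4) = sr k → False := by
  decide

private theorem clb_sr1 : ∀ i : ZMod 4, (sr i : DihedralGroup 4) ≠ 1 := by
  decide

private theorem clb_srn : ∀ i k : ZMod 4, (sr i : DihedralGroup 4) ≠ r k := by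
  decide

/-! ### the images of `c` and `D` -/

private theorem clb_ne {a : G → ℚ} (h4 : (orb ⊤ a).card = 4) : a ≠ 0 := by
  rintro rfl
  rw [orb_zero] at h4
  simp at h4

/-- no element of `D` is in `c * core a` -/
private theorem clb_c (hc : ∀ g, c * g = g * c) {a : G → ℚ} (ha : IsWeight D c a) (ha0 : a ≠ 0)
    {φ : G →* DihedralGroup 4} (h1 : ∀ g, φ g = 1 ↔ g ∈ core a) (h2 : φ c = r 2) {d : G}
    (hd : d ∈ D) : φ d ≠ r 2 := by
  intro h
  have hk : c⁻¹ * d ∈ core a := by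
    rw [← h1, map_mul, map_inv, h2, h, inv_mul_cancel]
  apply ha0
  funext g
  have e1 : a (d * g) = a g := ha.1 d hd g
  have e2 : g⁻¹ * (c⁻¹ * d) * g ∈ core a := by
    rw [← h1, map_mul, map_mul, (h1 _).2 hk, map_inv, mul_one, inv_mul_cancel]
  have e3 : tr (g⁻¹ * (c⁻¹ * d) * g) a = a := e2 a (self_mem_orb ⊤ a)
  have e4 : a (g * (g⁻¹ * (c⁻¹ * d) * g)) = a g := congrFun e3 g
  have e5 : d * g = c * (g * (g⁻¹ * (c⁻¹ * d) * g)) := by group
  rw [e5, ha.2.1, e4] at e1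
  simp only [Pi.zero_apply]
  linarith

/-- the structure of the images of `c` and `D` -/
theorem phi_D (hc : ∀ g, c * g = g * c) {a : G → ℚ} (ha : IsWeight D c a)
    (h4 : (orb ⊤ a).card = 4) (he : idx D a = 1) (hD : ¬ D ≤ core a) :
    ∃ (φ : G →* DihedralGroup 4) (j : ZMod 4), (∀ g, φ g = 1 ↔ g ∈ core a) ∧ φ c = r 2 ∧
      Function.Surjective φ ∧ (∀ d ∈ D, φ d = 1 ∨ φ d = sr j) ∧ ∃ d ∈ D, φ d = sr j := by
  have ha0 := clb_ne h4
  obtain ⟨φ, h1, h2, h3⟩ := exists_phi hc ha ha0 h4 he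
  have hall : ∀ d ∈ D, φ d = 1 ∨ ∃ i, φ d = sr i := by
    intro d hd
    refine clb_r2 (φ d) ?_ (clb_c hc ha ha0 h1 h2 hd)
    rw [← map_mul]
    exact clb_c hc ha ha0 h1 h2 (D.mul_mem hd hd)
  obtain ⟨d, hd, hd'⟩ := SetLike.not_le_iff_exists.1 hD
  have hd1 : φ d ≠ 1 := fun h => hd' ((h1 d).1 h)
  obtain ⟨j, hj⟩ := (hall d hd).resolve_left hd1
  refine ⟨φ, j, h1, h2, ?_, ?_, d, hd, hj⟩
  · rcases h3 with h3 | ⟨h3, _⟩
    · exact h3
    · obtain ⟨i, hi⟩ := h3 d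
      exact absurd (hj.symm.trans hi) (clb_srn j i)
  · intro d' hd'
    rcases hall d' hd' with h | ⟨i, hi⟩
    · exact Or.inl h
    · right
      rcases hall (d' * d) (D.mul_mem hd' hd) with h | ⟨k, hk⟩
      · rw [map_mul, hi, hj] at h
        rw [hi, clb_srsr i j h]
      · rw [map_mul, hi, hj] at hk
        exact (clb_srr i j k hk).elim

/-! ### the function on the dihedral group given by a weight -/

private theorem clb_lift {w : G → ℚ} {K : Subgroup G} (hf : ∀ g ∈ K, tr g w = w)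
    {φ : G →* DihedralGroup 4} (h1 : ∀ g, φ g = 1 ↔ g ∈ K) {g h : G} (e : φ g = φ h) :
    w g = w h := by
  have hk : h⁻¹ * g ∈ K := by rw [← h1, map_mul, map_inv, e, inv_mul_cancel]
  have e3 : w (h * (h⁻¹ * g)) = w h := congrFun (hf _ hk) h
  rwa [mul_inv_cancel_left] at e3

private theorem clb_val {D : Subgroup G} {w : G → ℚ} (hw : ∀ g, |w g| ≤ 1 / 2)
    (he : idx D w = 1) {K : Subgroup G} (hf : ∀ g ∈ K, tr g w = w)
    {φ : G →* DihedralGroup 4} (h1 : ∀ g, φ g = 1 ↔ g ∈ K) {j : ZMod 4}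
    (hD : ∀ d ∈ D, φ d = 1 ∨ φ d = sr j) {d : G} (hd : φ d = sr j) (g : G) :
    w g = 0 ∨ w g = 1 / 2 ∨ w g = -(1 / 2) := by
  classical
  have hsub : orb D (tr g w) ⊆ {tr g w, tr d (tr g w)} := by
    intro x hx
    obtain ⟨d', hd', rfl⟩ := mem_orb.1 hx
    rw [mem_insert, mem_singleton]
    rcases hD d' hd' with h | h
    · left
      funext x
      refine clb_lift hf h1 ?_
      simp [h]
    · right
      funext x
      refine clb_lift hf h1 ?_
      simp [h, hd]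
  have h2 : (orb D (tr g w)).card ≤ 2 := (card_le_card hsub).trans card_le_two
  have h3 := card_orb_pos D (tr g w)
  obtain ⟨z, hz⟩ := idx_int D w g
  rw [he, Nat.cast_one, one_mul] at hz
  have h5 := abs_le.1 (hw g)
  have h6 : (orb D (tr g w)).card = 1 ∨ (orb D (tr g w)).card = 2 := by omega
  rcases h6 with h6 | h6
  · rw [h6, Nat.cast_one, mul_one] at hz
    have l1 : (0 : ℚ) ≤ z := by rw [← hz]; linarith [h5.1]
    have l2 : (z : ℚ) ≤ 1 := by rw [← hz]; linarith [h5.2]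
    have l3 : 0 ≤ z := by exact_mod_cast l1
    have l4 : z ≤ 1 := by exact_mod_cast l2
    have l5 : z = 0 ∨ z = 1 := by omega
    rcases l5 with rfl | rfl
    · right; right; push_cast at hz; linarith
    · right; left; push_cast at hz; linarith
  · rw [h6] at hz
    push_cast at hz
    have l1 : (0 : ℚ) ≤ z := by rw [← hz]; linarith [h5.1]
    have l2 : (z : ℚ) ≤ 2 := by rw [← hz]; linarith [h5.2]
    have l3 : 0 ≤ z := by exact_mod_cast l1
    have l4 : z ≤ 2 := by exact_mod_cast l2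
    have l5 : z = 0 ∨ z = 1 ∨ z = 2 := by omega
    rcases l5 with rfl | rfl | rfl
    · right; right; push_cast at hz; linarith
    · left; push_cast at hz; linarith
    · right; left; push_cast at hz; linarith

/-- the first basic weight -/
private def clb_w1 (φ : G →* DihedralGroup 4) (j : ZMod 4) : G → ℚ :=
  fun g => (clb_e j (φ g) : ℚ) / 2

/-- the second basic weight -/
private def clb_w2 (φ : G →* DihedralGroup 4) (j : ZMod 4) : G → ℚ :=
  fun g => (clb_e j (φ g * r 3) : ℚ) / 2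

private theorem clb_dec (hc : ∀ g, c * g = g * c) {w : G → ℚ} (hw : IsWeight D c w)
    (he : idx D w = 1) {K : Subgroup G} (hf : ∀ g ∈ K, tr g w = w)
    {φ : G →* DihedralGroup 4} (hφ : Function.Surjective φ) (h1 : ∀ g, φ g = 1 ↔ g ∈ K)
    (h2 : φ c = r 2) {j : ZMod 4} (hD : ∀ d ∈ D, φ d = 1 ∨ φ d = sr j) {d : G} (hdD : d ∈ D)
    (hd : φ d = sr j) :
    ∃ α β : ℤ, (α = 0 ∨ α = 1 ∨ α = -1) ∧ (β = 0 ∨ β = 1 ∨ β = -1) ∧
      w = (α : ℚ) • clb_w1 φ j + (β : ℚ) • clb_w2 φ j := by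
  set F : DihedralGroup 4 → ℚ := fun γ => w (Function.surjInv hφ γ) with hF
  have hFw : ∀ g, F (φ g) = w g := fun g =>
    clb_lift hf h1 (Function.surjInv_eq hφ (φ g))
  have f1 : ∀ γ, F (sr j * γ) = F γ := by
    intro γ
    obtain ⟨g, rfl⟩ := hφ γ
    rw [← hd, ← map_mul, hFw, hFw, hw.1 d hdD]
  have f2 : ∀ γ, F (r 2 * γ) = - F γ := by
    intro γ
    obtain ⟨g, rfl⟩ := hφ γ
    rw [← h2, ← map_mul, hFw, hFw, hw.2.1]
  have fv : ∀ γ, ∃ α : ℤ, (α = 0 ∨ α = 1 ∨ α = -1) ∧ F γ = (α : ℚ) / 2 := by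
    intro γ
    rcases clb_val hw.2.2 he hf h1 hD hd (Function.surjInv hφ γ) with h | h | h
    · exact ⟨0, Or.inl rfl, by simp only [hF]; rw [h]; norm_num⟩
    · exact ⟨1, Or.inr (Or.inl rfl), by simp only [hF]; rw [h]; norm_num⟩
    · exact ⟨-1, Or.inr (Or.inr rfl), by simp only [hF]; rw [h]; norm_num⟩
  obtain ⟨α, hα, eα⟩ := fv 1
  obtain ⟨β, hβ, eβ⟩ := fv (r 1)
  refine ⟨α, β, hα, hβ, ?_⟩
  funext g
  rw [← hFw g, clb_F f1 f2 (φ g), eα, eβ]
  simp only [Pi.add_apply, Pi.smul_apply, smul_eq_mul, clb_w1, clb_w2]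
  ring

/-! ### the relation -/

private theorem clb_three (hc : ∀ g, c * g = g * c) (hκ : κ c = -1)
    {φ : G →* DihedralGroup 4} (hφ : Function.Surjective φ)
    (h2 : φ c = r 2) {j : ZMod 4} (hD : ∀ d ∈ D, φ d = 1 ∨ φ d = sr j) {d : G} (hdD : d ∈ D)
    (hd : φ d = sr j) {α β : ℤ} (hα : α = 1 ∨ α = -1) (hβ : β = 1 ∨ β = -1) :
    sg ((α : ℚ) • clb_w1 φ j) + sg ((β : ℚ) • clb_w2 φ j) -
      sg ((α : ℚ) • clb_w1 φ j + (β : ℚ) • clb_w2 φ j) ∈ R D c κ := by
  set F1 : DihedralGroup 4 → ℚ := fun γ =>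
    ((α * clb_e j γ + clb_t j (γ * r 3) : ℤ) : ℚ) / 2 with hF1
  set F2 : DihedralGroup 4 → ℚ := fun γ =>
    ((β * clb_e j (γ * r 3) + clb_t j γ : ℤ) : ℚ) / 2 with hF2
  set F3 : DihedralGroup 4 → ℚ := fun γ =>
    ((α * clb_e j γ + β * clb_e j (γ * r 3) : ℤ) : ℚ) / 2 with hF3
  set F4 : DihedralGroup 4 → ℚ := fun γ =>
    ((clb_t j γ + clb_t j (γ * r 3) : ℤ) : ℚ) / 2 with hF4
  have key : ∀ (F : DihedralGroup 4 → ℤ), (∀ γ, F (r 2 * γ) = - F γ) →
      (∀ γ, F γ = 1 ∨ F γ = -1) → IsType (r 2) fun γ => ((F γ : ℤ) : ℚ) / 2 := by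
    intro F hF hF'
    refine ⟨fun γ => ?_, fun γ => ?_⟩
    · simp only [hF]; push_cast; ring
    · rcases hF' γ with h | h
      · left; simp only [h]; norm_num
      · right; simp only [h]; norm_num
  have t1 : IsType (r 2) F1 := by
    refine key _ (fun γ => ?_) (fun γ => ?_)
    · rw [clb_e_r, mul_assoc, clb_t_r]; ring
    · rcases clb_cases j γ with ⟨h, h', k, k'⟩ | ⟨h, h', k, k'⟩ <;>
        rcases h with h | h <;> rcases h' with h' | h' <;> rcases hα with rfl | rfl <;>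
        simp [h, h', k, k']
  have t2 : IsType (r 2) F2 := by
    refine key _ (fun γ => ?_) (fun γ => ?_)
    · rw [clb_t_r, mul_assoc, clb_e_r]; ring
    · rcases clb_cases j γ with ⟨h, h', k, k'⟩ | ⟨h, h', k, k'⟩ <;>
        rcases h with h | h <;> rcases h' with h' | h' <;> rcases hβ with rfl | rfl <;>
        simp [h, h', k, k']
  have t3 : IsType (r 2) F3 := by
    refine key _ (fun γ => ?_) (fun γ => ?_)
    · rw [clb_e_r, mul_assoc, clb_e_r]; ring
    · rcases clb_cases j γ with ⟨h, h', k, k'⟩ | ⟨h, h', k, k'⟩ <;>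
        rcases h with h | h <;> rcases hα with rfl | rfl <;> rcases hβ with rfl | rfl <;>
        simp [h, k]
  have t4 : IsType (r 2) F4 := by
    refine key _ (fun γ => ?_) (fun γ => ?_)
    · rw [clb_t_r, mul_assoc, clb_t_r]; ring
    · rcases clb_cases j γ with ⟨h, h', k, k'⟩ | ⟨h, h', k, k'⟩ <;>
        rcases h' with h' | h' <;> simp [h', k']
  have neg_type : ∀ F : DihedralGroup 4 → ℚ, IsType (r 2) F → IsType (r 2) (-F) := by
    intro F hF
    refine ⟨fun γ => by simp only [Pi.neg_apply, hF.1], fun γ => ?_⟩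
    rcases hF.2 γ with h | h
    · right; simp [h]
    · left; simp [h]
  have hsum : F1 + F2 + -F3 + -F4 = 0 := by
    funext γ
    simp only [hF1, hF2, hF3, hF4, Pi.add_apply, Pi.neg_apply, Pi.zero_apply]
    push_cast
    ring
  have hred := phi_red (D := D) hc hκ φ hφ h2 (S := {F1, F2, -F3, -F4}) (by
    intro F hF
    simp only [Multiset.insert_eq_cons, Multiset.mem_cons, Multiset.mem_singleton] at hF
    rcases hF with rfl | rfl | rfl | rfl
    · exact t1
    · exact t2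
    · exact neg_type _ t3
    · exact neg_type _ t4) (by
    simp only [Multiset.insert_eq_cons, Multiset.sum_cons, Multiset.sum_singleton]
    rw [← hsum]; abel)
  -- the mean values
  have inv : ∀ (F : DihedralGroup 4 → ℤ), (∀ γ, F (sr j * γ) = F γ) →
      avg D (fun g => ((F (φ g) : ℤ) : ℚ) / 2) = fun g => ((F (φ g) : ℤ) : ℚ) / 2 := by
    intro F hF
    refine avg_of_inv fun d' hd' g => ?_
    rcases hD d' hd' with h | h
    · simp [h]
    · simp [h, hF]
  have anti : ∀ (F : DihedralGroup 4 → ℤ), (∀ γ, F (sr j * γ) = - F γ) →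
      avg D (fun g => ((F (φ g) : ℤ) : ℚ) / 2) = 0 := by
    intro F hF
    refine avg_of_anti hdD fun g => ?_
    simp only [map_mul, hd, hF]
    push_cast
    ring
  have m1 : avg D (F1 ∘ φ) = (α : ℚ) • clb_w1 φ j := by
    have e : F1 ∘ φ = (fun g => ((α * clb_e j (φ g) : ℤ) : ℚ) / 2) +
        fun g => ((clb_t j (φ g * r 3) : ℤ) : ℚ) / 2 := by
      funext g
      simp only [hF1, Function.comp_apply, Pi.add_apply]
      push_cast
      ring
    rw [e, avg_add, inv (fun γ => α * clb_e j γ) (fun γ => by rw [clb_e_sr]),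
      anti (fun γ => clb_t j (γ * r 3)) (fun γ => by rw [mul_assoc, clb_t_sr]), add_zero]
    funext g
    simp only [Pi.smul_apply, smul_eq_mul, clb_w1]
    push_cast
    ring
  have m2 : avg D (F2 ∘ φ) = (β : ℚ) • clb_w2 φ j := by
    have e : F2 ∘ φ = (fun g => ((β * clb_e j (φ g * r 3) : ℤ) : ℚ) / 2) +
        fun g => ((clb_t j (φ g) : ℤ) : ℚ) / 2 := by
      funext g
      simp only [hF2, Function.comp_apply, Pi.add_apply]
      push_cast
      ring
    rw [e, avg_add, inv (fun γ => β * clb_e j (γ * r 3)) (fun γ => by rw [mul_assoc, clb_e_sr]),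
      anti (fun γ => clb_t j γ) (fun γ => by rw [clb_t_sr]), add_zero]
    funext g
    simp only [Pi.smul_apply, smul_eq_mul, clb_w2]
    push_cast
    ring
  have m3 : avg D ((-F3) ∘ φ) = -((α : ℚ) • clb_w1 φ j + (β : ℚ) • clb_w2 φ j) := by
    have e : (-F3) ∘ φ = -(fun g => ((α * clb_e j (φ g) + β * clb_e j (φ g * r 3) :
        ℤ) : ℚ) / 2) := by
      funext g
      simp only [hF3, Function.comp_apply, Pi.neg_apply]
    rw [e, avg_neg, inv (fun γ => α * clb_e j γ + β * clb_e j (γ * r 3))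
      (fun γ => by rw [clb_e_sr, mul_assoc, clb_e_sr])]
    funext g
    simp only [Pi.neg_apply, Pi.add_apply, Pi.smul_apply, smul_eq_mul, clb_w1, clb_w2]
    push_cast
    ring
  have m4 : avg D ((-F4) ∘ φ) = 0 := by
    have e : (-F4) ∘ φ = -(fun g => ((clb_t j (φ g) + clb_t j (φ g * r 3) :
        ℤ) : ℚ) / 2) := by
      funext g
      simp only [hF4, Function.comp_apply, Pi.neg_apply]
    rw [e, avg_neg, anti (fun γ => clb_t j γ + clb_t j (γ * r 3))
      (fun γ => by rw [clb_t_sr, mul_assoc, clb_t_sr]; ring), neg_zero]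
  rw [net_eq_sum] at hred
  simp only [Multiset.insert_eq_cons, Multiset.map_cons, Multiset.map_singleton,
    Multiset.sum_cons, Multiset.sum_singleton] at hred
  rw [m1, m2, m3, m4, sg_neg, sg_zero] at hred
  convert hred using 1
  abel

private theorem clb_mod (hc : ∀ g, c * g = g * c) (hκ : κ c = -1)
    {φ : G →* DihedralGroup 4} (hφ : Function.Surjective φ)
    (h2 : φ c = r 2) {j : ZMod 4} (hD : ∀ d ∈ D, φ d = 1 ∨ φ d = sr j) {d : G} (hdD : d ∈ D)
    (hd : φ d = sr j) {α β : ℤ} (hα : α = 0 ∨ α = 1 ∨ α = -1) (hβ : β = 0 ∨ β = 1 ∨ β = -1) :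
    sg ((α : ℚ) • clb_w1 φ j + (β : ℚ) • clb_w2 φ j) -
      (α • sg (clb_w1 φ j) + β • sg (clb_w2 φ j)) ∈ R D c κ := by
  have hs : ∀ (w : G → ℚ) {α : ℤ}, (α = 0 ∨ α = 1 ∨ α = -1) →
      sg ((α : ℚ) • w) = α • sg w := by
    intro w α hα
    rcases hα with rfl | rfl | rfl
    · simp [sg_zero]
    · simp
    · simp [sg_neg]
  rcases hα with rfl | hα
  · have e : (((0 : ℤ) : ℚ) • clb_w1 φ j + (β : ℚ) • clb_w2 φ j) = (β : ℚ) • clb_w2 φ j := by
      simp
    rw [e, hs _ hβ]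
    simp
  · rcases hβ with rfl | hβ
    · have e : ((α : ℚ) • clb_w1 φ j + ((0 : ℤ) : ℚ) • clb_w2 φ j) = (α : ℚ) • clb_w1 φ j := by
        simp
      rw [e, hs _ (Or.inr hα)]
      simp
    · have h := clb_three hc hκ hφ h2 hD hdD hd hα hβ
      rw [hs _ (Or.inr hα), hs _ (Or.inr hβ)] at h
      have h' := (R D c κ).neg_mem h
      convert h' using 1
      abel

theorem class_B (hc : ∀ g, c * g = g * c) (hκ : κ c = -1) {a : G → ℚ} (ha : IsWeight D c a)
    (h4 : (orb ⊤ a).card = 4) (he : idx D a = 1) (hD : ¬ D ≤ core a) {S : Multiset (G → ℚ)}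
    (hS : ∀ w ∈ S, IsWeight D c w ∧ idx D w = 1 ∧ ∀ g ∈ core a, tr g w = w) (hs : S.sum = 0) :
    net S ∈ R D c κ := by
  obtain ⟨φ, j, h1, h2, hφ, hDj, d, hdD, hd⟩ := phi_D hc ha h4 he hD
  -- the sum of the coefficients
  have key : ∀ S : Multiset (G → ℚ),
      (∀ w ∈ S, IsWeight D c w ∧ idx D w = 1 ∧ ∀ g ∈ core a, tr g w = w) →
      ∃ α β : ℤ, S.sum = (α : ℚ) • clb_w1 φ j + (β : ℚ) • clb_w2 φ j ∧
        (S.map sg).sum - (α • sg (clb_w1 φ j) + β • sg (clb_w2 φ j)) ∈ R D c κ := by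
    intro S
    induction S using Multiset.induction_on with
    | empty => intro _; exact ⟨0, 0, by simp, by simp⟩
    | cons w S ih =>
      intro hS
      obtain ⟨α, β, e, m⟩ := ih fun x hx => hS x (Multiset.mem_cons_of_mem hx)
      obtain ⟨hw, hwi, hwf⟩ := hS w (Multiset.mem_cons_self w S)
      obtain ⟨α', β', hα', hβ', e'⟩ := clb_dec hc hw hwi hwf hφ h1 h2 hDj hdD hd
      refine ⟨α' + α, β' + β, ?_, ?_⟩
      · rw [Multiset.sum_cons, e]
        nth_rewrite 1 [e']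
        push_cast
        rw [add_smul, add_smul]
        abel
      · have h := clb_mod hc hκ hφ h2 hDj hdD hd hα' hβ'
        rw [← e'] at h
        have h' := (R D c κ).add_mem h m
        rw [Multiset.map_cons, Multiset.sum_cons, add_smul, add_smul]
        convert h' using 1
        abel
  obtain ⟨α, β, e, m⟩ := key S hS
  rw [hs] at e
  have ev : ∀ g, (α : ℚ) * ((clb_e j (φ g) : ℚ) / 2) +
      (β : ℚ) * ((clb_e j (φ g * r 3) : ℚ) / 2) = 0 := fun g => (congrFun e g).symm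
  have hα : α = 0 := by
    have h := ev 1
    have e1 : ∀ j : ZMod 4, clb_e j (1 : DihedralGroup 4) = 1 ∧
        clb_e j ((1 : DihedralGroup 4) * r 3) = 0 := by
      unfold clb_e; decide
    rw [map_one, (e1 j).1, (e1 j).2] at h
    have : (α : ℚ) = 0 := by push_cast at h; linarith
    exact_mod_cast this
  have hβ : β = 0 := by
    obtain ⟨g, hg⟩ := hφ (r 1)
    have h := ev g
    have e1 : ∀ j : ZMod 4, clb_e j (r 1 : DihedralGroup 4) = 0 ∧
        clb_e j ((r 1 : DihedralGroup 4) * r 3) = 1 := by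
      unfold clb_e; decide
    rw [hg, (e1 j).1, (e1 j).2] at h
    have : (β : ℚ) = 0 := by push_cast at h; linarith
    exact_mod_cast this
  rw [net_eq_sum]
  rw [hα, hβ] at m
  simpa using m

end Pool.Agent.AVG
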