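import Pool.Agent.AVG.MainF

/-!
# AVG: clusters

The weights different from zero are the union of finitely many `G`-stable sets `X j` whose spans are linearly independent. The part
of a multiset of sum zero in each `X j` has sum zero.
-/

set_option linter.unusedSectionVars false
set_option linter.unusedVariables false

namespace Pool.Agent.AVG

open Finset Pool.Agent.AVF

variable {G : Type} [Group G] [Fintype G] {D : Subgroup G} {c : G} {κ : G →* ℤˣ}

private theorem clus_sum_net {B : Finset (G → ℚ)} (hB : ∀ w ∈ B, -w ∈ B) {S : Multiset (G → ℚ)}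
    (hS : ∀ w ∈ S, w ∈ B) : ∑ w ∈ B, (net S w : ℚ) • w = (2 : ℚ) • S.sum := by
  classical
  have h1 : S.sum = ∑ w ∈ B, S.count w • w :=
    Finset.sum_multiset_count_of_subset S B fun w hw => hS w (Multiset.mem_toFinset.1 hw)
  have h2 : ∑ w ∈ B, (S.count (-w) : ℚ) • w = -S.sum := by
    have h3 : ∑ w ∈ B, (S.count (-w) : ℚ) • w = ∑ w ∈ B, (S.count w : ℚ) • (-w) := by
      refine Finset.sum_nbij' (fun w => -w) (fun w => -w) hB hB (fun w _ => neg_neg w)
        (fun w _ => neg_neg w) fun w _ => ?_
      rw [neg_neg]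
    rw [h3, h1, ← Finset.sum_neg_distrib]
    refine Finset.sum_congr rfl fun w _ => ?_
    rw [smul_neg, Nat.cast_smul_eq_nsmul]
  have h4 : ∑ w ∈ B, (S.count w : ℚ) • w = S.sum := by
    rw [h1]
    exact Finset.sum_congr rfl fun w _ => Nat.cast_smul_eq_nsmul ℚ _ _
  have h5 : ∀ w ∈ B, (net S w : ℚ) • w = (S.count w : ℚ) • w - (S.count (-w) : ℚ) • w := by
    intro w _
    rw [← sub_smul]
    congr 1
    unfold net
    push_cast
    rfl
  rw [Finset.sum_congr rfl h5, Finset.sum_sub_distrib, h4, h2, sub_neg_eq_add, two_smul]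

/-- `net` as a homomorphism -/
private noncomputable def clus_hom : Multiset (G → ℚ) →+ ((G → ℚ) → ℤ) where
  toFun := net
  map_zero' := net_zero'
  map_add' := net_add'

private theorem clus_zero (k : ℕ) : net (Multiset.replicate k (0 : G → ℚ)) = 0 := by
  rw [net_eq_sum, Multiset.map_replicate, Multiset.sum_replicate, sg_zero, smul_zero]

private theorem clus_isSys {X : Finset (G → ℚ)} (hX : IsSys D c X) :
    IsSys D c (insert 0 X) := by
  classical
  refine ⟨fun w hw => ?_, fun g w hw => ?_⟩
  · rcases Finset.mem_insert.1 hw with rfl | h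
    · exact ⟨fun _ _ _ => rfl, fun _ => by simp, fun _ => by simp⟩
    · exact hX.wt w h
  · rcases Finset.mem_insert.1 hw with rfl | h
    · rw [tr_zero]
      exact Finset.mem_insert_self _ _
    · exact Finset.mem_insert_of_mem (hX.st g w h)

/-- The relations in one cluster. -/
theorem net_cluster (hc : ∀ g, c * g = g * c) (hκ : κ c = -1) {X : Finset (G → ℚ)}
    (hX : IsSys D c X) (hcl : IsCluster D c X) {S : Multiset (G → ℚ)} (hS : ∀ w ∈ S, w ∈ X)
    (hs : S.sum = 0) : net S ∈ R D c κ := by
  classical
  rcases hcl with ⟨h6, hsep⟩ | hdim | hrel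
  · exact net_factors hc hκ hX h6 hsep hS hs
  · obtain ⟨k, hk⟩ : ∃ k, Even (S + Multiset.replicate k (0 : G → ℚ)).card := by
      rcases Nat.even_or_odd S.card with h | h
      · exact ⟨0, by simpa using h⟩
      · refine ⟨1, ?_⟩
        rw [Multiset.card_add, Multiset.card_replicate]
        exact h.add_one
    have h1 : Gen2 D c κ (S + Multiset.replicate k (0 : G → ℚ)) := by
      refine main_five hc hκ (clus_isSys hX) ?_ ?_ hk ?_
      · exact (le_of_eq (Finset.sum_congr (by congr) fun _ _ => rfl)).trans hdim
      · intro w hw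
        rcases Multiset.mem_add.1 hw with h | h
        · exact Finset.mem_insert_of_mem (hS w h)
        · rw [Multiset.eq_of_mem_replicate h]
          exact Finset.mem_insert_self _ _
      · rw [Multiset.sum_add, hs, Multiset.sum_replicate, smul_zero, add_zero]
    have h2 := h1.mem
    rw [net_add', clus_zero, add_zero] at h2
    exact h2
  · have hneg : ∀ w ∈ X, -w ∈ X := by
      intro w hw
      have h1 := hX.st c w hw
      rwa [(hX.wt w hw).tr_c hc] at h1
    have h1 : ∀ w ∈ X, (net S w : ℚ) = 0 := by
      refine hrel (fun w => (net S w : ℚ)) ⟨fun w => ?_, ?_⟩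
      · show ((net S (-w) : ℤ) : ℚ) = -((net S w : ℤ) : ℚ)
        rw [net_neg]
        push_cast
        rfl
      · show ∑ w ∈ X, ((net S w : ℤ) : ℚ) • w = 0
        rw [clus_sum_net hneg hS, hs, smul_zero]
    have h2 : net S = 0 := by
      funext w
      by_cases hw : w ∈ X
      · exact_mod_cast h1 w hw
      · have h3 : S.count w = 0 := Multiset.count_eq_zero.2 fun h => hw (hS w h)
        have h4 : S.count (-w) = 0 := Multiset.count_eq_zero.2 fun h => hw (by
          simpa using hneg _ (hS _ h))
        unfold net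
        rw [h3, h4]
        simp
    rw [h2]
    exact AddSubgroup.zero_mem _

/-- The theorem for clusters. -/
theorem main_clus (hc : ∀ g, c * g = g * c) (hκ : κ c = -1) {m : ℕ}
    (X : Fin m → Finset (G → ℚ)) (hX : ∀ j, IsSys D c (X j))
    (hind : ∀ v : Fin m → G → ℚ, (∀ j, v j ∈ Submodule.span ℚ (X j : Set (G → ℚ))) →
      ∑ j, v j = 0 → ∀ j, v j = 0)
    (hcl : ∀ j, IsCluster D c (X j)) {S : Multiset (G → ℚ)}
    (hS : ∀ w ∈ S, w = 0 ∨ ∃ j, w ∈ X j) (hE : Even S.card) (hs : S.sum = 0) :
    Gen2 D c κ S := by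
  classical
  obtain ⟨T, hT⟩ : ∃ T : Fin m → Multiset (G → ℚ), T = fun j => S.filter fun w => w ≠ 0 ∧ w ∈ X j :=
    ⟨_, rfl⟩
  -- an element different from zero is in one cluster
  have huniq : ∀ i j, i ≠ j → ∀ w, w ∈ X i → w ∈ X j → w = 0 := by
    intro i j hij w hi hj
    have h1 := hind (fun k => if k = i then w else if k = j then -w else 0) (fun k => ?_) ?_ i
    · simpa using h1
    · show (if k = i then w else if k = j then -w else 0) ∈ _
      split_ifs with h1 h2
      · rw [h1]
        exact Submodule.subset_span hi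
      · rw [h2]
        exact Submodule.neg_mem _ (Submodule.subset_span hj)
      · exact Submodule.zero_mem _
    · have h2 : ∀ k, (if k = i then w else if k = j then -w else 0) =
          (if k = i then w else 0) + (if k = j then -w else 0) := by
        intro k
        by_cases h1 : k = i
        · have h3 : k ≠ j := by rw [h1]; exact hij
          rw [if_pos h1, if_pos h1, if_neg h3, add_zero]
        · rw [if_neg h1, if_neg h1, zero_add]
      rw [Finset.sum_congr rfl fun k _ => h2 k, Finset.sum_add_distrib]
      simp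
  have hdec : S = Multiset.replicate (S.count 0) 0 + ∑ j, T j := by
    ext w
    rw [Multiset.count_add, Multiset.count_sum', Multiset.count_replicate]
    by_cases h0 : w = 0
    · have h1 : ∀ j, (T j).count w = 0 := by
        intro j
        rw [hT]
        exact Multiset.count_filter_of_neg fun h => h.1 h0
      rw [if_pos h0.symm, Finset.sum_eq_zero fun j _ => h1 j, add_zero, h0]
    · rw [if_neg fun h => h0 h.symm, zero_add]
      by_cases hw : ∃ j, w ∈ X j
      · obtain ⟨j, hj⟩ := hw
        rw [Finset.sum_eq_single j]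
        · rw [hT]
          exact (Multiset.count_filter_of_pos ⟨h0, hj⟩).symm
        · intro k _ hkj
          rw [hT]
          exact Multiset.count_filter_of_neg fun h => h0 (huniq k j hkj w h.2 hj)
        · intro h
          exact absurd (Finset.mem_univ j) h
      · have h1 : S.count w = 0 := Multiset.count_eq_zero.2 fun h => by
          rcases hS w h with h2 | h2
          · exact h0 h2
          · exact hw h2
        rw [h1, Finset.sum_eq_zero]
        intro j _
        rw [hT]
        exact Multiset.count_filter_of_neg fun h => hw ⟨j, h.2⟩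
  have hTX : ∀ j, ∀ w ∈ T j, w ∈ X j := by
    intro j w hw
    rw [hT] at hw
    exact (Multiset.mem_filter.1 hw).2.2
  have hsum : ∑ j, (T j).sum = 0 := by
    have h1 : (∑ j, T j).sum = ∑ j, (T j).sum :=
      map_sum (Multiset.sumAddMonoidHom : Multiset (G → ℚ) →+ (G → ℚ)) T Finset.univ
    have h2 := congrArg Multiset.sum hdec
    rw [hs, Multiset.sum_add, Multiset.sum_replicate, smul_zero, zero_add, h1] at h2
    exact h2.symm
  have hT0 : ∀ j, (T j).sum = 0 := by
    refine hind (fun j => (T j).sum) (fun j => ?_) hsum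
    exact multiset_sum_mem _ fun w hw => Submodule.subset_span (hTX j w hw)
  have hnet : net S = ∑ j, net (T j) := by
    have h1 : net (∑ j, T j) = ∑ j, net (T j) := map_sum (clus_hom (G := G)) T Finset.univ
    have h2 := congrArg net hdec
    rw [net_add', clus_zero, zero_add, h1] at h2
    exact h2
  refine gen2_of_mem hc (fun w hw => ?_) hE ?_
  · rcases hS w hw with rfl | ⟨j, hj⟩
    · exact ⟨fun _ _ _ => rfl, fun _ => by simp, fun _ => by simp⟩
    · exact (hX j).wt w hj
  · rw [hnet]
    exact AddSubgroup.sum_mem _ fun j _ => net_cluster hc hκ (hX j) (hcl j) (hTX j) (hT0 j)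

/-- The main theorem with clusters. -/
theorem main_all (hc : ∀ g, c * g = g * c) (hκ : κ c = -1) {X : Finset (G → ℚ)}
    (hX : IsSys D c X) (h : ∑ w ∈ X, idx D w ≤ 10 ∨ HasClusters D c X)
    {S : Multiset (G → ℚ)} (hS : ∀ w ∈ S, w ∈ X) (hE : Even S.card) (hs : S.sum = 0) :
    Gen2 D c κ S := by
  rcases h with h | ⟨m, Y, h1, h2, h3, h4⟩
  · exact main_five hc hκ hX h hS hE hs
  · exact main_clus hc hκ Y (fun j => ⟨fun w hw => hX.wt w (h1 j w hw).1, fun g w hw =>
      (h1 j w hw).2 g⟩) h3 h4 (fun w hw => h2 w (hS w hw)) hE hs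

end Pool.Agent.AVG
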