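import Pool.Agent.AVG.Alg

/-!
# AVG: pull back of Cls along a surjective homomorphism

Composition with a surjective homomorphism `π` respects all the rules of `Cls`.
-/

set_option linter.unusedSectionVars false
set_option linter.unusedVariables false

namespace Pool.Agent.AVG

open Finset Pool.Agent.AVF

variable {G G' : Type} [Group G] [Fintype G] [Group G'] [Fintype G']

private theorem comap_type {c : G} {c' : G'} (π : G →* G') (hc : π c = c') {f : G' → ℚ} (hf : IsType c' f) :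
    IsType c (f ∘ π) :=
  ⟨fun g => by
    show f (π (c * g)) = - f (π g)
    rw [map_mul, hc, hf.1], fun g => hf.2 (π g)⟩

private theorem comap_tr (π : G →* G') (h : G) (f : G' → ℚ) : tr h (f ∘ π) = (tr (π h) f) ∘ π := by
  funext g
  show f (π (g * h)) = f (π g * π h)
  rw [map_mul]

theorem Cls.comap {c' : G'} {κ' : G' →* ℤˣ} (π : G →* G') (hπ : Function.Surjective π) {c : G}
    (hc : π c = c') {S : Multiset (G' → ℚ)} (h : Cls c' κ' S) :
    Cls c (κ'.comp π) (S.map fun f => f ∘ π) := by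
  induction h with
  | pair f hf => exact Cls.pair (f ∘ π) (comap_type π hc hf)
  | add hS hT ihS ihT =>
    rw [Multiset.map_add]
    exact Cls.add ihS ihT
  | cancel f h ih =>
    rw [Multiset.map_add] at ih
    exact Cls.cancel (f ∘ π) ih
  | conj h ih =>
    have h1 := Cls.conj ih
    rw [Multiset.map_map] at h1 ⊢
    exact h1
  | surf hκ T hT hK hn h1 x y hx hy hxy =>
    have hinj : Function.Injective fun f : G' → ℚ => f ∘ π := hπ.injective_comp_right
    have h2 : (κ'.comp π) c = -1 := by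
      show κ' (π c) = -1
      rw [hc, hκ]
    have h3 : ∀ f ∈ T.map ⟨fun f : G' → ℚ => f ∘ π, hinj⟩, IsType c f := by
      intro f hf
      obtain ⟨f0, hf0, rfl⟩ := Finset.mem_map.1 hf
      exact comap_type π hc (hT f0 hf0)
    have h4 : ∀ h, (κ'.comp π) h = 1 → ∀ f ∈ T.map ⟨fun f : G' → ℚ => f ∘ π, hinj⟩,
        tr h f ∈ T.map ⟨fun f : G' → ℚ => f ∘ π, hinj⟩ := by
      intro h hh f hf
      obtain ⟨f0, hf0, rfl⟩ := Finset.mem_map.1 hf
      exact Finset.mem_map.2 ⟨tr (π h) f0, hK (π h) hh f0 hf0, (comap_tr π h f0).symm⟩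
    have h5 : ∑ f ∈ T.map ⟨fun f : G' → ℚ => f ∘ π, hinj⟩, (f 1 + 1 / 2) = 1 := by
      rw [Finset.sum_map]
      refine (Finset.sum_congr rfl fun f _ => ?_).trans h1
      show f (π 1) + 1 / 2 = f 1 + 1 / 2
      rw [map_one]
    exact Cls.surf h2 (T.map ⟨fun f : G' → ℚ => f ∘ π, hinj⟩) h3 h4 (by rw [Finset.card_map]; exact hn) h5
      (x ∘ π) (y ∘ π) (Finset.mem_map.2 ⟨x, hx, rfl⟩) (Finset.mem_map.2 ⟨y, hy, rfl⟩)
      (fun e => hxy (hinj e))
  | ks hκ T hT hK hn h1 X hX hX0 =>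
    have hinj : Function.Injective fun f : G' → ℚ => f ∘ π := hπ.injective_comp_right
    have h2 : (κ'.comp π) c = -1 := by
      show κ' (π c) = -1
      rw [hc, hκ]
    have h3 : ∀ f ∈ T.map ⟨fun f : G' → ℚ => f ∘ π, hinj⟩, IsType c f := by
      intro f hf
      obtain ⟨f0, hf0, rfl⟩ := Finset.mem_map.1 hf
      exact comap_type π hc (hT f0 hf0)
    have h4 : ∀ h, (κ'.comp π) h = 1 → ∀ f ∈ T.map ⟨fun f : G' → ℚ => f ∘ π, hinj⟩,
        tr h f ∈ T.map ⟨fun f : G' → ℚ => f ∘ π, hinj⟩ := by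
      intro h hh f hf
      obtain ⟨f0, hf0, rfl⟩ := Finset.mem_map.1 hf
      exact Finset.mem_map.2 ⟨tr (π h) f0, hK (π h) hh f0 hf0, (comap_tr π h f0).symm⟩
    have h5 : ∑ f ∈ T.map ⟨fun f : G' → ℚ => f ∘ π, hinj⟩, (f 1 + 1 / 2) = 1 := by
      rw [Finset.sum_map]
      refine (Finset.sum_congr rfl fun f _ => ?_).trans h1
      show f (π 1) + 1 / 2 = f 1 + 1 / 2
      rw [map_one]
    have h6 := Cls.ks h2 (T.map ⟨fun f : G' → ℚ => f ∘ π, hinj⟩) h3 h4
      (by rw [Finset.card_map]; exact hn) h5 (X.map ⟨fun f : G' → ℚ => f ∘ π, hinj⟩)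
      (Finset.map_subset_map.2 hX) ((Finset.map_nonempty).2 hX0)
    have h7 : (X.val + Multiset.replicate (X.card - 1) (chi κ') +
        {-(∑ f ∈ X, f + ((X.card : ℚ) - 1) • chi κ')}).map (fun f => f ∘ π) =
        (X.map ⟨fun f : G' → ℚ => f ∘ π, hinj⟩).val +
          Multiset.replicate ((X.map ⟨fun f : G' → ℚ => f ∘ π, hinj⟩).card - 1)
            (chi (κ'.comp π)) +
          {-(∑ f ∈ X.map ⟨fun f : G' → ℚ => f ∘ π, hinj⟩, f +
            (((X.map ⟨fun f : G' → ℚ => f ∘ π, hinj⟩).card : ℚ) - 1) • chi (κ'.comp π))} := by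
      rw [Multiset.map_add, Multiset.map_add, Multiset.map_replicate, Multiset.map_singleton,
        Finset.card_map, Finset.sum_map]
      congr 2
      funext g
      simp only [Function.comp, Pi.neg_apply, Pi.add_apply, Finset.sum_apply, Pi.smul_apply,
        Function.Embedding.coeFn_mk]
      rfl
    rw [h7]
    exact h6

theorem comap_mem {c' : G'} {κ' : G' →* ℤˣ} (hc' : ∀ g, c' * g = g * c') (π : G →* G')
    (hπ : Function.Surjective π) {c : G} (hc : π c = c') {S : Multiset (G' → ℚ)}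
    (hS : ∀ f ∈ S, IsType c' f) (hE : Even S.card) (h : net S ∈ R0 c' κ') :
    net (S.map fun f => f ∘ π) ∈ R0 c (κ'.comp π) := by
  by_cases hS0 : S = 0
  · subst hS0
    rw [Multiset.map_zero, net_zero']
    exact zero_mem _
  · exact (Cls.comap π hπ hc (cls_of_mem hc' hS hS0 hE h)).mem

end Pool.Agent.AVG
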