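import Pool.Agent.AVG.Pc
import Pool.Agent.AVG.Phi

/-!
# AVG: a normal subgroup and an orbit of 2 l weights, l a prime number
-/

set_option linter.unusedSectionVars false
set_option linter.unusedVariables false

namespace Pool.Agent.AVG

open Finset Pool.Agent.AVF

variable {G : Type} [Group G] [Fintype G] {D : Subgroup G} {c : G}

/-- the orbits of a normal subgroup in an orbit have the same cardinality -/
private theorem corep_card {C : Subgroup G} (hC : C.Normal) {b x : G → ℚ} (hx : x ∈ orb ⊤ b) :
    (orb C x).card = (orb C b).card := by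
  classical
  obtain ⟨h, rfl⟩ := mem_orb_top.1 hx
  have h1 : orb C (tr h b) = (orb C b).image (tr h) := by
    ext y
    rw [mem_orb, mem_image]
    constructor
    · rintro ⟨k, hk, rfl⟩
      refine ⟨tr (h⁻¹ * k * h) b, mem_orb.2 ⟨_, ?_, rfl⟩, ?_⟩
      · have := hC.conj_mem k hk h⁻¹
        rwa [inv_inv] at this
      · rw [← tr_mul, ← tr_mul]
        congr 1
        group
    · rintro ⟨z, hz, rfl⟩
      obtain ⟨k, hk, rfl⟩ := mem_orb.1 hz
      refine ⟨h * k * h⁻¹, hC.conj_mem k hk h, ?_⟩
      rw [← tr_mul, ← tr_mul]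
      congr 1
      group
  rw [h1, card_image_of_injective _ fun _ _ e => tr_inj h e]

theorem core_prime (hc : ∀ g, c * g = g * c) {C : Subgroup G} (hC : C.Normal) {b : G → ℚ}
    (hb : IsWeight D c b) (h0 : b ≠ 0) {ℓ : ℕ} (hℓ : ℓ.Prime) (h2 : (orb ⊤ b).card = 2 * ℓ)
    (hn : ¬ C ≤ core b) : (orb ⊤ (pc C b)).card ≤ 4 := by
  classical
  by_cases hneg : ∃ x ∈ orb ⊤ b, -x ∈ orb C x
  · -- some element of `C` is `-1` somewhere: the mean value is zero
    obtain ⟨x, hx, hx'⟩ := hneg
    obtain ⟨m, hm, hmx⟩ := mem_orb.1 hx'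
    have h1 : pc C x = 0 := by
      have h2 := (tr_pc_mem hm x).2
      rw [hmx, pc_neg] at h2
      have h3 : (2 : ℚ) • pc C x = 0 := by
        rw [two_smul]
        nth_rewrite 1 [← h2]
        exact neg_add_cancel _
      exact (smul_eq_zero.1 h3).resolve_left two_ne_zero
    obtain ⟨h, rfl⟩ := mem_orb_top.1 (orb_symm hx)
    rw [← tr_pc hC, h1, tr_zero, orb_zero, card_singleton]
    omega
  · push Not at hneg
    have hk1 : (orb C b).card ≠ 1 := by
      intro h1
      apply hn
      intro g hg x hx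
      have h2 := corep_card hC hx
      rw [h1, card_eq_one] at h2
      obtain ⟨y, hy⟩ := h2
      have h3 : tr g x ∈ orb C x := mem_orb.2 ⟨g, hg, rfl⟩
      have h4 := self_mem_orb C x
      rw [hy, mem_singleton] at h3 h4
      rw [h3, h4]
    have hbo := self_mem_orb ⊤ b
    have hsub : ∀ x ∈ orb ⊤ b, orb C x ⊆ orb ⊤ b := by
      intro x hx y hy
      obtain ⟨k, -, rfl⟩ := mem_orb.1 hy
      exact tr_mem_orb (Subgroup.mem_top k) hx
    have hnego : ∀ x ∈ orb ⊤ b, -x ∈ orb ⊤ b := fun x hx => neg_mem_orb hb hc hx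
    have hdis : ∀ x ∈ orb ⊤ b, Disjoint (orb C x) (orb C (-x)) := by
      intro x hx
      rw [disjoint_left]
      intro y hy hy'
      apply hneg x hx
      rw [← orb_eq hy, orb_eq hy']
      exact self_mem_orb C (-x)
    -- the orbit is the disjoint union of the sets `pr2 x`
    set pr2 : (G → ℚ) → Finset (G → ℚ) := fun x => orb C x ∪ orb C (-x) with hpr
    have hmem : ∀ x y : G → ℚ, y ∈ pr2 x → pr2 y = pr2 x := by
      intro x y hy
      rw [hpr] at hy ⊢
      simp only at hy ⊢
      rcases mem_union.1 hy with h | h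
      · have e1 := orb_eq h
        have e2 : orb C (-y) = orb C (-x) := by rw [orb_neg, e1, ← orb_neg]
        rw [e1, e2]
      · have e1 := orb_eq h
        have e2 : orb C (-y) = orb C x := by
          rw [orb_neg, e1, ← orb_neg, neg_neg]
        rw [e1, e2, union_comm]
    have hself : ∀ x : G → ℚ, x ∈ pr2 x := fun x => mem_union.2 (Or.inl (self_mem_orb C x))
    have hcard : ∀ x ∈ orb ⊤ b, (pr2 x).card = 2 * (orb C b).card := by
      intro x hx
      rw [hpr]
      simp only
      rw [card_union_of_disjoint (hdis x hx), card_orb_neg, corep_card hC hx, two_mul]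
    have hfib : ∀ P ∈ (orb ⊤ b).image pr2, ((orb ⊤ b).filter fun x => pr2 x = P).card =
        2 * (orb C b).card := by
      intro P hP
      obtain ⟨x, hx, rfl⟩ := mem_image.1 hP
      rw [← hcard x hx]
      congr 1
      ext y
      rw [mem_filter]
      constructor
      · rintro ⟨-, h⟩
        rw [← h]
        exact hself y
      · intro h
        refine ⟨?_, hmem x y h⟩
        rcases mem_union.1 h with h | h
        · exact hsub x hx h
        · exact hsub _ (hnego x hx) h
    have hdvd : (orb ⊤ b).card = ((orb ⊤ b).image pr2).card * (2 * (orb C b).card) := by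
      rw [card_eq_sum_card_image pr2 (orb ⊤ b), sum_congr rfl hfib, sum_const, smul_eq_mul]
    have hdvd2 : (orb C b).card ∣ ℓ := by
      rw [h2] at hdvd
      refine ⟨((orb ⊤ b).image pr2).card, ?_⟩
      have h3 : 2 * ℓ = 2 * ((orb C b).card * ((orb ⊤ b).image pr2).card) := by
        rw [hdvd]
        ring
      omega
    have hkℓ : (orb C b).card = ℓ := ((Nat.dvd_prime hℓ).1 hdvd2).resolve_left hk1
    have hall : pr2 b = orb ⊤ b := by
      refine eq_of_subset_of_card_le (union_subset (hsub b hbo) (hsub _ (hnego b hbo))) ?_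
      rw [hcard b hbo, hkℓ, h2]
    have hcov : ∀ y ∈ orb ⊤ b, y ∈ orb C b ∨ y ∈ orb C (-b) := by
      intro y hy
      rw [← hall] at hy
      exact mem_union.1 hy
    have hsemi : ∀ h, tr h (pc C b) = pc C b ∨ tr h (pc C b) = -pc C b := by
      intro h
      rw [tr_pc hC]
      rcases hcov (tr h b) (mem_orb_top.2 ⟨h, rfl⟩) with h1 | h1
      · obtain ⟨k, hk, e⟩ := mem_orb.1 h1
        left
        rw [← e]
        exact (tr_pc_mem hk b).2
      · obtain ⟨k, hk, e⟩ := mem_orb.1 h1
        right
        rw [← e, (tr_pc_mem hk (-b)).2, pc_neg]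
    have h4 : orb ⊤ (pc C b) ⊆ {pc C b, -pc C b} := by
      intro x hx
      obtain ⟨h, rfl⟩ := mem_orb_top.1 hx
      rw [mem_insert, mem_singleton]
      exact hsemi h
    have h5 := card_le_card h4
    have h6 := card_le_two (a := pc C b) (b := -pc C b)
    omega

end Pool.Agent.AVG
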