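import Pool.Agent.AVF.Half

/-!
# AVG: a relation is constant on the cycle; the sign character (general right hand side)

Plan. Copy of `AVF.rel_const` and `AVF.exists_half` (file `AVF/Half.lean`, private lemmas `sg`, `sum_nu` included under new names), with
the sum over the rest of `X` replaced by `r`, which is fixed by `g` together with all its translates; `AVF.sum_half`, `AVF.const_of_fix`.
-/

set_option linter.unusedSectionVars false
set_option linter.unusedVariables false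

namespace Pool.Agent.AVG

open Finset Pool.Agent.AVF

variable {G : Type} [Group G] [Fintype G] {D : Subgroup G} {c : G}

open Classical in
/-- the translate or its negative -/
private noncomputable def cych_sg (C : Finset (G → ℚ)) (h : G) (w : G → ℚ) : G → ℚ :=
  if tr h w ∈ C then tr h w else -(tr h w)

private theorem cych_sg_mem {C : Finset (G → ℚ)} {h : G} {w : G → ℚ}
    (hcov : tr h w ∈ C ∨ -(tr h w) ∈ C) : cych_sg C h w ∈ C := by
  unfold cych_sg
  by_cases h1 : tr h w ∈ C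
  · rw [if_pos h1]
    exact h1
  · rw [if_neg h1]
    exact hcov.resolve_left h1

private theorem cych_sg_sg {C : Finset (G → ℚ)} (hneg : ∀ w ∈ C, -w ∉ C) {h k : G}
    (hk : k * h = 1) {w : G → ℚ} (hw : w ∈ C) : cych_sg C k (cych_sg C h w) = w := by
  have h0 : tr k (tr h w) = w := by rw [← tr_mul, hk, tr_one]
  by_cases h1 : tr h w ∈ C
  · have h2 : cych_sg C h w = tr h w := by
      unfold cych_sg
      rw [if_pos h1]
    rw [h2]
    unfold cych_sg
    rw [h0, if_pos hw]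
  · have h2 : cych_sg C h w = -(tr h w) := by
      unfold cych_sg
      rw [if_neg h1]
    rw [h2]
    unfold cych_sg
    rw [tr_neg, h0, if_neg (hneg w hw), neg_neg]

open Classical in
private theorem cych_sum_nu {C : Finset (G → ℚ)} (hneg : ∀ w ∈ C, -w ∉ C)
    (hcov : ∀ h : G, ∀ w ∈ C, tr h w ∈ C ∨ -(tr h w) ∈ C) (h : G) :
    tr h⁻¹ (∑ w ∈ C, w) = ∑ y ∈ C, (if tr h y ∈ C then (1 : ℚ) else -1) • y := by
  rw [tr_sum]
  refine Finset.sum_bij' (fun w _ => cych_sg C h⁻¹ w) (fun y _ => cych_sg C h y)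
    (fun w hw => cych_sg_mem (hcov h⁻¹ w hw)) (fun y hy => cych_sg_mem (hcov h y hy))
    (fun w hw => cych_sg_sg hneg (mul_inv_cancel h) hw)
    (fun y hy => cych_sg_sg hneg (inv_mul_cancel h) hy)
    fun w hw => ?_
  by_cases h1 : tr h⁻¹ w ∈ C
  · have h2 : cych_sg C h⁻¹ w = tr h⁻¹ w := by
      unfold cych_sg
      rw [if_pos h1]
    rw [h2, tr_tr_inv, if_pos hw, one_smul]
  · have h2 : cych_sg C h⁻¹ w = -(tr h⁻¹ w) := by
      unfold cych_sg
      rw [if_neg h1]
    rw [h2, tr_neg, tr_tr_inv, if_neg (hneg w hw), neg_smul, one_smul, neg_neg]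

theorem cyc_half (hc : ∀ g, c * g = g * c) {b : G → ℚ} (hb : IsWeight D c b) {g : G}
    {C : Finset (G → ℚ)} (hcyc : IsCyc g C b) (hp : C.card.Prime) (hneg : ∀ w ∈ C, -w ∉ C)
    (hsub : C ⊆ orb ⊤ b) (hcov : ∀ w ∈ orb ⊤ b, w ∈ C ∨ -w ∈ C) {n : (G → ℚ) → ℚ}
    (hodd : ∀ w, n (-w) = - n w) {r : G → ℚ} (hr : ∀ h, tr g (tr h r) = tr h r)
    (hsum : ∑ w ∈ orb ⊤ b, n w • w = r) :
    (∀ w ∈ C, n w = n b) ∧ (n b ≠ 0 → ∃ ε : G →* ℤˣ, IsHalf c ε C) := by
  classical
  have h1 : (2 : ℚ) • ∑ w ∈ C, n w • w = r := by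
    rw [← hsum, sum_half hsub (fun w hw => neg_mem_orb hb hc hw) hneg hcov hodd]
  have hconst : ∀ w ∈ C, n w = n b := by
    have h2 := hr 1
    rw [tr_one] at h2
    have h3 : ∑ w ∈ C, n w • w = (2 : ℚ)⁻¹ • r := by
      rw [← h1, smul_smul, inv_mul_cancel₀ (by norm_num), one_smul]
    refine const_of_fix hcyc hp n ?_
    rw [h3, tr_smul, h2]
  refine ⟨hconst, fun hnb => ?_⟩
  have h2 : ∑ w ∈ C, n w • w = n b • ∑ w ∈ C, w := by
    rw [Finset.smul_sum]
    exact Finset.sum_congr rfl fun w hw => by rw [hconst w hw]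
  rw [h2, smul_smul] at h1
  have h3 : ∑ w ∈ C, w = (2 * n b)⁻¹ • r := by
    rw [← h1, smul_smul, inv_mul_cancel₀ (mul_ne_zero two_ne_zero hnb), one_smul]
  have h4 : ∀ h : G, tr g (tr h (∑ w ∈ C, w)) = tr h (∑ w ∈ C, w) := by
    intro h
    rw [h3, tr_smul, tr_smul, hr h]
  have hcov' : ∀ h : G, ∀ w ∈ C, tr h w ∈ C ∨ -(tr h w) ∈ C := fun h w hw =>
    hcov _ (tr_mem_orb (Subgroup.mem_top h) (hsub hw))
  have h5 : ∀ h : G, ∀ y ∈ C, (tr h y ∈ C ↔ tr h b ∈ C) := by
    intro h y hy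
    have h6 := h4 h⁻¹
    rw [cych_sum_nu hneg hcov' h] at h6
    have h7 := const_of_fix hcyc hp (fun y => if tr h y ∈ C then (1 : ℚ) else -1) h6 y hy
    by_cases h8 : tr h y ∈ C
    · by_cases h9 : tr h b ∈ C
      · exact iff_of_true h8 h9
      · rw [if_pos h8, if_neg h9] at h7
        norm_num at h7
    · by_cases h9 : tr h b ∈ C
      · rw [if_neg h8, if_pos h9] at h7
        norm_num at h7
      · exact iff_of_false h8 h9
  have hbC : b ∈ C := hcyc.mem
  have hmul : ∀ h k : G, (if tr (h * k) b ∈ C then (1 : ℤˣ) else -1) =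
      (if tr h b ∈ C then (1 : ℤˣ) else -1) * (if tr k b ∈ C then (1 : ℤˣ) else -1) := by
    intro h k
    rw [tr_mul]
    by_cases h6 : tr k b ∈ C
    · rw [if_pos h6, mul_one]
      have h7 := h5 h _ h6
      by_cases h8 : tr h b ∈ C
      · rw [if_pos h8, if_pos (h7.2 h8)]
      · rw [if_neg h8, if_neg fun h9 => h8 (h7.1 h9)]
    · have h7 : -(tr k b) ∈ C := (hcov' k b hbC).resolve_left h6
      have h8 := h5 h _ h7
      rw [tr_neg] at h8
      rw [if_neg h6]
      by_cases h9 : tr h b ∈ C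
      · have h10 : tr h (tr k b) ∉ C := fun h11 => hneg _ h11 (h8.2 h9)
        rw [if_pos h9, if_neg h10, one_mul]
      · have h10 : tr h (tr k b) ∈ C := by
          have h11 := hcov' h _ h7
          rw [tr_neg, neg_neg] at h11
          exact h11.resolve_left fun h12 => h9 (h8.1 h12)
        rw [if_neg h9, if_pos h10, neg_mul_neg, one_mul]
  obtain ⟨ε, hε⟩ : ∃ ε : G →* ℤˣ, ∀ h, ε h = if tr h b ∈ C then (1 : ℤˣ) else -1 :=
    ⟨{ toFun := fun h => if tr h b ∈ C then (1 : ℤˣ) else -1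
       map_one' := by rw [tr_one, if_pos hbC]
       map_mul' := hmul }, fun h => rfl⟩
  refine ⟨ε, ?_, hneg, fun h hh w hw => ?_⟩
  · rw [hε, hb.tr_c hc, if_neg (hneg b hbC)]
  · rw [hε] at hh
    by_cases h6 : tr h b ∈ C
    · exact (h5 h w hw).2 h6
    · rw [if_neg h6] at hh
      exact absurd hh (by decide)

end Pool.Agent.AVG
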