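import Pool.Agent.AVF.Main

/-!
# AVG: definitions

`G` is a finite group (the Galois group of a CM field `L` over `ℚ`, `L` contains a square root of `-3`), `c` complex
conjugation, `κ : G → {±1}` the character of the field `ℚ(√-3)`, `D` the decomposition group of a place.
A type is a function `f : G → {1/2, -1/2}` with `f (c g) = - f g`: the CM type of an abelian variety with complex
multiplication by a subfield of `L`, in characteristic zero.
-/

namespace Pool.Agent.AVG

open Finset Pool.Agent.AVF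

variable {G : Type} [Group G] [Fintype G]

/-- `f` is a CM type: odd for `c`, with values `1/2` and `-1/2`. -/
def IsType (c : G) (f : G → ℚ) : Prop :=
  (∀ g, f (c * g) = - f g) ∧ ∀ g, f g = 1 / 2 ∨ f g = -(1 / 2)

open Classical in
/-- The multisets of types whose Hodge classes are obtained from divisor classes and from the
isomorphisms `(Λ²_K H^1(Y) ⊗_K H^1(E))(1) = H^1(Z)`, `K = ℚ(√-3)`, `Y` an abelian variety on which `K` acts with the
signature `(1, b)`, `b ≤ 8`, and `(Λ^k_K H^1(Y) ⊗_K H^1(E)^(⊗ (k - 1)))(k - 1) = H^1(Z)` for `b ≤ 5` and all `k`, by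
products, contractions and complex conjugation. -/
inductive Cls (c : G) (κ : G →* ℤˣ) : Multiset (G → ℚ) → Prop
  | pair (f : G → ℚ) (hf : IsType c f) : Cls c κ {f, -f}
  | add {S T : Multiset (G → ℚ)} (hS : Cls c κ S) (hT : Cls c κ T) : Cls c κ (S + T)
  | cancel {S : Multiset (G → ℚ)} (f : G → ℚ) (h : Cls c κ (S + {f, -f})) : Cls c κ S
  | conj {S : Multiset (G → ℚ)} (h : Cls c κ S) : Cls c κ (S.map fun f => -f)
  | surf (hκ : κ c = -1) (T : Finset (G → ℚ)) (hT : ∀ f ∈ T, IsType c f)
      (hK : ∀ h, κ h = 1 → ∀ f ∈ T, tr h f ∈ T) (hn : T.card ≤ 9)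
      (h1 : ∑ f ∈ T, (f 1 + 1 / 2) = 1) (x y : G → ℚ) (hx : x ∈ T) (hy : y ∈ T) (hxy : x ≠ y) :
      Cls c κ {x, y, chi κ, -(x + y + chi κ)}
  | ks (hκ : κ c = -1) (T : Finset (G → ℚ)) (hT : ∀ f ∈ T, IsType c f)
      (hK : ∀ h, κ h = 1 → ∀ f ∈ T, tr h f ∈ T) (hn : T.card ≤ 6)
      (h1 : ∑ f ∈ T, (f 1 + 1 / 2) = 1) (X : Finset (G → ℚ)) (hX : X ⊆ T) (hX0 : X.Nonempty) :
      Cls c κ (X.val + Multiset.replicate (X.card - 1) (chi κ) +
        {-(∑ f ∈ X, f + ((X.card : ℚ) - 1) • chi κ)})

open Classical in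
/-- The mean value over the left translates by `D`: the weight of the reduction of the abelian
variety with CM type `f` (Shimura and Taniyama). -/
noncomputable def avg (D : Subgroup G) (f : G → ℚ) : G → ℚ := fun g =>
  (∑ d ∈ univ.filter (fun d : G => d ∈ D), f (d * g)) /
    ((univ.filter fun d : G => d ∈ D).card : ℚ)

/-- The multisets of weights whose classes are obtained, by products and contractions, from those in `Gen`
and from reductions of those in `Cls`. -/
inductive Gen2 (D : Subgroup G) (c : G) (κ : G →* ℤˣ) : Multiset (G → ℚ) → Prop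
  | weil {S : Multiset (G → ℚ)} (h : Gen D c S) : Gen2 D c κ S
  | red {S : Multiset (G → ℚ)} (h : Cls c κ S) : Gen2 D c κ (S.map (avg D))
  | add {S T : Multiset (G → ℚ)} (hS : Gen2 D c κ S) (hT : Gen2 D c κ T) : Gen2 D c κ (S + T)
  | cancel {S : Multiset (G → ℚ)} (w : G → ℚ) (h : Gen2 D c κ (S + {w, -w})) : Gen2 D c κ S

/-- The class of one element: the net multiplicity of `{w}`. -/
noncomputable def sg (w : G → ℚ) : (G → ℚ) → ℤ := net {w}

/-- The group of the net multiplicities of the elements of `Cls`. -/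
def R0 (c : G) (κ : G →* ℤˣ) : AddSubgroup ((G → ℚ) → ℤ) :=
  AddSubgroup.closure {f | ∃ S, Cls c κ S ∧ net S = f}

/-- The group of the net multiplicities of the elements of `Gen2`. -/
def R (D : Subgroup G) (c : G) (κ : G →* ℤˣ) : AddSubgroup ((G → ℚ) → ℤ) :=
  AddSubgroup.closure {f | ∃ S, Gen2 D c κ S ∧ net S = f}

/-- The elements of `G` which fix all translates of `w`. -/
def core (w : G → ℚ) : Subgroup G where
  carrier := {g | ∀ x ∈ orb ⊤ w, tr g x = x}
  mul_mem' := by
    intro a b ha hb x hx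
    rw [tr_mul, hb x hx, ha x hx]
  one_mem' := fun x _ => tr_one x
  inv_mem' := by
    intro a ha x hx
    have h := congrArg (tr a⁻¹) (ha x hx)
    rw [tr_inv_tr] at h
    exact h.symm

open Classical in
/-- The mean value over the right translates by `C`. -/
noncomputable def pc (C : Subgroup G) (v : G → ℚ) : G → ℚ :=
  (1 / ((univ.filter fun h : G => h ∈ C).card : ℚ)) • ∑ h ∈ univ.filter (fun h : G => h ∈ C), tr h v

/-- The group generated by the squares of the elements which move the translates of `b` only by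
signs. -/
def sqn (b : G → ℚ) : Subgroup G :=
  Subgroup.closure {g | ∃ k, (∀ x ∈ orb ⊤ b, tr k x = x ∨ tr k x = -x) ∧ k * k = g}

/-- The field of the weight `w` contains no imaginary quadratic field. -/
def NoQ (c : G) (w : G → ℚ) : Prop := ∀ ε : G →* ℤˣ, ε c = -1 → ∃ h, tr h w = w ∧ ε h = -1

end Pool.Agent.AVG
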