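import Pool.Agent.AVG.Defs

/-!
# AVG: definitions for fivefolds and for clusters
-/

namespace Pool.Agent.AVG

open Finset Pool.Agent.AVF

variable {G : Type} [Group G] [Fintype G]

/-- The abelian variety of the weight `w` has the signature `(1, 4)` or `(4, 1)` for an imaginary quadratic
subfield of its centre (if its dimension is five): the sum of the values over a half of the weights,
with multiplicities `idx D w`, is `3/2` or `-3/2`. -/
def Sig14 (D : Subgroup G) (c : G) (w : G → ℚ) : Prop :=
  ∃ ε : G →* ℤˣ, ε c = -1 ∧ (idx D w : ℚ) * |∑ x ∈ orb ε.ker w, x 1| = 3 / 2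

/-- The stabiliser of the pair `{w, -w}` is a maximal subgroup, or `G`: the totally real subfield of the centre
has no proper subfields. -/
def Prim (w : G → ℚ) : Prop :=
  ∀ H : Subgroup G, (∀ g, tr g w = w ∨ tr g w = -w → g ∈ H) →
    (∀ g ∈ H, tr g w = w ∨ tr g w = -w) ∨ H = ⊤

/-- `G` is 2-transitive on the pairs `{x, -x}`, `x` a translate of `w`: the Galois group of the totally real
subfield of the centre is 2-transitive. -/
def TwoTr (w : G → ℚ) : Prop :=
  ∀ x ∈ orb ⊤ w, ∀ y ∈ orb ⊤ w, x ≠ w → x ≠ -w → y ≠ w → y ≠ -w →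
    ∃ h, (tr h w = w ∨ tr h w = -w) ∧ (tr h x = y ∨ tr h x = -y)

/-- The weight of a simple factor of one of the following kinds. (i) The dimension is at most three. (ii) The dimension is
five, and the factor has not the signature `(1, 4)`. (iii) The centre `E` contains no imaginary quadratic
field, and the degree of `E` is twice an odd prime number, or the maximal totally real subfield of `E` has no
proper subfields, the degree of `E` is at least six and there is no odd relation between the conjugates of
the weight. (iv) The centre `E` has degree eight, the Galois group of the maximal totally real subfield of `E`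
is 2-transitive (`A_4` or `S_4`), and `E` contains no imaginary quadratic field or the dimension is four. -/
def IsFactor (D : Subgroup G) (c : G) (w : G → ℚ) : Prop :=
  dim2 D w ≤ 6 ∨ (dim2 D w = 10 ∧ ¬ Sig14 D c w) ∨
  (NoQ c w ∧ ((∃ ℓ : ℕ, ℓ.Prime ∧ ℓ ≠ 2 ∧ (orb ⊤ w).card = 2 * ℓ) ∨
    (Prim w ∧ 4 < (orb ⊤ w).card ∧
      ∀ n : (G → ℚ) → ℚ, IsRel (orb ⊤ w) n → ∀ x ∈ orb ⊤ w, n x = 0))) ∨
  ((orb ⊤ w).card = 8 ∧ TwoTr w ∧ (NoQ c w ∨ idx D w = 1))

open Classical in
/-- A set `X` of weights which satisfies one of the following conditions. (a) Each simple factor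
satisfies `IsFactor`, and two different factors whose orbits have more than four elements have
different Galois closures of the centres. (b) The dimensions of the different simple factors and one
supersingular elliptic curve have the sum at most five. (c) There is no odd rational relation. -/
def IsCluster (D : Subgroup G) (c : G) (X : Finset (G → ℚ)) : Prop :=
  ((∀ w ∈ X, IsFactor D c w) ∧
    ∀ b ∈ X, ∀ b' ∈ X, 4 < (orb ⊤ b).card → 4 < (orb ⊤ b').card → b' ∉ orb ⊤ b →
      core b ≠ core b') ∨
  ∑ w ∈ insert 0 X, idx D w ≤ 10 ∨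
  ∀ n : (G → ℚ) → ℚ, IsRel X n → ∀ w ∈ X, n w = 0

/-- The elements of `X` different from zero are the union of `G`-stable sets which satisfy `IsCluster` and
have linearly independent spans. -/
def HasClusters (D : Subgroup G) (c : G) (X : Finset (G → ℚ)) : Prop :=
  ∃ (m : ℕ) (Y : Fin m → Finset (G → ℚ)), (∀ j, ∀ w ∈ Y j, w ∈ X ∧ ∀ g, tr g w ∈ Y j) ∧
    (∀ w ∈ X, w = 0 ∨ ∃ j, w ∈ Y j) ∧
    (∀ v : Fin m → G → ℚ, (∀ j, v j ∈ Submodule.span ℚ (Y j : Set (G → ℚ))) →
      ∑ j, v j = 0 → ∀ j, v j = 0) ∧
    ∀ j, IsCluster D c (Y j)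

end Pool.Agent.AVG
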