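import Pool.Agent.AVG.DefsE

/-!
# AVG: definitions for products which share the elliptic curve with complex multiplication by `ℚ(√-3)`
-/

namespace Pool.Agent.AVG

open Finset Pool.Agent.AVF

variable {G : Type} [Group G] [Fintype G]

/-- The elements of `X` are weights of reductions of abelian varieties with complex multiplication, with reflex fields in
one extension `F(√-3)` of `ℚ`, `[F : ℚ] ≤ 6`: `B` is a subgroup of index at most twelve (the Galois group of `L` over
this field), normalised by `D`, and the elements of `X` are mean values over `D` of types which are invariant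
under left translations by `B`. -/
def HasReflex (D : Subgroup G) (c : G) (κ : G →* ℤˣ) (X : Finset (G → ℚ)) : Prop :=
  ∃ B : Subgroup G, B.index ≤ 12 ∧ c * c ∈ B ∧ (∀ b ∈ B, κ b = 1) ∧
    (∀ d ∈ D, ∀ b ∈ B, d * b * d⁻¹ ∈ B) ∧
    ∀ w ∈ X, ∃ f, IsType c f ∧ (∀ b ∈ B, ∀ g, f (b * g) = f g) ∧ avg D f = w

/-- A set `X` of weights of one of the following kinds. (i) The dimensions of the simple factors are at most three, and
different threefolds have different Galois closures of the centres. (ii) `HasReflex`. -/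
def IsShared (D : Subgroup G) (c : G) (κ : G →* ℤˣ) (X : Finset (G → ℚ)) : Prop :=
  ((∀ w ∈ X, dim2 D w ≤ 6) ∧
    ∀ b ∈ X, ∀ b' ∈ X, 4 < (orb ⊤ b).card → 4 < (orb ⊤ b').card → b' ∉ orb ⊤ b →
      core b ≠ core b') ∨
  HasReflex D c κ X

/-- The elements of `X` different from zero are the union of `G`-stable sets `Y j` which satisfy `IsCluster` or
`IsShared`. Their spans are linearly independent, except that those which satisfy `IsShared` may have
the multiples of `κ` in common. -/
def HasParts (D : Subgroup G) (c : G) (κ : G →* ℤˣ) (X : Finset (G → ℚ)) : Prop :=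
  ∃ (m : ℕ) (Y : Fin m → Finset (G → ℚ)), (∀ j, ∀ w ∈ Y j, w ∈ X ∧ ∀ g, tr g w ∈ Y j) ∧
    (∀ w ∈ X, w = 0 ∨ ∃ j, w ∈ Y j) ∧
    (∀ v : Fin m → G → ℚ, (∀ j, v j ∈ Submodule.span ℚ (Y j : Set (G → ℚ))) →
      ∑ j, v j = 0 → ∀ j, v j = 0 ∨ (IsShared D c κ (Y j) ∧ ∃ r : ℚ, v j = r • chi κ)) ∧
    ∀ j, IsCluster D c (Y j) ∨ IsShared D c κ (Y j)

end Pool.Agent.AVG
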