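import Pool.Agent.AVG.Alg

/-!
# AVG: the potential function for the dihedral group of order eight

`G' = DihedralGroup 4 × ℤˣ`, `c' = (r 2, -1)`, `κ' = snd`. For `n` in the dihedral group let `bet n` be the type with
`bet n (g, 1) = 1/2` if `g = n` and `-1/2` otherwise, `bet n (g, -1) = - bet n (r 2 * g, 1)`.
-/

set_option linter.unusedSectionVars false
set_option linter.unusedVariables false

namespace Pool.Agent.AVG

open Finset Pool.Agent.AVF DihedralGroup

/-- the group -/
abbrev DG := DihedralGroup 4 × ℤˣ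

/-- complex conjugation -/
def dc : DG := (r 2, -1)

/-- the character of the imaginary quadratic field -/
def dk : DG →* ℤˣ := MonoidHom.snd _ _

/-- the type of the line `n` -/
def bet (n : DihedralGroup 4) : DG → ℚ := fun x =>
  if x.2 = 1 then (if x.1 = n then 1 / 2 else -(1 / 2)) else
    (if r 2 * x.1 = n then -(1 / 2) else 1 / 2)

theorem dc_comm : ∀ g : DG, dc * g = g * dc := by
  decide

theorem dk_dc : dk dc = -1 := rfl

private theorem dih_rr (a : DihedralGroup 4) : r 2 * (r 2 * a) = a := by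
  revert a; decide

private theorem dih_unit (u : ℤˣ) : u = 1 ∨ u = -1 := Int.units_eq_one_or u

private theorem dih_bet_one (n a : DihedralGroup 4) :
    bet n (a, 1) = if a = n then 1 / 2 else -(1 / 2) := by
  simp [bet]

private theorem dih_bet_neg (n a : DihedralGroup 4) :
    bet n (a, -1) = if r 2 * a = n then -(1 / 2) else 1 / 2 := by
  simp [bet]

theorem isType_bet (n : DihedralGroup 4) : IsType dc (bet n) := by
  constructor
  · rintro ⟨a, u⟩
    rcases dih_unit u with rfl | rfl
    · have h : dc * ((a, 1) : DG) = (r 2 * a, -1) := rfl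
      rw [h, dih_bet_neg, dih_bet_one, dih_rr]
      split_ifs <;> ring
    · have h : dc * ((a, -1) : DG) = (r 2 * a, 1) := rfl
      rw [h, dih_bet_neg, dih_bet_one]
      split_ifs <;> ring
  · rintro ⟨a, u⟩
    rcases dih_unit u with rfl | rfl
    · rw [dih_bet_one]
      split_ifs
      · exact Or.inl rfl
      · exact Or.inr rfl
    · rw [dih_bet_neg]
      split_ifs
      · exact Or.inr rfl
      · exact Or.inl rfl

private theorem dih_tr_bet (n : DihedralGroup 4) (h : DG) (hh : dk h = 1) :
    tr h (bet n) = bet (n * h.1⁻¹) := by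
  obtain ⟨b, v⟩ := h
  have hv : v = 1 := hh
  subst hv
  funext x
  obtain ⟨a, u⟩ := x
  rw [tr_apply]
  have e : ((a, u) : DG) * (b, 1) = (a * b, u) := by
    rw [Prod.mk_mul_mk, mul_one]
  rw [e]
  rcases dih_unit u with rfl | rfl
  · rw [dih_bet_one, dih_bet_one]
    simp only [eq_mul_inv_iff_mul_eq]
  · rw [dih_bet_neg, dih_bet_neg]
    simp only [eq_mul_inv_iff_mul_eq, mul_assoc]

private theorem dih_tr_chi (h : DG) (hh : dk h = 1) : tr h (chi dk) = chi dk := by
  funext x
  rw [tr_apply]
  unfold chi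
  rw [map_mul, hh, mul_one]

private theorem dih_bet_inj {n m : DihedralGroup 4} (h : bet n = bet m) : n = m := by
  have h1 := congrFun h (n, 1)
  rw [dih_bet_one, dih_bet_one, if_pos rfl] at h1
  by_contra hn
  rw [if_neg hn] at h1
  norm_num at h1

private theorem dih_rule {T : Finset (DG → ℚ)} (hT : ∀ f ∈ T, IsType dc f)
    (hK : ∀ h, dk h = 1 → ∀ f ∈ T, tr h f ∈ T) (hn : T.card ≤ 9)
    (h1 : ∑ f ∈ T, (f 1 + 1 / 2) = 1) {x y : DG → ℚ} (hx : x ∈ T) (hy : y ∈ T) (hxy : x ≠ y) :
    sg x + sg y + sg (chi dk) - sg (x + y + chi dk) ∈ R0 dc dk := by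
  have h := (Cls.surf dk_dc T hT hK hn h1 x y hx hy hxy).mem
  have e : net ({x, y, chi dk, -(x + y + chi dk)} : Multiset (DG → ℚ)) =
      sg x + sg y + sg (chi dk) - sg (x + y + chi dk) := by
    rw [net_eq_sum]
    simp only [Multiset.insert_eq_cons, Multiset.map_cons, Multiset.map_singleton,
      Multiset.sum_cons, Multiset.sum_singleton, sg_neg]
    abel
  rw [e] at h
  exact h

open Classical in
private theorem dih_sum_bet : ∑ f ∈ univ.image bet, (f 1 + 1 / 2) = 1 := by
  rw [sum_image (fun a _ b _ e => dih_bet_inj e)]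
  have h2 : ∀ a : DihedralGroup 4, bet a 1 + 1 / 2 = if a = 1 then (1 : ℚ) else 0 := by
    intro a
    have e1 : (1 : DG) = (1, 1) := rfl
    rw [e1, dih_bet_one]
    by_cases ha : a = 1
    · rw [if_pos ha.symm, if_pos ha]; norm_num
    · rw [if_neg (Ne.symm ha), if_neg ha]; norm_num
  rw [sum_congr rfl fun a _ => h2 a]
  simp

/-- rule `surf` for `T = {bet n}` (eight elements, stable because `tr (h, 1) (bet n) = bet (n * h⁻¹)`) -/
theorem bet_two {n m : DihedralGroup 4} (h : n ≠ m) :
    sg (bet n) + sg (bet m) + sg (chi dk) - sg (bet n + bet m + chi dk) ∈ R0 dc dk := by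
  classical
  refine dih_rule (T := univ.image bet) ?_ ?_ ?_ ?_ (mem_image_of_mem _ (mem_univ _))
    (mem_image_of_mem _ (mem_univ _)) (fun e => h (dih_bet_inj e))
  · intro f hf
    obtain ⟨a, -, rfl⟩ := mem_image.1 hf
    exact isType_bet a
  · intro k hk f hf
    obtain ⟨a, -, rfl⟩ := mem_image.1 hf
    rw [dih_tr_bet a k hk]
    exact mem_image_of_mem _ (mem_univ _)
  · refine card_image_le.trans ?_
    have : Fintype.card (DihedralGroup 4) = 8 := by decide
    rw [card_univ, this]
    norm_num
  · exact dih_sum_bet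

/-- the type of a right coset of `{1, sr j}` -/
private def dih_co (j i : ZMod 4) : DG → ℚ := bet (r i) + bet (sr j * r i) + chi dk

private theorem dih_ne (i j : ZMod 4) : (r i : DihedralGroup 4) ≠ sr j * r i := by
  revert i j; decide

private theorem dih_co_val (j i a : ZMod 4) :
    dih_co j i (r a, 1) = if a = i then 1 / 2 else -(1 / 2) := by
  unfold dih_co
  rw [Pi.add_apply, Pi.add_apply, dih_bet_one, dih_bet_one]
  have h1 : (r a : DihedralGroup 4) ≠ sr j * r i := by
    revert a i j; decide
  have h2 : chi dk ((r a, 1) : DG) = 1 / 2 := by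
    show (((1 : ℤˣ) : ℤ) : ℚ) / 2 = 1 / 2
    norm_num
  rw [if_neg h1, h2]
  by_cases ha : a = i
  · subst ha
    rw [if_pos rfl, if_pos rfl]; norm_num
  · have h3 : (r a : DihedralGroup 4) ≠ r i := fun e => ha (by injection e)
    rw [if_neg h3, if_neg ha]; norm_num

private theorem dih_co_inj (j : ZMod 4) {i k : ZMod 4} (h : dih_co j i = dih_co j k) : i = k := by
  have h1 := congrFun h (r i, 1)
  rw [dih_co_val, dih_co_val, if_pos rfl] at h1
  by_contra hn
  rw [if_neg hn] at h1
  norm_num at h1

private theorem dih_co_tr (j i : ZMod 4) (h : DG) (hh : dk h = 1) :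
    ∃ k, tr h (dih_co j i) = dih_co j k := by
  unfold dih_co
  rw [tr_add, tr_add, dih_tr_bet _ h hh, dih_tr_bet _ h hh, dih_tr_chi h hh]
  generalize h.1⁻¹ = b
  have key : ∃ k : ZMod 4, (r i * b = r k ∧ sr j * r i * b = sr j * r k) ∨
      (r i * b = sr j * r k ∧ sr j * r i * b = r k) := by
    revert i j b; decide
  obtain ⟨k, ⟨e1, e2⟩ | ⟨e1, e2⟩⟩ := key
  · exact ⟨k, by rw [e1, e2]⟩
  · exact ⟨k, by rw [e1, e2, add_comm (bet (sr j * r k))]⟩

/-- rule `surf` for `T = {bet n + bet (sr j * n) + chi}` with `n = r i`, `i = 0, 1, 2, 3` (four elements, one for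
each right coset of `{1, sr j}`), stable under `tr (h, 1)`. -/
theorem bet_four (j : ZMod 4) {i k : ZMod 4} (h : i ≠ k) :
    sg (bet (r i) + bet (sr j * r i) + chi dk) + sg (bet (r k) + bet (sr j * r k) + chi dk) +
      sg (chi dk) - sg (bet (r i) + bet (sr j * r i) + bet (r k) + bet (sr j * r k) +
        (3 : ℚ) • chi dk) ∈ R0 dc dk := by
  classical
  have hmain : sg (dih_co j i) + sg (dih_co j k) + sg (chi dk) -
      sg (dih_co j i + dih_co j k + chi dk) ∈ R0 dc dk := by
    refine dih_rule (T := univ.image (dih_co j)) ?_ ?_ ?_ ?_ (mem_image_of_mem _ (mem_univ _))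
      (mem_image_of_mem _ (mem_univ _)) (fun e => h (dih_co_inj j e))
    · intro f hf
      obtain ⟨a, -, rfl⟩ := mem_image.1 hf
      refine surf_type (T := univ.image bet) dc_comm dk_dc ?_ ?_ ?_
        (mem_image_of_mem _ (mem_univ _)) (mem_image_of_mem _ (mem_univ _)) ?_
      · intro f hf
        obtain ⟨a, -, rfl⟩ := mem_image.1 hf
        exact isType_bet a
      · intro k hk f hf
        obtain ⟨a, -, rfl⟩ := mem_image.1 hf
        rw [dih_tr_bet a k hk]
        exact mem_image_of_mem _ (mem_univ _)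
      · exact dih_sum_bet
      · intro e
        exact dih_ne a j (dih_bet_inj e)
    · intro g hg f hf
      obtain ⟨a, -, rfl⟩ := mem_image.1 hf
      obtain ⟨b, hb⟩ := dih_co_tr j a g hg
      rw [hb]
      exact mem_image_of_mem _ (mem_univ _)
    · refine card_image_le.trans ?_
      have : Fintype.card (ZMod 4) = 4 := by decide
      rw [card_univ, this]
      norm_num
    · rw [sum_image (fun a _ b _ e => dih_co_inj j e)]
      have h2 : ∀ a : ZMod 4, dih_co j a 1 + 1 / 2 = if a = 0 then (1 : ℚ) else 0 := by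
        intro a
        have e1 : (1 : DG) = (r 0, 1) := rfl
        rw [e1, dih_co_val]
        by_cases ha : a = 0
        · rw [if_pos ha.symm, if_pos ha]; norm_num
        · rw [if_neg (Ne.symm ha), if_neg ha]; norm_num
      rw [sum_congr rfl fun a _ => h2 a]
      simp
  have e : dih_co j i + dih_co j k + chi dk =
      bet (r i) + bet (sr j * r i) + bet (r k) + bet (sr j * r k) + (3 : ℚ) • chi dk := by
    unfold dih_co
    funext x
    simp only [Pi.add_apply, Pi.smul_apply, smul_eq_mul]
    ring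
  rw [e] at hmain
  exact hmain

end Pool.Agent.AVG
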