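import Pool.Agent.AVG.Dih

/-!
# AVG: all relations between the types of a dihedral octic field

Plan. `type_refl`: an odd function on the dihedral group with the values `1/2`, `-1/2` is left invariant under
a reflection `sr j`, and it is `1/2` on exactly two of the four rotations (finite check: the function is
given by the four signs `F (r 0), F (r 1), F (sr 0), F (sr 1)`; for instance transport to `Bool` and `decide`, or `j` with
`F (sr j) = F (r 0)` and `F (sr (j+1)) = F (r 1)`).
`pot`: so `F ∘ fst = bet (r i) + bet (sr j * r i) + bet (r k) + bet (sr j * r k) + 3 chi`, and by `bet_four`, `bet_two` twice,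
`sg (F ∘ fst)` is, modulo `R0`, the sum of `sg (bet x)` over the four `x` with `F x = 1/2` plus `3 sg chi`.
`dih_sum`: let `S` have `m` elements; `S.sum = 0` shows that for every `x` exactly half of the elements of `S` are `1/2`
at `x`; so `m = 2 k` and modulo `R0` the net multiplicity is `k (∑_x sg (bet x) + 6 sg chi)`; by `pot` for `F` and for `-F`
and `sg (-F) = - sg F`, `∑_x sg (bet x) + 6 sg chi ∈ R0` (`S = 0` is trivial).
-/

set_option linter.unusedSectionVars false
set_option linter.unusedVariables false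

namespace Pool.Agent.AVG

open Finset Pool.Agent.AVF DihedralGroup

private def dihb_f (a b c d : Bool) : DihedralGroup 4 → Bool
  | r i => if i = 0 then a else if i = 1 then b else if i = 2 then !a else !b
  | sr i => if i = 0 then c else if i = 1 then d else if i = 2 then !c else !d

private theorem dihb_dec : ∀ a b c d : Bool, ∃ j i k : ZMod 4, i ≠ k ∧ ∀ x : DihedralGroup 4,
    dihb_f a b c d x = true ↔ x = r i ∨ x = sr j * r i ∨ x = r k ∨ x = sr j * r k := by
  decide +kernel

private theorem dihb_s (s : DihedralGroup 4 → Bool) (hs : ∀ x, s (r 2 * x) = !s x) :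
    s = dihb_f (s (r 0)) (s (r 1)) (s (sr 0)) (s (sr 1)) := by
  have h1 : s (r 2) = !s (r 0) := by
    rw [← hs]
    exact congrArg s (by decide)
  have h2 : s (r 3) = !s (r 1) := by
    rw [← hs]
    exact congrArg s (by decide)
  have h3 : s (sr 2) = !s (sr 0) := by
    rw [← hs]
    exact congrArg s (by decide)
  have h4 : s (sr 3) = !s (sr 1) := by
    rw [← hs]
    exact congrArg s (by decide)
  funext x
  have hz : ∀ i : ZMod 4, i = 0 ∨ i = 1 ∨ i = 2 ∨ i = 3 := by decide
  rcases x with i | i
  · rcases hz i with h | h | h | h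
    · subst h; rfl
    · subst h; rfl
    · subst h; exact h1
    · subst h; exact h2
  · rcases hz i with h | h | h | h
    · subst h; rfl
    · subst h; rfl
    · subst h; exact h3
    · subst h; exact h4

private theorem dihb_refl {F : DihedralGroup 4 → ℚ} (hF : IsType (r 2) F) :
    ∃ j i k : ZMod 4, i ≠ k ∧ ∀ x : DihedralGroup 4,
      F x = 1 / 2 ↔ x = r i ∨ x = sr j * r i ∨ x = r k ∨ x = sr j * r k := by
  obtain ⟨j, i, k, hik, h⟩ := dihb_dec (decide (F (r 0) = 1 / 2)) (decide (F (r 1) = 1 / 2))
    (decide (F (sr 0) = 1 / 2)) (decide (F (sr 1) = 1 / 2))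
  refine ⟨j, i, k, hik, fun x => ?_⟩
  rw [← h x]
  have h1 := congrFun (dihb_s (fun x => decide (F x = 1 / 2)) (by
    intro x
    rw [hF.1 x]
    rcases hF.2 x with hx | hx
    · rw [hx]
      norm_num
    · rw [hx]
      norm_num)) x
  rw [← h1]
  simp

private theorem dihb_card {F : DihedralGroup 4 → ℚ} {j i k : ZMod 4} (hik : i ≠ k)
    (h : ∀ x : DihedralGroup 4,
      F x = 1 / 2 ↔ x = r i ∨ x = sr j * r i ∨ x = r k ∨ x = sr j * r k)
    {M : Type} [AddCommMonoid M] (f : DihedralGroup 4 → M) :
    ∑ x ∈ univ.filter (fun x => F x = 1 / 2), f x =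
      f (r i) + (f (sr j * r i) + (f (r k) + f (sr j * r k))) := by
  have h1 : univ.filter (fun x => F x = 1 / 2) =
      {r i, sr j * r i, r k, sr j * r k} := by
    ext x
    rw [mem_filter, h x]
    simp only [mem_univ, true_and, mem_insert, mem_singleton]
  have hn1 : r i ∉ ({sr j * r i, r k, sr j * r k} : Finset (DihedralGroup 4)) := by
    simp [hik]
  have hn2 : sr j * r i ∉ ({r k, sr j * r k} : Finset (DihedralGroup 4)) := by
    simp [hik]
  have hn3 : r k ∉ ({sr j * r k} : Finset (DihedralGroup 4)) := by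
    simp
  rw [h1, sum_insert hn1, sum_insert hn2, sum_insert hn3, sum_singleton]

private theorem dihb_eq {F : DihedralGroup 4 → ℚ} (hF : IsType (r 2) F) :
    (fun x : DG => F x.1) =
      ∑ x ∈ univ.filter (fun x => F x = 1 / 2), bet x + (3 : ℚ) • chi dk := by
  obtain ⟨j, i, k, hik, h⟩ := dihb_refl hF
  have hc : ((univ.filter (fun x => F x = 1 / 2)).card : ℚ) = 4 := by
    have h1 := dihb_card hik h (fun _ => (1 : ℚ))
    rw [sum_const, nsmul_eq_mul, mul_one] at h1
    rw [h1]
    norm_num
  have hb1 : ∀ n g : DihedralGroup 4, bet n (g, 1) = (if g = n then 1 else 0) - 1 / 2 := by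
    intro n g
    unfold bet
    rw [if_pos rfl]
    show (if g = n then (1 / 2 : ℚ) else -(1 / 2)) = _
    split_ifs <;> norm_num
  have hb2 : ∀ n g : DihedralGroup 4, bet n (g, -1) =
      1 / 2 - (if r 2 * g = n then 1 else 0) := by
    intro n g
    have h0 : ¬ (((g, -1) : DG).2 = 1) := by
      show ¬ ((-1 : ℤˣ) = 1)
      decide
    unfold bet
    rw [if_neg h0]
    show (if r 2 * g = n then (-(1 / 2) : ℚ) else 1 / 2) = _
    split_ifs <;> norm_num
  have hm : ∀ g, (if g ∈ univ.filter (fun x => F x = 1 / 2) then (1 : ℚ) else 0) =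
      F g + 1 / 2 := by
    intro g
    rcases hF.2 g with hg | hg
    · have h1 : g ∈ univ.filter (fun x => F x = 1 / 2) := by
        rw [mem_filter]
        exact ⟨mem_univ _, hg⟩
      rw [if_pos h1, hg]
      norm_num
    · have h1 : g ∉ univ.filter (fun x => F x = 1 / 2) := by
        rw [mem_filter]
        rintro ⟨-, h⟩
        rw [hg] at h
        norm_num at h
      rw [if_neg h1, hg]
      norm_num
  funext x
  obtain ⟨g, e⟩ := x
  show F g = (∑ x ∈ univ.filter (fun x => F x = 1 / 2), bet x) (g, e) + 3 * chi dk (g, e)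
  rw [Finset.sum_apply]
  rcases Int.units_eq_one_or e with he | he
  · subst he
    simp only [hb1]
    rw [sum_sub_distrib, sum_ite_eq, sum_const, nsmul_eq_mul, hc, hm]
    have h2 : chi dk ((g, 1) : DG) = 1 / 2 := by
      show ((((1 : ℤˣ) : ℤ) : ℚ)) / 2 = 1 / 2
      norm_num
    rw [h2]
    ring
  · subst he
    simp only [hb2]
    rw [sum_sub_distrib, sum_ite_eq, sum_const, nsmul_eq_mul, hc, hm, hF.1]
    have h2 : chi dk ((g, -1) : DG) = -(1 / 2) := by
      show ((((-1 : ℤˣ) : ℤ) : ℚ)) / 2 = -(1 / 2)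
      norm_num
    rw [h2]
    ring

theorem pot {F : DihedralGroup 4 → ℚ} (hF : IsType (r 2) F) :
    sg (fun x : DG => F x.1) - (∑ x ∈ univ.filter (fun x => F x = 1 / 2), sg (bet x) +
      (3 : ℤ) • sg (chi dk)) ∈ R0 dc dk := by
  obtain ⟨j, i, k, hik, h⟩ := dihb_refl hF
  have e1 := dihb_eq hF
  rw [dihb_card hik h] at e1
  rw [dihb_card hik h]
  have e2 : (fun x : DG => F x.1) = bet (r i) + bet (sr j * r i) + bet (r k) +
      bet (sr j * r k) + (3 : ℚ) • chi dk := by
    rw [e1]
    abel
  rw [e2]
  have h1 := bet_four j hik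
  have h2 : sg (bet (r i)) + sg (bet (sr j * r i)) + sg (chi dk) -
      sg (bet (r i) + bet (sr j * r i) + chi dk) ∈ R0 dc dk := bet_two (by simp)
  have h3 : sg (bet (r k)) + sg (bet (sr j * r k)) + sg (chi dk) -
      sg (bet (r k) + bet (sr j * r k) + chi dk) ∈ R0 dc dk := bet_two (by simp)
  have h4 := neg_mem (add_mem (add_mem h1 h2) h3)
  convert h4 using 1
  abel

open Classical in
private noncomputable def dihb_c (S : Multiset (DihedralGroup 4 → ℚ)) (x : DihedralGroup 4) : ℤ :=
  (S.map fun F => if F x = 1 / 2 then (1 : ℤ) else 0).sum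

private theorem dihb_sum {S : Multiset (DihedralGroup 4 → ℚ)} (hS : ∀ F ∈ S, IsType (r 2) F)
    (x : DihedralGroup 4) : S.sum x = (dihb_c S x : ℚ) - (S.card : ℚ) / 2 := by
  classical
  induction S using Multiset.induction_on with
  | empty => simp [dihb_c]
  | cons F S ih =>
    have h1 := ih fun F hF => hS F (Multiset.mem_cons_of_mem hF)
    have h2 : dihb_c (F ::ₘ S) x = (if F x = 1 / 2 then (1 : ℤ) else 0) + dihb_c S x := by
      unfold dihb_c
      rw [Multiset.map_cons, Multiset.sum_cons]
    rw [Multiset.sum_cons, Multiset.card_cons, h2, Pi.add_apply, h1]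
    push_cast
    rcases (hS F (Multiset.mem_cons_self F S)).2 x with hx | hx
    · rw [if_pos hx, hx]
      ring
    · rw [if_neg (by rw [hx]; norm_num), hx]
      ring

private theorem dihb_net {S : Multiset (DihedralGroup 4 → ℚ)} (hS : ∀ F ∈ S, IsType (r 2) F) :
    net (S.map fun F => fun x : DG => F x.1) - (∑ x, dihb_c S x • sg (bet x) +
      (3 * (S.card : ℤ)) • sg (chi dk)) ∈ R0 dc dk := by
  classical
  induction S using Multiset.induction_on with
  | empty =>
    have h1 : ∀ x, dihb_c 0 x = 0 := fun x => by simp [dihb_c]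
    simp only [h1, Multiset.map_zero, net_zero', zero_smul, sum_const_zero, Multiset.card_zero,
      Nat.cast_zero, mul_zero, add_zero, sub_zero]
    exact zero_mem _
  | cons F S ih =>
    have h1 := ih fun F hF => hS F (Multiset.mem_cons_of_mem hF)
    have h2 := pot (hS F (Multiset.mem_cons_self F S))
    have h3 := add_mem h2 h1
    have h4 : ∀ x, dihb_c (F ::ₘ S) x = (if F x = 1 / 2 then (1 : ℤ) else 0) + dihb_c S x := by
      intro x
      unfold dihb_c
      rw [Multiset.map_cons, Multiset.sum_cons]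
    have h5 : ∑ x, dihb_c (F ::ₘ S) x • sg (bet x) =
        ∑ x ∈ univ.filter (fun x => F x = 1 / 2), sg (bet x) + ∑ x, dihb_c S x • sg (bet x) := by
      simp only [h4, add_smul, sum_add_distrib]
      congr 1
      rw [sum_filter]
      refine sum_congr rfl fun x _ => ?_
      split_ifs
      · rw [one_smul]
      · rw [zero_smul]
    have h6 : net ((F ::ₘ S).map fun F => fun x : DG => F x.1) =
        sg (fun x : DG => F x.1) + net (S.map fun F => fun x : DG => F x.1) := by
      rw [Multiset.map_cons, ← Multiset.singleton_add, net_add']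
      rfl
    have h7 : (3 * (((F ::ₘ S).card : ℕ) : ℤ)) • sg (chi dk) =
        (3 : ℤ) • sg (chi dk) + (3 * (S.card : ℤ)) • sg (chi dk) := by
      rw [Multiset.card_cons, ← add_smul]
      congr 1
      push_cast
      ring
    rw [h5, h6, h7]
    convert h3 using 1
    abel

private theorem dihb_all {F : DihedralGroup 4 → ℚ} (hF : IsType (r 2) F) :
    ∑ x, sg (bet x) + (6 : ℤ) • sg (chi dk) ∈ R0 dc dk := by
  have hF' : IsType (r 2) (-F) := by
    refine ⟨fun g => ?_, fun g => ?_⟩
    · rw [Pi.neg_apply, Pi.neg_apply, hF.1]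
    · rw [Pi.neg_apply]
      rcases hF.2 g with h | h
      · right
        rw [h]
      · left
        rw [h, neg_neg]
  have h1 := pot hF
  have h2 := pot hF'
  have h3 : sg (fun x : DG => (-F) x.1) = -sg (fun x : DG => F x.1) :=
    sg_neg (fun x : DG => F x.1)
  have h4 : univ.filter (fun x => (-F) x = 1 / 2) =
      univ.filter (fun x : DihedralGroup 4 => ¬ F x = 1 / 2) := by
    ext x
    simp only [mem_filter, mem_univ, true_and, Pi.neg_apply]
    rcases hF.2 x with h | h
    · rw [h]
      norm_num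
    · rw [h]
      norm_num
  rw [h3, h4] at h2
  have h5 := neg_mem (add_mem h1 h2)
  have h6 := sum_filter_add_sum_filter_not univ (fun x : DihedralGroup 4 => F x = 1 / 2)
    fun x => sg (bet x)
  rw [← h6]
  convert h5 using 1
  have h7 : (6 : ℤ) • sg (chi dk) = (3 : ℤ) • sg (chi dk) + (3 : ℤ) • sg (chi dk) := by
    rw [← add_smul]
    norm_num
  rw [h7]
  abel

theorem dih_sum {S : Multiset (DihedralGroup 4 → ℚ)} (hS : ∀ F ∈ S, IsType (r 2) F)
    (hs : S.sum = 0) : net (S.map fun F => fun x : DG => F x.1) ∈ R0 dc dk := by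
  rcases S.empty_or_exists_mem with h0 | ⟨F, hF⟩
  · rw [h0, Multiset.map_zero, net_zero']
    exact zero_mem _
  · have h1 := dihb_net hS
    have h2 : ∀ x, 2 * dihb_c S x = (S.card : ℤ) := by
      intro x
      have h3 := dihb_sum hS x
      rw [hs, Pi.zero_apply] at h3
      have h4 : (2 : ℚ) * (dihb_c S x : ℚ) = (S.card : ℚ) := by linarith
      exact_mod_cast h4
    have h3 : ∀ x, dihb_c S x = dihb_c S 1 := fun x => by
      have := h2 x
      have := h2 1
      omega
    have h4 : ∑ x, dihb_c S x • sg (bet x) + (3 * (S.card : ℤ)) • sg (chi dk) =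
        dihb_c S 1 • (∑ x, sg (bet x) + (6 : ℤ) • sg (chi dk)) := by
      rw [smul_add, smul_sum, smul_smul, ← h2 1]
      congr 1
      · exact sum_congr rfl fun x _ => by rw [h3 x]
      · congr 1
        ring
    rw [h4] at h1
    have h5 := add_mem h1 (zsmul_mem (dihb_all (hS F hF)) (dihb_c S 1))
    rwa [sub_add_cancel] at h5

end Pool.Agent.AVG
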