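import Pool.Agent.AVG.DihB
import Pool.Agent.AVG.Comap

/-!
# AVG: relations between types which come from a dihedral quotient

The homomorphism `g ↦ (φ g, κ g)` is surjective, and a multiset of types with sum zero is even.
-/

set_option linter.unusedSectionVars false
set_option linter.unusedVariables false

namespace Pool.Agent.AVG

open Finset Pool.Agent.AVF DihedralGroup

variable {G : Type} [Group G] [Fintype G] {D : Subgroup G} {c : G} {κ : G →* ℤˣ}

private theorem dihc_even {S : Multiset (DihedralGroup 4 → ℚ)} (hS : ∀ F ∈ S, IsType (r 2) F)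
    (hs : S.sum = 0) : Even S.card := by
  have h1 : ∀ T : Multiset (DihedralGroup 4 → ℚ), (∀ F ∈ T, IsType (r 2) F) →
      ∃ k : ℤ, T.sum 1 = (k : ℚ) + (T.card : ℚ) / 2 := by
    intro T
    induction T using Multiset.induction_on with
    | empty => exact fun _ => ⟨0, by simp⟩
    | cons F T ih =>
      intro hT
      obtain ⟨k, hk⟩ := ih fun F' hF' => hT F' (Multiset.mem_cons_of_mem hF')
      rcases (hT F (Multiset.mem_cons_self F T)).2 1 with h | h
      · refine ⟨k, ?_⟩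
        rw [Multiset.sum_cons, Pi.add_apply, hk, h, Multiset.card_cons]
        push_cast
        ring
      · refine ⟨k - 1, ?_⟩
        rw [Multiset.sum_cons, Pi.add_apply, hk, h, Multiset.card_cons]
        push_cast
        ring
  obtain ⟨k, hk⟩ := h1 S hS
  rw [hs, Pi.zero_apply] at hk
  have h2 : (S.card : ℚ) = ((-(2 * k) : ℤ) : ℚ) := by
    push_cast
    linarith
  have h3 : (S.card : ℤ) = -(2 * k) := by exact_mod_cast h2
  have h4 : Even (S.card : ℤ) := ⟨-k, by rw [h3]; ring⟩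
  exact_mod_cast h4

private theorem dihc_surj (hκ : κ c = -1) (φ : G →* DihedralGroup 4) (hφ : Function.Surjective φ)
    (hφc : φ c = r 2) : Function.Surjective (φ.prod κ) := by
  obtain ⟨a, ha⟩ := hφ (r 1)
  obtain ⟨b, hb⟩ := hφ (sr 0)
  have h1 : φ (a * b * a⁻¹ * b⁻¹) = r 2 := by
    rw [map_mul, map_mul, map_mul, map_inv, map_inv, ha, hb]
    decide
  have h2 : κ (a * b * a⁻¹ * b⁻¹) = 1 := by
    rw [map_mul, map_mul, map_mul, map_inv, map_inv, mul_right_comm (κ a) (κ b), mul_inv_cancel,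
      one_mul, mul_inv_cancel]
  have h3 : φ ((a * b * a⁻¹ * b⁻¹)⁻¹ * c) = 1 := by
    rw [map_mul, map_inv, h1, hφc, inv_mul_cancel]
  have h4 : κ ((a * b * a⁻¹ * b⁻¹)⁻¹ * c) = -1 := by
    rw [map_mul, map_inv, h2, hκ, inv_one, one_mul]
  rintro ⟨d, e⟩
  obtain ⟨g, hg⟩ := hφ d
  rcases eq_or_ne (κ g) e with h | h
  · exact ⟨g, Prod.ext hg h⟩
  · refine ⟨g * ((a * b * a⁻¹ * b⁻¹)⁻¹ * c), Prod.ext ?_ ?_⟩
    · show φ (g * ((a * b * a⁻¹ * b⁻¹)⁻¹ * c)) = d
      rw [map_mul, h3, mul_one, hg]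
    · show κ (g * ((a * b * a⁻¹ * b⁻¹)⁻¹ * c)) = e
      rw [map_mul, h4]
      rcases Int.units_eq_one_or (κ g) with h5 | h5 <;> rcases Int.units_eq_one_or e with h6 | h6
      · exact absurd (h5.trans h6.symm) h
      · rw [h5, h6, one_mul]
      · rw [h5, h6]
        decide
      · exact absurd (h5.trans h6.symm) h

private theorem dihc_type {S : Multiset (DihedralGroup 4 → ℚ)} (hS : ∀ F ∈ S, IsType (r 2) F) :
    ∀ f ∈ S.map (fun F => fun x : DG => F x.1), IsType dc f := by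
  intro f hf
  obtain ⟨F, hF, rfl⟩ := Multiset.mem_map.1 hf
  exact ⟨fun g => (hS F hF).1 g.1, fun g => (hS F hF).2 g.1⟩

theorem phi_sum (hκ : κ c = -1) (φ : G →* DihedralGroup 4) (hφ : Function.Surjective φ)
    (hφc : φ c = r 2) {S : Multiset (DihedralGroup 4 → ℚ)} (hS : ∀ F ∈ S, IsType (r 2) F)
    (hs : S.sum = 0) : net (S.map fun F => F ∘ φ) ∈ R0 c κ := by
  have h1 := comap_mem (κ' := dk) dc_comm (φ.prod κ) (dihc_surj hκ φ hφ hφc) (c := c)
    (Prod.ext hφc hκ) (dihc_type hS) (by rw [Multiset.card_map]; exact dihc_even hS hs)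
    (dih_sum hS hs)
  rw [Multiset.map_map] at h1
  have h2 : dk.comp (φ.prod κ) = κ := by
    ext g
    rfl
  rw [h2] at h1
  exact h1

/-- the reduction -/
theorem phi_red (hc : ∀ g, c * g = g * c) (hκ : κ c = -1) (φ : G →* DihedralGroup 4)
    (hφ : Function.Surjective φ)
    (hφc : φ c = r 2) {S : Multiset (DihedralGroup 4 → ℚ)} (hS : ∀ F ∈ S, IsType (r 2) F)
    (hs : S.sum = 0) : net (S.map fun F => avg D (F ∘ φ)) ∈ R D c κ := by
  have h1 : ∀ f ∈ S.map (fun F => F ∘ φ), IsType c f := by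
    intro f hf
    obtain ⟨F, hF, rfl⟩ := Multiset.mem_map.1 hf
    refine ⟨fun g => ?_, fun g => (hS F hF).2 (φ g)⟩
    show F (φ (c * g)) = - F (φ g)
    rw [map_mul, hφc]
    exact (hS F hF).1 (φ g)
  have h2 := red_mem (D := D) hc h1 (by rw [Multiset.card_map]; exact dihc_even hS hs)
    (phi_sum hκ φ hφ hφc hS hs)
  rw [Multiset.map_map] at h2
  exact h2

end Pool.Agent.AVG
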