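import Pool.Agent.AVG.Surf

/-!
# AVG: relations between surfaces, elliptic curves and the threefolds of slopes 1/3, 2/3

Plan. Strong induction on the cardinality of `S`. If `0 ∈ S` remove it (`sg 0 = 0`). If there is a `w ∈ S` with `(orb ⊤ w).card = 2`:
`AVF.exists_eps`, `AVF.val_of_idx`: `w = ±chi ε` or `w = ±(1/3) chi ε`. Let `S1` be the filter of `S` by
`x ∈ {chi ε, -chi ε, (1/3) chi ε, -(1/3) chi ε}`. `AVF.pr ε` is the identity on these (`pr_chi_self`, `pr_smul`), zero on the other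
elements of `S`: for orbits of four by `pr_mem_span`, `pr_semi`, `AVF.no_line`; for `±t chi ε'`, `ε' ≠ ε`, by `pr_chi_ne`. So
`S1.sum = pr ε S.sum = 0`. `net S1 = α sg (chi ε) + β sg ((1/3) chi ε)`, `S1.sum = (α + β/3) chi ε = 0`, `β = -3 α`, and
`3 sg ((1/3) chi ε) - sg (chi ε) ∈ R` by `Gen.split` for `{w, w, w, -chi ε}`, `w = (1/3) chi ε` (`idx D w = 3`; needed only if `β ≠ 0`, when
such a weight is in `S`, so that `idx D w = 3` and `ε = 1` on `D` are known).
`S2 = S.filter (not)` has sum zero and is smaller. If there is no such `w`: `surf_all`.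
-/

set_option linter.unusedSectionVars false
set_option linter.unusedVariables false

namespace Pool.Agent.AVG

open Finset Pool.Agent.AVF

variable {G : Type} [Group G] [Fintype G] {D : Subgroup G} {c : G} {κ : G →* ℤˣ}

/-- the four values on the line of `chi ε` -/
private def ell_Q (ε : G →* ℤˣ) (x : G → ℚ) : Prop :=
  x = chi ε ∨ x = -chi ε ∨ x = (1 / 3 : ℚ) • chi ε ∨ x = -((1 / 3 : ℚ) • chi ε)

private theorem ell_msum (ε : G →* ℤˣ) (S : Multiset (G → ℚ)) :
    pr ε S.sum = (S.map (pr ε)).sum := by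
  induction S using Multiset.induction_on with
  | empty => rw [Multiset.sum_zero, Multiset.map_zero, Multiset.sum_zero, pr_zero]
  | cons a T ih => rw [Multiset.sum_cons, Multiset.map_cons, Multiset.sum_cons, pr_add, ih]

private theorem ell_pr_neg (ε : G →* ℤˣ) (x : G → ℚ) : pr ε (-x) = -pr ε x := by
  have h := pr_smul ε (-1) x
  rw [neg_one_smul, neg_one_smul] at h
  exact h

private theorem ell_pr_Q {ε : G →* ℤˣ} {x : G → ℚ} (hx : ell_Q ε x) : pr ε x = x := by
  rcases hx with rfl | rfl | rfl | rfl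
  · exact pr_chi_self ε
  · rw [ell_pr_neg, pr_chi_self]
  · rw [pr_smul, pr_chi_self]
  · rw [ell_pr_neg, pr_smul, pr_chi_self]

private theorem ell_semi (ε : G →* ℤˣ) (v : G → ℚ) (h : G) :
    tr h (pr ε v) = pr ε v ∨ tr h (pr ε v) = -pr ε v := by
  rw [pr_semi]
  rcases Int.units_eq_one_or (ε h) with e | e
  · left
    rw [e]
    simp
  · right
    rw [e]
    simp

private theorem ell_Q_of {ε : G →* ℤˣ} {x : G → ℚ} (hx : x = (2 * x 1) • chi ε)
    (h : (x 1 = 1 / 2 ∨ x 1 = -(1 / 2)) ∨ (x 1 = 1 / 6 ∨ x 1 = -(1 / 6))) : ell_Q ε x := by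
  rcases h with (h | h) | (h | h)
  · left
    rw [h] at hx
    rw [hx]
    norm_num
  · right; left
    rw [h] at hx
    rw [hx]
    norm_num
  · right; right; left
    rw [h] at hx
    rw [hx]
    norm_num
  · right; right; right
    rw [h] at hx
    rw [hx, ← neg_smul]
    norm_num

private theorem ell_two (hc : ∀ g, c * g = g * c) {x : G → ℚ} (hx : IsWeight D c x) (h0 : x ≠ 0)
    (h2 : (orb ⊤ x).card = 2) (hi : idx D x = 1 ∨ idx D x = 3) :
    ∃ ε : G →* ℤˣ, ε c = -1 ∧ (∀ d ∈ D, ε d = 1) ∧ ell_Q ε x ∧ x = (2 * x 1) • chi ε := by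
  obtain ⟨ε, h1, h3, h4⟩ := exists_eps hc hx h0 h2
  refine ⟨ε, h1, h3, ell_Q_of h4 ?_, h4⟩
  rcases hi with h | h
  · exact Or.inl ((val_of_idx hc hx h0 h2).1 h)
  · exact Or.inr ((val_of_idx hc hx h0 h2).2.2.1 h)

private theorem ell_pr_zero (hc : ∀ g, c * g = g * c) {ε : G →* ℤˣ} {x : G → ℚ}
    (hx : IsWeight D c x) (hS : x = 0 ∨ ((orb ⊤ x).card = 2 ∧ (idx D x = 1 ∨ idx D x = 3)) ∨
      ((orb ⊤ x).card = 4 ∧ idx D x = 1)) (hQ : ¬ ell_Q ε x) : pr ε x = 0 := by
  by_cases h0 : x = 0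
  · rw [h0, pr_zero]
  rcases hS with h | ⟨h2, hi⟩ | ⟨h4, hi⟩
  · exact absurd h h0
  · obtain ⟨ε', -, -, h5, h6⟩ := ell_two hc hx h0 h2 hi
    have hne : ε ≠ ε' := by
      rintro rfl
      exact hQ h5
    rw [h6, pr_smul, pr_chi_ne hne, smul_zero]
  · exact no_line hc hx h0 h4 hi (pr_mem_span ε x (Submodule.subset_span (self_mem_orb ⊤ x)))
      (ell_semi ε x)

private theorem ell_sg_cons (a : G → ℚ) (T : Multiset (G → ℚ)) :
    net (a ::ₘ T) = sg a + net T := by
  rw [← Multiset.singleton_add, net_add']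
  rfl

private theorem ell_net {ε : G →* ℤˣ} (S : Multiset (G → ℚ)) :
    (∀ x ∈ S, ell_Q ε x) → ∃ α β : ℤ,
      net S = α • sg (chi ε) + β • sg ((1 / 3 : ℚ) • chi ε) ∧
      S.sum = ((α : ℚ) + (β : ℚ) / 3) • chi ε ∧
      (β ≠ 0 → (1 / 3 : ℚ) • chi ε ∈ S ∨ -((1 / 3 : ℚ) • chi ε) ∈ S) := by
  induction S using Multiset.induction_on with
  | empty =>
    intro _
    refine ⟨0, 0, ?_, ?_, fun h => absurd rfl h⟩
    · rw [net_zero', zero_smul, zero_smul, add_zero]
    · rw [Multiset.sum_zero]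
      simp
  | cons a T ih =>
    intro h
    obtain ⟨α, β, h1, h2, h3⟩ := ih fun x hx => h x (Multiset.mem_cons_of_mem hx)
    rcases h a (Multiset.mem_cons_self a T) with rfl | rfl | rfl | rfl
    · refine ⟨α + 1, β, ?_, ?_, fun hb => ?_⟩
      · rw [ell_sg_cons, h1, add_smul, one_smul]
        abel
      · rw [Multiset.sum_cons, h2]
        push_cast
        module
      · rcases h3 hb with h4 | h4
        · exact Or.inl (Multiset.mem_cons_of_mem h4)
        · exact Or.inr (Multiset.mem_cons_of_mem h4)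
    · refine ⟨α - 1, β, ?_, ?_, fun hb => ?_⟩
      · rw [ell_sg_cons, h1, sg_neg, sub_smul, one_smul]
        abel
      · rw [Multiset.sum_cons, h2]
        push_cast
        module
      · rcases h3 hb with h4 | h4
        · exact Or.inl (Multiset.mem_cons_of_mem h4)
        · exact Or.inr (Multiset.mem_cons_of_mem h4)
    · refine ⟨α, β + 1, ?_, ?_, fun hb => Or.inl (Multiset.mem_cons_self _ T)⟩
      · rw [ell_sg_cons, h1, add_smul, one_smul]
        abel
      · rw [Multiset.sum_cons, h2]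
        push_cast
        module
    · refine ⟨α, β - 1, ?_, ?_, fun hb => Or.inr (Multiset.mem_cons_self _ T)⟩
      · rw [ell_sg_cons, h1, sg_neg, sub_smul, one_smul]
        abel
      · rw [Multiset.sum_cons, h2]
        push_cast
        module

private theorem ell_third_one (ε : G →* ℤˣ) : ((1 / 3 : ℚ) • chi ε) 1 = 1 / 6 := by
  rw [Pi.smul_apply, chi_one, smul_eq_mul]
  norm_num

private theorem ell_third_ne (ε : G →* ℤˣ) : (1 / 3 : ℚ) • chi ε ≠ 0 := by
  intro h
  have h1 := ell_third_one ε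
  rw [h, Pi.zero_apply] at h1
  norm_num at h1

private theorem ell_third_ne_neg (ε : G →* ℤˣ) : (1 / 3 : ℚ) • chi ε ≠ -chi ε := by
  intro h
  have h1 := ell_third_one ε
  rw [h, Pi.neg_apply, chi_one] at h1
  norm_num at h1

private theorem ell_third_weight {ε : G →* ℤˣ} (hε : ε c = -1) (hD : ∀ d ∈ D, ε d = 1) :
    IsWeight D c ((1 / 3 : ℚ) • chi ε) := by
  have hw := isWeight_chi hε hD
  refine ⟨fun d hd g => ?_, fun g => ?_, fun g => ?_⟩
  · rw [Pi.smul_apply, Pi.smul_apply, hw.1 d hd g]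
  · rw [Pi.smul_apply, Pi.smul_apply, hw.2.1 g, smul_neg]
  · rw [Pi.smul_apply, smul_eq_mul, abs_mul]
    have h1 := hw.2.2 g
    have h2 : |(1 / 3 : ℚ)| = 1 / 3 := by norm_num [abs_div]
    rw [h2]
    linarith [abs_nonneg (chi ε g)]

private theorem ell_third_card {ε : G →* ℤˣ} (hε : ε c = -1) :
    (orb ⊤ ((1 / 3 : ℚ) • chi ε)).card = 2 := by
  classical
  have h : orb ⊤ ((1 / 3 : ℚ) • chi ε) = (orb ⊤ (chi ε)).image fun x => (1 / 3 : ℚ) • x := by
    ext y
    rw [mem_orb_top, mem_image]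
    constructor
    · rintro ⟨h, rfl⟩
      exact ⟨tr h (chi ε), mem_orb_top.2 ⟨h, rfl⟩, rfl⟩
    · rintro ⟨x, hx, rfl⟩
      obtain ⟨h, rfl⟩ := mem_orb_top.1 hx
      exact ⟨h, rfl⟩
  rw [h, card_image_of_injective _ (smul_right_injective _ (by norm_num)), card_orb_chi hε]

private theorem ell_three {ε : G →* ℤˣ} (hε : ε c = -1) (hD : ∀ d ∈ D, ε d = 1)
    (hi : idx D ((1 / 3 : ℚ) • chi ε) = 3) :
    (3 : ℤ) • sg ((1 / 3 : ℚ) • chi ε) - sg (chi ε) ∈ R D c κ := by
  obtain ⟨w, hw⟩ : ∃ w : G → ℚ, w = (1 / 3 : ℚ) • chi ε := ⟨_, rfl⟩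
  have hww : IsWeight D c w := by rw [hw]; exact ell_third_weight hε hD
  have hcw : IsWeight D c (-chi ε) := (isWeight_chi hε hD).neg
  have hne : w ≠ -chi ε := by rw [hw]; exact ell_third_ne_neg ε
  have hw1 : w 1 = 1 / 6 := by rw [hw]; exact ell_third_one ε
  rw [← hw] at hi ⊢
  have hG : Gen D c (w ::ₘ w ::ₘ w ::ₘ {-chi ε}) := by
    refine Gen.split ε hε hD _ ?_ ?_ ?_ ?_ (Or.inl rfl)
    · intro x hx
      simp only [Multiset.mem_cons, Multiset.mem_singleton] at hx
      rcases hx with rfl | rfl | rfl | rfl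
      · exact hww
      · exact hww
      · exact hww
      · exact hcw
    · intro h hh
      have h1 : tr h (chi ε) = chi ε := by rw [tr_chi, hh]; simp
      have h2 : tr h w = w := by rw [hw, tr_smul, h1]
      have h3 : tr h (-chi ε) = -chi ε := by rw [tr_neg, h1]
      simp only [Multiset.map_cons, Multiset.map_singleton, h2, h3]
    · intro x hx
      simp only [Multiset.mem_cons, Multiset.mem_singleton] at hx
      have hxx : x = w ∨ x = -chi ε := by tauto
      rcases hxx with rfl | rfl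
      · rw [hi, Multiset.count_cons_self, Multiset.count_cons_self, Multiset.count_cons_self,
          Multiset.count_singleton, if_neg hne]
      · have h1 : idx D (-chi ε) = 1 := by
          have h2 : -chi ε = tr c (chi ε) := by rw [tr_chi, hε]; simp
          rw [h2, idx_tr, idx_chi hD]
        rw [h1]
        exact one_dvd _
    · simp only [Multiset.map_cons, Multiset.map_singleton, Multiset.sum_cons,
        Multiset.sum_singleton, Pi.neg_apply, chi_one, hw1]
      norm_num
  have h1 := (Gen2.weil (κ := κ) hG).mem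
  have h2 : net (w ::ₘ w ::ₘ w ::ₘ {-chi ε}) = (3 : ℤ) • sg w - sg (chi ε) := by
    rw [ell_sg_cons, ell_sg_cons, ell_sg_cons]
    have h3 : net ({-chi ε} : Multiset (G → ℚ)) = - sg (chi ε) := sg_neg (chi ε)
    rw [h3]
    have h4 : (3 : ℤ) • sg w = sg w + sg w + sg w := by
      rw [show (3 : ℤ) = 1 + 1 + 1 by norm_num, add_smul, add_smul, one_smul]
    rw [h4]
    abel
  rw [h2] at h1
  exact h1

private theorem ell_line (hc : ∀ g, c * g = g * c) {ε : G →* ℤˣ} (hε : ε c = -1)
    (hD : ∀ d ∈ D, ε d = 1) {S : Multiset (G → ℚ)}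
    (hS : ∀ w ∈ S, IsWeight D c w ∧ (w = 0 ∨ ((orb ⊤ w).card = 2 ∧ (idx D w = 1 ∨ idx D w = 3)) ∨
      ((orb ⊤ w).card = 4 ∧ idx D w = 1))) (hQ : ∀ x ∈ S, ell_Q ε x) (hs : S.sum = 0) :
    net S ∈ R D c κ := by
  obtain ⟨α, β, h1, h2, h3⟩ := ell_net S hQ
  have h4 : (α : ℚ) + (β : ℚ) / 3 = 0 := by
    rw [hs] at h2
    rcases smul_eq_zero.1 h2.symm with h | h
    · exact h
    · exact absurd h (chi_ne_zero ε)
  have h5 : β = -3 * α := by
    have h6 : (β : ℚ) = -3 * α := by linarith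
    exact_mod_cast h6
  by_cases hb : β = 0
  · have hα : α = 0 := by omega
    rw [h1, hb, hα, zero_smul, zero_smul, add_zero]
    exact AddSubgroup.zero_mem _
  · have hww : IsWeight D c ((1 / 3 : ℚ) • chi ε) := ell_third_weight hε hD
    have hi : idx D ((1 / 3 : ℚ) • chi ε) = 3 := by
      have h7 : ((orb ⊤ ((1 / 3 : ℚ) • chi ε)).card = 2 ∧
          (idx D ((1 / 3 : ℚ) • chi ε) = 1 ∨ idx D ((1 / 3 : ℚ) • chi ε) = 3)) := by
        refine ⟨ell_third_card hε, ?_⟩
        rcases h3 hb with h | h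
        · rcases (hS _ h).2 with h8 | h8 | h8
          · exact absurd h8 (ell_third_ne ε)
          · exact h8.2
          · exact Or.inl h8.2
        · rw [← idx_neg hww hc]
          rcases (hS _ h).2 with h8 | h8 | h8
          · exact absurd (neg_eq_zero.1 h8) (ell_third_ne ε)
          · exact h8.2
          · exact Or.inl h8.2
      rcases h7.2 with h | h
      · exfalso
        have h8 := (val_of_idx hc hww (ell_third_ne ε) h7.1).1 h
        rw [ell_third_one] at h8
        norm_num at h8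
      · exact h
    have h6 := AddSubgroup.zsmul_mem _ (ell_three (κ := κ) hε hD hi) (-α)
    have h7 : net S = (-α) • ((3 : ℤ) • sg ((1 / 3 : ℚ) • chi ε) - sg (chi ε)) := by
      rw [h1, h5]
      module
    rw [h7]
    exact h6

private theorem ell_aux (hc : ∀ g, c * g = g * c) (hκ : κ c = -1) (n : ℕ) :
    ∀ S : Multiset (G → ℚ), S.card ≤ n →
    (∀ w ∈ S, IsWeight D c w ∧ (w = 0 ∨ ((orb ⊤ w).card = 2 ∧ (idx D w = 1 ∨ idx D w = 3)) ∨
      ((orb ⊤ w).card = 4 ∧ idx D w = 1))) → S.sum = 0 → net S ∈ R D c κ := by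
  classical
  induction n with
  | zero =>
    intro S hn _ _
    have h : S = 0 := Multiset.card_eq_zero.1 (Nat.le_zero.1 hn)
    rw [h, net_zero']
    exact AddSubgroup.zero_mem _
  | succ n ih =>
    intro S hn hS hs
    by_cases h0 : (0 : G → ℚ) ∈ S
    · obtain ⟨T, rfl⟩ := Multiset.exists_cons_of_mem h0
      rw [ell_sg_cons, sg_zero, zero_add]
      rw [Multiset.card_cons] at hn
      rw [Multiset.sum_cons, zero_add] at hs
      exact ih T (by omega) (fun w hw => hS w (Multiset.mem_cons_of_mem hw)) hs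
    by_cases h2 : ∃ w ∈ S, (orb ⊤ w).card = 2
    · obtain ⟨w, hw, hw2⟩ := h2
      have hw0 : w ≠ 0 := fun e => h0 (e ▸ hw)
      have hwi : idx D w = 1 ∨ idx D w = 3 := by
        rcases (hS w hw).2 with h | h | h
        · exact absurd h hw0
        · exact h.2
        · exact Or.inl h.2
      obtain ⟨ε, hε, hD, hQ, -⟩ := ell_two hc (hS w hw).1 hw0 hw2 hwi
      have hsplit : S.filter (ell_Q ε) + S.filter (fun x => ¬ ell_Q ε x) = S :=
        Multiset.filter_add_not (ell_Q ε) S
      have hA : pr ε S.sum = (S.filter (ell_Q ε)).sum := by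
        have h3 : ((S.filter (ell_Q ε)).map (pr ε)) = S.filter (ell_Q ε) := by
          have h4 : (S.filter (ell_Q ε)).map (pr ε) = (S.filter (ell_Q ε)).map id :=
            Multiset.map_congr rfl fun x hx => ell_pr_Q (Multiset.mem_filter.1 hx).2
          rw [h4, Multiset.map_id]
        have h5 : ((S.filter fun x => ¬ ell_Q ε x).map (pr ε)).sum = 0 := by
          refine Multiset.sum_eq_zero fun y hy => ?_
          obtain ⟨x, hx, rfl⟩ := Multiset.mem_map.1 hy
          obtain ⟨hx1, hx2⟩ := Multiset.mem_filter.1 hx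
          exact ell_pr_zero hc (hS x hx1).1 (hS x hx1).2 hx2
        rw [ell_msum]
        conv_lhs => rw [← hsplit]
        rw [Multiset.map_add, Multiset.sum_add, h5, add_zero, h3]
      have hs1 : (S.filter (ell_Q ε)).sum = 0 := by
        rw [← hA, hs, pr_zero]
      have hs2 : (S.filter fun x => ¬ ell_Q ε x).sum = 0 := by
        have h3 : (S.filter (ell_Q ε)).sum + (S.filter fun x => ¬ ell_Q ε x).sum = S.sum := by
          rw [← Multiset.sum_add, hsplit]
        rw [hs1, zero_add, hs] at h3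
        exact h3
      have hc2 : (S.filter fun x => ¬ ell_Q ε x).card ≤ n := by
        have h3 : 0 < (S.filter (ell_Q ε)).card :=
          Multiset.card_pos_iff_exists_mem.2 ⟨w, Multiset.mem_filter.2 ⟨hw, hQ⟩⟩
        have h4 := congrArg Multiset.card hsplit
        rw [Multiset.card_add] at h4
        omega
      rw [← hsplit, net_add']
      refine AddSubgroup.add_mem _ ?_ ?_
      · exact ell_line hc hε hD (fun x hx => hS x (Multiset.mem_filter.1 hx).1)
          (fun x hx => (Multiset.mem_filter.1 hx).2) hs1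
      · exact ih _ hc2 (fun x hx => hS x (Multiset.mem_filter.1 hx).1) hs2
    · refine surf_all hc hκ (fun w hw => ⟨(hS w hw).1, ?_⟩) hs
      rcases (hS w hw).2 with h | h | h
      · exact absurd (h ▸ hw) h0
      · exact absurd ⟨w, hw, h.1⟩ h2
      · exact h

theorem ell_all (hc : ∀ g, c * g = g * c) (hκ : κ c = -1) {S : Multiset (G → ℚ)}
    (hS : ∀ w ∈ S, IsWeight D c w ∧ (w = 0 ∨ ((orb ⊤ w).card = 2 ∧ (idx D w = 1 ∨ idx D w = 3)) ∨
      ((orb ⊤ w).card = 4 ∧ idx D w = 1))) (hs : S.sum = 0) :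
    net S ∈ R D c κ :=
  ell_aux hc hκ S.card S le_rfl hS hs

end Pool.Agent.AVG
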