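import Pool.Agent.AVG.Surf

/-!
# AVG: relations between surfaces, elliptic curves, threefolds of slopes 1/3, 2/3 and fivefolds of slopes 2/5, 3/5

As in `Ell.lean`, with the weights `±(1/5) chi ε`: `5 sg ((1/5) chi ε) - sg (chi ε) ∈ R` by `Gen.split` for
`{w, w, w, w, w, -chi ε}`.
-/

set_option linter.unusedSectionVars false
set_option linter.unusedVariables false

namespace Pool.Agent.AVG

open Finset Pool.Agent.AVF

variable {G : Type} [Group G] [Fintype G] {D : Subgroup G} {c : G} {κ : G →* ℤˣ}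

/-- `w` is zero, on the line of a quadratic character with one of six values, or has an orbit of four elements. -/
def IsL (D : Subgroup G) (w : G → ℚ) : Prop :=
  w = 0 ∨ ((orb ⊤ w).card = 2 ∧ ((w 1 = 1 / 2 ∨ w 1 = -(1 / 2)) ∨ (w 1 = 1 / 6 ∨ w 1 = -(1 / 6)) ∨
    (w 1 = 1 / 10 ∨ w 1 = -(1 / 10)))) ∨ ((orb ⊤ w).card = 4 ∧ idx D w = 1)

/-- the six values on the line of `chi ε` -/
private def elle_Q (ε : G →* ℤˣ) (x : G → ℚ) : Prop :=
  x = chi ε ∨ x = -chi ε ∨ x = (1 / 3 : ℚ) • chi ε ∨ x = -((1 / 3 : ℚ) • chi ε) ∨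
    x = (1 / 5 : ℚ) • chi ε ∨ x = -((1 / 5 : ℚ) • chi ε)

private theorem elle_msum (ε : G →* ℤˣ) (S : Multiset (G → ℚ)) :
    pr ε S.sum = (S.map (pr ε)).sum := by
  induction S using Multiset.induction_on with
  | empty => rw [Multiset.sum_zero, Multiset.map_zero, Multiset.sum_zero, pr_zero]
  | cons a T ih => rw [Multiset.sum_cons, Multiset.map_cons, Multiset.sum_cons, pr_add, ih]

private theorem elle_pr_neg (ε : G →* ℤˣ) (x : G → ℚ) : pr ε (-x) = -pr ε x := by
  have h := pr_smul ε (-1) x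
  rw [neg_one_smul, neg_one_smul] at h
  exact h

private theorem elle_pr_Q {ε : G →* ℤˣ} {x : G → ℚ} (hx : elle_Q ε x) : pr ε x = x := by
  rcases hx with rfl | rfl | rfl | rfl | rfl | rfl
  · exact pr_chi_self ε
  · rw [elle_pr_neg, pr_chi_self]
  · rw [pr_smul, pr_chi_self]
  · rw [elle_pr_neg, pr_smul, pr_chi_self]
  · rw [pr_smul, pr_chi_self]
  · rw [elle_pr_neg, pr_smul, pr_chi_self]

private theorem elle_semi (ε : G →* ℤˣ) (v : G → ℚ) (h : G) :
    tr h (pr ε v) = pr ε v ∨ tr h (pr ε v) = -pr ε v := by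
  rw [pr_semi]
  rcases Int.units_eq_one_or (ε h) with e | e
  · left
    rw [e]
    simp
  · right
    rw [e]
    simp

private theorem elle_Q_of {ε : G →* ℤˣ} {x : G → ℚ} (hx : x = (2 * x 1) • chi ε)
    (h : (x 1 = 1 / 2 ∨ x 1 = -(1 / 2)) ∨ (x 1 = 1 / 6 ∨ x 1 = -(1 / 6)) ∨
      (x 1 = 1 / 10 ∨ x 1 = -(1 / 10))) : elle_Q ε x := by
  rcases h with (h | h) | (h | h) | (h | h)
  · left
    rw [h] at hx
    rw [hx]
    norm_num
  · right; left
    rw [h] at hx
    rw [hx]
    norm_num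
  · right; right; left
    rw [h] at hx
    rw [hx]
    norm_num
  · right; right; right; left
    rw [h] at hx
    rw [hx, ← neg_smul]
    norm_num
  · right; right; right; right; left
    rw [h] at hx
    rw [hx]
    norm_num
  · right; right; right; right; right
    rw [h] at hx
    rw [hx, ← neg_smul]
    norm_num

private theorem elle_two (hc : ∀ g, c * g = g * c) {x : G → ℚ} (hx : IsWeight D c x) (h0 : x ≠ 0)
    (h2 : (orb ⊤ x).card = 2) (hi : (x 1 = 1 / 2 ∨ x 1 = -(1 / 2)) ∨ (x 1 = 1 / 6 ∨ x 1 = -(1 / 6)) ∨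
      (x 1 = 1 / 10 ∨ x 1 = -(1 / 10))) :
    ∃ ε : G →* ℤˣ, ε c = -1 ∧ (∀ d ∈ D, ε d = 1) ∧ elle_Q ε x ∧ x = (2 * x 1) • chi ε := by
  obtain ⟨ε, h1, h3, h4⟩ := exists_eps hc hx h0 h2
  exact ⟨ε, h1, h3, elle_Q_of h4 hi, h4⟩

private theorem elle_pr_zero (hc : ∀ g, c * g = g * c) {ε : G →* ℤˣ} {x : G → ℚ}
    (hx : IsWeight D c x) (hS : IsL D x) (hQ : ¬ elle_Q ε x) : pr ε x = 0 := by
  by_cases h0 : x = 0
  · rw [h0, pr_zero]
  rcases hS with h | ⟨h2, hi⟩ | ⟨h4, hi⟩
  · exact absurd h h0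
  · obtain ⟨ε', -, -, h5, h6⟩ := elle_two hc hx h0 h2 hi
    have hne : ε ≠ ε' := by
      rintro rfl
      exact hQ h5
    rw [h6, pr_smul, pr_chi_ne hne, smul_zero]
  · exact no_line hc hx h0 h4 hi (pr_mem_span ε x (Submodule.subset_span (self_mem_orb ⊤ x)))
      (elle_semi ε x)

private theorem elle_sg_cons (a : G → ℚ) (T : Multiset (G → ℚ)) :
    net (a ::ₘ T) = sg a + net T := by
  rw [← Multiset.singleton_add, net_add']
  rfl

private theorem elle_net {ε : G →* ℤˣ} (S : Multiset (G → ℚ)) :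
    (∀ x ∈ S, elle_Q ε x) → ∃ α β γ : ℤ,
      net S = α • sg (chi ε) + β • sg ((1 / 3 : ℚ) • chi ε) + γ • sg ((1 / 5 : ℚ) • chi ε) ∧
      S.sum = ((α : ℚ) + (β : ℚ) / 3 + (γ : ℚ) / 5) • chi ε := by
  induction S using Multiset.induction_on with
  | empty =>
    intro _
    refine ⟨0, 0, 0, ?_, ?_⟩
    · rw [net_zero', zero_smul, zero_smul, zero_smul, add_zero, add_zero]
    · rw [Multiset.sum_zero]
      simp
  | cons a T ih =>
    intro h
    obtain ⟨α, β, γ, h1, h2⟩ := ih fun x hx => h x (Multiset.mem_cons_of_mem hx)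
    rcases h a (Multiset.mem_cons_self a T) with rfl | rfl | rfl | rfl | rfl | rfl
    · refine ⟨α + 1, β, γ, ?_, ?_⟩
      · rw [elle_sg_cons, h1, add_smul, one_smul]
        abel
      · rw [Multiset.sum_cons, h2]
        push_cast
        module
    · refine ⟨α - 1, β, γ, ?_, ?_⟩
      · rw [elle_sg_cons, h1, sg_neg, sub_smul, one_smul]
        abel
      · rw [Multiset.sum_cons, h2]
        push_cast
        module
    · refine ⟨α, β + 1, γ, ?_, ?_⟩
      · rw [elle_sg_cons, h1, add_smul, one_smul]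
        abel
      · rw [Multiset.sum_cons, h2]
        push_cast
        module
    · refine ⟨α, β - 1, γ, ?_, ?_⟩
      · rw [elle_sg_cons, h1, sg_neg, sub_smul, one_smul]
        abel
      · rw [Multiset.sum_cons, h2]
        push_cast
        module
    · refine ⟨α, β, γ + 1, ?_, ?_⟩
      · rw [elle_sg_cons, h1, add_smul, one_smul]
        abel
      · rw [Multiset.sum_cons, h2]
        push_cast
        module
    · refine ⟨α, β, γ - 1, ?_, ?_⟩
      · rw [elle_sg_cons, h1, sg_neg, sub_smul, one_smul]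
        abel
      · rw [Multiset.sum_cons, h2]
        push_cast
        module

private theorem elle_frac_one (ε : G →* ℤˣ) (t : ℚ) : (t • chi ε) 1 = t / 2 := by
  rw [Pi.smul_apply, chi_one, smul_eq_mul]
  ring

private theorem elle_frac_weight {ε : G →* ℤˣ} (hε : ε c = -1) (hD : ∀ d ∈ D, ε d = 1) {t : ℚ}
    (ht : 0 < t) (ht1 : t ≤ 1) : IsWeight D c (t • chi ε) := by
  have hw := isWeight_chi hε hD
  refine ⟨fun d hd g => ?_, fun g => ?_, fun g => ?_⟩
  · rw [Pi.smul_apply, Pi.smul_apply, hw.1 d hd g]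
  · rw [Pi.smul_apply, Pi.smul_apply, hw.2.1 g, smul_neg]
  · rw [Pi.smul_apply, smul_eq_mul, abs_mul, abs_of_pos ht]
    have h1 := hw.2.2 g
    nlinarith [abs_nonneg (chi ε g)]

private theorem elle_frac_card {ε : G →* ℤˣ} (hε : ε c = -1) {t : ℚ} (ht : 0 < t) :
    (orb ⊤ (t • chi ε)).card = 2 := by
  classical
  have h : orb ⊤ (t • chi ε) = (orb ⊤ (chi ε)).image fun x => t • x := by
    ext y
    rw [mem_orb_top, mem_image]
    constructor
    · rintro ⟨h, rfl⟩
      exact ⟨tr h (chi ε), mem_orb_top.2 ⟨h, rfl⟩, rfl⟩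
    · rintro ⟨x, hx, rfl⟩
      obtain ⟨h, rfl⟩ := mem_orb_top.1 hx
      exact ⟨h, rfl⟩
  rw [h, card_image_of_injective _ (smul_right_injective _ ht.ne'), card_orb_chi hε]

private theorem elle_frac (hc : ∀ g, c * g = g * c) {ε : G →* ℤˣ} (hε : ε c = -1)
    (hD : ∀ d ∈ D, ε d = 1) {n : ℕ} (hn : n = 3 ∨ n = 5) :
    (n : ℤ) • sg ((1 / (n : ℚ)) • chi ε) - sg (chi ε) ∈ R D c κ := by
  have hn0 : (0 : ℚ) < n := by
    rcases hn with rfl | rfl <;> norm_num
  have ht : (0 : ℚ) < 1 / (n : ℚ) := by positivity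
  have ht1 : (1 / (n : ℚ)) ≤ 1 := by
    rcases hn with rfl | rfl <;> norm_num
  obtain ⟨w, hw⟩ : ∃ w : G → ℚ, w = (1 / (n : ℚ)) • chi ε := ⟨_, rfl⟩
  have hww : IsWeight D c w := by rw [hw]; exact elle_frac_weight hε hD ht ht1
  have hcw : IsWeight D c (-chi ε) := (isWeight_chi hε hD).neg
  have hw1 : w 1 = 1 / (n : ℚ) / 2 := by rw [hw]; exact elle_frac_one ε _
  have hne : w ≠ -chi ε := by
    intro h
    have h1 := congrFun h 1
    rw [hw1, Pi.neg_apply, chi_one] at h1
    linarith [half_pos ht]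
  have hw0 : w ≠ 0 := by
    intro h
    have h1 := congrFun h 1
    rw [hw1, Pi.zero_apply] at h1
    linarith [half_pos ht]
  have hi : idx D w = n := by
    rw [idx_of_two hc hww hw0 (by rw [hw]; exact elle_frac_card hε ht), hw1]
    rcases hn with rfl | rfl <;> norm_num
  rw [← hw]
  have hG : Gen D c (Multiset.replicate n w + {-chi ε}) := by
    have hx : ∀ x ∈ Multiset.replicate n w + {-chi ε}, x = w ∨ x = -chi ε := by
      intro x hx
      rcases Multiset.mem_add.1 hx with h | h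
      · exact Or.inl (Multiset.eq_of_mem_replicate h)
      · exact Or.inr (Multiset.mem_singleton.1 h)
    refine Gen.split ε hε hD _ ?_ ?_ ?_ ?_ ?_
    · intro x hx'
      rcases hx x hx' with rfl | rfl
      · exact hww
      · exact hcw
    · intro h hh
      have h1 : tr h (chi ε) = chi ε := by rw [tr_chi, hh]; simp
      have h2 : tr h w = w := by rw [hw, tr_smul, h1]
      have h3 : tr h (-chi ε) = -chi ε := by rw [tr_neg, h1]
      rw [Multiset.map_add, Multiset.map_replicate, Multiset.map_singleton, h2, h3]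
    · intro x hx'
      rcases hx x hx' with rfl | rfl
      · rw [hi, Multiset.count_add, Multiset.count_replicate_self, Multiset.count_singleton,
          if_neg hne, add_zero]
      · have h1 : idx D (-chi ε) = 1 := by
          have h2 : -chi ε = tr c (chi ε) := by rw [tr_chi, hε]; simp
          rw [h2, idx_tr, idx_chi hD]
        rw [h1]
        exact one_dvd _
    · rw [Multiset.map_add, Multiset.sum_add, Multiset.map_replicate, Multiset.sum_replicate,
        Multiset.map_singleton, Multiset.sum_singleton, Pi.neg_apply, chi_one, hw1, nsmul_eq_mul]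
      field_simp
      ring
    · rw [Multiset.card_add, Multiset.card_replicate, Multiset.card_singleton]
      rcases hn with rfl | rfl
      · exact Or.inl rfl
      · exact Or.inr ⟨rfl, Or.inr (Multiset.mem_add.2 (Or.inr (Multiset.mem_singleton_self _)))⟩
  have h1 := (Gen2.weil (κ := κ) hG).mem
  have h2 : net (Multiset.replicate n w + {-chi ε}) = (n : ℤ) • sg w - sg (chi ε) := by
    rw [net_add', net_eq_sum (Multiset.replicate n w), Multiset.map_replicate,
      Multiset.sum_replicate, natCast_zsmul, sub_eq_add_neg, ← sg_neg]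
    rfl
  rw [h2] at h1
  exact h1

private theorem elle_line (hc : ∀ g, c * g = g * c) {ε : G →* ℤˣ} (hε : ε c = -1)
    (hD : ∀ d ∈ D, ε d = 1) {S : Multiset (G → ℚ)}
    (hQ : ∀ x ∈ S, elle_Q ε x) (hs : S.sum = 0) :
    net S ∈ R D c κ := by
  obtain ⟨α, β, γ, h1, h2⟩ := elle_net S hQ
  have h4 : (α : ℚ) + (β : ℚ) / 3 + (γ : ℚ) / 5 = 0 := by
    rw [hs] at h2
    rcases smul_eq_zero.1 h2.symm with h | h
    · exact h
    · exact absurd h (chi_ne_zero ε)
  have h5 : 15 * α + 5 * β + 3 * γ = 0 := by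
    have h6 : (15 : ℚ) * α + 5 * β + 3 * γ = 0 := by linarith
    exact_mod_cast h6
  obtain ⟨β', hβ⟩ : ∃ β', β = 3 * β' := ⟨β / 3, by omega⟩
  obtain ⟨γ', hγ⟩ : ∃ γ', γ = 5 * γ' := ⟨γ / 5, by omega⟩
  have h3 := AddSubgroup.zsmul_mem _ (elle_frac (κ := κ) hc hε hD (Or.inl rfl)) β'
  have h5' := AddSubgroup.zsmul_mem _ (elle_frac (κ := κ) hc hε hD (Or.inr rfl)) γ'
  have h7 : net S = β' • (((3 : ℕ) : ℤ) • sg ((1 / ((3 : ℕ) : ℚ)) • chi ε) - sg (chi ε)) +
      γ' • (((5 : ℕ) : ℤ) • sg ((1 / ((5 : ℕ) : ℚ)) • chi ε) - sg (chi ε)) := by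
    have h8 : α = -β' - γ' := by omega
    have e3 : (1 / ((3 : ℕ) : ℚ)) = 1 / 3 := by norm_num
    have e5 : (1 / ((5 : ℕ) : ℚ)) = 1 / 5 := by norm_num
    rw [h1, h8, hβ, hγ, e3, e5]
    push_cast
    module
  rw [h7]
  exact AddSubgroup.add_mem _ h3 h5'

private theorem elle_aux (hc : ∀ g, c * g = g * c) (hκ : κ c = -1) (n : ℕ) :
    ∀ S : Multiset (G → ℚ), S.card ≤ n →
    (∀ w ∈ S, IsWeight D c w ∧ IsL D w) → S.sum = 0 → net S ∈ R D c κ := by
  classical
  induction n with
  | zero =>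
    intro S hn _ _
    have h : S = 0 := Multiset.card_eq_zero.1 (Nat.le_zero.1 hn)
    rw [h, net_zero']
    exact AddSubgroup.zero_mem _
  | succ n ih =>
    intro S hn hS hs
    by_cases h0 : (0 : G → ℚ) ∈ S
    · obtain ⟨T, rfl⟩ := Multiset.exists_cons_of_mem h0
      rw [elle_sg_cons, sg_zero, zero_add]
      rw [Multiset.card_cons] at hn
      rw [Multiset.sum_cons, zero_add] at hs
      exact ih T (by omega) (fun w hw => hS w (Multiset.mem_cons_of_mem hw)) hs
    by_cases h2 : ∃ w ∈ S, (orb ⊤ w).card = 2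
    · obtain ⟨w, hw, hw2⟩ := h2
      have hw0 : w ≠ 0 := fun e => h0 (e ▸ hw)
      have hwi : (w 1 = 1 / 2 ∨ w 1 = -(1 / 2)) ∨ (w 1 = 1 / 6 ∨ w 1 = -(1 / 6)) ∨
          (w 1 = 1 / 10 ∨ w 1 = -(1 / 10)) := by
        rcases (hS w hw).2 with h | h | h
        · exact absurd h hw0
        · exact h.2
        · omega
      obtain ⟨ε, hε, hD, hQ, -⟩ := elle_two hc (hS w hw).1 hw0 hw2 hwi
      have hsplit : S.filter (elle_Q ε) + S.filter (fun x => ¬ elle_Q ε x) = S :=
        Multiset.filter_add_not (elle_Q ε) S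
      have hA : pr ε S.sum = (S.filter (elle_Q ε)).sum := by
        have h3 : ((S.filter (elle_Q ε)).map (pr ε)) = S.filter (elle_Q ε) := by
          have h4 : (S.filter (elle_Q ε)).map (pr ε) = (S.filter (elle_Q ε)).map id :=
            Multiset.map_congr rfl fun x hx => elle_pr_Q (Multiset.mem_filter.1 hx).2
          rw [h4, Multiset.map_id]
        have h5 : ((S.filter fun x => ¬ elle_Q ε x).map (pr ε)).sum = 0 := by
          refine Multiset.sum_eq_zero fun y hy => ?_
          obtain ⟨x, hx, rfl⟩ := Multiset.mem_map.1 hy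
          obtain ⟨hx1, hx2⟩ := Multiset.mem_filter.1 hx
          exact elle_pr_zero hc (hS x hx1).1 (hS x hx1).2 hx2
        rw [elle_msum]
        conv_lhs => rw [← hsplit]
        rw [Multiset.map_add, Multiset.sum_add, h5, add_zero, h3]
      have hs1 : (S.filter (elle_Q ε)).sum = 0 := by
        rw [← hA, hs, pr_zero]
      have hs2 : (S.filter fun x => ¬ elle_Q ε x).sum = 0 := by
        have h3 : (S.filter (elle_Q ε)).sum + (S.filter fun x => ¬ elle_Q ε x).sum = S.sum := by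
          rw [← Multiset.sum_add, hsplit]
        rw [hs1, zero_add, hs] at h3
        exact h3
      have hc2 : (S.filter fun x => ¬ elle_Q ε x).card ≤ n := by
        have h3 : 0 < (S.filter (elle_Q ε)).card :=
          Multiset.card_pos_iff_exists_mem.2 ⟨w, Multiset.mem_filter.2 ⟨hw, hQ⟩⟩
        have h4 := congrArg Multiset.card hsplit
        rw [Multiset.card_add] at h4
        omega
      rw [← hsplit, net_add']
      refine AddSubgroup.add_mem _ ?_ ?_
      · exact elle_line hc hε hD (fun x hx => (Multiset.mem_filter.1 hx).2) hs1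
      · exact ih _ hc2 (fun x hx => hS x (Multiset.mem_filter.1 hx).1) hs2
    · refine surf_all hc hκ (fun w hw => ⟨(hS w hw).1, ?_⟩) hs
      rcases (hS w hw).2 with h | h | h
      · exact absurd (h ▸ hw) h0
      · exact absurd ⟨w, hw, h.1⟩ h2
      · exact h

theorem elle_all (hc : ∀ g, c * g = g * c) (hκ : κ c = -1) {S : Multiset (G → ℚ)}
    (hS : ∀ w ∈ S, IsWeight D c w ∧ IsL D w) (hs : S.sum = 0) :
    net S ∈ R D c κ :=
  elle_aux hc hκ S.card S le_rfl hS hs

end Pool.Agent.AVG
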