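import Pool.Agent.AVG.SextC

/-!
# AVG: the main theorem

If all weights in `X` have `dim2 ≤ 6`: `sext_core`, the cases from `dim2 D w = idx D w * (orb ⊤ w).card ≤ 6`, `AVF.card_orb_even`,
`AVF.two_le_card_orb`, `AVF.idx_pos`, `AVF.val_of_idx` (index two is impossible for orbits of two), `orb_zero`; `gen2_of_mem`.
If `∑ idx ≤ 10`: when there are no `u, v, u + v` with orbits of four elements: `AVF.main_aux`, `Gen2.weil`. Otherwise `AVF.bad_idx` and
`AVF.orb_add_le`, `AVF.not_same`, `AVF.orb_add_add_le`: all weights have `dim2 ≤ 4`, and the separation hypothesis is empty.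
-/

set_option linter.unusedSectionVars false
set_option linter.unusedVariables false

namespace Pool.Agent.AVG

open Finset Pool.Agent.AVF

variable {G : Type} [Group G] [Fintype G] {D : Subgroup G} {c : G} {κ : G →* ℤˣ}

/-- The possible orbits of a weight of dimension at most three. -/
private theorem main_cases (hc : ∀ g, c * g = g * c) {w : G → ℚ} (hw : IsWeight D c w)
    (h6 : dim2 D w ≤ 6) :
    w = 0 ∨ ((orb ⊤ w).card = 2 ∧ (idx D w = 1 ∨ idx D w = 3)) ∨
      ((orb ⊤ w).card = 4 ∧ idx D w = 1) ∨ ((orb ⊤ w).card = 6 ∧ idx D w = 1) := by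
  by_cases h0 : w = 0
  · exact Or.inl h0
  right
  unfold dim2 at h6
  have hi := idx_pos D w
  have h2 := two_le_card_orb hc hw h0
  obtain ⟨k, hk⟩ := card_orb_even hc hw h0
  have hle : (orb ⊤ w).card ≤ 6 := by
    calc (orb ⊤ w).card ≤ idx D w * (orb ⊤ w).card := Nat.le_mul_of_pos_left _ hi
      _ ≤ 6 := h6
  have h3 : (orb ⊤ w).card = 2 ∨ (orb ⊤ w).card = 4 ∨ (orb ⊤ w).card = 6 := by omega
  rcases h3 with h | h | h
  · left
    refine ⟨h, ?_⟩
    have hne := (val_of_idx hc hw h0 h).2.1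
    rw [h] at h6
    omega
  · right; left
    refine ⟨h, ?_⟩
    rw [h] at h6
    omega
  · right; right
    refine ⟨h, ?_⟩
    rw [h] at h6
    omega

/-- Two different orbits of four elements leave room only for dimension two. -/
private theorem main_two_four {X : Finset (G → ℚ)} (hX : IsSys D c X)
    (hdim : ∑ w ∈ X, idx D w ≤ 10) {a b : G → ℚ} (ha : a ∈ X) (hb : b ∈ X)
    (ca : (orb ⊤ a).card = 4) (cb : (orb ⊤ b).card = 4) (ia : idx D a = 1) (ib : idx D b = 1)
    (hab : b ∉ orb ⊤ a) : ∀ w ∈ X, dim2 D w ≤ 4 := by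
  intro w hw
  unfold dim2
  by_cases h1 : w ∈ orb ⊤ a
  · rw [idx_orb h1, orb_eq h1, ca, ia]
  by_cases h2 : w ∈ orb ⊤ b
  · rw [idx_orb h2, orb_eq h2, cb, ib]
  have h3 := orb_add_add_le hX ha hb hw hab h1 h2
  rw [ca, cb, ia, ib] at h3
  have h4 : idx D w * (orb ⊤ w).card = (orb ⊤ w).card * idx D w := Nat.mul_comm _ _
  omega

/-- The case of threefolds. -/
theorem main_three (hc : ∀ g, c * g = g * c) (hκ : κ c = -1) {X : Finset (G → ℚ)}
    (hX : IsSys D c X) (h6 : ∀ w ∈ X, dim2 D w ≤ 6)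
    (hsep : ∀ b ∈ X, ∀ b' ∈ X, (orb ⊤ b).card = 6 → (orb ⊤ b').card = 6 → b' ∉ orb ⊤ b →
      core b ≠ core b')
    {S : Multiset (G → ℚ)} (hS : ∀ w ∈ S, w ∈ X) (hE : Even S.card) (hs : S.sum = 0) :
    Gen2 D c κ S := by
  refine gen2_of_mem hc (fun w hw => hX.wt w (hS w hw)) hE ?_
  exact sext_core hc hκ
    (fun w hw => ⟨hX.wt w (hS w hw), main_cases hc (hX.wt w (hS w hw)) (h6 w (hS w hw))⟩)
    (fun b hb b' hb' h h' hne => hsep b (hS b hb) b' (hS b' hb') h h' hne) hs

/-- The case of dimension at most five. -/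
theorem main_five (hc : ∀ g, c * g = g * c) (hκ : κ c = -1) {X : Finset (G → ℚ)}
    (hX : IsSys D c X) (hdim : ∑ w ∈ X, idx D w ≤ 10)
    {S : Multiset (G → ℚ)} (hS : ∀ w ∈ S, w ∈ X) (hE : Even S.card) (hs : S.sum = 0) :
    Gen2 D c κ S := by
  by_cases hbad : ∀ u ∈ X, ∀ v ∈ X, u + v ∈ X →
      ¬ ((orb ⊤ u).card = 4 ∧ (orb ⊤ v).card = 4 ∧ (orb ⊤ (u + v)).card = 4)
  · exact Gen2.weil (main_aux hc hX hdim hbad hS hE hs)
  push Not at hbad
  obtain ⟨u, hu, v, hv, huv, cu, cv, cuv⟩ := hbad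
  have key := bad_idx hc hX hdim hu hv huv cu cv cuv
  have h4 : ∀ w ∈ X, dim2 D w ≤ 4 := by
    by_cases h1 : v ∈ orb ⊤ u
    · by_cases h2 : u + v ∈ orb ⊤ u
      · exfalso
        have hu0 : u ≠ 0 := by
          intro h0
          rw [h0, orb_zero] at cu
          simp at cu
        exact not_same hc (hX.wt u hu) hu0 cu (self_mem_orb ⊤ u) h1 h2
      · exact main_two_four hX hdim hu huv cu cuv (key u hu cu) (key _ huv cuv) h2
    · exact main_two_four hX hdim hu hv cu cv (key u hu cu) (key v hv cv) h1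
  refine main_three hc hκ hX (fun w hw => (h4 w hw).trans (by norm_num)) ?_ hS hE hs
  intro b hb b' hb' h h' hne
  exfalso
  have h5 := h4 b hb
  unfold dim2 at h5
  have h6 := idx_pos D b
  rw [h] at h5
  omega

end Pool.Agent.AVG
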