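import Pool.Agent.AVG.PrimeE
import Pool.Agent.AVG.MainC

/-!
# AVG: the main theorem with fivefolds
-/

set_option linter.unusedSectionVars false
set_option linter.unusedVariables false

namespace Pool.Agent.AVG

open Finset Pool.Agent.AVF

variable {G : Type} [Group G] [Fintype G] {D : Subgroup G} {c : G} {κ : G →* ℤˣ}

/-- The weights of index five on a line. -/
private theorem maine_five (hc : ∀ g, c * g = g * c) {w : G → ℚ} (hw : IsWeight D c w)
    (h0 : w ≠ 0) (h2 : (orb ⊤ w).card = 2) (h5 : idx D w = 5) (hn : ¬ Sig14 D c w) :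
    w 1 = 1 / 10 ∨ w 1 = -(1 / 10) := by
  have habs := abs_le.1 (hw.2.2 1)
  obtain ⟨ε, hε, -, hw1⟩ := exists_eps hc hw h0 h2
  have horb : orb ε.ker w = {w} := by
    ext x
    rw [mem_orb, Finset.mem_singleton]
    constructor
    · rintro ⟨h, hh, rfl⟩
      rw [hw1, tr_smul, tr_chi, MonoidHom.mem_ker.1 hh]
      simp
    · rintro rfl
      exact ⟨1, ε.ker.one_mem, tr_one _⟩
  have hne : |w 1| ≠ 3 / 10 := by
    intro h
    refine hn ⟨ε, hε, ?_⟩
    rw [horb, Finset.sum_singleton, h, h5]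
    norm_num
  have hden : (w 1 + 1 / 2).den = 5 := by rw [← idx_of_two hc hw h0 h2, h5]
  obtain ⟨n, hn'⟩ : ∃ n : ℤ, n = (w 1 + 1 / 2).num := ⟨_, rfl⟩
  have hx : w 1 + 1 / 2 = (n : ℚ) / 5 := by
    have h1 := (Rat.num_div_den (w 1 + 1 / 2)).symm
    rw [hden] at h1
    rw [hn']
    exact_mod_cast h1
  have hcop : n.natAbs.Coprime 5 := by
    have h1 := (w 1 + 1 / 2).reduced
    rw [hden, ← hn'] at h1
    exact h1
  have hn0 : 0 ≤ n := by
    have h1 : (0 : ℚ) ≤ n := by linarith [habs.1]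
    exact_mod_cast h1
  have hn5 : n ≤ 5 := by
    have h1 : (n : ℚ) ≤ 5 := by linarith [habs.2]
    exact_mod_cast h1
  interval_cases n
  · exact absurd hcop (by decide)
  · exfalso
    apply hne
    have h1 : w 1 = -(3 / 10) := by push_cast at hx; linarith
    rw [h1, abs_neg, abs_of_pos (by norm_num)]
  · right
    push_cast at hx
    linarith
  · left
    push_cast at hx
    linarith
  · exfalso
    apply hne
    have h1 : w 1 = 3 / 10 := by push_cast at hx; linarith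
    rw [h1, abs_of_pos (by norm_num)]
  · exact absurd hcop (by decide)

/-- The possible orbits of a weight of dimension at most three or five. -/
theorem isP_of (hc : ∀ g, c * g = g * c) {w : G → ℚ} (hw : IsWeight D c w)
    (h6 : dim2 D w ≤ 6 ∨ (dim2 D w = 10 ∧ ¬ Sig14 D c w) ∨
      ∃ ℓ : ℕ, ℓ.Prime ∧ ℓ ≠ 2 ∧ (orb ⊤ w).card = 2 * ℓ ∧ NoQ c w) : IsP D c w := by
  by_cases h0 : w = 0
  · exact Or.inl (Or.inl h0)
  have hi := idx_pos D w
  have h2 := two_le_card_orb hc hw h0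
  obtain ⟨k, hk⟩ := card_orb_even hc hw h0
  rcases h6 with h6 | ⟨h10, hS⟩ | ⟨ℓ, hℓ, hℓ2, hcard, hQ⟩
  · unfold dim2 at h6
    have hle : (orb ⊤ w).card ≤ 6 := by
      calc (orb ⊤ w).card ≤ idx D w * (orb ⊤ w).card := Nat.le_mul_of_pos_left _ hi
        _ ≤ 6 := h6
    have h3 : (orb ⊤ w).card = 2 ∨ (orb ⊤ w).card = 4 ∨ (orb ⊤ w).card = 6 := by omega
    rcases h3 with h | h | h
    · refine Or.inl (Or.inr (Or.inl ⟨h, ?_⟩))
      have hv := val_of_idx hc hw h0 h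
      rw [h] at h6
      have h4 : idx D w = 1 ∨ idx D w = 3 := by
        have := hv.2.1
        omega
      rcases h4 with h4 | h4
      · exact Or.inl (hv.1 h4)
      · exact Or.inr (Or.inl (hv.2.2.1 h4))
    · refine Or.inl (Or.inr (Or.inr ⟨h, ?_⟩))
      rw [h] at h6
      omega
    · refine Or.inr ⟨3, Nat.prime_three, by norm_num, by rw [h], Or.inl ⟨rfl, ?_⟩⟩
      rw [h] at h6
      omega
  · unfold dim2 at h10
    have hk2 : (orb ⊤ w).card = 2 * k := by omega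
    have h5 : idx D w * k = 5 := by
      rw [hk2] at h10
      have : 2 * (idx D w * k) = 10 := by rw [← h10]; ring
      omega
    have h6 : k ∣ 5 := ⟨idx D w, by rw [← h5]; ring⟩
    rcases (Nat.dvd_prime (by norm_num : Nat.Prime 5)).1 h6 with h | h
    · rw [h, mul_one] at h5
      have hc2 : (orb ⊤ w).card = 2 := by omega
      exact Or.inl (Or.inr (Or.inl ⟨hc2, Or.inr (Or.inr (maine_five hc hw h0 hc2 h5 hS))⟩))
    · rw [h] at h5
      refine Or.inr ⟨5, by norm_num, by norm_num, by omega, Or.inr (Or.inl ⟨rfl, by omega, hS⟩)⟩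
  · exact Or.inr ⟨ℓ, hℓ, hℓ2, hcard, Or.inr (Or.inr hQ)⟩

/-- The relations between factors of dimension at most three, fivefolds, and factors with a centre of degree `2 ℓ`. -/
theorem net_prime (hc : ∀ g, c * g = g * c) (hκ : κ c = -1) {X : Finset (G → ℚ)}
    (hX : IsSys D c X)
    (h6 : ∀ w ∈ X, dim2 D w ≤ 6 ∨ (dim2 D w = 10 ∧ ¬ Sig14 D c w) ∨
      ∃ ℓ : ℕ, ℓ.Prime ∧ ℓ ≠ 2 ∧ (orb ⊤ w).card = 2 * ℓ ∧ NoQ c w)
    (hsep : ∀ b ∈ X, ∀ b' ∈ X, 4 < (orb ⊤ b).card → 4 < (orb ⊤ b').card → b' ∉ orb ⊤ b →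
      core b ≠ core b')
    {S : Multiset (G → ℚ)} (hS : ∀ w ∈ S, w ∈ X) (hs : S.sum = 0) :
    net S ∈ R D c κ :=
  prime_core_e hc hκ
    (fun w hw => ⟨hX.wt w (hS w hw), isP_of hc (hX.wt w (hS w hw)) (h6 w (hS w hw))⟩)
    (fun b hb b' hb' h h' hne => hsep b (hS b hb) b' (hS b' hb') h h' hne) hs

/-- Clause (2) with fivefolds. -/
theorem main_prime_e (hc : ∀ g, c * g = g * c) (hκ : κ c = -1) {X : Finset (G → ℚ)}
    (hX : IsSys D c X)
    (h6 : ∀ w ∈ X, dim2 D w ≤ 6 ∨ (dim2 D w = 10 ∧ ¬ Sig14 D c w) ∨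
      ∃ ℓ : ℕ, ℓ.Prime ∧ ℓ ≠ 2 ∧ (orb ⊤ w).card = 2 * ℓ ∧ NoQ c w)
    (hsep : ∀ b ∈ X, ∀ b' ∈ X, 4 < (orb ⊤ b).card → 4 < (orb ⊤ b').card → b' ∉ orb ⊤ b →
      core b ≠ core b')
    {S : Multiset (G → ℚ)} (hS : ∀ w ∈ S, w ∈ X) (hE : Even S.card) (hs : S.sum = 0) :
    Gen2 D c κ S :=
  gen2_of_mem hc (fun w hw => hX.wt w (hS w hw)) hE (net_prime hc hκ hX h6 hsep hS hs)

end Pool.Agent.AVG
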