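import Pool.Agent.AVG.PrimR

/-!
# AVG: fourfolds with a 2-transitive totally real field and without imaginary quadratic field

The inner products of two translates which are not proportional are `±B`. If `B = 0` they are orthogonal. Otherwise there are signs
such that all inner products are equal, and these signs define an imaginary quadratic field.
-/

set_option linter.unusedSectionVars false
set_option linter.unusedVariables false

namespace Pool.Agent.AVG

open Finset Pool.Agent.AVF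

variable {G : Type} [Group G] [Fintype G] {D : Subgroup G} {c : G}

/-- A subset `C` of the orbit, exactly one element of each pair, such that the sign is the same for all elements. -/
private theorem tf_eps (hc : ∀ g, c * g = g * c) {b : G → ℚ} (hb : IsWeight D c b)
    {C : Finset (G → ℚ)} (hbC : b ∈ C) (hneg : ∀ w ∈ C, -w ∉ C)
    (hcov : ∀ w ∈ orb ⊤ b, w ∈ C ∨ -w ∈ C) (hsub : C ⊆ orb ⊤ b)
    (h5 : ∀ h : G, ∀ y ∈ C, (tr h y ∈ C ↔ tr h b ∈ C)) (hN : NoQ c b) : False := by
  classical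
  have hcov' : ∀ h : G, ∀ w ∈ C, tr h w ∈ C ∨ -(tr h w) ∈ C := fun h w hw =>
    hcov _ (tr_mem_orb (Subgroup.mem_top h) (hsub hw))
  have hmul : ∀ h k : G, (if tr (h * k) b ∈ C then (1 : ℤˣ) else -1) =
      (if tr h b ∈ C then (1 : ℤˣ) else -1) * (if tr k b ∈ C then (1 : ℤˣ) else -1) := by
    intro h k
    rw [tr_mul]
    by_cases h6 : tr k b ∈ C
    · rw [if_pos h6, mul_one]
      have h7 := h5 h _ h6
      by_cases h8 : tr h b ∈ C
      · rw [if_pos h8, if_pos (h7.2 h8)]
      · rw [if_neg h8, if_neg fun h9 => h8 (h7.1 h9)]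
    · have h7 : -(tr k b) ∈ C := (hcov' k b hbC).resolve_left h6
      have h8 := h5 h _ h7
      rw [tr_neg] at h8
      rw [if_neg h6]
      by_cases h9 : tr h b ∈ C
      · have h10 : tr h (tr k b) ∉ C := fun h11 => hneg _ h11 (h8.2 h9)
        rw [if_pos h9, if_neg h10, one_mul]
      · have h10 : tr h (tr k b) ∈ C := by
          have h11 := hcov' h _ h7
          rw [tr_neg, neg_neg] at h11
          exact h11.resolve_left fun h12 => h9 (h8.1 h12)
        rw [if_neg h9, if_pos h10, neg_mul_neg, one_mul]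
  obtain ⟨ε, hε⟩ : ∃ ε : G →* ℤˣ, ∀ h, ε h = if tr h b ∈ C then (1 : ℤˣ) else -1 :=
    ⟨{ toFun := fun h => if tr h b ∈ C then (1 : ℤˣ) else -1
       map_one' := by rw [tr_one, if_pos hbC]
       map_mul' := hmul }, fun h => rfl⟩
  obtain ⟨k, hk1, hk2⟩ := hN ε (by rw [hε, hb.tr_c hc, if_neg (hneg b hbC)])
  rw [hε, hk1, if_pos hbC] at hk2
  exact absurd hk2 (by decide)

private theorem tf_cover (hc : ∀ g, c * g = g * c) {b : G → ℚ} (hb : IsWeight D c b)
    (h8 : (orb ⊤ b).card = 8) {C : Finset (G → ℚ)} (hneg : ∀ w ∈ C, -w ∉ C) (hsub : C ⊆ orb ⊤ b)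
    (h4 : C.card = 4) : ∀ w ∈ orb ⊤ b, w ∈ C ∨ -w ∈ C := by
  classical
  have h1 : C ∪ C.image (fun x => -x) = orb ⊤ b := by
    refine eq_of_subset_of_card_le ?_ ?_
    · intro w hw
      rcases mem_union.1 hw with h3 | h3
      · exact hsub h3
      · obtain ⟨x, hx, rfl⟩ := mem_image.1 h3
        exact neg_mem_orb hb hc (hsub hx)
    · rw [card_union_of_disjoint, card_image_of_injective _ neg_injective, h4, h8]
      rw [disjoint_left]
      intro w hw hw'
      obtain ⟨x, hx, rfl⟩ := mem_image.1 hw'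
      exact hneg x hx hw
  intro w hw
  rw [← h1] at hw
  rcases mem_union.1 hw with h3 | h3
  · exact Or.inl h3
  · obtain ⟨x, hx, rfl⟩ := mem_image.1 h3
    right
    rw [neg_neg]
    exact hx

/-- Four translates with the same inner products. -/
private theorem tf_clique (hc : ∀ g, c * g = g * c) {b : G → ℚ} (hb : IsWeight D c b)
    (h8 : (orb ⊤ b).card = 8) (hN : NoQ c b) {C : Finset (G → ℚ)} (hbC : b ∈ C)
    (hneg : ∀ w ∈ C, -w ∉ C) (hsub : C ⊆ orb ⊤ b) (h4 : C.card = 4) {γ : ℚ} (hγ : γ ≠ 0)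
    (hip : ∀ x ∈ C, ∀ y ∈ C, x ≠ y → ip x y = γ) : False := by
  have hcov := tf_cover hc hb h8 hneg hsub h4
  refine tf_eps hc hb hbC hneg hcov hsub (fun h y hy => ?_) hN
  by_cases hyb : y = b
  · rw [hyb]
  have h1 : ip (tr h b) (tr h y) = γ := by rw [ip_tr, hip b hbC y hy fun e => hyb e.symm]
  have hne : tr h b ≠ tr h y := fun e => hyb (tr_inj h e).symm
  have hne' : tr h b ≠ -tr h y := by
    intro e
    rw [← tr_neg] at e
    have := tr_inj h e
    rw [this] at hbC
    exact hneg y hy hbC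
  have hγ2 : γ ≠ -γ := fun e => hγ (by linarith)
  rcases hcov _ (tr_mem_orb (Subgroup.mem_top h) (self_mem_orb ⊤ b)) with ha | ha <;>
    rcases hcov _ (tr_mem_orb (Subgroup.mem_top h) (hsub hy)) with hb' | hb'
  · exact iff_of_true hb' ha
  · exfalso
    have h2 := hip _ ha _ hb' (fun e => hne' e)
    rw [ip_neg_right, h1] at h2
    exact hγ2 h2.symm
  · exfalso
    have h2 := hip _ ha _ hb' (fun e => hne' (by rw [← e, neg_neg]))
    rw [ip_neg_left, h1] at h2
    exact hγ2 h2.symm
  · exact iff_of_false (fun h3 => hneg _ h3 hb') fun h3 => hneg _ h3 ha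

theorem two_four_rel (hc : ∀ g, c * g = g * c) {b : G → ℚ} (hb : IsWeight D c b)
    (h8 : (orb ⊤ b).card = 8) (hT : TwoTr b) (hN : NoQ c b) :
    ∀ n : (G → ℚ) → ℚ, IsRel (orb ⊤ b) n → ∀ w ∈ orb ⊤ b, n w = 0 := by
  classical
  have hb0 : b ≠ 0 := by
    rintro rfl
    rw [orb_zero, card_singleton] at h8
    omega
  have hbO := self_mem_orb ⊤ b
  have hwt : ∀ w ∈ orb ⊤ b, IsWeight D c w := fun w hw => (orb_isSys hb).wt w hw
  have hnegO : ∀ w ∈ orb ⊤ b, -w ∈ orb ⊤ b := fun w hw => neg_mem_orb hb hc hw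
  -- the stabiliser of `b` moves any pair to any pair
  have hstab : ∀ x ∈ orb ⊤ b, ∀ y ∈ orb ⊤ b, x ≠ b → x ≠ -b → y ≠ b → y ≠ -b →
      ∃ h, tr h b = b ∧ (tr h x = y ∨ tr h x = -y) := by
    intro x hx y hy h1 h2 h3 h4
    obtain ⟨h, h5 | h5, h6⟩ := hT x hx y hy h1 h2 h3 h4
    · exact ⟨h, h5, h6⟩
    · refine ⟨c * h, ?_, ?_⟩
      · rw [tr_mul, (hb.tr h).tr_c hc, h5, neg_neg]
      · rw [tr_mul, ((hwt x hx).tr h).tr_c hc]
        rcases h6 with h6 | h6
        · exact Or.inr (by rw [h6])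
        · exact Or.inl (by rw [h6, neg_neg])
  obtain ⟨x0, hx0, hx0b, hx0b'⟩ : ∃ x ∈ orb ⊤ b, x ≠ b ∧ x ≠ -b := by
    by_contra hcon
    push Not at hcon
    have h1 : orb ⊤ b ⊆ {b, -b} := by
      intro x hx
      rw [mem_insert, mem_singleton]
      by_cases h : x = b
      · exact Or.inl h
      · exact Or.inr (hcon x hx h)
    have h2 := card_le_card h1
    have h3 := card_le_two (a := b) (b := -b)
    omega
  obtain ⟨B, hB⟩ : ∃ B, B = ip b x0 := ⟨_, rfl⟩
  have hval : ∀ y ∈ orb ⊤ b, y ≠ b → y ≠ -b → ip b y = B ∨ ip b y = -B := by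
    intro y hy h1 h2
    obtain ⟨h, h3, h4⟩ := hstab x0 hx0 y hy hx0b hx0b' h1 h2
    have h5 := ip_tr h b x0
    rw [h3, ← hB] at h5
    rcases h4 with h4 | h4
    · left
      rw [← h4, h5]
    · right
      rw [h4, ip_neg_right] at h5
      linarith
  have hval2 : ∀ x ∈ orb ⊤ b, ∀ y ∈ orb ⊤ b, y ≠ x → y ≠ -x → ip x y = B ∨ ip x y = -B := by
    intro x hx y hy h1 h2
    obtain ⟨k, rfl⟩ := mem_orb_top.1 hx
    have h3 := ip_tr k b (tr k⁻¹ y)
    rw [tr_tr_inv] at h3
    rw [h3]
    refine hval _ (tr_mem_orb (Subgroup.mem_top _) hy) (fun e => h1 ?_) (fun e => h2 ?_)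
    · rw [← e, tr_tr_inv]
    · rw [← tr_neg, ← e, tr_tr_inv]
  by_cases hB0 : B = 0
  · -- orthogonal
    intro n hn w hw
    have h1 := hn.2
    have h2 : ip w (∑ y ∈ orb ⊤ b, n y • y) = 2 * n w * ip b b := by
      have h7 : ∀ s : Finset (G → ℚ), ip w (∑ y ∈ s, n y • y) = ∑ y ∈ s, n y * ip w y := by
        intro s
        induction s using Finset.induction_on with
        | empty =>
          rw [Finset.sum_empty, Finset.sum_empty]
          unfold ip
          simp
        | insert a s ha ih =>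
          rw [Finset.sum_insert ha, Finset.sum_insert ha, ip_add_right, ip_smul_right, ih]
      have hwn : w ≠ -w := (neg_ne_self (orb_ne_zero hb0 hw)).symm
      rw [h7, ← Finset.sum_subset (s₁ := {w, -w})]
      · rw [Finset.sum_pair hwn, ip_neg_right, hn.1, ip_orb hw]
        ring
      · intro x hx
        rcases mem_insert.1 hx with h | h
        · rw [h]; exact hw
        · rw [mem_singleton.1 h]; exact hnegO w hw
      · intro x hx hx'
        rw [mem_insert, mem_singleton, not_or] at hx'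
        rcases hval2 w hw x hx hx'.1 hx'.2 with h | h <;> rw [h, hB0] <;> ring
    rw [h1] at h2
    have h3 : ip w (0 : G → ℚ) = 0 := by
      unfold ip
      simp
    rw [h3] at h2
    have h4 := ip_self_pos hb0
    rcases mul_eq_zero.1 h2.symm with h5 | h5
    · linarith
    · exact absurd h5 h4.ne'
  exfalso
  have hB2 : B ≠ -B := fun e => hB0 (by linarith)
  obtain ⟨U, hU⟩ : ∃ U : Finset (G → ℚ), U = (orb ⊤ b).filter fun x => (x ≠ b ∧ x ≠ -b) ∧ ip b x = B :=
    ⟨_, rfl⟩
  have hmU : ∀ x, x ∈ U ↔ x ∈ orb ⊤ b ∧ (x ≠ b ∧ x ≠ -b) ∧ ip b x = B := by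
    intro x
    rw [hU, mem_filter]
  have hUneg : ∀ x ∈ U, -x ∉ U := by
    intro x hx hx'
    have h1 := ((hmU x).1 hx).2.2
    have h2 := ((hmU _).1 hx').2.2
    rw [ip_neg_right, h1] at h2
    exact hB2 h2.symm
  have hUcard : U.card = 3 := by
    have h1 : U ∪ U.image (fun x => -x) = ((orb ⊤ b).erase b).erase (-b) := by
      ext x
      rw [mem_union, mem_image, mem_erase, mem_erase]
      constructor
      · rintro (h | ⟨y, hy, rfl⟩)
        · obtain ⟨h2, h3, -⟩ := (hmU x).1 h
          exact ⟨h3.2, h3.1, h2⟩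
        · obtain ⟨h2, h3, -⟩ := (hmU y).1 hy
          refine ⟨fun e => h3.1 (neg_injective e), fun e => h3.2 ?_, hnegO y h2⟩
          rw [← e, neg_neg]
      · rintro ⟨h2, h3, h4⟩
        rcases hval x h4 h3 h2 with h5 | h5
        · exact Or.inl ((hmU x).2 ⟨h4, ⟨h3, h2⟩, h5⟩)
        · refine Or.inr ⟨-x, (hmU _).2 ⟨hnegO x h4, ⟨fun e => h2 ?_, fun e => h3 (neg_injective e)⟩, ?_⟩,
            neg_neg x⟩
          · rw [← e, neg_neg]
          · rw [ip_neg_right, h5, neg_neg]
    have h2 := congrArg Finset.card h1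
    rw [card_union_of_disjoint, card_image_of_injective _ neg_injective, card_erase_of_mem,
      card_erase_of_mem hbO, h8] at h2
    · omega
    · exact mem_erase.2 ⟨neg_ne_self hb0, hnegO b hbO⟩
    · rw [disjoint_left]
      intro x hx hx'
      obtain ⟨y, hy, rfl⟩ := mem_image.1 hx'
      exact hUneg y hy hx
  have hUtr : ∀ x ∈ U, ∀ y ∈ U, ∃ h, tr h b = b ∧ tr h x = y ∧ ∀ z ∈ U, tr h z ∈ U := by
    intro x hx y hy
    obtain ⟨hx1, hx2, hx3⟩ := (hmU x).1 hx
    obtain ⟨hy1, hy2, hy3⟩ := (hmU y).1 hy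
    obtain ⟨h, h1, h2⟩ := hstab x hx1 y hy1 hx2.1 hx2.2 hy2.1 hy2.2
    have h3 : ∀ z ∈ U, tr h z ∈ U := by
      intro z hz
      obtain ⟨hz1, hz2, hz3⟩ := (hmU z).1 hz
      refine (hmU _).2 ⟨tr_mem_orb (Subgroup.mem_top h) hz1, ⟨fun e => hz2.1 ?_, fun e => hz2.2 ?_⟩, ?_⟩
      · exact tr_inj h (e.trans h1.symm)
      · exact tr_inj h (by rw [e, tr_neg, h1])
      · have h4 := ip_tr h b z
        rw [h1] at h4
        rw [h4, hz3]
    refine ⟨h, h1, h2.resolve_right fun h4 => ?_, h3⟩
    have h5 := h3 x hx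
    rw [h4] at h5
    exact hUneg y hy h5
  obtain ⟨u, v, w, huv, huw, hvw, hUe⟩ := Finset.card_eq_three.1 hUcard
  have hu : u ∈ U := by rw [hUe]; simp
  have hv : v ∈ U := by rw [hUe]; simp
  have hw : w ∈ U := by rw [hUe]; simp
  have hmem : ∀ x ∈ U, x = u ∨ x = v ∨ x = w := by
    intro x hx
    rw [hUe] at hx
    simpa using hx
  have e1 : ip v w = ip u w := by
    obtain ⟨g, -, h1, h2⟩ := hUtr u hu v hv
    have h3 : tr g v ≠ v := fun e => huv (tr_inj g (h1.trans e.symm))
    have h4 : tr g w ≠ v := fun e => huw (tr_inj g (h1.trans e.symm))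
    have h5 : tr g v ≠ tr g w := fun e => hvw (tr_inj g e)
    rw [← ip_tr g v w]
    rcases hmem _ (h2 v hv) with a | a | a
    · rcases hmem _ (h2 w hw) with a' | a' | a'
      · exact absurd (a.trans a'.symm) h5
      · exact absurd a' h4
      · rw [a, a']
    · exact absurd a h3
    · rcases hmem _ (h2 w hw) with a' | a' | a'
      · rw [a, a', ip_comm]
      · exact absurd a' h4
      · exact absurd (a.trans a'.symm) h5
  have e2 : ip v w = ip u v := by
    obtain ⟨g, -, h1, h2⟩ := hUtr u hu w hw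
    have h3 : tr g v ≠ w := fun e => huv (tr_inj g (h1.trans e.symm))
    have h4 : tr g w ≠ w := fun e => huw (tr_inj g (h1.trans e.symm))
    have h5 : tr g v ≠ tr g w := fun e => hvw (tr_inj g e)
    rw [← ip_tr g v w]
    rcases hmem _ (h2 v hv) with a | a | a
    · rcases hmem _ (h2 w hw) with a' | a' | a'
      · exact absurd (a.trans a'.symm) h5
      · rw [a, a']
      · exact absurd a' h4
    · rcases hmem _ (h2 w hw) with a' | a' | a'
      · rw [a, a', ip_comm]
      · exact absurd (a.trans a'.symm) h5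
      · exact absurd a' h4
    · exact absurd a h3
  obtain ⟨γ, hγ⟩ : ∃ γ, γ = ip v w := ⟨_, rfl⟩
  have hpair : ∀ x ∈ U, ∀ y ∈ U, x ≠ y → ip x y = γ := by
    intro x hx y hy hxy
    rcases hmem x hx with a | a | a <;> rcases hmem y hy with a' | a' | a' <;> rw [a, a'] at hxy ⊢
    · exact absurd rfl hxy
    · rw [hγ, e2]
    · rw [hγ, e1]
    · rw [hγ, e2, ip_comm]
    · exact absurd rfl hxy
    · rw [hγ]
    · rw [hγ, e1, ip_comm]
    · rw [hγ, ip_comm]
    · exact absurd rfl hxy
  have hbU : ∀ x ∈ U, ip b x = B := fun x hx => ((hmU x).1 hx).2.2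
  have hγB : γ = B ∨ γ = -B := by
    rw [hγ]
    refine hval2 v ((hmU v).1 hv).1 w ((hmU w).1 hw).1 (fun e => hvw e.symm) (fun e => ?_)
    apply hUneg v hv
    rw [← e]
    exact hw
  have hbU' : b ∉ U := fun h => ((hmU b).1 h).2.1.1 rfl
  have hbnU : -b ∉ U := fun h => ((hmU _).1 h).2.1.2 rfl
  rcases hγB with hγB | hγB
  · refine tf_clique hc hb h8 hN (C := insert b U) (mem_insert_self _ _) ?_ ?_ ?_
      (γ := γ) (by rw [hγB]; exact hB0) ?_
    · intro x hx hx'
      rcases mem_insert.1 hx with rfl | hx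
      · rcases mem_insert.1 hx' with h | h
        · exact neg_ne_self hb0 h
        · exact hbnU h
      · rcases mem_insert.1 hx' with h | h
        · exact ((hmU x).1 hx).2.1.2 (by rw [← h, neg_neg])
        · exact hUneg x hx h
    · intro x hx
      rcases mem_insert.1 hx with rfl | hx
      · exact hbO
      · exact ((hmU x).1 hx).1
    · rw [card_insert_of_notMem hbU', hUcard]
    · intro x hx y hy hxy
      rcases mem_insert.1 hx with hx | hx <;> rcases mem_insert.1 hy with hy | hy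
      · exact absurd (hx.trans hy.symm) hxy
      · rw [hx, hbU y hy, hγB]
      · rw [hy, ip_comm, hbU x hx, hγB]
      · exact hpair x hx y hy hxy
  · refine tf_clique hc hb h8 hN (C := insert b (U.image fun x => -x)) (mem_insert_self _ _) ?_ ?_ ?_
      (γ := γ) (by rw [hγB]; exact neg_ne_zero.2 hB0) ?_
    · intro x hx hx'
      rcases mem_insert.1 hx with rfl | hx
      · rcases mem_insert.1 hx' with h | h
        · exact neg_ne_self hb0 h
        · obtain ⟨y, hy, h⟩ := mem_image.1 h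
          rw [neg_injective h] at hy
          exact hbU' hy
      · obtain ⟨y, hy, rfl⟩ := mem_image.1 hx
        rw [neg_neg] at hx'
        rcases mem_insert.1 hx' with h | h
        · rw [h] at hy
          exact hbU' hy
        · obtain ⟨z, hz, h⟩ := mem_image.1 h
          rw [← h] at hy
          exact hUneg z hz hy
    · intro x hx
      rcases mem_insert.1 hx with rfl | hx
      · exact hbO
      · obtain ⟨y, hy, rfl⟩ := mem_image.1 hx
        exact hnegO y ((hmU y).1 hy).1
    · rw [card_insert_of_notMem, card_image_of_injective _ neg_injective, hUcard]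
      intro h
      obtain ⟨y, hy, h⟩ := mem_image.1 h
      apply hbnU
      rw [← h, neg_neg]
      exact hy
    · intro x hx y hy hxy
      rcases mem_insert.1 hx with hx | hx <;> rcases mem_insert.1 hy with hy | hy
      · exact absurd (hx.trans hy.symm) hxy
      · obtain ⟨z, hz, rfl⟩ := mem_image.1 hy
        rw [hx, ip_neg_right, hbU z hz, hγB]
      · obtain ⟨z, hz, rfl⟩ := mem_image.1 hx
        rw [hy, ip_comm, ip_neg_right, hbU z hz, hγB]
      · obtain ⟨z, hz, rfl⟩ := mem_image.1 hx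
        obtain ⟨z', hz', rfl⟩ := mem_image.1 hy
        rw [ip_neg_left, ip_neg_right, neg_neg]
        exact hpair z hz z' hz' fun e => hxy (by rw [e])

end Pool.Agent.AVG
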