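import Pool.Agent.AVG.PrimeF
import Pool.Agent.AVG.MainE
import Pool.Agent.AVG.TwoF

/-!
# AVG: the relations in a set of weights of clause (2)
-/

set_option linter.unusedSectionVars false
set_option linter.unusedVariables false

namespace Pool.Agent.AVG

open Finset Pool.Agent.AVF

variable {G : Type} [Group G] [Fintype G] {D : Subgroup G} {c : G} {κ : G →* ℤˣ}

theorem isPf_of (hc : ∀ g, c * g = g * c) {w : G → ℚ} (hw : IsWeight D c w)
    (h : IsFactor D c w) : IsPf D c w := by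
  have key : IsP D c w → IsPf D c w := by
    rintro (h1 | ⟨ℓ, h1⟩)
    · exact Or.inl h1
    · exact Or.inr (Or.inl ⟨ℓ, h1⟩)
  rcases h with h | h | ⟨hQ, h | h⟩ | h
  · exact key (isP_of hc hw (Or.inl h))
  · exact key (isP_of hc hw (Or.inr (Or.inl h)))
  · obtain ⟨ℓ, h1, h2, h3⟩ := h
    exact key (isP_of hc hw (Or.inr (Or.inr ⟨ℓ, h1, h2, h3, hQ⟩)))
  · by_cases h4 : 4 < (orb ⊤ w).card
    · exact Or.inr (Or.inr (Or.inl ⟨h4, h.1, hQ, h.2.2⟩))
    · exact absurd h.2.1 h4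
  · by_cases hN : NoQ c w
    · exact Or.inr (Or.inr (Or.inl ⟨by omega, h.2.1.prim, hN, two_four_rel hc hw h.1 h.2.1 hN⟩))
    · exact Or.inr (Or.inr (Or.inr ⟨h.1, h.2.2.resolve_left hN, h.2.1, hN⟩))

/-- The relations between factors which satisfy `IsFactor` and have different Galois closures. -/
theorem net_factors (hc : ∀ g, c * g = g * c) (hκ : κ c = -1) {X : Finset (G → ℚ)}
    (hX : IsSys D c X) (h6 : ∀ w ∈ X, IsFactor D c w)
    (hsep : ∀ b ∈ X, ∀ b' ∈ X, 4 < (orb ⊤ b).card → 4 < (orb ⊤ b').card → b' ∉ orb ⊤ b →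
      core b ≠ core b')
    {S : Multiset (G → ℚ)} (hS : ∀ w ∈ S, w ∈ X) (hs : S.sum = 0) :
    net S ∈ R D c κ :=
  prime_core_f hc hκ
    (fun w hw => ⟨hX.wt w (hS w hw), isPf_of hc (hX.wt w (hS w hw)) (h6 w (hS w hw))⟩)
    (fun b hb b' hb' h h' hne => hsep b (hS b hb) b' (hS b' hb') h h' hne) hs

end Pool.Agent.AVG
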