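import Pool.Agent.AVG.Defs

/-!
# AVG: the mean value over a normal subgroup

Plan. `pc C` is linear, `tr h (pc C v) = pc C (tr h v)` for normal `C` (reindex by conjugation), `tr h (pc C v) = pc C v` for `h ∈ C`,
`pc C (pc C v) = pc C v`.
`pc_dich`: let the orbit of `w` be `{w, -w, b, -b}` (`AVF.orb_four`), `v = pc C w = α w + β b` (it is in the span of the orbit).
If `β = 0`: `v = α w`, `pc C v = v` gives `α v = v`, so `v = 0` or `v = w`. If `β ≠ 0`: `pc C b` is a multiple of `v`, from
`v = pc C v = α v + β pc C b`; so for all `h` the vector `tr h v = pc C (tr h w)` is a multiple of `v`, with the same norm,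
so `±v` (`AVF.eq_or_neg_of_smul`, `AVF.ip_tr`; if `v ≠ 0`), and `AVF.no_line` gives `v = 0`.
`pc_zero`: if `pc C w = w` then `tr h (tr g w) = tr g w` for all `h ∈ C`, `g ∈ G`, so `C ≤ core w`.
-/

set_option linter.unusedSectionVars false
set_option linter.unusedVariables false

namespace Pool.Agent.AVG

open Finset Pool.Agent.AVF

variable {G : Type} [Group G] [Fintype G] {D : Subgroup G} {c : G}

theorem pc_add (C : Subgroup G) (u v : G → ℚ) : pc C (u + v) = pc C u + pc C v := by
  classical
  unfold pc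
  rw [← smul_add, ← sum_add_distrib]
  rfl

theorem pc_smul (C : Subgroup G) (q : ℚ) (v : G → ℚ) : pc C (q • v) = q • pc C v := by
  classical
  unfold pc
  rw [smul_comm q, Finset.smul_sum (r := q)]
  rfl

theorem pc_neg (C : Subgroup G) (v : G → ℚ) : pc C (-v) = - pc C v := by
  have h := pc_smul C (-1) v
  rwa [neg_one_smul, neg_one_smul] at h

theorem pc_msum (C : Subgroup G) (S : Multiset (G → ℚ)) : pc C S.sum = (S.map (pc C)).sum := by
  induction S using Multiset.induction with
  | empty =>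
    have h := pc_smul C 0 (0 : G → ℚ)
    rw [zero_smul, zero_smul] at h
    simpa using h
  | cons a S ih =>
    rw [Multiset.sum_cons, pc_add, ih, Multiset.map_cons, Multiset.sum_cons]

open Classical in
private theorem pc_card_ne (C : Subgroup G) :
    ((univ.filter fun h : G => h ∈ C).card : ℚ) ≠ 0 := by
  have : 0 < (univ.filter fun h : G => h ∈ C).card :=
    card_pos.2 ⟨1, mem_filter.2 ⟨mem_univ _, C.one_mem⟩⟩
  exact_mod_cast this.ne'

theorem pc_of_fix {C : Subgroup G} {v : G → ℚ} (h : ∀ g ∈ C, tr g v = v) : pc C v = v := by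
  classical
  unfold pc
  rw [sum_congr rfl fun g hg => h g (mem_filter.1 hg).2, sum_const, ← Nat.cast_smul_eq_nsmul ℚ, smul_smul,
    one_div, inv_mul_cancel₀ (pc_card_ne C), one_smul]

theorem tr_pc {C : Subgroup G} (hC : C.Normal) (h : G) (v : G → ℚ) :
    tr h (pc C v) = pc C (tr h v) := by
  classical
  unfold pc
  rw [tr_smul, tr_sum]
  congr 1
  refine sum_bij' (fun g _ => h * g * h⁻¹) (fun g _ => h⁻¹ * g * h) ?_ ?_ ?_ ?_ ?_
  · intro g hg
    exact mem_filter.2 ⟨mem_univ _, hC.conj_mem g (mem_filter.1 hg).2 h⟩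
  · intro g hg
    have := hC.conj_mem g (mem_filter.1 hg).2 h⁻¹
    rw [inv_inv] at this
    exact mem_filter.2 ⟨mem_univ _, this⟩
  · intro g _
    group
  · intro g _
    group
  · intro g _
    rw [← tr_mul, ← tr_mul]
    congr 1
    group

theorem tr_pc_mem {C : Subgroup G} {h : G} (hh : h ∈ C) (v : G → ℚ) :
    tr h (pc C v) = pc C v ∧ pc C (tr h v) = pc C v := by
  classical
  constructor
  · unfold pc
    rw [tr_smul, tr_sum]
    congr 1
    refine sum_bij' (fun g _ => h * g) (fun g _ => h⁻¹ * g) ?_ ?_ ?_ ?_ ?_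
    · intro g hg
      exact mem_filter.2 ⟨mem_univ _, C.mul_mem hh (mem_filter.1 hg).2⟩
    · intro g hg
      exact mem_filter.2 ⟨mem_univ _, C.mul_mem (C.inv_mem hh) (mem_filter.1 hg).2⟩
    · intro g _
      group
    · intro g _
      group
    · intro g _
      rw [← tr_mul]
  · unfold pc
    congr 1
    refine sum_bij' (fun g _ => g * h) (fun g _ => g * h⁻¹) ?_ ?_ ?_ ?_ ?_
    · intro g hg
      exact mem_filter.2 ⟨mem_univ _, C.mul_mem (mem_filter.1 hg).2 hh⟩
    · intro g hg
      exact mem_filter.2 ⟨mem_univ _, C.mul_mem (mem_filter.1 hg).2 (C.inv_mem hh)⟩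
    · intro g _
      group
    · intro g _
      group
    · intro g _
      rw [← tr_mul]

private theorem pc_apply (C : Subgroup G) (v : G → ℚ) (g : G) : open Classical in
    pc C v g = 1 / ((univ.filter fun h : G => h ∈ C).card : ℚ) *
      ∑ h ∈ univ.filter (fun h : G => h ∈ C), v (g * h) := by
  classical
  unfold pc
  rw [Pi.smul_apply, smul_eq_mul, Finset.sum_apply]
  rfl

theorem isWeight_pc {C : Subgroup G} {w : G → ℚ} (hw : IsWeight D c w) :
    IsWeight D c (pc C w) := by
  classical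
  refine ⟨fun d hd g => ?_, fun g => ?_, fun g => ?_⟩
  · rw [pc_apply, pc_apply]
    congr 1
    refine sum_congr rfl fun h _ => ?_
    rw [mul_assoc, hw.1 d hd]
  · rw [pc_apply, pc_apply, ← mul_neg, ← sum_neg_distrib]
    congr 1
    refine sum_congr rfl fun h _ => ?_
    rw [mul_assoc, hw.2.1]
  · rw [pc_apply, abs_mul]
    have h1 : |∑ h ∈ univ.filter (fun h : G => h ∈ C), w (g * h)| ≤
        ((univ.filter fun h : G => h ∈ C).card : ℚ) * (1 / 2) := by
      refine (abs_sum_le_sum_abs _ _).trans ?_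
      rw [← nsmul_eq_mul]
      exact sum_le_card_nsmul _ _ _ fun h _ => hw.2.2 _
    have h2 : (0 : ℚ) < ((univ.filter fun h : G => h ∈ C).card : ℚ) :=
      lt_of_le_of_ne (Nat.cast_nonneg _) (pc_card_ne C).symm
    have h3 : |1 / ((univ.filter fun h : G => h ∈ C).card : ℚ)| =
        1 / ((univ.filter fun h : G => h ∈ C).card : ℚ) := abs_of_pos (by positivity)
    rw [h3]
    calc 1 / ((univ.filter fun h : G => h ∈ C).card : ℚ) *
          |∑ h ∈ univ.filter (fun h : G => h ∈ C), w (g * h)|
        ≤ 1 / ((univ.filter fun h : G => h ∈ C).card : ℚ) *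
          (((univ.filter fun h : G => h ∈ C).card : ℚ) * (1 / 2)) :=
          mul_le_mul_of_nonneg_left h1 (by positivity)
      _ = 1 / 2 := by field_simp

private theorem pc_span (C : Subgroup G) (w : G → ℚ) :
    pc C w ∈ Submodule.span ℚ ((orb ⊤ w : Finset (G → ℚ)) : Set (G → ℚ)) := by
  classical
  unfold pc
  refine Submodule.smul_mem _ _ (Submodule.sum_mem _ fun h _ => Submodule.subset_span ?_)
  exact mem_coe.2 (mem_orb.2 ⟨h, Subgroup.mem_top h, rfl⟩)

theorem pc_dich (hc : ∀ g, c * g = g * c) {C : Subgroup G} (hC : C.Normal) {w : G → ℚ}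
    (hw : IsWeight D c w) (h4 : (orb ⊤ w).card = 4) (he : idx D w = 1) :
    pc C w = 0 ∨ pc C w = w := by
  have h0 : w ≠ 0 := by
    rintro rfl
    rw [orb_zero, card_singleton] at h4
    omega
  obtain ⟨b, hb, hba, hbna, ho⟩ := orb_four hc hw h0 h4
  by_cases hv0 : pc C w = 0
  · exact Or.inl hv0
  have hsp : Submodule.span ℚ ((orb ⊤ w : Finset (G → ℚ)) : Set (G → ℚ)) ≤
      Submodule.span ℚ ({w, b} : Set (G → ℚ)) := by
    rw [Submodule.span_le]
    intro x hx
    have h1 : w ∈ Submodule.span ℚ ({w, b} : Set (G → ℚ)) := Submodule.subset_span (by simp)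
    have h2 : b ∈ Submodule.span ℚ ({w, b} : Set (G → ℚ)) := Submodule.subset_span (by simp)
    rcases (ho x).1 (mem_coe.1 hx) with rfl | rfl | rfl | rfl
    · exact h1
    · exact Submodule.neg_mem _ h1
    · exact h2
    · exact Submodule.neg_mem _ h2
  obtain ⟨α, β, hαβ⟩ := Submodule.mem_span_pair.1 (hsp (pc_span C w))
  have hfix : pc C (pc C w) = pc C w := pc_of_fix fun g hg => (tr_pc_mem hg w).1
  have h5 : α • pc C w + β • pc C b = pc C w := by
    rw [← pc_smul, ← pc_smul, ← pc_add, hαβ, hfix]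
  by_cases hβ : β = 0
  · right
    rw [hβ, zero_smul, add_zero] at h5 hαβ
    have h6 : (α - 1) • pc C w = 0 := by rw [sub_smul, h5, one_smul, sub_self]
    rcases smul_eq_zero.1 h6 with h | h
    · have : α = 1 := by linarith
      rw [this, one_smul] at hαβ
      exact hαβ.symm
    · exact absurd h hv0
  · left
    have h6 : pc C b = ((1 - α) / β) • pc C w := by
      have h7 : β • pc C b = (1 - α) • pc C w := by
        rw [sub_smul, one_smul]
        exact eq_sub_of_add_eq' h5
      calc pc C b = β⁻¹ • (β • pc C b) := by rw [smul_smul, inv_mul_cancel₀ hβ, one_smul]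
        _ = ((1 - α) / β) • pc C w := by rw [h7, smul_smul, div_eq_inv_mul]
    refine no_line hc hw h0 h4 he (pc_span C w) fun h => ?_
    have h8 : ∃ q : ℚ, tr h (pc C w) = q • pc C w := by
      rw [tr_pc hC]
      rcases (ho (tr h w)).1 (mem_orb.2 ⟨h, Subgroup.mem_top h, rfl⟩) with e | e | e | e
      · exact ⟨1, by rw [e, one_smul]⟩
      · exact ⟨-1, by rw [e, pc_neg, neg_one_smul]⟩
      · exact ⟨_, by rw [e, h6]⟩
      · exact ⟨-((1 - α) / β), by rw [e, pc_neg, h6, neg_smul]⟩
    obtain ⟨q, hq⟩ := h8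
    exact eq_or_neg_of_smul hv0 hq (ip_tr h _ _)

theorem pc_zero (hc : ∀ g, c * g = g * c) {C : Subgroup G} (hC : C.Normal) {w : G → ℚ}
    (hw : IsWeight D c w) (h4 : (orb ⊤ w).card = 4) (he : idx D w = 1) (hn : ¬ C ≤ core w) :
    pc C w = 0 := by
  rcases pc_dich hc hC hw h4 he with h | h
  · exact h
  · refine absurd (fun k hk => ?_) hn
    show ∀ x ∈ orb ⊤ w, tr k x = x
    intro x hx
    obtain ⟨g, -, rfl⟩ := mem_orb.1 hx
    have h1 : g⁻¹ * k * g ∈ C := by
      have := hC.conj_mem k hk g⁻¹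
      rwa [inv_inv] at this
    have h2 : tr (g⁻¹ * k * g) w = w := by
      have := (tr_pc_mem h1 w).1
      rwa [h] at this
    calc tr k (tr g w) = tr g (tr (g⁻¹ * k * g) w) := by
          rw [← tr_mul, ← tr_mul]
          congr 1
          group
      _ = tr g w := by rw [h2]

end Pool.Agent.AVG
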