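import Pool.Agent.AVG.Pc
import Pool.Agent.AVG.Phi
import Pool.Agent.AVG.DefsE

/-!
# AVG: factors whose totally real field has no proper subfields

`Prim w`: the stabiliser of `{w, -w}` is a maximal subgroup of `G`. A normal subgroup moves `w` only by signs, or it is transitive
on the pairs `{x, -x}` (`prim_normal`). `fixS` is the normal subgroup of the elements which are trivial on all weights with at most
four translates; it contains all fourth powers. If the orbit of `w` has more than four elements, then `fixS` is transitive on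
the pairs (`prim_trans`): otherwise the image of `G` in the permutations of the pairs is a 2-group with a maximal point stabiliser,
which is normal of index two.
-/

set_option linter.unusedSectionVars false
set_option linter.unusedVariables false

namespace Pool.Agent.AVG

open Finset Pool.Agent.AVF

variable {G : Type} [Group G] [Fintype G] {D : Subgroup G} {c : G}

/-- the stabiliser of the pair `{w, -w}` -/
private def prm_stab (w : G → ℚ) : Subgroup G where
  carrier := {g | tr g w = w ∨ tr g w = -w}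
  mul_mem' := by
    rintro a b ha hb
    show tr (a * b) w = w ∨ tr (a * b) w = -w
    rw [tr_mul]
    rcases hb with hb | hb <;> rcases ha with ha | ha <;> rw [hb]
    · exact Or.inl ha
    · exact Or.inr ha
    · exact Or.inr (by rw [tr_neg, ha])
    · exact Or.inl (by rw [tr_neg, ha, neg_neg])
  one_mem' := Or.inl (tr_one w)
  inv_mem' := by
    rintro a (ha | ha)
    · left
      have h := tr_inv_tr a w
      rwa [ha] at h
    · right
      have h := tr_inv_tr a w
      rw [ha, tr_neg] at h
      exact neg_eq_iff_eq_neg.1 h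

private theorem prm_pm_tr {x y : G → ℚ} (h : x = y ∨ x = -y) (g : G) :
    tr g x = tr g y ∨ tr g x = -tr g y := by
  rcases h with h | h
  · exact Or.inl (by rw [h])
  · exact Or.inr (by rw [h, tr_neg])

private theorem prm_pm_trans {x y z : G → ℚ} (h : x = y ∨ x = -y) (h' : y = z ∨ y = -z) :
    x = z ∨ x = -z := by
  rcases h with h | h <;> rcases h' with h' | h'
  · exact Or.inl (h.trans h')
  · exact Or.inr (h.trans h')
  · exact Or.inr (by rw [h, h'])
  · exact Or.inl (by rw [h, h', neg_neg])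

private theorem prm_pm_symm {x y : G → ℚ} (h : x = y ∨ x = -y) : y = x ∨ y = -x := by
  rcases h with h | h
  · exact Or.inl h.symm
  · exact Or.inr (by rw [h, neg_neg])

/-- the elements which move `w` as an element of `N`, up to the sign -/
private def prm_sup (N : Subgroup G) (hN : N.Normal) (w : G → ℚ) : Subgroup G where
  carrier := {g | ∃ n ∈ N, tr g w = tr n w ∨ tr g w = -tr n w}
  mul_mem' := by
    rintro a b ⟨n, hn, ha⟩ ⟨m, hm, hb⟩
    refine ⟨a * m * a⁻¹ * n, N.mul_mem (hN.conj_mem m hm a) hn, ?_⟩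
    rw [tr_mul]
    have h1 := prm_pm_tr hb a
    have h2 : tr a (tr m w) = tr (a * m * a⁻¹) (tr a w) := by
      rw [← tr_mul, ← tr_mul]
      congr 1
      group
    rw [h2] at h1
    refine prm_pm_trans h1 ?_
    have h3 := prm_pm_tr ha (a * m * a⁻¹)
    rwa [← tr_mul (a * m * a⁻¹) n] at h3
  one_mem' := ⟨1, N.one_mem, Or.inl rfl⟩
  inv_mem' := by
    rintro a ⟨n, hn, ha⟩
    refine ⟨a⁻¹ * n⁻¹ * a, ?_, ?_⟩
    · have := hN.conj_mem n⁻¹ (N.inv_mem hn) a⁻¹
      rwa [inv_inv] at this
    · have h1 := prm_pm_tr (prm_pm_symm ha) (a⁻¹ * n⁻¹)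
      rw [← tr_mul, ← tr_mul] at h1
      have h2 : a⁻¹ * n⁻¹ * n = a⁻¹ := by group
      rw [h2] at h1
      exact h1

theorem prim_normal {w : G → ℚ} (hP : Prim w) {N : Subgroup G} (hN : N.Normal) :
    (∀ g ∈ N, ∀ x ∈ orb ⊤ w, tr g x = x ∨ tr g x = -x) ∨
      ∀ h : G, ∃ n ∈ N, tr h w = tr n w ∨ tr h w = -tr n w := by
  rcases hP (prm_sup N hN w) (fun g hg => ⟨1, N.one_mem, by rw [tr_one]; exact hg⟩) with h | h
  · left
    intro g hg x hx
    obtain ⟨k, rfl⟩ := mem_orb_top.1 hx
    have h1 : k⁻¹ * g * k ∈ N := by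
      have := hN.conj_mem g hg k⁻¹
      rwa [inv_inv] at this
    have h2 := prm_pm_tr (h (k⁻¹ * g * k) ⟨_, h1, Or.inl rfl⟩) k
    rw [← tr_mul] at h2
    have h3 : k * (k⁻¹ * g * k) = g * k := by group
    rw [h3, tr_mul] at h2
    exact h2
  · right
    intro g
    have h1 : g ∈ prm_sup N hN w := by rw [h]; exact Subgroup.mem_top g
    exact h1

theorem core_prim {C : Subgroup G} (hC : C.Normal) {w : G → ℚ} (hP : Prim w)
    (hn : ¬ C ≤ core w) : (orb ⊤ (pc C w)).card ≤ 4 := by
  classical
  rcases prim_normal hP hC with h | h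
  · -- some element of `C` is `-1` somewhere: the mean value is zero
    have h1 : ∃ g ∈ C, ∃ x ∈ orb ⊤ w, tr g x ≠ x := by
      by_contra hcon
      push Not at hcon
      exact hn fun g hg x hx => hcon g hg x hx
    obtain ⟨m, hm, x, hx, hmx⟩ := h1
    have hmx' := (h m hm x hx).resolve_left hmx
    have h1 : pc C x = 0 := by
      have h2 := (tr_pc_mem hm x).2
      rw [hmx', pc_neg] at h2
      have h3 : (2 : ℚ) • pc C x = 0 := by
        rw [two_smul]
        nth_rewrite 1 [← h2]
        exact neg_add_cancel _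
      exact (smul_eq_zero.1 h3).resolve_left two_ne_zero
    obtain ⟨k, rfl⟩ := mem_orb_top.1 (orb_symm hx)
    rw [← tr_pc hC, h1, tr_zero, orb_zero, card_singleton]
    omega
  · have h4 : orb ⊤ (pc C w) ⊆ {pc C w, -pc C w} := by
      intro x hx
      obtain ⟨k, rfl⟩ := mem_orb_top.1 hx
      rw [mem_insert, mem_singleton, tr_pc hC]
      obtain ⟨n, hn', h1⟩ := h k
      rcases h1 with h1 | h1
      · left
        rw [h1, (tr_pc_mem hn' w).2]
      · right
        rw [h1, pc_neg, (tr_pc_mem hn' w).2]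
    have h5 := card_le_card h4
    have h6 := card_le_two (a := pc C w) (b := -pc C w)
    omega

/-- the elements which are trivial on all weights with at most four translates -/
def fixS (D : Subgroup G) (c : G) : Subgroup G where
  carrier := {g | ∀ x : G → ℚ, IsWeight D c x → (orb ⊤ x).card ≤ 4 → tr g x = x}
  mul_mem' := by
    intro a b ha hb x hx h4
    rw [tr_mul, hb x hx h4, ha x hx h4]
  one_mem' := fun x _ _ => tr_one x
  inv_mem' := by
    intro a ha x hx h4
    have h := congrArg (tr a⁻¹) (ha x hx h4)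
    rw [tr_inv_tr] at h
    exact h.symm

theorem fixS_normal (D : Subgroup G) (c : G) : (fixS D c).Normal := by
  constructor
  intro n hn g x hx h4
  have h1 : tr n (tr g⁻¹ x) = tr g⁻¹ x := by
    refine hn _ (hx.tr g⁻¹) ?_
    rw [orb_eq (mem_orb_top.2 ⟨g⁻¹, rfl⟩)]
    exact h4
  rw [tr_mul, tr_mul, h1, tr_tr_inv]

private theorem prm_sq (hc : ∀ g, c * g = g * c) {x : G → ℚ} (hx : IsWeight D c x)
    (h4 : (orb ⊤ x).card ≤ 4) (h : G) : tr (h * h) x = x ∨ tr (h * h) x = -x := by
  by_cases h0 : x = 0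
  · left
    rw [h0, tr_zero]
  obtain ⟨k, hk⟩ := card_orb_even hc hx h0
  have hk0 := two_le_card_orb hc hx h0
  rcases Nat.lt_or_ge k 2 with h5 | h5
  · exact (orb_two hc hx h0 (by omega) _).1 (mem_orb_top.2 ⟨h * h, rfl⟩)
  · obtain ⟨v, hv, hv1, hv2, hor⟩ := orb_four hc hx h0 (by omega)
    have a := (hor _).1 (mem_orb_top.2 ⟨h, rfl⟩)
    have b := (hor _).1 (tr_mem_orb (Subgroup.mem_top h) hv)
    rw [tr_mul]
    rcases a with a | a | a | a
    · left
      rw [a, a]
    · left
      rw [a, tr_neg, a, neg_neg]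
    · rw [a]
      rcases b with b | b | b | b
      · exact Or.inl b
      · exact Or.inr b
      · exact absurd (tr_inj h (b.trans a.symm)) hv1
      · refine absurd (tr_inj h (u := v) (v := -x) ?_) hv2
        rw [b, tr_neg, a]
    · rw [a, tr_neg]
      rcases b with b | b | b | b
      · right
        rw [b]
      · left
        rw [b, neg_neg]
      · refine absurd (tr_inj h (u := v) (v := -x) ?_) hv2
        rw [b, tr_neg, a, neg_neg]
      · exact absurd (tr_inj h (b.trans a.symm)) hv1

theorem pow_four_fixS (hc : ∀ g, c * g = g * c) (h : G) : h ^ 4 ∈ fixS D c := by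
  intro x hx h4
  have e : h ^ 4 = (h * h) * (h * h) := by
    rw [← pow_two, ← pow_two, ← pow_mul]
  rw [e, tr_mul]
  rcases prm_sq hc hx h4 h with h1 | h1
  · rw [h1, h1]
  · rw [h1, tr_neg, h1, neg_neg]

/-- A maximal subgroup which contains the fourth powers of all its conjugates is normal. -/
private theorem prm_stab_normal {H : Subgroup G} (hmax : ∀ K : Subgroup G, H ≤ K → K ≤ H ∨ K = ⊤)
    (hne : H ≠ ⊤) (h4 : ∀ h k : G, k * h ^ 4 * k⁻¹ ∈ H) : H.Normal := by
  have hF : Fact (Nat.Prime 2) := ⟨Nat.prime_two⟩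
  have hp : IsPGroup 2 (G ⧸ H.normalCore) := by
    intro q
    obtain ⟨g, rfl⟩ := QuotientGroup.mk_surjective q
    refine ⟨2, ?_⟩
    rw [← QuotientGroup.mk_pow, QuotientGroup.eq_one_iff]
    intro k
    exact h4 g k
  have hnil : Group.IsNilpotent (G ⧸ H.normalCore) := hp.isNilpotent
  have hker : (QuotientGroup.mk' H.normalCore).ker ≤ H := by
    rw [QuotientGroup.ker_mk']
    exact H.normalCore_le
  have hco : (H.map (QuotientGroup.mk' H.normalCore)).comap (QuotientGroup.mk' H.normalCore) = H :=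
    Subgroup.comap_map_eq_self hker
  have hcoatom : IsCoatom (H.map (QuotientGroup.mk' H.normalCore)) := by
    refine ⟨fun h => hne ?_, fun K hK => ?_⟩
    · rw [← hco, h, Subgroup.comap_top]
    · have h1 : H ≤ K.comap (QuotientGroup.mk' H.normalCore) :=
        Subgroup.map_le_iff_le_comap.1 hK.le
      rcases hmax _ h1 with h2 | h2
      · exfalso
        refine hK.not_ge ?_
        rw [← Subgroup.map_comap_eq_self_of_surjective
          (QuotientGroup.mk'_surjective H.normalCore) K]
        exact Subgroup.map_mono h2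
      · rw [← Subgroup.map_comap_eq_self_of_surjective
          (QuotientGroup.mk'_surjective H.normalCore) K, h2]
        exact Subgroup.map_top_of_surjective _ (QuotientGroup.mk'_surjective H.normalCore)
  have hn := Subgroup.NormalizerCondition.normal_of_coatom _
    Group.normalizerCondition_of_isNilpotent hcoatom
  have h5 := Subgroup.Normal.comap hn (QuotientGroup.mk' H.normalCore)
  rwa [hco] at h5

/-- Such a subgroup has index at most two. -/
private theorem prm_two {H : Subgroup G} (hmax : ∀ K : Subgroup G, H ≤ K → K ≤ H ∨ K = ⊤)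
    (hH : H.Normal) (h4 : ∀ h : G, h ^ 4 ∈ H) {g g' : G} (hg : g ∉ H) (hg' : g' ∉ H) :
    g⁻¹ * g' ∈ H := by
  have hle : ∀ K : Subgroup (G ⧸ H), H ≤ K.comap (QuotientGroup.mk' H) := by
    intro K h hh
    rw [Subgroup.mem_comap]
    have : QuotientGroup.mk' H h = 1 := (QuotientGroup.eq_one_iff h).2 hh
    rw [this]
    exact K.one_mem
  obtain ⟨q, hq⟩ : ∃ q : G ⧸ H, q = (g : G ⧸ H) := ⟨_, rfl⟩
  have hq4 : q ^ 4 = 1 := by
    rw [hq, ← QuotientGroup.mk_pow, QuotientGroup.eq_one_iff]
    exact h4 g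
  have hq1 : q ≠ 1 := by
    rw [hq]
    exact fun h => hg ((QuotientGroup.eq_one_iff g).1 h)
  have hall : ∀ x : G, (x : G ⧸ H) ∈ Subgroup.zpowers q := by
    rcases hmax _ (hle (Subgroup.zpowers q)) with h | h
    · exfalso
      exact hg (h (by rw [Subgroup.mem_comap, hq]; exact Subgroup.mem_zpowers _))
    · intro x
      have h1 : x ∈ (Subgroup.zpowers q).comap (QuotientGroup.mk' H) := by
        rw [h]
        exact Subgroup.mem_top x
      exact h1
  have hq2 : q * q = 1 := by
    rcases hmax _ (hle (Subgroup.zpowers (q * q))) with h | h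
    · have h1 : g * g ∈ H := h (by
        rw [Subgroup.mem_comap, hq]
        exact Subgroup.mem_zpowers _)
      rw [hq]
      exact (QuotientGroup.eq_one_iff (g * g)).2 h1
    · exfalso
      have h1 : g ∈ (Subgroup.zpowers (q * q)).comap (QuotientGroup.mk' H) := by
        rw [h]
        exact Subgroup.mem_top g
      obtain ⟨j, hj⟩ := Subgroup.mem_zpowers_iff.1 (Subgroup.mem_comap.1 h1)
      have hj' : (q * q) ^ j = q := by rw [hj, hq]; rfl
      have h44 : (q * q) * (q * q) = 1 := by
        rw [← hq4, ← pow_two, ← pow_two, ← pow_mul]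
      rcases Int.even_or_odd' j with ⟨i, hi | hi⟩
      · apply hq1
        rw [← hj', hi, zpow_mul, zpow_two, h44, one_zpow]
      · have h2 : (q * q) ^ j = q * q := by
          rw [hi, zpow_add, zpow_mul, zpow_two, h44, one_zpow, one_mul, zpow_one]
        rw [h2] at hj'
        exact hq1 (mul_eq_left.1 hj')
  have hall2 : ∀ x : G, x ∉ H → (x : G ⧸ H) = q := by
    intro x hx
    obtain ⟨j, hj⟩ := Subgroup.mem_zpowers_iff.1 (hall x)
    rcases Int.even_or_odd' j with ⟨i, hi | hi⟩
    · exfalso
      apply hx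
      rw [← QuotientGroup.eq_one_iff, ← hj, hi, zpow_mul, zpow_two, hq2, one_zpow]
    · rw [← hj, hi, zpow_add, zpow_mul, zpow_two, hq2, one_zpow, one_mul, zpow_one]
  rw [← QuotientGroup.eq, hall2 g hg, hall2 g' hg']

theorem prim_trans_of {b : G → ℚ} (hP : Prim b)
    (h4 : 4 < (orb ⊤ b).card) {N : Subgroup G} (hN : N.Normal) (hN4 : ∀ h : G, h ^ 4 ∈ N) :
    ∀ h : G, ∃ n ∈ N, tr h b = tr n b ∨ tr h b = -tr n b := by
  classical
  rcases prim_normal hP hN with h | h
  swap
  · exact h
  exfalso
  have hmax : ∀ K : Subgroup G, prm_stab b ≤ K → K ≤ prm_stab b ∨ K = ⊤ := by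
    intro K hK
    exact hP K fun g hg => hK hg
  have h44 : ∀ h k : G, k * h ^ 4 * k⁻¹ ∈ prm_stab b := by
    intro x k
    exact h _ (hN.conj_mem _ (hN4 x) k) b (self_mem_orb ⊤ b)
  have hne : prm_stab b ≠ ⊤ := by
    intro h1
    have h2 : orb ⊤ b ⊆ {b, -b} := by
      intro x hx
      obtain ⟨k, rfl⟩ := mem_orb_top.1 hx
      rw [mem_insert, mem_singleton]
      have h3 : k ∈ prm_stab b := by rw [h1]; exact Subgroup.mem_top k
      exact h3
    have h5 := card_le_card h2
    have h6 := card_le_two (a := b) (b := -b)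
    omega
  have hnorm := prm_stab_normal hmax hne h44
  obtain ⟨g, hg⟩ : ∃ g, g ∉ prm_stab b := by
    by_contra hcon
    push Not at hcon
    exact hne (by ext x; exact ⟨fun _ => Subgroup.mem_top x, fun _ => hcon x⟩)
  have h5 : orb ⊤ b ⊆ {b, -b, tr g b, -tr g b} := by
    intro x hx
    obtain ⟨k, rfl⟩ := mem_orb_top.1 hx
    simp only [mem_insert, mem_singleton]
    by_cases hk : k ∈ prm_stab b
    · rcases hk with hk | hk
      · exact Or.inl hk
      · exact Or.inr (Or.inl hk)
    · have h6 := prm_two hmax hnorm (fun x => by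
        have := h44 x 1
        rwa [one_mul, inv_one, mul_one] at this) hg hk
      have h7 := prm_pm_tr (y := b) h6 g
      rw [← tr_mul, mul_inv_cancel_left] at h7
      rcases h7 with h7 | h7
      · exact Or.inr (Or.inr (Or.inl h7))
      · exact Or.inr (Or.inr (Or.inr h7))
  have h6 := card_le_card h5
  have h7 : ({b, -b, tr g b, -tr g b} : Finset (G → ℚ)).card ≤ 4 := card_le_four
  omega

theorem prim_trans (hc : ∀ g, c * g = g * c) {b : G → ℚ} (hP : Prim b)
    (h4 : 4 < (orb ⊤ b).card) :
    ∀ h : G, ∃ n ∈ fixS D c, tr h b = tr n b ∨ tr h b = -tr n b :=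
  prim_trans_of hP h4 (fixS_normal D c) (pow_four_fixS hc)

/-- A group which is 2-transitive on the pairs is primitive. -/
theorem TwoTr.prim {w : G → ℚ} (hT : TwoTr w) : Prim w := by
  intro H hH
  by_cases h : ∀ g ∈ H, tr g w = w ∨ tr g w = -w
  · exact Or.inl h
  right
  push Not at h
  obtain ⟨h0, hh0, h1, h2⟩ := h
  rw [eq_top_iff]
  intro g _
  by_cases hg : tr g w = w ∨ tr g w = -w
  · exact hH g hg
  push Not at hg
  obtain ⟨s, hs1, hs2⟩ := hT (tr h0 w) (mem_orb_top.2 ⟨h0, rfl⟩) (tr g w) (mem_orb_top.2 ⟨g, rfl⟩)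
    h1 h2 hg.1 hg.2
  have h3 : g⁻¹ * s * h0 ∈ H := by
    refine hH _ ?_
    rw [tr_mul, tr_mul]
    have h4 := prm_pm_tr hs2 g⁻¹
    rwa [tr_inv_tr] at h4
  have h4 : g = s * h0 * (g⁻¹ * s * h0)⁻¹ := by group
  rw [h4]
  exact H.mul_mem (H.mul_mem (hH s hs1) hh0) (H.inv_mem h3)

end Pool.Agent.AVG
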