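import Pool.Agent.AVG.Prim
import Pool.Agent.AVF.Half

/-!
# AVG: relations of factors whose totally real field has no proper subfields

`prim_zero`: no imaginary quadratic field and no relation in the orbit: a relation of the orbit with a vector fixed by `fixS` is
invariant under `fixS`, and its sign defines an imaginary quadratic field. `two_const`: an imaginary quadratic field and `G`
2-transitive on the pairs: the Gram matrix of the half is `(A - B) 1 + B J`, so the coefficients are invariant under the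
intersection of `fixS` and the kernel of `ε`, which is transitive on the half.
-/

set_option linter.unusedSectionVars false
set_option linter.unusedVariables false

namespace Pool.Agent.AVG

open Finset Pool.Agent.AVF

variable {G : Type} [Group G] [Fintype G] {D : Subgroup G} {c : G}

private theorem pr_perm {b : G → ℚ} (n : (G → ℚ) → ℚ) (g : G) :
    ∑ w ∈ orb ⊤ b, n (tr g w) • w = tr g⁻¹ (∑ w ∈ orb ⊤ b, n w • w) := by
  rw [tr_sum]
  refine Finset.sum_bij' (fun w _ => tr g w) (fun w _ => tr g⁻¹ w)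
    (fun w hw => tr_mem_orb (Subgroup.mem_top g) hw)
    (fun w hw => tr_mem_orb (Subgroup.mem_top g⁻¹) hw)
    (fun w _ => tr_inv_tr g w) (fun w _ => tr_tr_inv g w) fun w _ => ?_
  rw [tr_smul, tr_inv_tr]

theorem prim_zero (hc : ∀ g, c * g = g * c) {b : G → ℚ} (hb : IsWeight D c b)
    (h4 : 4 < (orb ⊤ b).card) (hP : Prim b) (hN : NoQ c b)
    (hrel : ∀ n : (G → ℚ) → ℚ, IsRel (orb ⊤ b) n → ∀ w ∈ orb ⊤ b, n w = 0)
    {n : (G → ℚ) → ℚ} (hodd : ∀ w, n (-w) = - n w) {r : G → ℚ}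
    (hr : ∀ g ∈ fixS D c, tr g r = r) (hsum : ∑ w ∈ orb ⊤ b, n w • w = r) :
    ∀ w ∈ orb ⊤ b, n w = 0 := by
  classical
  have hinv : ∀ g ∈ fixS D c, ∀ w ∈ orb ⊤ b, n (tr g w) = n w := by
    intro g hg w hw
    have h1 := hrel (fun w => n (tr g w) - n w) ⟨fun w => ?_, ?_⟩ w hw
    · have h2 : n (tr g w) - n w = 0 := h1
      linarith
    · show n (tr g (-w)) - n (-w) = -(n (tr g w) - n w)
      rw [tr_neg, hodd, hodd]
      ring
    · have h2 : ∑ w ∈ orb ⊤ b, (n (tr g w) - n w) • w = 0 := by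
        simp only [sub_smul]
        rw [Finset.sum_sub_distrib, pr_perm, hsum, hr _ ((fixS D c).inv_mem hg), sub_self]
      exact h2
  have htr := prim_trans (D := D) hc hP h4
  have habs : ∀ h : G, n (tr h b) = n b ∨ n (tr h b) = - n b := by
    intro h
    obtain ⟨g, hg, h1 | h1⟩ := htr h
    · left
      rw [h1, hinv g hg b (self_mem_orb ⊤ b)]
    · right
      rw [h1, hodd, hinv g hg b (self_mem_orb ⊤ b)]
  by_cases hnb : n b = 0
  · intro w hw
    obtain ⟨h, rfl⟩ := mem_orb_top.1 hw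
    rcases habs h with h1 | h1 <;> rw [h1, hnb]
    rw [neg_zero]
  exfalso
  have hne : n b ≠ - n b := fun h => hnb (by linarith)
  obtain ⟨f, hf⟩ : ∃ f : G → ℤˣ, ∀ h, f h = if n (tr h b) = n b then (1 : ℤˣ) else -1 :=
    ⟨_, fun h => rfl⟩
  have hval : ∀ h : G, n (tr h b) = ((f h : ℤ) : ℚ) * n b := by
    intro h
    rw [hf]
    rcases habs h with h1 | h1
    · rw [if_pos h1, h1]
      simp
    · rw [if_neg (fun h2 => hne (h2.symm.trans h1)), h1]
      simp
  have hmul' : ∀ h k : G, n (tr (h * k) b) = ((f k : ℤ) : ℚ) * n (tr h b) := by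
    intro h k
    rw [tr_mul]
    obtain ⟨g, hg, h1⟩ := htr k
    have h2 : n (tr h (tr g b)) = n (tr h b) := by
      have h3 : tr h (tr g b) = tr (h * g * h⁻¹) (tr h b) := by
        rw [← tr_mul, ← tr_mul]
        congr 1
        group
      rw [h3]
      exact hinv _ ((fixS_normal D c).conj_mem g hg h) _ (mem_orb_top.2 ⟨h, rfl⟩)
    have h4 := hinv g hg b (self_mem_orb ⊤ b)
    rw [hf]
    rcases h1 with h1 | h1
    · rw [h1, h2, if_pos h4]
      simp
    · rw [h1, tr_neg, hodd, hodd, h2, h4, if_neg (fun h2 => hne h2.symm)]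
      simp
  have hmul : ∀ h k : G, f (h * k) = f h * f k := by
    intro h k
    have h1 := hmul' h k
    rw [hval (h * k), hval h, ← mul_assoc] at h1
    have h2 := mul_right_cancel₀ hnb h1
    have h3 : (f (h * k) : ℤ) = (f k : ℤ) * (f h : ℤ) := by exact_mod_cast h2
    apply Units.ext
    rw [Units.val_mul, h3, mul_comm]
  obtain ⟨ε, hε⟩ : ∃ ε : G →* ℤˣ, ∀ h, ε h = if n (tr h b) = n b then (1 : ℤˣ) else -1 :=
    ⟨{ toFun := f
       map_one' := by rw [hf, tr_one, if_pos rfl]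
       map_mul' := hmul }, hf⟩
  have hεc : ε c = -1 := by
    rw [hε, hb.tr_c hc, hodd, if_neg (fun h => hne h.symm)]
  obtain ⟨k, hk1, hk2⟩ := hN ε hεc
  rw [hε, hk1, if_pos rfl] at hk2
  exact absurd hk2 (by decide)

/-- The half of an orbit, if the centre contains an imaginary quadratic field. -/
theorem isHalf_orb (hc : ∀ g, c * g = g * c) {b : G → ℚ} (hb : IsWeight D c b) {ε : G →* ℤˣ}
    (hε : ε c = -1) (hst : ∀ h, tr h b = b → ε h = 1) :
    IsHalf c ε (orb ε.ker b) ∧ ∀ w ∈ orb ⊤ b, w ∈ orb ε.ker b ∨ -w ∈ orb ε.ker b := by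
  refine ⟨⟨hε, ?_, ?_⟩, ?_⟩
  · intro w hw hw'
    obtain ⟨h, hh, rfl⟩ := mem_orb.1 hw
    obtain ⟨k, hk, hk'⟩ := mem_orb.1 hw'
    have h1 : tr (k⁻¹ * (c * h)) b = b := by
      rw [tr_mul, tr_mul, (hb.tr h).tr_c hc, ← hk', tr_inv_tr]
    have h2 := hst _ h1
    rw [map_mul, map_inv, map_mul, MonoidHom.mem_ker.1 hh, MonoidHom.mem_ker.1 hk, hε] at h2
    exact absurd h2 (by decide)
  · intro h hh w hw
    exact tr_mem_orb (MonoidHom.mem_ker.2 hh) hw
  · intro w hw
    obtain ⟨h, rfl⟩ := mem_orb_top.1 hw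
    rcases Int.units_eq_one_or (ε h) with e | e
    · exact Or.inl (mem_orb.2 ⟨h, MonoidHom.mem_ker.2 e, rfl⟩)
    · right
      refine mem_orb.2 ⟨c * h, MonoidHom.mem_ker.2 ?_, ?_⟩
      · rw [map_mul, hε, e]
        decide
      · rw [tr_mul, (hb.tr h).tr_c hc]

theorem two_const (hc : ∀ g, c * g = g * c) {b : G → ℚ} (hb : IsWeight D c b)
    (h4 : 4 < (orb ⊤ b).card) (hT : TwoTr b) {ε : G →* ℤˣ}
    (hε : ε c = -1) (hst : ∀ h, tr h b = b → ε h = 1)
    {n : (G → ℚ) → ℚ} (hodd : ∀ w, n (-w) = - n w) {r : G → ℚ}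
    (hr : ∀ g ∈ fixS D c, tr g r = r) (hsum : ∑ w ∈ orb ⊤ b, n w • w = r) :
    ∀ w ∈ orb ε.ker b, n w = n b := by
  classical
  obtain ⟨hC, hcov⟩ := isHalf_orb hc hb hε hst
  have hbC : b ∈ orb ε.ker b := self_mem_orb _ b
  have hsub : orb ε.ker b ⊆ orb ⊤ b := by
    intro x hx
    obtain ⟨h, -, rfl⟩ := mem_orb.1 hx
    exact mem_orb_top.2 ⟨h, rfl⟩
  have hnegO : ∀ w ∈ orb ⊤ b, -w ∈ orb ⊤ b := fun w hw => neg_mem_orb hb hc hw
  have h1 : (2 : ℚ) • ∑ w ∈ orb ε.ker b, n w • w = r := by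
    rw [← hsum, sum_half hsub hnegO hC.neg hcov hodd]
  -- 2-transitivity on the half, at `b`
  have htwo : ∀ x ∈ orb ε.ker b, ∀ y ∈ orb ε.ker b, x ≠ b → y ≠ b →
      ∃ h, ε h = 1 ∧ tr h b = b ∧ tr h x = y := by
    intro x hx y hy hxb hyb
    have hxn : x ≠ -b := by
      rintro rfl
      exact hC.neg b hbC hx
    have hyn : y ≠ -b := by
      rintro rfl
      exact hC.neg b hbC hy
    obtain ⟨h, h2, h3⟩ := hT x (hsub hx) y (hsub hy) hxb hxn hyb hyn
    have key : ∀ k : G, ε k = 1 → (tr k b = b ∨ tr k b = -b) → (tr k x = y ∨ tr k x = -y) →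
        tr k b = b ∧ tr k x = y := by
      intro k hk h5 h6
      refine ⟨h5.resolve_right fun h7 => ?_, h6.resolve_right fun h7 => ?_⟩
      · have h8 := hC.ker k hk b hbC
        rw [h7] at h8
        exact hC.neg b hbC h8
      · have h8 := hC.ker k hk x hx
        rw [h7] at h8
        exact hC.neg y hy h8
    rcases Int.units_eq_one_or (ε h) with e | e
    · exact ⟨h, e, key h e h2 h3⟩
    · have e' : ε (c * h) = 1 := by
        rw [map_mul, hε, e]
        decide
      refine ⟨c * h, e', key _ e' ?_ ?_⟩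
      · rw [tr_mul, (hb.tr h).tr_c hc]
        rcases h2 with h2 | h2
        · exact Or.inr (by rw [h2])
        · exact Or.inl (by rw [h2, neg_neg])
      · have hxw : IsWeight D c x := (orb_isSys hb).wt x (hsub hx)
        rw [tr_mul, (hxw.tr h).tr_c hc]
        rcases h3 with h3 | h3
        · exact Or.inr (by rw [h3])
        · exact Or.inl (by rw [h3, neg_neg])
  -- the inner products
  have hip : ∀ x ∈ orb ε.ker b, ∀ y ∈ orb ε.ker b, x ≠ y → ∀ z ∈ orb ε.ker b, z ≠ b →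
      ip x y = ip b z := by
    intro x hx y hy hxy z hz hzb
    obtain ⟨k, hk, rfl⟩ := mem_orb.1 hx
    have hk' : ε k⁻¹ = 1 := by rw [map_inv, MonoidHom.mem_ker.1 hk, inv_one]
    have h5 : tr k⁻¹ y ∈ orb ε.ker b := hC.ker _ hk' y hy
    have h6 : tr k⁻¹ y ≠ b := by
      intro h
      apply hxy
      rw [← h, tr_tr_inv]
    obtain ⟨h, -, h7, h8⟩ := htwo _ h5 z hz h6 hzb
    have h9 := ip_tr (h * k⁻¹) (tr k b) y
    rw [tr_mul, tr_mul, tr_inv_tr, h7, h8] at h9
    exact h9.symm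
  obtain ⟨N, hN⟩ : ∃ N : Subgroup G, N = fixS D c ⊓ ε.ker := ⟨_, rfl⟩
  have hNn : N.Normal := by
    rw [hN]
    constructor
    intro m hm g
    obtain ⟨hm1, hm2⟩ := Subgroup.mem_inf.1 hm
    refine Subgroup.mem_inf.2 ⟨(fixS_normal D c).conj_mem m hm1 g, ?_⟩
    rw [MonoidHom.mem_ker, map_mul, map_mul, MonoidHom.mem_ker.1 hm2, mul_one, map_inv,
      mul_inv_cancel]
  have hN4 : ∀ h : G, h ^ 4 ∈ N := by
    intro h
    rw [hN]
    refine Subgroup.mem_inf.2 ⟨pow_four_fixS hc h, MonoidHom.mem_ker.2 ?_⟩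
    rw [map_pow]
    rcases Int.units_eq_one_or (ε h) with e | e <;> rw [e] <;> decide
  have htr := prim_trans_of hT.prim h4 hNn hN4
  intro w hw
  by_cases hwb : w = b
  · rw [hwb]
  obtain ⟨h, hh, rfl⟩ := mem_orb.1 hw
  obtain ⟨g, hg, h5⟩ := htr h
  rw [hN] at hg
  obtain ⟨hg1, hg2⟩ := Subgroup.mem_inf.1 hg
  have h6 : tr h b = tr g b := by
    refine h5.resolve_right fun h7 => ?_
    rw [h7] at hw
    exact hC.neg _ (hC.ker g (MonoidHom.mem_ker.1 hg2) b hbC) hw
  rw [h6] at hwb hw ⊢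
  -- the Gram matrix
  obtain ⟨B, hB⟩ : ∃ B, B = ip b (tr g b) := ⟨_, rfl⟩
  obtain ⟨M, hM⟩ : ∃ M, M = ∑ x ∈ orb ε.ker b, n x := ⟨_, rfl⟩
  have hgram : ∀ x ∈ orb ε.ker b, ip x (∑ y ∈ orb ε.ker b, n y • y) =
      n x * (ip b b - B) + M * B := by
    intro x hx
    have h7 : ip x (∑ y ∈ orb ε.ker b, n y • y) = ∑ y ∈ orb ε.ker b, n y * ip x y := by
      have h8 : ∀ s : Finset (G → ℚ), ip x (∑ y ∈ s, n y • y) = ∑ y ∈ s, n y * ip x y := by
        intro s
        induction s using Finset.induction_on with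
        | empty =>
          rw [Finset.sum_empty, Finset.sum_empty]
          unfold ip
          simp
        | insert a s ha ih =>
          rw [Finset.sum_insert ha, Finset.sum_insert ha, ip_add_right, ip_smul_right, ih]
      exact h8 _
    rw [h7]
    have h9 : ∀ y ∈ orb ε.ker b, n y * ip x y = (if y = x then n x * (ip b b - B) else 0) +
        n y * B := by
      intro y hy
      by_cases hyx : y = x
      · rw [if_pos hyx, hyx, ip_orb (hsub hx)]
        ring
      · rw [if_neg hyx, hip x hx y hy (fun h => hyx h.symm) _ hw hwb, ← hB]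
        ring
    rw [Finset.sum_congr rfl h9, Finset.sum_add_distrib, Finset.sum_ite_eq' _ x, if_pos hx,
      ← Finset.sum_mul, ← hM]
  have hv : ∀ k ∈ fixS D c, tr k (∑ y ∈ orb ε.ker b, n y • y) = ∑ y ∈ orb ε.ker b, n y • y := by
    intro k hk
    have h7 : ∑ y ∈ orb ε.ker b, n y • y = (2 : ℚ)⁻¹ • r := by
      rw [← h1, smul_smul, inv_mul_cancel₀ (by norm_num), one_smul]
    rw [h7, tr_smul, hr k hk]
  have h7 := hgram (tr g b) hw
  have h8 := hgram b hbC
  have h9 : ip (tr g b) (∑ y ∈ orb ε.ker b, n y • y) = ip b (∑ y ∈ orb ε.ker b, n y • y) := by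
    conv_lhs => rw [← hv g hg1]
    exact ip_tr g _ _
  have h10 : ip b b - B ≠ 0 := by
    intro h
    apply hwb
    have h11 : ip (tr g b) (tr g b) = ip b b := ip_tr g b b
    have h12 : ip (tr g b - b) (tr g b - b) = 0 := by
      rw [ip_sub_left, ip_sub_right, ip_sub_right, h11, ip_comm (tr g b) b, ← hB]
      linarith
    exact sub_eq_zero.1 (ip_self_eq_zero h12)
  have h13 : (n (tr g b) - n b) * (ip b b - B) = 0 := by linarith
  have h14 := (mul_eq_zero.1 h13).resolve_right h10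
  linarith

end Pool.Agent.AVG
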