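import Pool.Agent.AVG.PrimeE
import Pool.Agent.AVG.PrimR

/-!
# AVG: relations between large factors, surfaces and elliptic curves

As in `PrimeE.lean`; large factors (`IsBig`) are now the factors of prime dimension, the factors without imaginary quadratic field
whose totally real field has no proper subfields (`prim_zero`), and the fourfolds with an imaginary quadratic field and a 2-transitive
totally real field (`two_const`, `AVF.half_four`, `AVF.rea_four`).
-/

set_option linter.unusedSectionVars false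
set_option linter.unusedVariables false

namespace Pool.Agent.AVG

open Finset Pool.Agent.AVF

variable {G : Type} [Group G] [Fintype G] {D : Subgroup G} {c : G} {κ : G →* ℤˣ}

/-- The large factors. -/
def IsBig (D : Subgroup G) (c : G) (w : G → ℚ) : Prop :=
  (∃ ℓ : ℕ, ℓ.Prime ∧ ℓ ≠ 2 ∧ (orb ⊤ w).card = 2 * ℓ ∧
    ((ℓ = 3 ∧ idx D w = 1) ∨ (ℓ = 5 ∧ idx D w = 1 ∧ ¬ Sig14 D c w) ∨ NoQ c w)) ∨
  (4 < (orb ⊤ w).card ∧ Prim w ∧ NoQ c w ∧
    ∀ n : (G → ℚ) → ℚ, IsRel (orb ⊤ w) n → ∀ x ∈ orb ⊤ w, n x = 0) ∨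
  ((orb ⊤ w).card = 8 ∧ idx D w = 1 ∧ TwoTr w ∧ ¬ NoQ c w)

/-- The mean value over a normal subgroup. -/
private theorem prif_core (hc : ∀ g, c * g = g * c) {N : Subgroup G} (hN : N.Normal) {w : G → ℚ}
    (hw : IsWeight D c w) (h0 : w ≠ 0) (hB : IsBig D c w) (hn : ¬ N ≤ core w) :
    (orb ⊤ (pc N w)).card ≤ 4 := by
  rcases hB with ⟨ℓ, hℓ, -, hcard, -⟩ | ⟨-, hP, -⟩ | ⟨-, -, hT, -⟩
  · exact core_prime hc hN hw h0 hℓ hcard hn
  · exact core_prim hN hP hn
  · exact core_prim hN hT.prim hn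

private theorem prif_half_orb (hc : ∀ g, c * g = g * c) {ε : G →* ℤˣ} {C : Finset (G → ℚ)}
    {b : G → ℚ} (hC : IsHalf c ε C) (hw : ∀ w ∈ C, IsWeight D c w) (hb : b ∈ C)
    (hsub : C ⊆ orb ⊤ b) (hneg : ∀ w ∈ C, -w ∉ C) : orb ε.ker b = C := by
  ext x
  rw [mem_orb]
  constructor
  · rintro ⟨h, hh, rfl⟩
    exact hC.ker h (MonoidHom.mem_ker.1 hh) b hb
  · intro hx
    obtain ⟨h, rfl⟩ := mem_orb_top.1 (hsub hx)
    rcases Int.units_eq_one_or (ε h) with e | e
    · exact ⟨h, MonoidHom.mem_ker.2 e, rfl⟩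
    · exact absurd ((half_tr hc hC hw h hb).2 e) (hneg _ hx)

/-- The relations of a large factor with a vector which is fixed by `fixS` together with its translates. -/
private theorem prif_data (hc : ∀ g, c * g = g * c) {b : G → ℚ} (hb : IsWeight D c b)
    (h0 : b ≠ 0) (h4 : 4 < (orb ⊤ b).card) (hB : IsBig D c b)
    {n : (G → ℚ) → ℚ} (hodd : ∀ w, n (-w) = - n w) {r : G → ℚ}
    (hr : ∀ g ∈ fixS D c, ∀ h, tr g (tr h r) = tr h r) (hsum : ∑ w ∈ orb ⊤ b, n w • w = r) :
    (∀ w ∈ orb ⊤ b, n w = 0) ∨ ∃ C : Finset (G → ℚ), b ∈ C ∧ C ⊆ orb ⊤ b ∧ (∀ w ∈ C, -w ∉ C) ∧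
      (∀ w ∈ orb ⊤ b, w ∈ C ∨ -w ∈ C) ∧ (∀ w ∈ C, n w = n b) ∧
      (n b ≠ 0 → ∃ ε : G →* ℤˣ, IsHalf c ε C ∧
        (C.card = 3 ∨ (C.card = 5 ∧ ¬ Sig14 D c b) ∨ C.card = 4) ∧ idx D b = 1) := by
  classical
  have hr1 : ∀ g ∈ fixS D c, tr g r = r := by
    intro g hg
    have h := hr g hg 1
    rwa [tr_one] at h
  rcases hB with ⟨ℓ, hℓ, hℓ2, hcardb, hNQ⟩ | ⟨-, hP, hN, hrel⟩ | ⟨h8, hi, hT, hQ⟩
  · right
    obtain ⟨g, C, hcyc, hC3, hneg, hsub, hcov, hfix⟩ := exists_cyc hc hb h0 hℓ hℓ2 hcardb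
    obtain ⟨hconst, hhalf⟩ := cyc_half (D := D) hc hb hcyc (by rw [hC3]; exact hℓ) hneg hsub
      hcov hodd (fun h => hr g hfix h) hsum
    refine ⟨C, hcyc.mem, hsub, hneg, hcov, hconst, fun hn => ?_⟩
    obtain ⟨ε, hε⟩ := hhalf hn
    rcases hNQ with h | h | h
    · exact ⟨ε, hε, Or.inl (hC3.trans h.1), h.2⟩
    · exact ⟨ε, hε, Or.inr (Or.inl ⟨hC3.trans h.1, h.2.2⟩), h.2.1⟩
    · exfalso
      obtain ⟨k, hk1, hk2⟩ := h ε hε.epsc
      have h1 : tr (c * k) b ∈ C := hε.ker (c * k) (by rw [map_mul, hε.epsc, hk2]; simp) b hcyc.mem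
      rw [tr_mul, hk1, hb.tr_c hc] at h1
      exact hneg b hcyc.mem h1
  · left
    exact prim_zero hc hb h4 hP hN hrel hodd hr1 hsum
  · right
    have hQ' : ∃ ε : G →* ℤˣ, ε c = -1 ∧ ∀ h, tr h b = b → ε h = 1 := by
      unfold NoQ at hQ
      push Not at hQ
      obtain ⟨ε, h1, h2⟩ := hQ
      exact ⟨ε, h1, fun h hh => (Int.units_eq_one_or (ε h)).resolve_right (h2 h hh)⟩
    obtain ⟨ε, hε, hst⟩ := hQ'
    obtain ⟨hC, hcov⟩ := isHalf_orb hc hb hε hst
    have hconst := two_const hc hb h4 hT hε hst hodd hr1 hsum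
    have hsub : orb ε.ker b ⊆ orb ⊤ b := by
      intro x hx
      obtain ⟨h, -, rfl⟩ := mem_orb.1 hx
      exact mem_orb_top.2 ⟨h, rfl⟩
    refine ⟨orb ε.ker b, self_mem_orb _ b, hsub, hC.neg, hcov, hconst, fun _ =>
      ⟨ε, hC, Or.inr (Or.inr ?_), hi⟩⟩
    have h1 : orb ε.ker b ∪ (orb ε.ker b).image (fun x => -x) = orb ⊤ b := by
      ext x
      rw [mem_union, mem_image]
      constructor
      · rintro (h | ⟨y, hy, rfl⟩)
        · exact hsub h
        · exact neg_mem_orb hb hc (hsub hy)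
      · intro hx
        rcases hcov x hx with h | h
        · exact Or.inl h
        · exact Or.inr ⟨-x, h, neg_neg x⟩
    have h2 := congrArg Finset.card h1
    rw [card_union_of_disjoint, card_image_of_injective _ neg_injective, h8] at h2
    · omega
    · rw [disjoint_left]
      intro x hx hx'
      obtain ⟨y, hy, rfl⟩ := mem_image.1 hx'
      exact hC.neg y hy hx

private theorem prif_sum_net {B : Finset (G → ℚ)} (hB : ∀ w ∈ B, -w ∈ B) {S : Multiset (G → ℚ)}
    (hS : ∀ w ∈ S, w ∈ B) : ∑ w ∈ B, (net S w : ℚ) • w = (2 : ℚ) • S.sum := by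
  classical
  have h1 : S.sum = ∑ w ∈ B, S.count w • w :=
    Finset.sum_multiset_count_of_subset S B fun w hw => hS w (Multiset.mem_toFinset.1 hw)
  have h2 : ∑ w ∈ B, (S.count (-w) : ℚ) • w = -S.sum := by
    have h3 : ∑ w ∈ B, (S.count (-w) : ℚ) • w = ∑ w ∈ B, (S.count w : ℚ) • (-w) := by
      refine Finset.sum_nbij' (fun w => -w) (fun w => -w) hB hB (fun w _ => neg_neg w)
        (fun w _ => neg_neg w) fun w _ => ?_
      rw [neg_neg]
    rw [h3, h1, ← Finset.sum_neg_distrib]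
    refine Finset.sum_congr rfl fun w _ => ?_
    rw [smul_neg, Nat.cast_smul_eq_nsmul]
  have h4 : ∑ w ∈ B, (S.count w : ℚ) • w = S.sum := by
    rw [h1]
    exact Finset.sum_congr rfl fun w _ => Nat.cast_smul_eq_nsmul ℚ _ _
  have h5 : ∀ w ∈ B, (net S w : ℚ) • w = (S.count w : ℚ) • w - (S.count (-w) : ℚ) • w := by
    intro w _
    rw [← sub_smul]
    congr 1
    unfold net
    push_cast
    rfl
  rw [Finset.sum_congr rfl h5, Finset.sum_sub_distrib, h4, h2, sub_neg_eq_add, two_smul]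

private theorem prif_chi {ε : G →* ℤˣ} (s : ℤ) : ∃ Q : Multiset (G → ℚ),
    (∀ w ∈ Q, w = chi ε ∨ w = -chi ε) ∧ Q.sum = (s : ℚ) • chi ε ∧ net Q = s • sg (chi ε) := by
  rcases le_total 0 s with h | h
  · obtain ⟨m, rfl⟩ := Int.eq_ofNat_of_zero_le h
    refine ⟨Multiset.replicate m (chi ε), fun w hw => Or.inl (Multiset.eq_of_mem_replicate hw), ?_, ?_⟩
    · rw [Multiset.sum_replicate, Int.cast_natCast, Nat.cast_smul_eq_nsmul]
    · rw [net_eq_sum, Multiset.map_replicate, Multiset.sum_replicate, natCast_zsmul]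
  · obtain ⟨m, hm⟩ := Int.eq_ofNat_of_zero_le (neg_nonneg.2 h)
    have hs : s = -(m : ℤ) := by omega
    subst hs
    refine ⟨Multiset.replicate m (-chi ε), fun w hw => Or.inr (Multiset.eq_of_mem_replicate hw), ?_, ?_⟩
    · rw [Multiset.sum_replicate, Int.cast_neg, Int.cast_natCast, neg_smul, Nat.cast_smul_eq_nsmul,
        smul_neg]
    · rw [net_eq_sum, Multiset.map_replicate, Multiset.sum_replicate, sg_neg, neg_smul,
        natCast_zsmul, smul_neg]

private theorem prif_fix_small (hc : ∀ g, c * g = g * c) {g : G}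
    (hg : ∀ x : G → ℚ, IsWeight D c x → (orb ⊤ x).card ≤ 4 → tr g x = x) {N : Subgroup G}
    (hN : N.Normal) {w : G → ℚ} (hw : IsWeight D c w) (h4 : (orb ⊤ w).card ≤ 4) (h : G) :
    tr g (tr h (pc N w)) = tr h (pc N w) := by
  have h1 : ∀ k, tr g (tr k w) = tr k w := fun k => by
    refine hg _ (hw.tr k) ?_
    rw [orb_eq (mem_orb_top.2 ⟨k, rfl⟩)]
    exact h4
  rw [tr_pc hN]
  unfold pc
  rw [tr_smul, tr_sum]
  congr 1
  refine Finset.sum_congr rfl fun k _ => ?_
  rw [← tr_mul k h, h1]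

/-- The weights of clause (2). -/
def IsPf (D : Subgroup G) (c : G) (w : G → ℚ) : Prop := IsL D w ∨ IsBig D c w

private theorem prif_step (hc : ∀ g, c * g = g * c) (hκ : κ c = -1) {S : Multiset (G → ℚ)}
    (hS : ∀ w ∈ S, IsWeight D c w ∧ IsPf D c w)
    (hsep : ∀ b ∈ S, ∀ b' ∈ S, 4 < (orb ⊤ b).card → 4 < (orb ⊤ b').card → b' ∉ orb ⊤ b →
      core b ≠ core b') (hs : S.sum = 0)
    (ih : ∀ S' : Multiset (G → ℚ),
      (∀ w ∈ S', IsWeight D c w ∧ IsPf D c w) →
      (∀ b ∈ S', ∀ b' ∈ S', 4 < (orb ⊤ b).card → 4 < (orb ⊤ b').card → b' ∉ orb ⊤ b →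
        core b ≠ core b') → S'.sum = 0 →
      (S'.filter fun w => 4 < (orb ⊤ w).card).card < (S.filter fun w => 4 < (orb ⊤ w).card).card →
      net S' ∈ R D c κ) {b : G → ℚ} (hbS : b ∈ S) (hb6 : 4 < (orb ⊤ b).card)
    (hmax : ∀ b' ∈ S, 4 < (orb ⊤ b').card → core b ≠ core b' → ¬ core b ≤ core b') :
    net S ∈ R D c κ := by
  classical
  have hb := (hS b hbS).1
  have hb0 : b ≠ 0 := by
    rintro rfl
    rw [orb_zero, card_singleton] at hb6
    omega
  have hBig : IsBig D c b := by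
    rcases (hS b hbS).2 with (h | h | h) | h
    · exact absurd h hb0
    · omega
    · omega
    · exact h
  obtain ⟨S1, hS1⟩ : ∃ S1, S1 = S.filter (· ∈ orb ⊤ b) := ⟨_, rfl⟩
  obtain ⟨S2, hS2⟩ : ∃ S2, S2 = S.filter (fun w => ¬ w ∈ orb ⊤ b) := ⟨_, rfl⟩
  have hadd : S1 + S2 = S := by rw [hS1, hS2]; exact Multiset.filter_add_not _ S
  have hm1 : ∀ w ∈ S1, w ∈ S ∧ w ∈ orb ⊤ b := fun w hw => by
    rw [hS1] at hw
    exact Multiset.mem_filter.1 hw
  have hm2 : ∀ w ∈ S2, w ∈ S ∧ w ∉ orb ⊤ b := fun w hw => by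
    rw [hS2] at hw
    exact Multiset.mem_filter.1 hw
  have hnegO : ∀ w ∈ orb ⊤ b, -w ∈ orb ⊤ b := fun w hw => neg_mem_orb hb hc hw
  have hnet : ∀ w ∈ orb ⊤ b, net S1 w = net S w := by
    intro w hw
    unfold net
    rw [hS1, Multiset.count_filter_of_pos hw, Multiset.count_filter_of_pos (hnegO w hw)]
  have hnet0 : ∀ w, w ∉ orb ⊤ b → net S1 w = 0 := by
    intro w hw
    have hw' : -w ∉ orb ⊤ b := fun h => hw (by simpa using hnegO _ h)
    unfold net
    rw [hS1, Multiset.count_filter_of_neg hw, Multiset.count_filter_of_neg hw']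
    simp
  have hsumnet : ∑ w ∈ orb ⊤ b, (net S w : ℚ) • w = (2 : ℚ) • S1.sum := by
    rw [← prif_sum_net hnegO fun w hw => (hm1 w hw).2]
    exact Finset.sum_congr rfl fun w hw => by rw [hnet w hw]
  have hsum12 : S1.sum + S2.sum = 0 := by rw [← Multiset.sum_add, hadd, hs]
  -- the mean value
  have hN := core_normal b
  have h1 : S1.sum = -(S2.map (pc (core b))).sum := by
    have h2 : pc (core b) S1.sum = S1.sum := by
      rw [pc_msum]
      congr 1
      conv_rhs => rw [← Multiset.map_id S1]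
      exact Multiset.map_congr rfl fun w hw =>
        pc_of_fix fun k hk => hk w (hm1 w hw).2
    have h3 : pc (core b) (S1.sum + S2.sum) = 0 := by
      rw [hsum12]
      exact pc_of_fix fun k _ => tr_zero k
    rw [pc_add, h2, pc_msum (core b) S2] at h3
    exact eq_neg_of_add_eq_zero_left h3
  have hS2fix : ∀ g ∈ fixS D c, ∀ w ∈ S2, ∀ h,
      tr g (tr h (pc (core b) w)) = tr h (pc (core b) w) := by
    intro g hfix w hw h
    obtain ⟨hwS, hwo⟩ := hm2 w hw
    obtain ⟨hww, hcase⟩ := hS w hwS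
    rcases hcase with (h0 | h2 | h4) | h6
    · refine prif_fix_small hc hfix hN hww ?_ h
      rw [h0, orb_zero, card_singleton]
      omega
    · exact prif_fix_small hc hfix hN hww (by omega) h
    · exact prif_fix_small hc hfix hN hww (by omega) h
    · by_cases hw6 : 4 < (orb ⊤ w).card
      swap
      · exact prif_fix_small hc hfix hN hww (by omega) h
      have hw0 : w ≠ 0 := by
        rintro rfl
        rw [orb_zero, card_singleton] at hw6
        omega
      have h7 := prif_core hc hN hww hw0 h6 (hmax w hwS hw6 (hsep b hbS w hwS hb6 hw6 hwo))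
      refine hfix _ ((isWeight_pc hww).tr h) ?_
      rw [orb_eq (mem_orb_top.2 ⟨h, rfl⟩)]
      exact h7
  have hr : ∀ g ∈ fixS D c, ∀ h, tr g (tr h ((2 : ℚ) • S1.sum)) = tr h ((2 : ℚ) • S1.sum) := by
    intro g hfix h
    have h2 : ∀ U : Multiset (G → ℚ), (∀ w ∈ U, tr g (tr h w) = tr h w) →
        tr g (tr h U.sum) = tr h U.sum := by
      intro U
      induction U using Multiset.induction_on with
      | empty => intro _; rw [Multiset.sum_zero, tr_zero, tr_zero]
      | cons a U ih =>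
        intro hU
        rw [Multiset.sum_cons, tr_add, tr_add, hU a (Multiset.mem_cons_self a U),
          ih fun w hw => hU w (Multiset.mem_cons_of_mem hw)]
    have h3 := h2 (S2.map (pc (core b))) (by
      intro w hw
      obtain ⟨x, hx, rfl⟩ := Multiset.mem_map.1 hw
      exact hS2fix g hfix x hx h)
    rw [h1, tr_smul, tr_smul, tr_neg, tr_neg, h3]
  have hnetS : net S = net S1 + net S2 := by rw [← net_add', hadd]
  have hcard2 : (S2.filter fun w => 4 < (orb ⊤ w).card).card <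
      (S.filter fun w => 4 < (orb ⊤ w).card).card := by
    have h2 : S.filter (fun w => 4 < (orb ⊤ w).card) =
        S1.filter (fun w => 4 < (orb ⊤ w).card) + S2.filter (fun w => 4 < (orb ⊤ w).card) := by
      rw [← Multiset.filter_add, hadd]
    rw [h2, Multiset.card_add]
    have h3 : 0 < (S1.filter fun w => 4 < (orb ⊤ w).card).card := by
      rw [Multiset.card_pos_iff_exists_mem]
      refine ⟨b, Multiset.mem_filter.2 ⟨?_, hb6⟩⟩
      rw [hS1]
      exact Multiset.mem_filter.2 ⟨hbS, self_mem_orb ⊤ b⟩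
    omega
  have hS2S : ∀ w ∈ S2, w ∈ S := fun w hw => (hm2 w hw).1
  rcases prif_data hc hb hb0 hb6 hBig (n := fun w => (net S w : ℚ))
    (fun w => by
      show ((net S (-w) : ℤ) : ℚ) = -((net S w : ℤ) : ℚ)
      rw [net_neg]
      push_cast
      rfl) hr hsumnet with hzero | ⟨C, hbC, hsub, hneg, hcov, hconst, hthree'⟩
  · -- no contribution of the orbit
    have hz1 : net S1 = 0 := by
      funext w
      by_cases hw : w ∈ orb ⊤ b
      · rw [hnet w hw]
        exact_mod_cast hzero w hw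
      · exact hnet0 w hw
    have hz2 : S1.sum = 0 := by
      have h2 : ∑ w ∈ orb ⊤ b, (net S w : ℚ) • w = 0 := Finset.sum_eq_zero fun w hw => by
        rw [hzero w hw, zero_smul]
      rw [hsumnet] at h2
      exact (smul_eq_zero.1 h2).resolve_left two_ne_zero
    have h2 : S2.sum = 0 := by rw [hz2, zero_add] at hsum12; exact hsum12
    rw [hnetS, hz1, zero_add]
    exact ih S2 (fun w hw => hS w (hS2S w hw))
      (fun x hx x' hx' => hsep x (hS2S x hx) x' (hS2S x' hx')) h2 hcard2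
  have hthree : net S b ≠ 0 → ∃ ε : G →* ℤˣ, IsHalf c ε C ∧
      (C.card = 3 ∨ (C.card = 5 ∧ ¬ Sig14 D c b) ∨ C.card = 4) ∧ idx D b = 1 :=
    fun hn => hthree' (by exact_mod_cast hn)
  -- the part in the orbit of b
  have hS1net : net S1 = (net S b) • ind C := by
    funext w
    rw [Pi.smul_apply, smul_eq_mul]
    unfold ind
    by_cases hw : w ∈ C
    · rw [if_pos hw, mul_one, hnet w (hsub hw)]
      exact_mod_cast hconst w hw
    · rw [if_neg hw]
      by_cases hw' : -w ∈ C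
      · rw [if_pos hw']
        have h2 : net S (-w) = net S b := by exact_mod_cast hconst (-w) hw'
        have h3 : w ∈ orb ⊤ b := by simpa using hnegO _ (hsub hw')
        rw [net_neg] at h2
        rw [hnet w h3, ← h2]
        ring
      · rw [if_neg hw', mul_zero]
        refine hnet0 w fun h => ?_
        rcases hcov w h with h2 | h2
        · exact hw h2
        · exact hw' h2
  have hS1sum : S1.sum = (net S b : ℚ) • ∑ w ∈ C, w := by
    have h2 : (2 : ℚ) • S1.sum = (2 : ℚ) • ∑ w ∈ C, (net S w : ℚ) • w := by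
      rw [← hsumnet]
      exact sum_half hsub hnegO hneg hcov (n := fun w => (net S w : ℚ))
        (fun w => by rw [net_neg]; push_cast; rfl)
    have h3 : S1.sum = ∑ w ∈ C, (net S w : ℚ) • w :=
      smul_right_injective _ (two_ne_zero : (2 : ℚ) ≠ 0) h2
    rw [h3, Finset.smul_sum]
    exact Finset.sum_congr rfl fun w hw => by rw [hconst w hw]
  by_cases hz : S1.sum = 0
  · have h2 : S2.sum = 0 := by rw [hz, zero_add] at hsum12; exact hsum12
    have h3 := ih S2 (fun w hw => hS w (hS2S w hw))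
      (fun x hx x' hx' => hsep x (hS2S x hx) x' (hS2S x' hx')) h2 hcard2
    rw [hnetS]
    refine AddSubgroup.add_mem _ ?_ h3
    rw [hS1net]
    by_cases hn : net S b = 0
    · rw [hn, zero_smul]
      exact AddSubgroup.zero_mem _
    · obtain ⟨ε, hε, hℓ3, hbi⟩ := hthree hn
      refine AddSubgroup.zsmul_mem _ (mem_of_rea ?_) _
      refine rea_half_zero hc hε (fun w hw => (orb_isSys hb).wt w (hsub hw))
        (fun w hw => (idx_orb (hsub hw)).trans hbi) ?_ ?_
      · rcases hℓ3 with h | h | h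
        · exact Or.inl h
        · exact Or.inr (Or.inr h.1)
        · exact Or.inr (Or.inl h)
      rw [hS1sum] at hz
      exact (smul_eq_zero.1 hz).resolve_left (by exact_mod_cast hn)
  · have hn : net S b ≠ 0 := by
      intro h
      apply hz
      rw [hS1sum, h, Int.cast_zero, zero_smul]
    have hCs : ∑ w ∈ C, w ≠ 0 := by
      intro h
      apply hz
      rw [hS1sum, h, smul_zero]
    obtain ⟨ε, hε, hℓ3, hbi⟩ := hthree hn
    have hCw : ∀ w ∈ C, IsWeight D c w := fun w hw => (orb_isSys hb).wt w (hsub hw)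
    have hCi : ∀ w ∈ C, idx D w = 1 := fun w hw => (idx_orb (hsub hw)).trans hbi
    obtain ⟨σ, hσs, hrea⟩ : ∃ σ : ℤ, ∑ w ∈ C, w = (σ : ℚ) • chi ε ∧
        (fun w => ind C w - σ * ind {chi ε} w) ∈ R D c κ := by
      rcases hℓ3 with h | h | h
      · obtain ⟨σ, hσ, hσs⟩ := half_three hc hε hCw hCi h hCs
        exact ⟨σ, hσs, mem_of_rea (rea_three hc hε hCw hCi h hσ hσs)⟩
      · obtain ⟨σ, hσ, hσs⟩ := half_five hc hε hCw hCi h.1 hCs (by
          intro h14
          refine h.2 ⟨ε, hε.epsc, ?_⟩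
          rw [prif_half_orb hc hε hCw hbC hsub hneg, hbi, h14]
          norm_num)
        exact ⟨σ, hσs, mem_of_rea (rea_five hc hε hCw hCi h.1 hσ hσs)⟩
      · obtain ⟨σ, hσ, hσs⟩ := half_four hc hε hCw hCi h hCs
        refine ⟨2 * σ, ?_, mem_of_rea (rea_four hc hε hCw hCi h hσ hσs)⟩
        rw [hσs]
        push_cast
        rfl
    have hD := half_D hc hε hCw hCs
    obtain ⟨Q, hQ1, hQ2, hQ3⟩ := prif_chi (ε := ε) (net S b * σ)
    have hchi : ∀ w, w = chi ε ∨ w = -chi ε → IsWeight D c w ∧ (orb ⊤ w).card = 2 ∧ idx D w = 1 := by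
      have h2 := isWeight_chi (D := D) hε.epsc hD
      rintro w (rfl | rfl)
      · exact ⟨h2, card_orb_chi hε.epsc, idx_chi hD⟩
      · exact ⟨h2.neg, by rw [card_orb_neg]; exact card_orb_chi hε.epsc,
          by rw [idx_neg h2 hc]; exact idx_chi hD⟩
    have hQ6 : Q.filter (fun w => 4 < (orb ⊤ w).card) = 0 := by
      rw [Multiset.filter_eq_nil]
      intro w hw h6
      have := (hchi w (hQ1 w hw)).2.1
      omega
    have h3 := ih (S2 + Q) ?_ ?_ ?_ ?_
    · have h4 : net S = net (S2 + Q) + (net S b) • (fun w => ind C w - σ * ind {chi ε} w) := by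
        have h5 : ind ({chi ε} : Finset (G → ℚ)) = sg (chi ε) := by
          rw [ind_eq_sum fun w hw => ?_, Finset.sum_singleton]
          rw [Finset.mem_singleton] at hw ⊢
          rw [hw]
          exact fun h => chi_ne_neg ε ε h.symm
        have h6 : net S = net S b • ind C + net S2 := hnetS.trans (by rw [hS1net])
        refine h6.trans ?_
        rw [net_add', hQ3, ← h5]
        funext w
        simp only [Pi.add_apply, Pi.smul_apply, smul_eq_mul]
        ring
      rw [h4]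
      exact AddSubgroup.add_mem _ h3 (AddSubgroup.zsmul_mem _ hrea _)
    · intro w hw
      rcases Multiset.mem_add.1 hw with h4 | h4
      · exact hS w (hS2S w h4)
      · have h5 := hchi w (hQ1 w h4)
        refine ⟨h5.1, Or.inl (Or.inr (Or.inl ⟨h5.2.1, Or.inl ?_⟩))⟩
        have h6 : chi ε 1 = 1 / 2 := chi_one ε
        rcases hQ1 w h4 with rfl | rfl
        · exact Or.inl h6
        · exact Or.inr (by rw [Pi.neg_apply, h6])
    · intro x hx x' hx' hx6 hx6'
      have h4 : ∀ y ∈ S2 + Q, 4 < (orb ⊤ y).card → y ∈ S := by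
        intro y hy hy6
        rcases Multiset.mem_add.1 hy with h4 | h4
        · exact hS2S y h4
        · have := (hchi y (hQ1 y h4)).2.1
          omega
      exact hsep x (h4 x hx hx6) x' (h4 x' hx' hx6') hx6 hx6'
    · rw [Multiset.sum_add, hQ2, ← hsum12, hS1sum, hσs, smul_smul, Int.cast_mul, add_comm]
    · rw [Multiset.filter_add, hQ6, add_zero]
      exact hcard2

theorem prime_core_f (hc : ∀ g, c * g = g * c) (hκ : κ c = -1) {S : Multiset (G → ℚ)}
    (hS : ∀ w ∈ S, IsWeight D c w ∧ IsPf D c w)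
    (hsep : ∀ b ∈ S, ∀ b' ∈ S, 4 < (orb ⊤ b).card → 4 < (orb ⊤ b').card → b' ∉ orb ⊤ b →
      core b ≠ core b') (hs : S.sum = 0) :
    net S ∈ R D c κ := by
  classical
  obtain ⟨k, hk⟩ : ∃ k, (S.filter fun w => 4 < (orb ⊤ w).card).card = k := ⟨_, rfl⟩
  induction k using Nat.strong_induction_on generalizing S with
  | _ k ih =>
    by_cases hex : ∃ b ∈ S, 4 < (orb ⊤ b).card
    · obtain ⟨b, hb, hmx⟩ := Finset.exists_max_image
        (S.toFinset.filter fun w => 4 < (orb ⊤ w).card) (fun w => Nat.card (core w))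
        (by
          obtain ⟨b, hbS, hb6⟩ := hex
          exact ⟨b, Finset.mem_filter.2 ⟨Multiset.mem_toFinset.2 hbS, hb6⟩⟩)
      obtain ⟨hbS, hb6⟩ := Finset.mem_filter.1 hb
      rw [Multiset.mem_toFinset] at hbS
      refine prif_step hc hκ hS hsep hs (fun S' h1 h2 h3 h4 => ?_) hbS hb6 ?_
      · exact ih _ (hk ▸ h4) h1 h2 h3 rfl
      · intro b' hb' hb6' hne hle
        have h1 := hmx b' (Finset.mem_filter.2 ⟨Multiset.mem_toFinset.2 hb', hb6'⟩)
        exact hne (Subgroup.eq_of_le_of_card_ge hle h1)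
    · refine elle_all hc hκ (fun w hw => ⟨(hS w hw).1, ?_⟩) hs
      rcases (hS w hw).2 with h | h
      · exact h
      · exfalso
        refine hex ⟨w, hw, ?_⟩
        rcases h with ⟨ℓ, hℓ, hℓ2, hcard, -⟩ | ⟨h, -⟩ | ⟨h, -⟩
        · have h1 := hℓ.two_le
          omega
        · exact h
        · omega

end Pool.Agent.AVG
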