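import Pool.Agent.AVG.Alg

/-!
# AVG: the types of signature `(1, n - 1)` which are invariant under a subgroup `B`

`B` is a subgroup of the kernel of `κ` which contains `c * c`. For `κ a = 1` let `t1 B c κ a` be the type with the
value `1/2` on `B a` and `-1/2` on the rest of the kernel of `κ`. The set `rxT` of these types is stable under right
translation by the kernel of `κ`, and every type which is invariant under left translation by `B` is the sum of
some of them and of a multiple of `χ = κ/2`.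
-/

set_option linter.unusedSectionVars false
set_option linter.unusedVariables false

namespace Pool.Agent.AVG

open Finset Pool.Agent.AVF

variable {G : Type} [Group G] [Fintype G] {D B : Subgroup G} {c : G} {κ : G →* ℤˣ}

open Classical in
/-- The difference of the indicator functions of `B a` and `c⁻¹ B a`. -/
noncomputable def dl (B : Subgroup G) (c : G) (a : G) : G → ℚ := fun g =>
  (if g * a⁻¹ ∈ B then 1 else 0) - (if c * g * a⁻¹ ∈ B then 1 else 0)

/-- For `κ a = 1`: the type with the value `1/2` on `B a` and `-1/2` on the rest of the kernel of `κ`. -/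
noncomputable def t1 (B : Subgroup G) (c : G) (κ : G →* ℤˣ) (a : G) : G → ℚ := dl B c a - chi κ

open Classical in
/-- The set of the types `t1 B c κ a`. -/
noncomputable def rxT (B : Subgroup G) (c : G) (κ : G →* ℤˣ) : Finset (G → ℚ) :=
  (univ.filter fun a : G => κ a = 1).image (t1 B c κ)

open Classical in
/-- The elements of `rxT` which occur in `f`. -/
noncomputable def rxX (B : Subgroup G) (c : G) (κ : G →* ℤˣ) (f : G → ℚ) : Finset (G → ℚ) :=
  (univ.filter fun a : G => κ a = 1 ∧ f a = 1 / 2).image (t1 B c κ)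

/-- The standing hypotheses. -/
structure RxH (B : Subgroup G) (c : G) (κ : G →* ℤˣ) : Prop where
  cen : ∀ g, c * g = g * c
  kc : κ c = -1
  cc : c * c ∈ B
  ker : ∀ b ∈ B, κ b = 1

section

variable (H : RxH B c κ)
include H

theorem RxH.not_mem {g : G} (hg : κ g = -1) : g ∉ B := by
  intro h
  rw [H.ker g h] at hg
  exact absurd hg (by decide)

theorem RxH.cc_mem (g : G) : c * (c * g) ∈ B ↔ g ∈ B := by
  rw [← mul_assoc]
  exact Subgroup.mul_mem_cancel_left B H.cc

theorem dl_c (a g : G) : dl B c a (c * g) = - dl B c a g := by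
  classical
  unfold dl
  have h : (c * (c * g) * a⁻¹ ∈ B) ↔ g * a⁻¹ ∈ B := by
    rw [show c * (c * g) * a⁻¹ = c * (c * (g * a⁻¹)) by group]
    exact H.cc_mem _
  rw [if_congr h rfl rfl]
  ring

theorem dl_b {b : G} (hb : b ∈ B) (a g : G) : dl B c a (b * g) = dl B c a g := by
  classical
  unfold dl
  have h1 : (b * g * a⁻¹ ∈ B) ↔ g * a⁻¹ ∈ B := by
    rw [mul_assoc]
    exact Subgroup.mul_mem_cancel_left B hb
  have h2 : (c * (b * g) * a⁻¹ ∈ B) ↔ c * g * a⁻¹ ∈ B := by
    rw [show c * (b * g) * a⁻¹ = b * (c * g * a⁻¹) by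
      rw [← mul_assoc, H.cen b]
      group]
    exact Subgroup.mul_mem_cancel_left B hb
  rw [if_congr h1 rfl rfl, if_congr h2 rfl rfl]

theorem dl_one {a g : G} (ha : κ a = 1) (hg : κ g = 1) [Decidable (g * a⁻¹ ∈ B)] :
    dl B c a g = if g * a⁻¹ ∈ B then 1 else 0 := by
  classical
  have h : ¬ (c * g * a⁻¹ ∈ B) := by
    apply H.not_mem
    rw [map_mul, map_mul, map_inv, H.kc, ha, hg]
    decide
  unfold dl
  rw [if_neg h, sub_zero]
  congr 1

theorem dl_c_right (a : G) : dl B c (c * a) = - dl B c a := by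
  classical
  have key : ∀ g : G, c * (g * (c * a)⁻¹) = g * a⁻¹ := by
    intro g
    rw [mul_inv_rev, ← mul_assoc g, ← mul_assoc c, H.cen (g * a⁻¹), mul_assoc, mul_inv_cancel,
      mul_one]
  funext g
  rw [Pi.neg_apply]
  unfold dl
  have h1 : (g * (c * a)⁻¹ ∈ B) ↔ c * g * a⁻¹ ∈ B := by
    rw [← H.cc_mem (g * (c * a)⁻¹), key, ← mul_assoc]
  have h2 : (c * g * (c * a)⁻¹ ∈ B) ↔ g * a⁻¹ ∈ B := by
    rw [mul_assoc, key]
  rw [if_congr h1 rfl rfl, if_congr h2 rfl rfl]
  ring

theorem dl_congr {a a' : G} (h : a' * a⁻¹ ∈ B) : dl B c a' = dl B c a := by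
  classical
  funext g
  unfold dl
  have key : ∀ g : G, (g * a'⁻¹ ∈ B) ↔ g * a⁻¹ ∈ B := by
    intro g
    rw [show g * a⁻¹ = (g * a'⁻¹) * (a' * a⁻¹) by group]
    exact (Subgroup.mul_mem_cancel_right B h).symm
  rw [if_congr (key g) rfl rfl, if_congr (key (c * g)) rfl rfl]

theorem chi_c (g : G) : chi κ (c * g) = - chi κ g := by
  rw [chi_apply, chi_apply, map_mul, H.kc]
  push_cast
  ring

theorem chi_one' {g : G} (hg : κ g = 1) : chi κ g = 1 / 2 := by
  rw [chi_apply, hg]
  norm_num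

theorem chi_ker {h : G} (hh : κ h = 1) (g : G) : chi κ (h * g) = chi κ g := by
  rw [chi_apply, chi_apply, map_mul, hh, one_mul]

theorem isType_chi : IsType c (chi κ) := by
  refine ⟨chi_c H, fun g => ?_⟩
  rw [chi_apply]
  rcases Int.units_eq_one_or (κ g) with h | h
  · left
    rw [h]
    norm_num
  · right
    rw [h]
    norm_num

/-- an odd function is determined by its values on the kernel of `κ` -/
theorem odd_ext {f f' : G → ℚ} (h : ∀ g, f (c * g) = - f g) (h' : ∀ g, f' (c * g) = - f' g)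
    (he : ∀ g, κ g = 1 → f g = f' g) : f = f' := by
  funext g
  rcases Int.units_eq_one_or (κ g) with hg | hg
  · exact he g hg
  · have h2 : κ (c * g) = 1 := by
      rw [map_mul, H.kc, hg]
      rfl
    have h3 := he (c * g) h2
    rw [h, h'] at h3
    exact neg_injective h3

theorem t1_c (a g : G) : t1 B c κ a (c * g) = - t1 B c κ a g := by
  unfold t1
  rw [Pi.sub_apply, Pi.sub_apply, dl_c H, chi_c H]
  ring

theorem t1_one {a g : G} (ha : κ a = 1) (hg : κ g = 1) [Decidable (g * a⁻¹ ∈ B)] :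
    t1 B c κ a g = (if g * a⁻¹ ∈ B then 1 else 0) - 1 / 2 := by
  unfold t1
  rw [Pi.sub_apply, dl_one H ha hg, chi_one' H hg]

theorem t1_b {b : G} (hb : b ∈ B) (a g : G) : t1 B c κ a (b * g) = t1 B c κ a g := by
  unfold t1
  rw [Pi.sub_apply, Pi.sub_apply, dl_b H hb, chi_ker H (H.ker b hb)]

theorem isType_t1 {a : G} (ha : κ a = 1) : IsType c (t1 B c κ a) := by
  classical
  refine ⟨t1_c H a, fun g => ?_⟩
  rcases Int.units_eq_one_or (κ g) with hg | hg
  · rw [t1_one H ha hg]
    split_ifs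
    · left
      norm_num
    · right
      norm_num
  · have h2 : κ (c * g) = 1 := by
      rw [map_mul, H.kc, hg]
      rfl
    have h3 := t1_one H ha h2
    rw [t1_c H] at h3
    split_ifs at h3
    · right
      linarith
    · left
      linarith

theorem t1_congr {a a' : G} (h : a' * a⁻¹ ∈ B) : t1 B c κ a' = t1 B c κ a := by
  unfold t1
  rw [dl_congr H h]

theorem t1_inj {a a' : G} (ha : κ a = 1) (ha' : κ a' = 1) (h : t1 B c κ a' = t1 B c κ a) :
    a' * a⁻¹ ∈ B := by
  classical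
  have h1 := congrFun h a'
  rw [t1_one H ha ha', t1_one H ha' ha', mul_inv_cancel, if_pos B.one_mem] at h1
  by_contra h2
  rw [if_neg h2] at h1
  norm_num at h1

theorem tr_t1 {h : G} (hh : κ h = 1) (a : G) : tr h (t1 B c κ a) = t1 B c κ (a * h⁻¹) := by
  classical
  funext g
  show t1 B c κ a (g * h) = t1 B c κ (a * h⁻¹) g
  unfold t1
  rw [Pi.sub_apply, Pi.sub_apply]
  congr 1
  · unfold dl
    have h1 : g * h * a⁻¹ = g * (a * h⁻¹)⁻¹ := by group
    have h2 : c * (g * h) * a⁻¹ = c * g * (a * h⁻¹)⁻¹ := by group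
    rw [h1, h2]
  · rw [chi_apply, chi_apply, map_mul, hh, mul_one]

theorem mem_rxT {x : G → ℚ} : x ∈ rxT B c κ ↔ ∃ a, κ a = 1 ∧ t1 B c κ a = x := by
  classical
  unfold rxT
  rw [mem_image]
  simp only [mem_filter, mem_univ, true_and]

theorem mem_rxX {f x : G → ℚ} :
    x ∈ rxX B c κ f ↔ ∃ a, (κ a = 1 ∧ f a = 1 / 2) ∧ t1 B c κ a = x := by
  classical
  unfold rxX
  rw [mem_image]
  simp only [mem_filter, mem_univ, true_and]

theorem rxT_type {x : G → ℚ} (hx : x ∈ rxT B c κ) : IsType c x := by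
  obtain ⟨a, ha, rfl⟩ := (mem_rxT H).1 hx
  exact isType_t1 H ha

theorem rxT_tr {h : G} (hh : κ h = 1) {x : G → ℚ} (hx : x ∈ rxT B c κ) :
    tr h x ∈ rxT B c κ := by
  obtain ⟨a, ha, rfl⟩ := (mem_rxT H).1 hx
  rw [tr_t1 H hh]
  exact (mem_rxT H).2 ⟨a * h⁻¹, by rw [map_mul, map_inv, ha, hh]; rfl, rfl⟩

/-- on the kernel of `κ` the function `x + χ` is the indicator function of one coset -/
theorem rxT_add_chi {x : G → ℚ} (hx : x ∈ rxT B c κ) {g : G} (hg : κ g = 1)
    [Decidable (x = t1 B c κ g)] : x g + chi κ g = if x = t1 B c κ g then 1 else 0 := by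
  classical
  obtain ⟨a, ha, rfl⟩ := (mem_rxT H).1 hx
  rw [t1_one H ha hg, chi_one' H hg]
  by_cases h : g * a⁻¹ ∈ B
  · rw [if_pos h, if_pos (t1_congr H h).symm]
    ring
  · rw [if_neg h, if_neg fun e => h (t1_inj H ha hg e.symm)]
    ring

theorem rxT_one : ∑ x ∈ rxT B c κ, (x 1 + 1 / 2) = 1 := by
  classical
  have h1 : ∀ x ∈ rxT B c κ, x 1 + 1 / 2 = if x = t1 B c κ 1 then 1 else 0 := by
    intro x hx
    rw [← rxT_add_chi H hx (map_one κ), chi_one' H (map_one κ)]
  rw [Finset.sum_congr rfl h1, Finset.sum_ite_eq', if_pos ((mem_rxT H).2 ⟨1, map_one κ, rfl⟩)]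

theorem rxX_sub (f : G → ℚ) : rxX B c κ f ⊆ rxT B c κ := by
  intro x hx
  obtain ⟨a, ⟨ha, _⟩, rfl⟩ := (mem_rxX H).1 hx
  exact (mem_rxT H).2 ⟨a, ha, rfl⟩

theorem t1_mem_rxX {f : G → ℚ} (hf : ∀ b ∈ B, ∀ g, f (b * g) = f g) {a : G} (ha : κ a = 1) :
    t1 B c κ a ∈ rxX B c κ f ↔ f a = 1 / 2 := by
  rw [mem_rxX H]
  constructor
  · rintro ⟨a', ⟨ha', h1⟩, h2⟩
    have h3 := t1_inj H ha ha' h2
    have h4 := hf _ h3 a
    rw [inv_mul_cancel_right] at h4
    rw [← h4, h1]
  · intro h
    exact ⟨a, ⟨ha, h⟩, rfl⟩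

/-- the decomposition of a type which is invariant under `B` -/
theorem rx_sum {f : G → ℚ} (hf : IsType c f) (hB : ∀ b ∈ B, ∀ g, f (b * g) = f g) :
    f = ∑ x ∈ rxX B c κ f, (x + chi κ) - chi κ := by
  classical
  refine odd_ext H hf.1 ?_ ?_
  · intro g
    rw [Pi.sub_apply, Pi.sub_apply, Finset.sum_apply, Finset.sum_apply, chi_c H, neg_sub',
      ← Finset.sum_neg_distrib]
    congr 1
    refine Finset.sum_congr rfl fun x hx => ?_
    rw [Pi.add_apply, Pi.add_apply, (rxT_type H (rxX_sub H f hx)).1, chi_c H]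
    ring
  · intro g hg
    rw [Pi.sub_apply, Finset.sum_apply]
    have h1 : ∀ x ∈ rxX B c κ f, (x + chi κ) g = if x = t1 B c κ g then 1 else 0 := by
      intro x hx
      rw [Pi.add_apply, rxT_add_chi H (rxX_sub H f hx) hg]
    rw [Finset.sum_congr rfl h1, Finset.sum_ite_eq', chi_one' H hg]
    by_cases h : f g = 1 / 2
    · rw [if_pos ((t1_mem_rxX H hB hg).2 h), h]
      norm_num
    · rw [if_neg fun e => h ((t1_mem_rxX H hB hg).1 e), (hf.2 g).resolve_left h]
      norm_num

theorem rx_chi : rxX B c κ (chi κ) = rxT B c κ := by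
  refine Finset.Subset.antisymm (rxX_sub H _) fun x hx => ?_
  obtain ⟨a, ha, rfl⟩ := (mem_rxT H).1 hx
  exact (mem_rxX H).2 ⟨a, ⟨ha, chi_one' H ha⟩, rfl⟩

open Classical in
theorem card_ker_filter : (univ.filter fun a : G => κ a = 1).card * 2 = Fintype.card G := by
  have h1 : (univ.filter fun a : G => ¬ κ a = 1) = (univ.filter fun a : G => κ a = 1).image (c * ·) := by
    ext a
    rw [mem_filter, mem_image]
    constructor
    · rintro ⟨_, h⟩
      refine ⟨c⁻¹ * a, ?_, by group⟩
      rw [mem_filter, map_mul, map_inv, H.kc, (Int.units_eq_one_or (κ a)).resolve_left h]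
      exact ⟨mem_univ _, by decide⟩
    · rintro ⟨b, hb, rfl⟩
      rw [map_mul, H.kc, (mem_filter.1 hb).2]
      exact ⟨mem_univ _, by decide⟩
  have h2 := Finset.card_filter_add_card_filter_not (s := (univ : Finset G)) (fun a : G => κ a = 1)
  rw [h1, Finset.card_image_of_injective _ (mul_right_injective c), Finset.card_univ] at h2
  omega

theorem rxT_card (hi : B.index ≤ 12) : (rxT B c κ).card ≤ 6 := by
  classical
  have h1 : (rxT B c κ).card * Nat.card B ≤ (univ.filter fun a : G => κ a = 1).card := by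
    unfold rxT
    rw [Finset.card_eq_sum_card_image (t1 B c κ) (univ.filter fun a : G => κ a = 1),
      ← smul_eq_mul]
    refine Finset.card_nsmul_le_sum _ _ _ fun x hx => ?_
    obtain ⟨a, ha, rfl⟩ := mem_image.1 hx
    have ha' := (mem_filter.1 ha).2
    have h3 : Nat.card B = ((univ.filter fun b : G => b ∈ B).image (· * a)).card := by
      rw [Finset.card_image_of_injective _ (mul_left_injective a), Nat.card_eq_fintype_card,
        Fintype.card_subtype]
    rw [h3]
    refine Finset.card_le_card fun g hg => ?_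
    obtain ⟨b, hb, rfl⟩ := mem_image.1 hg
    have hb' := (mem_filter.1 hb).2
    refine mem_filter.2 ⟨mem_filter.2 ⟨mem_univ _, ?_⟩, ?_⟩
    · rw [map_mul, H.ker b hb', ha', one_mul]
    · refine t1_congr H ?_
      rw [mul_inv_cancel_right]
      exact hb'
  have h2 := card_ker_filter H
  have h3 := B.index_mul_card
  rw [Nat.card_eq_fintype_card (α := G)] at h3
  have h4 : 0 < Nat.card B := Nat.card_pos
  have h5 : B.index * Nat.card B ≤ 12 * Nat.card B := Nat.mul_le_mul_right _ hi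
  have h6 : (rxT B c κ).card * Nat.card B ≤ 6 * Nat.card B := by omega
  exact Nat.le_of_mul_le_mul_right h6 h4

end

end Pool.Agent.AVG
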