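import Pool.Agent.AVG.RxA

/-!
# AVG: every type which is invariant under `B` is expressed by the types in `rxT`, modulo the group `R`
-/

set_option linter.unusedSectionVars false
set_option linter.unusedVariables false

namespace Pool.Agent.AVG

open Finset Pool.Agent.AVF

variable {G : Type} [Group G] [Fintype G] {D B : Subgroup G} {c : G} {κ : G →* ℤˣ}

/-- The class of the reduction of `x` plus that of `χ`. -/
noncomputable def ysg (D : Subgroup G) (κ : G →* ℤˣ) (x : G → ℚ) : (G → ℚ) → ℤ :=
  sg (avg D x) + sg (avg D (chi κ))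

private theorem rxb_sum_const (s : Finset (G → ℚ)) (f : (G → ℚ) → (G → ℚ) → ℤ) (a : (G → ℚ) → ℤ) :
    ∑ x ∈ s, (f x + a) = ∑ x ∈ s, f x + s.card • a := by
  rw [Finset.sum_add_distrib, Finset.sum_const]

theorem rx_one (H : RxH B c κ) (hi : B.index ≤ 12) {f : G → ℚ} (hf : IsType c f)
    (hB : ∀ b ∈ B, ∀ g, f (b * g) = f g) :
    ∑ x ∈ rxX B c κ f, ysg D κ x - sg (avg D (chi κ)) - sg (avg D f) ∈ R D c κ := by
  classical
  have hsum := rx_sum H hf hB
  have h0 : ∑ x ∈ rxX B c κ f, x + (((rxX B c κ f).card : ℚ) - 1) • chi κ = f := by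
    rw [Finset.sum_add_distrib, Finset.sum_const] at hsum
    conv_rhs => rw [hsum]
    rw [sub_smul, one_smul, add_sub_assoc]
    rw [← Nat.cast_smul_eq_nsmul ℚ]
  rcases (rxX B c κ f).eq_empty_or_nonempty with h | h
  · rw [h, Finset.sum_empty, zero_sub] at hsum ⊢
    rw [hsum, avg_neg, sg_neg]
    rw [sub_neg_eq_add, neg_add_cancel]
    exact zero_mem _
  · have h1 := Cls.ks H.kc (rxT B c κ) (fun x hx => rxT_type H hx)
      (fun g hg x hx => rxT_tr H hg hx) (rxT_card H hi) (rxT_one H) (rxX B c κ f) (rxX_sub H f) h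
    rw [h0] at h1
    have h2 := (Gen2.red (D := D) h1).mem
    rw [net_eq_sum, Multiset.map_map, Multiset.map_add, Multiset.map_add, Multiset.sum_add,
      Multiset.sum_add, Multiset.map_replicate, Multiset.sum_replicate, Multiset.map_singleton,
      Multiset.sum_singleton] at h2
    have h3 : (Multiset.map (sg ∘ avg D) (rxX B c κ f).val).sum = ∑ x ∈ rxX B c κ f, sg (avg D x) :=
      rfl
    rw [h3] at h2
    simp only [Function.comp] at h2
    rw [avg_neg, sg_neg] at h2
    have h4 : ∑ x ∈ rxX B c κ f, ysg D κ x - sg (avg D (chi κ)) - sg (avg D f) =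
        ∑ x ∈ rxX B c κ f, sg (avg D x) + ((rxX B c κ f).card - 1) • sg (avg D (chi κ)) +
          -sg (avg D f) := by
      unfold ysg
      rw [rxb_sum_const]
      have h5 := Finset.card_pos.2 h
      obtain ⟨n, hn⟩ : ∃ n, (rxX B c κ f).card = n + 1 := ⟨(rxX B c κ f).card - 1, by omega⟩
      rw [hn, Nat.add_sub_cancel, add_smul, one_smul]
      abel
    rw [h4]
    exact h2

/-- the classes and the sum of a multiset of types in terms of the types in `rxT` -/
theorem rx_multi (H : RxH B c κ) (hi : B.index ≤ 12) (F : Multiset (G → ℚ))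
    (hF : ∀ f ∈ F, IsType c f ∧ ∀ b ∈ B, ∀ g, f (b * g) = f g) :
    ∃ e : (G → ℚ) → ℤ,
      F.sum = ∑ x ∈ rxT B c κ, (e x : ℚ) • (x + chi κ) - (F.card : ℚ) • chi κ ∧
      ∑ x ∈ rxT B c κ, e x • ysg D κ x - (F.card : ℤ) • sg (avg D (chi κ)) - net (F.map (avg D)) ∈
        R D c κ := by
  classical
  induction F using Multiset.induction with
  | empty =>
    refine ⟨fun _ => 0, ?_, ?_⟩
    · simp
    · rw [Multiset.map_zero, net_zero', Multiset.card_zero]
      simp only [zero_smul, Finset.sum_const_zero, Nat.cast_zero, sub_zero]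
      exact zero_mem _
  | cons f F ih =>
    obtain ⟨e, h1, h2⟩ := ih fun g hg => hF g (Multiset.mem_cons_of_mem hg)
    have hf := hF f (Multiset.mem_cons_self f F)
    have h3 := rx_one (D := D) H hi hf.1 hf.2
    have h4 := rx_sum H hf.1 hf.2
    have key : ∀ {M : Type} [AddCommGroup M] (φ : (G → ℚ) → M),
        ∑ x ∈ rxT B c κ, (if x ∈ rxX B c κ f then φ x else 0) = ∑ x ∈ rxX B c κ f, φ x := by
      intro M _ φ
      rw [← Finset.sum_filter]
      congr 1
      ext x
      rw [mem_filter]
      exact ⟨fun h => h.2, fun h => ⟨rxX_sub H f h, h⟩⟩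
    refine ⟨fun x => e x + if x ∈ rxX B c κ f then 1 else 0, ?_, ?_⟩
    · rw [Multiset.sum_cons, h1, Multiset.card_cons]
      have h5 : ∑ x ∈ rxT B c κ, (((e x + if x ∈ rxX B c κ f then 1 else 0 : ℤ)) : ℚ) •
          (x + chi κ) = ∑ x ∈ rxT B c κ, (e x : ℚ) • (x + chi κ) +
            ∑ x ∈ rxX B c κ f, (x + chi κ) := by
        rw [← key, ← Finset.sum_add_distrib]
        refine Finset.sum_congr rfl fun x _ => ?_
        push_cast
        rw [add_smul]
        congr 1
        split_ifs
        · rw [one_smul]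
        · rw [zero_smul]
      rw [h5]
      conv_lhs => rw [h4]
      push_cast
      rw [add_smul, one_smul]
      abel
    · rw [Multiset.map_cons, ← Multiset.singleton_add (a := avg D f), net_add', Multiset.card_cons]
      have h5 : ∑ x ∈ rxT B c κ, (e x + if x ∈ rxX B c κ f then 1 else 0) • ysg D κ x =
          ∑ x ∈ rxT B c κ, e x • ysg D κ x + ∑ x ∈ rxX B c κ f, ysg D κ x := by
        rw [← key, ← Finset.sum_add_distrib]
        refine Finset.sum_congr rfl fun x _ => ?_
        rw [add_smul]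
        congr 1
        split_ifs
        · rw [one_smul]
        · rw [zero_smul]
      rw [h5]
      have h6 : net ({avg D f} : Multiset (G → ℚ)) = sg (avg D f) := rfl
      rw [h6]
      have h7 := add_mem h2 h3
      refine (congrArg (· ∈ R D c κ) ?_).mp h7
      push_cast
      rw [add_smul, one_smul]
      abel

end Pool.Agent.AVG
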