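import Pool.Agent.AVG.RxA

/-!
# AVG: the mean values of the types in `rxT`

`D` normalises `B`. The mean value over `D` of the difference of indicator functions `dl B c a` is determined, up to its
sign, by any element of its support. So a linear relation between the mean values of the `x + χ`,
`x` in `rxT`, gives the same relation between their classes (`rx_key`).
-/

set_option linter.unusedSectionVars false
set_option linter.unusedVariables false

namespace Pool.Agent.AVG

open Finset Pool.Agent.AVF

variable {G : Type} [Group G] [Fintype G] {D B : Subgroup G} {c : G} {κ : G →* ℤˣ}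

theorem avg_smul (D : Subgroup G) (r : ℚ) (f : G → ℚ) : avg D (r • f) = r • avg D f := by
  classical
  funext g
  simp only [avg, Pi.smul_apply, smul_eq_mul, ← Finset.mul_sum, mul_div_assoc]

theorem avg_zero' (D : Subgroup G) : avg D (0 : G → ℚ) = 0 := by
  have h := avg_smul D 0 (0 : G → ℚ)
  rwa [zero_smul, zero_smul] at h

theorem avg_sub (D : Subgroup G) (f f' : G → ℚ) : avg D (f - f') = avg D f - avg D f' := by
  rw [sub_eq_add_neg, avg_add, avg_neg, ← sub_eq_add_neg]

theorem avg_sum {ι : Type} (D : Subgroup G) (s : Finset ι) (f : ι → G → ℚ) :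
    avg D (∑ i ∈ s, f i) = ∑ i ∈ s, avg D (f i) := by
  classical
  induction s using Finset.induction_on with
  | empty => rw [Finset.sum_empty, Finset.sum_empty, avg_zero']
  | insert a s ha ih => rw [Finset.sum_insert ha, Finset.sum_insert ha, avg_add, ih]

theorem avg_multiset_sum (D : Subgroup G) (F : Multiset (G → ℚ)) :
    avg D F.sum = (F.map (avg D)).sum := by
  induction F using Multiset.induction with
  | empty => rw [Multiset.map_zero, Multiset.sum_zero, avg_zero']
  | cons f F ih => rw [Multiset.map_cons, Multiset.sum_cons, Multiset.sum_cons, avg_add, ih]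

/-- the mean value does not change under left translation by an element of `D` -/
theorem avg_left {d : G} (hd : d ∈ D) (f : G → ℚ) : avg D (fun g => f (d * g)) = avg D f := by
  classical
  funext g
  unfold avg
  congr 1
  refine Finset.sum_nbij' (fun x => d * x) (fun x => d⁻¹ * x) ?_ ?_ ?_ ?_ ?_
  · intro x hx
    simp only [Finset.mem_filter, Finset.mem_univ, true_and] at hx ⊢
    exact D.mul_mem hd hx
  · intro x hx
    simp only [Finset.mem_filter, Finset.mem_univ, true_and] at hx ⊢
    exact D.mul_mem (D.inv_mem hd) hx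
  · intro x _
    simp
  · intro x _
    simp
  · intro x _
    rw [mul_assoc]

theorem avg_chi_split (hD : ∀ d ∈ D, κ d = 1) : avg D (chi κ) = chi κ := by
  refine avg_of_inv fun d hd g => ?_
  rw [chi_apply, chi_apply, map_mul, hD d hd, one_mul]

theorem avg_chi_nonsplit {d : G} (hd : d ∈ D) (h : κ d ≠ 1) : avg D (chi κ) = 0 := by
  refine avg_of_anti hd fun g => ?_
  rw [chi_apply, chi_apply, map_mul, (Int.units_eq_one_or (κ d)).resolve_left h]
  push_cast
  ring

section

variable (H : RxH B c κ) (hN : ∀ d ∈ D, ∀ b ∈ B, d * b * d⁻¹ ∈ B)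
include H hN

/-- `dl` of a translate -/
theorem dl_left {d : G} (hd : d ∈ D) (a g : G) : dl B c (d * a) g = dl B c a (d⁻¹ * g) := by
  classical
  have key : ∀ g : G, (g * (d * a)⁻¹ ∈ B) ↔ d⁻¹ * g * a⁻¹ ∈ B := by
    intro g
    constructor
    · intro h
      have h1 := hN d⁻¹ (D.inv_mem hd) _ h
      rwa [show d⁻¹ * (g * (d * a)⁻¹) * d⁻¹⁻¹ = d⁻¹ * g * a⁻¹ by group] at h1
    · intro h
      have h1 := hN d hd _ h
      rwa [show d * (d⁻¹ * g * a⁻¹) * d⁻¹ = g * (d * a)⁻¹ by group] at h1
  unfold dl
  have e : c * (d⁻¹ * g) = d⁻¹ * (c * g) := by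
    rw [← mul_assoc, H.cen, mul_assoc]
  rw [if_congr (key g) rfl rfl, if_congr (key (c * g)) rfl rfl, e]

theorem avg_dl_left {d : G} (hd : d ∈ D) (a : G) :
    avg D (dl B c (d * a)) = avg D (dl B c a) := by
  rw [← avg_left (D.inv_mem hd) (dl B c a)]
  congr 1
  funext g
  exact dl_left H hN hd a g

/-- an element of the support determines the mean value up to the sign -/
theorem avg_dl_supp {a b : G} (ha : κ a = 1) (hb : κ b = 1) (h : avg D (dl B c b) a ≠ 0) :
    avg D (dl B c b) = avg D (dl B c a) ∨
      ((∃ d ∈ D, κ d = -1) ∧ avg D (dl B c b) = - avg D (dl B c a)) := by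
  classical
  obtain ⟨d, hd, h1⟩ : ∃ d ∈ D, dl B c b (d * a) ≠ 0 := by
    by_contra h2
    push Not at h2
    apply h
    unfold avg
    rw [Finset.sum_eq_zero fun d hd => h2 d (Finset.mem_filter.1 hd).2, zero_div]
  by_cases h3 : d * a * b⁻¹ ∈ B
  · left
    rw [← avg_dl_left H hN hd a, dl_congr H h3]
  · by_cases h4 : c * (d * a) * b⁻¹ ∈ B
    · right
      constructor
      · refine ⟨d, hd, ?_⟩
        have h5 := H.ker _ h4
        rw [map_mul, map_mul, map_mul, map_inv, H.kc, ha, hb] at h5
        rcases Int.units_eq_one_or (κ d) with h6 | h6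
        · rw [h6] at h5
          exact absurd h5 (by decide)
        · exact h6
      · rw [← avg_dl_left H hN hd a, ← avg_neg, ← dl_c_right H, dl_congr H h4]
    · exfalso
      apply h1
      unfold dl
      rw [if_neg h3, if_neg h4, sub_zero]

theorem avg_dl_self {a : G} (h : avg D (dl B c a) ≠ 0) : avg D (dl B c a) a ≠ 0 := by
  classical
  by_cases h1 : ∃ d ∈ D, c * d ∈ B
  · obtain ⟨d, hd, h2⟩ := h1
    exfalso
    apply h
    refine avg_of_anti hd fun g => ?_
    have h3 := dl_b H h2 a g
    rw [mul_assoc, dl_c H] at h3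
    rw [← h3, neg_neg]
  · push Not at h1
    unfold avg
    have hp : (0 : ℚ) < ((univ.filter fun d : G => d ∈ D).card : ℚ) := by
      have h : (univ.filter fun d : G => d ∈ D).Nonempty := ⟨1, by simp [D.one_mem]⟩
      exact_mod_cast h.card_pos
    refine ne_of_gt (div_pos ?_ hp)
    have h2 : ∀ d ∈ univ.filter (fun d : G => d ∈ D), dl B c a (d * a) = if d ∈ B then 1 else 0 := by
      intro d hd
      unfold dl
      rw [← mul_assoc, mul_inv_cancel_right, mul_inv_cancel_right,
        if_neg (h1 d (Finset.mem_filter.1 hd).2), sub_zero]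
    rw [Finset.sum_congr rfl h2]
    refine Finset.sum_pos' (fun d _ => by split_ifs <;> norm_num) ⟨1, by simp [D.one_mem], ?_⟩
    rw [if_pos B.one_mem]
    norm_num

theorem avg_dl_ne {a : G} (hD : ∀ d ∈ D, κ d = 1) : avg D (dl B c a) a ≠ 0 := by
  classical
  unfold avg
  have hp : (0 : ℚ) < ((univ.filter fun d : G => d ∈ D).card : ℚ) := by
    have h : (univ.filter fun d : G => d ∈ D).Nonempty := ⟨1, by simp [D.one_mem]⟩
    exact_mod_cast h.card_pos
  refine ne_of_gt (div_pos ?_ hp)
  have h2 : ∀ d ∈ univ.filter (fun d : G => d ∈ D), dl B c a (d * a) = if d ∈ B then 1 else 0 := by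
    intro d hd
    have h3 : c * d ∉ B := by
      apply H.not_mem
      rw [map_mul, H.kc, hD d (Finset.mem_filter.1 hd).2, mul_one]
    unfold dl
    rw [← mul_assoc, mul_inv_cancel_right, mul_inv_cancel_right, if_neg h3, sub_zero]
  rw [Finset.sum_congr rfl h2]
  refine Finset.sum_pos' (fun d _ => by split_ifs <;> norm_num) ⟨1, by simp [D.one_mem], ?_⟩
  rw [if_pos B.one_mem]
  norm_num

theorem rx_key_split (hD : ∀ d ∈ D, κ d = 1) {M : Type} [AddCommGroup M] (φ : (G → ℚ) → M)
    {e : (G → ℚ) → ℤ}
    (he : ∑ x ∈ rxT B c κ, (e x : ℚ) • (avg D x + chi κ) = 0) :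
    ∑ x ∈ rxT B c κ, e x • φ (avg D x) = 0 := by
  classical
  have hdl : ∀ a, avg D (t1 B c κ a) + chi κ = avg D (dl B c a) := by
    intro a
    unfold t1
    rw [avg_sub, avg_chi_split hD, sub_add_cancel]
  rw [← Finset.sum_fiberwise_of_maps_to (t := (rxT B c κ).image (avg D))
    (g := avg D) (fun x hx => mem_image_of_mem _ hx)]
  refine Finset.sum_eq_zero fun v hv => ?_
  obtain ⟨y, hy, rfl⟩ := mem_image.1 hv
  obtain ⟨a, ha, rfl⟩ := (mem_rxT H).1 hy
  have h1 : ∑ x ∈ (rxT B c κ).filter (fun x => avg D x = avg D (t1 B c κ a)), e x • φ (avg D x) =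
      (∑ x ∈ (rxT B c κ).filter (fun x => avg D x = avg D (t1 B c κ a)), e x) •
        φ (avg D (t1 B c κ a)) := by
    rw [Finset.sum_smul]
    refine Finset.sum_congr rfl fun x hx => ?_
    rw [(mem_filter.1 hx).2]
  rw [h1]
  have h2 : ((∑ x ∈ (rxT B c κ).filter (fun x => avg D x = avg D (t1 B c κ a)), e x : ℤ) : ℚ) *
      avg D (dl B c a) a = 0 := by
    have h3 := congrFun he a
    rw [Finset.sum_apply, Pi.zero_apply] at h3
    rw [← h3, ← Finset.sum_filter_add_sum_filter_not (rxT B c κ)
      (fun x => avg D x = avg D (t1 B c κ a))]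
    have h4 : ∑ x ∈ (rxT B c κ).filter (fun x => ¬ avg D x = avg D (t1 B c κ a)),
        ((e x : ℚ) • (avg D x + chi κ)) a = 0 := by
      refine Finset.sum_eq_zero fun x hx => ?_
      obtain ⟨hx1, hx2⟩ := mem_filter.1 hx
      obtain ⟨b, hb, rfl⟩ := (mem_rxT H).1 hx1
      rw [Pi.smul_apply, hdl b]
      by_contra h5
      have h6 : avg D (dl B c b) a ≠ 0 := by
        intro h7
        rw [h7, smul_zero] at h5
        exact h5 rfl
      rcases avg_dl_supp H hN ha hb h6 with h7 | ⟨⟨d, hd, h8⟩, _⟩
      · apply hx2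
        have h9 := hdl b
        rw [h7, ← hdl a] at h9
        exact add_right_cancel h9
      · rw [hD d hd] at h8
        exact absurd h8 (by decide)
    rw [h4, add_zero]
    push_cast
    rw [Finset.sum_mul]
    refine Finset.sum_congr rfl fun x hx => ?_
    rw [Pi.smul_apply, (mem_filter.1 hx).2, hdl a, smul_eq_mul]
  have h3 := (mul_eq_zero.1 h2).resolve_right (avg_dl_ne H hN hD)
  have h4 : (∑ x ∈ (rxT B c κ).filter (fun x => avg D x = avg D (t1 B c κ a)), e x : ℤ) = 0 := by
    exact_mod_cast h3
  rw [h4, zero_smul]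

theorem rx_key_nonsplit {d : G} (hd : d ∈ D) (hκd : κ d ≠ 1) {e : (G → ℚ) → ℤ}
    (he : ∑ x ∈ rxT B c κ, (e x : ℚ) • avg D x = 0) :
    ∑ x ∈ rxT B c κ, e x • sg (avg D x) = 0 := by
  classical
  have hchi := avg_chi_nonsplit hd hκd
  have hdl : ∀ a, avg D (t1 B c κ a) = avg D (dl B c a) := by
    intro a
    unfold t1
    rw [avg_sub, hchi, sub_zero]
  have hev : ∀ w : G → ℚ, (∑ x ∈ rxT B c κ, e x • sg (avg D x)) w =
      ∑ x ∈ rxT B c κ, e x * sg (avg D x) w := by
    intro w
    rw [Finset.sum_apply]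
    rfl
  have sgv : ∀ u w : G → ℚ, sg u w = (if u = w then 1 else 0) - (if u = -w then 1 else 0) := by
    intro u w
    unfold sg net
    rw [Multiset.count_singleton, Multiset.count_singleton]
    have h1 : (w = u) ↔ u = w := eq_comm
    have h2 : (-w = u) ↔ u = -w := eq_comm
    rw [if_congr h1 rfl rfl, if_congr h2 rfl rfl]
    split_ifs <;> simp
  have hneg : ∀ u w : G → ℚ, sg u (-w) = - sg u w := by
    intro u w
    rw [sgv, sgv, neg_neg]
    ring
  -- the value at a mean value
  have main : ∀ a, κ a = 1 → ∑ x ∈ rxT B c κ, e x * sg (avg D x) (avg D (dl B c a)) = 0 := by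
    intro a ha
    by_cases h0 : avg D (dl B c a) = 0
    · refine Finset.sum_eq_zero fun x _ => ?_
      rw [h0, sgv, neg_zero, sub_self, mul_zero]
    · have hself := avg_dl_self H hN h0
      have hne : avg D (dl B c a) ≠ - avg D (dl B c a) := by
        intro h
        apply h0
        funext g
        have := congrFun h g
        rw [Pi.neg_apply] at this
        rw [Pi.zero_apply]
        linarith
      have h1 : ((∑ x ∈ rxT B c κ, e x * sg (avg D x) (avg D (dl B c a)) : ℤ) : ℚ) *
          avg D (dl B c a) a = 0 := by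
        have h3 := congrFun he a
        rw [Finset.sum_apply, Pi.zero_apply] at h3
        rw [← h3]
        push_cast
        rw [Finset.sum_mul]
        refine Finset.sum_congr rfl fun x hx => ?_
        obtain ⟨b, hb, rfl⟩ := (mem_rxT H).1 hx
        rw [Pi.smul_apply, smul_eq_mul, hdl b, mul_assoc]
        congr 1
        by_cases h4 : avg D (dl B c b) a = 0
        · rw [h4, sgv, if_neg, if_neg]
          · simp
          · intro h5
            apply hself
            rw [h5, Pi.neg_apply, neg_eq_zero] at h4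
            exact h4
          · intro h5
            apply hself
            rw [← h5]
            exact h4
        · rcases avg_dl_supp H hN ha hb h4 with h5 | ⟨_, h5⟩
          · rw [h5, sgv, if_pos rfl, if_neg hne]
            simp
          · rw [h5, sgv, if_pos rfl, if_neg hne.symm]
            simp
      have h2 := (mul_eq_zero.1 h1).resolve_right hself
      exact_mod_cast h2
  funext w
  rw [hev, Pi.zero_apply]
  by_cases h1 : ∃ a, κ a = 1 ∧ avg D (dl B c a) = w
  · obtain ⟨a, ha, rfl⟩ := h1
    exact main a ha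
  · by_cases h2 : ∃ a, κ a = 1 ∧ avg D (dl B c a) = -w
    · obtain ⟨a, ha, h3⟩ := h2
      have h4 := main a ha
      rw [h3] at h4
      simp only [hneg, mul_neg, Finset.sum_neg_distrib, neg_eq_zero] at h4
      exact h4
    · refine Finset.sum_eq_zero fun x hx => ?_
      obtain ⟨b, hb, rfl⟩ := (mem_rxT H).1 hx
      rw [hdl b, sgv, if_neg fun h => h1 ⟨b, hb, h⟩, if_neg fun h => h2 ⟨b, hb, h⟩, sub_self,
        mul_zero]

end

end Pool.Agent.AVG
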