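import Pool.Agent.AVG.RxB
import Pool.Agent.AVG.RxC
import Pool.Agent.AVG.DefsF

/-!
# AVG: the relations between reductions of types which are invariant under `B`
-/

set_option linter.unusedSectionVars false
set_option linter.unusedVariables false

namespace Pool.Agent.AVG

open Finset Pool.Agent.AVF

variable {G : Type} [Group G] [Fintype G] {D B : Subgroup G} {c : G} {κ : G →* ℤˣ}

theorem rx_net_nonsplit (H : RxH B c κ) (hN : ∀ d ∈ D, ∀ b ∈ B, d * b * d⁻¹ ∈ B)
    (hi : B.index ≤ 12) {d : G} (hd : d ∈ D) (hκd : κ d ≠ 1)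
    (F : Multiset (G → ℚ)) (hF : ∀ f ∈ F, IsType c f ∧ ∀ b ∈ B, ∀ g, f (b * g) = f g)
    (hs : (F.map (avg D)).sum = 0) : net (F.map (avg D)) ∈ R D c κ := by
  classical
  obtain ⟨e, h1, h2⟩ := rx_multi (D := D) H hi F hF
  have h3 : ∑ x ∈ rxT B c κ, (e x : ℚ) • (avg D x + avg D (chi κ)) =
      (F.card : ℚ) • avg D (chi κ) := by
    have h4 := congrArg (avg D) h1
    rw [avg_multiset_sum, hs, avg_sub, avg_sum, avg_smul] at h4
    have h5 : ∀ x ∈ rxT B c κ, avg D ((e x : ℚ) • (x + chi κ)) =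
        (e x : ℚ) • (avg D x + avg D (chi κ)) := by
      intro x _
      rw [avg_smul, avg_add]
    rw [Finset.sum_congr rfl h5] at h4
    exact (sub_eq_zero.1 h4.symm)
  have hchi := avg_chi_nonsplit hd hκd
  rw [hchi, smul_zero] at h3
  simp only [add_zero] at h3
  have h4 := rx_key_nonsplit H hN hd hκd h3
  have h5 : ∑ x ∈ rxT B c κ, e x • ysg D κ x = 0 := by
    unfold ysg
    rw [hchi, sg_zero]
    simp only [add_zero]
    exact h4
  rw [h5, hchi, sg_zero, smul_zero, sub_zero, zero_sub] at h2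
  exact neg_mem_iff.1 h2

theorem rx_net (H : RxH B c κ) (hN : ∀ d ∈ D, ∀ b ∈ B, d * b * d⁻¹ ∈ B) (hi : B.index ≤ 12)
    (F : Multiset (G → ℚ)) (hF : ∀ f ∈ F, IsType c f ∧ ∀ b ∈ B, ∀ g, f (b * g) = f g)
    (hE : Even F.card) (hs : (F.map (avg D)).sum = 0) : net (F.map (avg D)) ∈ R D c κ := by
  classical
  obtain ⟨e, h1, h2⟩ := rx_multi (D := D) H hi F hF
  have h3 : ∑ x ∈ rxT B c κ, (e x : ℚ) • (avg D x + avg D (chi κ)) =
      (F.card : ℚ) • avg D (chi κ) := by
    have h4 := congrArg (avg D) h1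
    rw [avg_multiset_sum, hs, avg_sub, avg_sum, avg_smul] at h4
    have h5 : ∀ x ∈ rxT B c κ, avg D ((e x : ℚ) • (x + chi κ)) =
        (e x : ℚ) • (avg D x + avg D (chi κ)) := by
      intro x _
      rw [avg_smul, avg_add]
    rw [Finset.sum_congr rfl h5] at h4
    exact (sub_eq_zero.1 h4.symm)
  by_cases hD : ∀ d ∈ D, κ d = 1
  · obtain ⟨k, hk⟩ := hE
    have hchi := avg_chi_split hD
    have hT : ∑ x ∈ rxT B c κ, (x + chi κ) = (2 : ℚ) • chi κ := by
      have h4 := rx_sum H (isType_chi H) fun b hb g => chi_ker H (H.ker b hb) g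
      rw [rx_chi H] at h4
      rw [two_smul]
      exact (eq_sub_iff_add_eq.1 h4).symm
    have hT' : ∑ x ∈ rxT B c κ, (avg D x + chi κ) = (2 : ℚ) • chi κ := by
      have h4 := congrArg (avg D) hT
      rw [avg_sum, avg_smul, hchi] at h4
      rw [← h4]
      refine Finset.sum_congr rfl fun x _ => ?_
      rw [avg_add, hchi]
    have he : ∑ x ∈ rxT B c κ, ((e x - (k : ℤ) : ℤ) : ℚ) • (avg D x + chi κ) = 0 := by
      have h4 : ∀ x ∈ rxT B c κ, ((e x - (k : ℤ) : ℤ) : ℚ) • (avg D x + chi κ) =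
          (e x : ℚ) • (avg D x + chi κ) - (k : ℚ) • (avg D x + chi κ) := by
        intro x _
        rw [← sub_smul]
        push_cast
        rfl
      rw [Finset.sum_congr rfl h4, Finset.sum_sub_distrib, ← Finset.smul_sum, hT']
      rw [hchi] at h3
      rw [h3, smul_smul, ← sub_smul, hk]
      push_cast
      rw [show (k : ℚ) + k - k * 2 = 0 by ring, zero_smul]
    have h5 := rx_key_split H hN hD (M := (G → ℚ) → ℤ)
      (fun v => sg v + sg (avg D (chi κ))) (e := fun x => e x - (k : ℤ)) he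
    have h6 : ∑ x ∈ rxT B c κ, e x • ysg D κ x = (k : ℤ) • ∑ x ∈ rxT B c κ, ysg D κ x := by
      have h7 : ∑ x ∈ rxT B c κ, (e x - (k : ℤ)) • ysg D κ x = 0 := h5
      simp only [sub_smul, Finset.sum_sub_distrib, ← Finset.smul_sum] at h7
      exact sub_eq_zero.1 h7
    have h8 := rx_one (D := D) H hi (isType_chi H) fun b hb g => chi_ker H (H.ker b hb) g
    rw [rx_chi H] at h8
    have h9 := sub_mem (zsmul_mem h8 (k : ℤ)) h2
    refine (congrArg (· ∈ R D c κ) ?_).mp h9
    rw [h6, hk]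
    push_cast
    rw [smul_sub, smul_sub, add_smul]
    abel
  · push Not at hD
    obtain ⟨d, hd, hκd⟩ := hD
    exact rx_net_nonsplit H hN hi hd hκd F hF hs

end Pool.Agent.AVG
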