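import Pool.Agent.AVG.RxC

/-!
# AVG: types with a given multiple of `χ` as mean value

`κ` is trivial on `D`, `D` normalises `B`, `δ` is the index of `D ∩ B` in `D`. For `0 ≤ E ≤ δ` there is a type
which is invariant under `B` and has the mean value `(2 E / δ - 1) χ` over `D`.
-/

set_option linter.unusedSectionVars false
set_option linter.unusedVariables false

namespace Pool.Agent.AVG

open Finset Pool.Agent.AVF

variable {G : Type} [Group G] [Fintype G] {D B : Subgroup G} {c : G} {κ : G →* ℤˣ}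

/-- The subgroup `B D`. -/
def rxV (hN : ∀ d ∈ D, ∀ b ∈ B, d * b * d⁻¹ ∈ B) : Subgroup G where
  carrier := {v | ∃ b ∈ B, ∃ d ∈ D, b * d = v}
  mul_mem' := by
    rintro _ _ ⟨b, hb, d, hd, rfl⟩ ⟨b', hb', d', hd', rfl⟩
    refine ⟨b * (d * b' * d⁻¹), B.mul_mem hb (hN d hd b' hb'), d * d', D.mul_mem hd hd', ?_⟩
    group
  one_mem' := ⟨1, B.one_mem, 1, D.one_mem, by group⟩
  inv_mem' := by
    rintro _ ⟨b, hb, d, hd, rfl⟩
    refine ⟨d⁻¹ * b⁻¹ * d⁻¹⁻¹, hN d⁻¹ (D.inv_mem hd) b⁻¹ (B.inv_mem hb), d⁻¹, D.inv_mem hd, ?_⟩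
    group

/-- The index of `D ∩ B` in `D`. -/
noncomputable def rxd (D B : Subgroup G) : ℕ := (B.subgroupOf D).index

open Classical in
theorem rxd_mul : rxd D B * (univ.filter fun d : G => d ∈ D ∧ d ∈ B).card =
    (univ.filter fun d : G => d ∈ D).card := by
  have h1 : Nat.card (B.subgroupOf D) = (univ.filter fun d : G => d ∈ D ∧ d ∈ B).card := by
    have h2 : Nat.card (B.subgroupOf D) = Nat.card {d : G // d ∈ D ∧ d ∈ B} := by
      refine Nat.card_congr ⟨fun x => ⟨x.1.1, x.1.2, x.2⟩, fun x => ⟨⟨x.1, x.2.1⟩, x.2.2⟩,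
        fun x => rfl, fun x => rfl⟩
    rw [h2, Nat.card_eq_fintype_card, Fintype.card_subtype]
  have h3 : Nat.card D = (univ.filter fun d : G => d ∈ D).card := by
    rw [Nat.card_eq_fintype_card, Fintype.card_subtype]
  unfold rxd
  rw [← h1, ← h3]
  exact Subgroup.index_mul_card _

open Classical in
theorem rx_db_pos : 0 < (univ.filter fun d : G => d ∈ D ∧ d ∈ B).card :=
  Finset.card_pos.2 ⟨1, by simp [D.one_mem, B.one_mem]⟩

open Classical in
theorem rx_d_pos : 0 < (univ.filter fun d : G => d ∈ D).card :=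
  Finset.card_pos.2 ⟨1, by simp [D.one_mem]⟩

theorem rxd_pos : 0 < rxd D B := by
  classical
  have h1 := rxd_mul (D := D) (B := B)
  have h2 := rx_d_pos (D := D)
  rcases Nat.eq_zero_or_pos (rxd D B) with h | h
  · rw [h, zero_mul] at h1
    omega
  · exact h

open Classical in
/-- a union of `E` cosets of `B` which meet `D` -/
theorem exists_rxW (hN : ∀ d ∈ D, ∀ b ∈ B, d * b * d⁻¹ ∈ B) (E : ℕ) (hE : E ≤ rxd D B) :
    ∃ W : Finset G, (∀ b ∈ B, ∀ v, b * v ∈ W ↔ v ∈ W) ∧
      (univ.filter fun d : G => d ∈ D ∧ d ∈ W).card =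
        E * (univ.filter fun d : G => d ∈ D ∧ d ∈ B).card := by
  induction E with
  | zero => exact ⟨∅, by simp, by simp⟩
  | succ E ih =>
    obtain ⟨W, h1, h2⟩ := ih (by omega)
    have h3 : (univ.filter fun d : G => d ∈ D ∧ d ∈ W).card <
        (univ.filter fun d : G => d ∈ D).card := by
      rw [h2, ← rxd_mul (D := D) (B := B)]
      exact Nat.mul_lt_mul_of_pos_right (by omega) rx_db_pos
    obtain ⟨d0, hd0, hd0W⟩ : ∃ d0 ∈ D, d0 ∉ W := by
      by_contra h
      push Not at h
      refine absurd h3 (not_lt.2 (Finset.card_le_card fun d hd => ?_))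
      have h4 := (mem_filter.1 hd).2
      exact mem_filter.2 ⟨mem_univ _, h4, h d h4⟩
    refine ⟨W ∪ (univ.filter fun b : G => b ∈ B).image (· * d0), ?_, ?_⟩
    · intro b hb v
      rw [mem_union, mem_union, h1 b hb v, mem_image, mem_image]
      refine or_congr Iff.rfl ?_
      constructor
      · rintro ⟨b', hb', h⟩
        have h5 := (mem_filter.1 hb').2
        refine ⟨b⁻¹ * b', mem_filter.2 ⟨mem_univ _, B.mul_mem (B.inv_mem hb) h5⟩, ?_⟩
        rw [mul_assoc, h]
        group
      · rintro ⟨b', hb', h⟩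
        have h5 := (mem_filter.1 hb').2
        refine ⟨b * b', mem_filter.2 ⟨mem_univ _, B.mul_mem hb h5⟩, ?_⟩
        rw [← h]
        group
    · have h4 : (univ.filter fun d : G => d ∈ D ∧ d ∈ W ∪
          (univ.filter fun b : G => b ∈ B).image (· * d0)) =
          (univ.filter fun d : G => d ∈ D ∧ d ∈ W) ∪
            (univ.filter fun d : G => d ∈ D ∧ d ∈ B).image (· * d0) := by
        ext d
        simp only [mem_filter, mem_univ, true_and, mem_union, mem_image]
        constructor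
        · rintro ⟨hd, h | ⟨b, hb, rfl⟩⟩
          · exact Or.inl ⟨hd, h⟩
          · refine Or.inr ⟨b, ⟨?_, hb⟩, rfl⟩
            have h5 := D.mul_mem hd (D.inv_mem hd0)
            rwa [mul_inv_cancel_right] at h5
        · rintro (⟨hd, h⟩ | ⟨b, ⟨hb, hb'⟩, rfl⟩)
          · exact ⟨hd, Or.inl h⟩
          · exact ⟨D.mul_mem hb hd0, Or.inr ⟨b, hb', rfl⟩⟩
      rw [h4, Finset.card_union_of_disjoint, h2,
        Finset.card_image_of_injective _ (mul_left_injective d0)]
      · ring
      · rw [Finset.disjoint_left]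
        intro d hd hd'
        obtain ⟨b, hb, rfl⟩ := mem_image.1 hd'
        exact hd0W ((h1 b (mem_filter.1 hb).2.2 d0).1 (mem_filter.1 hd).2.2)

section

variable (H : RxH B c κ) (hN : ∀ d ∈ D, ∀ b ∈ B, d * b * d⁻¹ ∈ B)
include H hN

/-- the type with `E` elements `1/2` in each orbit of `D` on `B \ ker κ` -/
theorem exists_type_avg (hD : ∀ d ∈ D, κ d = 1) (E : ℕ) (hE : E ≤ rxd D B) :
    ∃ f : G → ℚ, IsType c f ∧ (∀ b ∈ B, ∀ g, f (b * g) = f g) ∧
      avg D f = (2 * (E : ℚ) / (rxd D B : ℚ) - 1) • chi κ := by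
  classical
  obtain ⟨W, hW1, hW2⟩ := exists_rxW hN E hE
  -- representatives of the cosets of `B D`
  obtain ⟨r, hr⟩ : ∃ r : G → G, r = fun g =>
      Quotient.out (Quotient.mk (QuotientGroup.rightRel (rxV hN)) g) := ⟨_, rfl⟩
  have hr1 : ∀ g, g * (r g)⁻¹ ∈ rxV hN := by
    intro g
    have h1 : (QuotientGroup.rightRel (rxV hN)).r (r g) g := by
      rw [hr]
      exact Quotient.mk_out (s := QuotientGroup.rightRel (rxV hN)) g
    exact QuotientGroup.rightRel_apply.1 h1
  have hr2 : ∀ v ∈ rxV hN, ∀ g, r (v * g) = r g := by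
    intro v hv g
    have h1 : (QuotientGroup.rightRel (rxV hN)).r (v * g) g := by
      refine QuotientGroup.rightRel_apply.2 ?_
      rw [mul_inv_rev, ← mul_assoc, mul_inv_cancel, one_mul]
      exact (rxV hN).inv_mem hv
    rw [hr]
    show Quotient.out (Quotient.mk _ (v * g)) = Quotient.out (Quotient.mk _ g)
    rw [Quotient.sound h1]
  have hBV : ∀ b ∈ B, b ∈ rxV hN := fun b hb => ⟨b, hb, 1, D.one_mem, mul_one b⟩
  have hDV : ∀ d ∈ D, d ∈ rxV hN := fun d hd => ⟨1, B.one_mem, d, hd, one_mul d⟩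
  obtain ⟨P, hP⟩ : ∃ P : G → Prop, P = fun g => g * (r g)⁻¹ ∈ W := ⟨_, rfl⟩
  have hPB : ∀ b ∈ B, ∀ g, P (b * g) ↔ P g := by
    intro b hb g
    rw [hP]
    show b * g * (r (b * g))⁻¹ ∈ W ↔ g * (r g)⁻¹ ∈ W
    rw [hr2 b (hBV b hb), mul_assoc]
    exact hW1 b hb _
  obtain ⟨f, hf⟩ : ∃ f : G → ℚ, f = fun g => if κ g = 1 then (if P g then 1 / 2 else -(1 / 2))
      else (if P (c * g) then -(1 / 2) else 1 / 2) := ⟨_, rfl⟩
  have hcc : ∀ g, P (c * (c * g)) ↔ P g := by
    intro g
    rw [← mul_assoc]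
    exact hPB _ H.cc g
  have hf1 : ∀ g, κ g = 1 → f g = if P g then 1 / 2 else -(1 / 2) := by
    intro g hg
    rw [hf]
    exact if_pos hg
  have hfc : ∀ g, f (c * g) = - f g := by
    intro g
    rw [hf]
    show (if κ (c * g) = 1 then (if P (c * g) then 1 / 2 else -(1 / 2))
      else (if P (c * (c * g)) then -(1 / 2) else 1 / 2)) = -(if κ g = 1 then _ else _)
    rcases Int.units_eq_one_or (κ g) with hg | hg
    · have h2 : κ (c * g) ≠ 1 := by
        rw [map_mul, H.kc, hg]
        decide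
      rw [if_neg h2, if_pos hg, if_congr (hcc g) rfl rfl]
      split_ifs <;> norm_num
    · have h2 : κ (c * g) = 1 := by
        rw [map_mul, H.kc, hg]
        rfl
      have h3 : κ g ≠ 1 := by
        rw [hg]
        decide
      rw [if_pos h2, if_neg h3]
      split_ifs <;> norm_num
  have hfB : ∀ b ∈ B, ∀ g, f (b * g) = f g := by
    intro b hb g
    rw [hf]
    show (if κ (b * g) = 1 then (if P (b * g) then 1 / 2 else -(1 / 2))
      else (if P (c * (b * g)) then -(1 / 2) else 1 / 2)) =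
      (if κ g = 1 then (if P g then 1 / 2 else -(1 / 2))
        else (if P (c * g) then -(1 / 2) else 1 / 2))
    have e1 : κ (b * g) = κ g := by rw [map_mul, H.ker b hb, one_mul]
    have e2 : c * (b * g) = b * (c * g) := by
      rw [← mul_assoc, H.cen, mul_assoc]
    rw [e1, e2, if_congr (hPB b hb g) rfl rfl, if_congr (hPB b hb (c * g)) rfl rfl]
  refine ⟨f, ⟨hfc, fun g => ?_⟩, hfB, ?_⟩
  · rw [hf]
    show (if κ g = 1 then (if P g then 1 / 2 else -(1 / 2))
        else (if P (c * g) then -(1 / 2) else 1 / 2)) = 1 / 2 ∨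
      (if κ g = 1 then (if P g then 1 / 2 else -(1 / 2))
        else (if P (c * g) then -(1 / 2) else 1 / 2)) = -(1 / 2)
    split_ifs <;> simp
  · refine odd_ext H (isWeight_avg H.cen (D := D) ⟨hfc, fun g => ?_⟩).2.1 ?_ ?_
    · rw [hf]
      show (if κ g = 1 then (if P g then 1 / 2 else -(1 / 2))
          else (if P (c * g) then -(1 / 2) else 1 / 2)) = 1 / 2 ∨
        (if κ g = 1 then (if P g then 1 / 2 else -(1 / 2))
          else (if P (c * g) then -(1 / 2) else 1 / 2)) = -(1 / 2)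
      split_ifs <;> simp
    · intro g
      rw [Pi.smul_apply, Pi.smul_apply, chi_c H, smul_neg]
    · intro g hg
      rw [Pi.smul_apply, chi_one' H hg]
      obtain ⟨b0, hb0, d0, hd0, hv⟩ := hr1 g
      have hPd : ∀ d ∈ D, (P (d * g) ↔ d * d0 ∈ W) := by
        intro d hd
        rw [hP]
        show d * g * (r (d * g))⁻¹ ∈ W ↔ _
        rw [hr2 d (hDV d hd), mul_assoc, ← hv,
          show d * (b0 * d0) = (d * b0 * d⁻¹) * (d * d0) by group]
        exact hW1 _ (hN d hd b0 hb0) _
      have h1 : ∀ d ∈ univ.filter (fun d : G => d ∈ D), f (d * g) =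
          (if d * d0 ∈ W then 1 else 0) - 1 / 2 := by
        intro d hd
        have hd' := (mem_filter.1 hd).2
        have h2 : κ (d * g) = 1 := by rw [map_mul, hD d hd', hg, one_mul]
        rw [hf1 _ h2, if_congr (hPd d hd') rfl rfl]
        split_ifs <;> norm_num
      have h3 : (∑ d ∈ univ.filter (fun d : G => d ∈ D), if d * d0 ∈ W then (1 : ℚ) else 0) =
          ((univ.filter fun d : G => d ∈ D ∧ d ∈ W).card : ℚ) := by
        rw [Finset.card_filter]
        push_cast
        rw [← Finset.sum_filter_add_sum_filter_not univ (fun d : G => d ∈ D)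
          (fun d => if d ∈ D ∧ d ∈ W then (1 : ℚ) else 0)]
        have h4 : ∑ d ∈ univ.filter (fun d : G => ¬ d ∈ D),
            (if d ∈ D ∧ d ∈ W then (1 : ℚ) else 0) = 0 := by
          refine Finset.sum_eq_zero fun d hd => ?_
          rw [if_neg fun h => (mem_filter.1 hd).2 h.1]
        rw [h4, add_zero]
        refine Finset.sum_nbij' (fun x => x * d0) (fun x => x * d0⁻¹) ?_ ?_ ?_ ?_ ?_
        · intro x hx
          simp only [Finset.mem_filter, Finset.mem_univ, true_and] at hx ⊢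
          exact D.mul_mem hx hd0
        · intro x hx
          simp only [Finset.mem_filter, Finset.mem_univ, true_and] at hx ⊢
          exact D.mul_mem hx (D.inv_mem hd0)
        · intro x _
          simp
        · intro x _
          simp
        · intro x hx
          have hx' := (mem_filter.1 hx).2
          refine if_congr ?_ rfl rfl
          exact ⟨fun h => ⟨D.mul_mem hx' hd0, h⟩, fun h => h.2⟩
      unfold avg
      rw [Finset.sum_congr rfl h1, Finset.sum_sub_distrib, h3, Finset.sum_const, hW2]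
      have h5 := rxd_mul (D := D) (B := B)
      have h6 : (0 : ℚ) < ((univ.filter fun d : G => d ∈ D ∧ d ∈ B).card : ℚ) := by
        exact_mod_cast rx_db_pos
      have h7 : (0 : ℚ) < (rxd D B : ℚ) := by exact_mod_cast rxd_pos
      rw [← h5, nsmul_eq_mul]
      push_cast
      generalize ((univ.filter fun d : G => d ∈ D ∧ d ∈ B).card : ℚ) = β at h6 ⊢
      generalize (rxd D B : ℚ) = δ at h7 ⊢
      have h8 := h6.ne'
      have h9 := h7.ne'
      rw [div_eq_iff (mul_ne_zero h9 h8)]
      have h10 : (E : ℚ) / δ * δ = E := div_mul_cancel₀ _ h9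
      linear_combination (-β) * h10

end

end Pool.Agent.AVG
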