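import Pool.Agent.AVG.RxD
import Pool.Agent.AVG.RxE

/-!
# AVG: a block whose sum is a multiple of `χ`

`κ` is trivial on `D`, `D` normalises `B`. The classes of a multiset of mean values of types, invariant under `B`,
with the sum `s χ`, are the sum of a multiple of the class of `χ` and the class of one multiple of `χ` (`rx_block`).
-/

set_option linter.unusedSectionVars false
set_option linter.unusedVariables false

namespace Pool.Agent.AVG

open Finset Pool.Agent.AVF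

variable {G : Type} [Group G] [Fintype G] {D B : Subgroup G} {c : G} {κ : G →* ℤˣ}

/-- `n` times `-χ`, as a multiset of types -/
theorem exists_chi_mult (H : RxH B c κ) (hD : ∀ d ∈ D, κ d = 1) (n : ℤ) :
    ∃ U : Multiset (G → ℚ), (∀ f ∈ U, IsType c f ∧ ∀ b ∈ B, ∀ g, f (b * g) = f g) ∧
      (U.map (avg D)).sum = (n : ℚ) • chi κ ∧ net (U.map (avg D)) = n • sg (chi κ) ∧
      U.card = n.natAbs := by
  have hchi := avg_chi_split hD
  have hty : IsType c (chi κ) ∧ ∀ b ∈ B, ∀ g, chi κ (b * g) = chi κ g :=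
    ⟨isType_chi H, fun b hb g => chi_ker H (H.ker b hb) g⟩
  have hty' : IsType c (-chi κ) ∧ ∀ b ∈ B, ∀ g, (-chi κ) (b * g) = (-chi κ) g := by
    refine ⟨⟨fun g => ?_, fun g => ?_⟩, fun b hb g => ?_⟩
    · rw [Pi.neg_apply, Pi.neg_apply, hty.1.1]
    · rw [Pi.neg_apply]
      rcases hty.1.2 g with h | h
      · right
        rw [h]
      · left
        rw [h, neg_neg]
    · rw [Pi.neg_apply, Pi.neg_apply, hty.2 b hb]
  rcases Int.natAbs_eq n with h | h
  · refine ⟨Multiset.replicate n.natAbs (chi κ), ?_, ?_, ?_, Multiset.card_replicate _ _⟩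
    · intro f hf
      rw [Multiset.eq_of_mem_replicate hf]
      exact hty
    · rw [Multiset.map_replicate, Multiset.sum_replicate, hchi, ← Nat.cast_smul_eq_nsmul ℚ]
      congr 1
      have h1 := congrArg (Int.cast : ℤ → ℚ) h
      rw [Int.cast_natCast] at h1
      exact h1.symm
    · rw [Multiset.map_replicate, net_eq_sum, Multiset.map_replicate, Multiset.sum_replicate,
        hchi, ← natCast_zsmul]
      congr 1
      exact h.symm
  · refine ⟨Multiset.replicate n.natAbs (-chi κ), ?_, ?_, ?_, Multiset.card_replicate _ _⟩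
    · intro f hf
      rw [Multiset.eq_of_mem_replicate hf]
      exact hty'
    · rw [Multiset.map_replicate, Multiset.sum_replicate, avg_neg, hchi, smul_neg,
        ← Nat.cast_smul_eq_nsmul ℚ, ← neg_smul]
      congr 1
      have h1 := congrArg (Int.cast : ℤ → ℚ) h
      rw [Int.cast_neg, Int.cast_natCast] at h1
      exact h1.symm
    · rw [Multiset.map_replicate, net_eq_sum, Multiset.map_replicate, Multiset.sum_replicate,
        avg_neg, hchi, sg_neg, smul_neg, ← natCast_zsmul, ← neg_smul]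
      congr 1
      exact h.symm

theorem even_of_natAbs {a : ℕ} {n : ℤ} (h : ∃ z : ℤ, (a : ℤ) + n = 2 * z) :
    Even (a + n.natAbs) := by
  obtain ⟨z, hz⟩ := h
  rw [Nat.even_iff]
  omega

section

variable (H : RxH B c κ) (hN : ∀ d ∈ D, ∀ b ∈ B, d * b * d⁻¹ ∈ B)
include H hN

/-- the value at `1` of the mean value of `dl` -/
theorem avg_dl_at_one (hD : ∀ d ∈ D, κ d = 1) {a : G} (ha : κ a = 1) :
    ∃ m : ℤ, (rxd D B : ℚ) * avg D (dl B c a) 1 = m := by
  classical
  have h1 : ∀ d ∈ univ.filter (fun d : G => d ∈ D), dl B c a (d * 1) =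
      if d * a⁻¹ ∈ B then 1 else 0 := by
    intro d hd
    rw [mul_one]
    exact dl_one H ha (hD d (mem_filter.1 hd).2)
  have h2 : (∑ d ∈ univ.filter (fun d : G => d ∈ D), if d * a⁻¹ ∈ B then (1 : ℚ) else 0) =
      (((univ.filter (fun d : G => d ∈ D)).filter fun d => d * a⁻¹ ∈ B).card : ℚ) := by
    rw [Finset.card_filter]
    push_cast
    rfl
  have h5 := rxd_mul (D := D) (B := B)
  have h6 : (0 : ℚ) < ((univ.filter fun d : G => d ∈ D ∧ d ∈ B).card : ℚ) := by
    exact_mod_cast rx_db_pos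
  have h7 : (0 : ℚ) < (rxd D B : ℚ) := by exact_mod_cast rxd_pos
  by_cases h3 : ∃ d ∈ D, d * a⁻¹ ∈ B
  · obtain ⟨d1, hd1, hd1a⟩ := h3
    have h4 : ((univ.filter (fun d : G => d ∈ D)).filter fun d => d * a⁻¹ ∈ B) =
        (univ.filter fun d : G => d ∈ D ∧ d ∈ B).image (· * d1) := by
      ext d
      simp only [mem_filter, mem_univ, true_and, mem_image]
      constructor
      · rintro ⟨hd, h⟩
        refine ⟨d * d1⁻¹, ⟨D.mul_mem hd (D.inv_mem hd1), ?_⟩, by group⟩
        rw [show d * d1⁻¹ = (d * a⁻¹) * (d1 * a⁻¹)⁻¹ by group]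
        exact B.mul_mem h (B.inv_mem hd1a)
      · rintro ⟨b, ⟨hb, hb'⟩, rfl⟩
        refine ⟨D.mul_mem hb hd1, ?_⟩
        rw [mul_assoc]
        exact B.mul_mem hb' hd1a
    refine ⟨1, ?_⟩
    unfold avg
    rw [Finset.sum_congr rfl h1, h2, h4,
      Finset.card_image_of_injective _ (mul_left_injective d1), ← h5]
    push_cast
    generalize ((univ.filter fun d : G => d ∈ D ∧ d ∈ B).card : ℚ) = β at h6 ⊢
    generalize (rxd D B : ℚ) = δ at h7 ⊢
    have h8 := h6.ne'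
    have h9 := h7.ne'
    rw [← mul_div_assoc, div_self (mul_ne_zero h9 h8)]
  · push Not at h3
    refine ⟨0, ?_⟩
    unfold avg
    rw [Finset.sum_congr rfl h1, Finset.sum_eq_zero fun d hd => if_neg (h3 d (mem_filter.1 hd).2),
      zero_div, mul_zero]
    simp

theorem rx_integral (hi : B.index ≤ 12) (hD : ∀ d ∈ D, κ d = 1) {F : Multiset (G → ℚ)}
    (hF : ∀ f ∈ F, IsType c f ∧ ∀ b ∈ B, ∀ g, f (b * g) = f g) {s : ℚ}
    (hs : (F.map (avg D)).sum = s • chi κ) :
    ∃ M : ℤ, (rxd D B : ℚ) * ((F.card : ℚ) + s) = 2 * M := by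
  classical
  obtain ⟨e, h1, -⟩ := rx_multi (D := D) H hi F hF
  have hchi := avg_chi_split hD
  have h4 := congrArg (avg D) h1
  rw [avg_multiset_sum, hs, avg_sub, avg_sum, avg_smul, hchi] at h4
  have h5 : ∀ x ∈ rxT B c κ, avg D ((e x : ℚ) • (x + chi κ)) =
      (e x : ℚ) • (avg D x + chi κ) := by
    intro x _
    rw [avg_smul, avg_add, hchi]
  rw [Finset.sum_congr rfl h5] at h4
  have h6 := congrFun h4 1
  rw [Pi.sub_apply, Finset.sum_apply, Pi.smul_apply, Pi.smul_apply, chi_one' H (map_one κ)] at h6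
  have h7 : ∃ M : ℤ, (rxd D B : ℚ) * ∑ x ∈ rxT B c κ, ((e x : ℚ) • (avg D x + chi κ)) 1 = M := by
    rw [Finset.mul_sum]
    have h8 : ∀ x ∈ rxT B c κ, ∃ m : ℤ,
        (rxd D B : ℚ) * ((e x : ℚ) • (avg D x + chi κ)) 1 = m := by
      intro x hx
      obtain ⟨a, ha, rfl⟩ := (mem_rxT H).1 hx
      have hdl : avg D (t1 B c κ a) + chi κ = avg D (dl B c a) := by
        unfold t1
        rw [avg_sub, hchi, sub_add_cancel]
      obtain ⟨m, hm⟩ := avg_dl_at_one H hN hD ha
      refine ⟨e (t1 B c κ a) * m, ?_⟩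
      rw [hdl, Pi.smul_apply, smul_eq_mul, mul_left_comm, hm]
      push_cast
      rfl
    choose! m hm using h8
    refine ⟨∑ x ∈ rxT B c κ, m x, ?_⟩
    rw [Finset.sum_congr rfl hm]
    push_cast
    rfl
  obtain ⟨M, hM⟩ := h7
  refine ⟨M, ?_⟩
  rw [← hM]
  have h9 : (F.card : ℚ) + s = 2 * ∑ x ∈ rxT B c κ, ((e x : ℚ) • (avg D x + chi κ)) 1 := by
    simp only [smul_eq_mul] at h6
    linarith
  rw [h9]
  ring

theorem rx_block (hi : B.index ≤ 12) (hD : ∀ d ∈ D, κ d = 1) {F : Multiset (G → ℚ)}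
    (hF : ∀ f ∈ F, IsType c f ∧ ∀ b ∈ B, ∀ g, f (b * g) = f g) {s : ℚ}
    (hs : (F.map (avg D)).sum = s • chi κ) :
    ∃ (n : ℤ) (r : ℕ), r < rxd D B ∧ s = n + (2 * (r : ℚ) / (rxd D B : ℚ) - 1) ∧
      net (F.map (avg D)) -
        (n • sg (chi κ) + sg ((2 * (r : ℚ) / (rxd D B : ℚ) - 1) • chi κ)) ∈ R D c κ := by
  classical
  obtain ⟨M, hM⟩ := rx_integral H hN hi hD hF hs
  have hpos : 0 < rxd D B := rxd_pos
  have hδ : (0 : ℤ) < (rxd D B : ℤ) := by exact_mod_cast hpos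
  obtain ⟨q, hq⟩ : ∃ q : ℤ, q = M / (rxd D B : ℤ) := ⟨_, rfl⟩
  obtain ⟨r, hr⟩ : ∃ r : ℕ, (r : ℤ) = M % (rxd D B : ℤ) :=
    ⟨(M % (rxd D B : ℤ)).toNat, Int.toNat_of_nonneg (Int.emod_nonneg _ hδ.ne')⟩
  have hr1 : r < rxd D B := by
    have h1 := Int.emod_lt_of_pos M hδ
    rw [← hr] at h1
    exact_mod_cast h1
  have hMq : M = (rxd D B : ℤ) * q + r := by
    rw [hq, hr]
    exact (Int.mul_ediv_add_emod M _).symm
  have hs1 : s = ((2 * q + 1 - (F.card : ℤ) : ℤ) : ℚ) +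
      (2 * (r : ℚ) / (rxd D B : ℚ) - 1) := by
    have h1 : (M : ℚ) = (rxd D B : ℚ) * q + r := by
      rw [hMq]
      push_cast
      rfl
    have h2 : (rxd D B : ℚ) ≠ 0 := by exact_mod_cast hpos.ne'
    rw [h1] at hM
    have h3 : (F.card : ℚ) + s = 2 * q + 2 * (r : ℚ) / (rxd D B : ℚ) := by
      apply mul_left_cancel₀ h2
      rw [hM]
      field_simp
    push_cast
    linarith
  refine ⟨2 * q + 1 - (F.card : ℤ), r, hr1, hs1, ?_⟩
  obtain ⟨f, hf1, hf2, hf3⟩ := exists_type_avg H hN hD r hr1.le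
  obtain ⟨U, hU1, hU2, hU3, hU4⟩ := exists_chi_mult (D := D) H hD (-(2 * q + 1 - (F.card : ℤ)))
  have hfn : IsType c (-f) ∧ ∀ b ∈ B, ∀ g, (-f) (b * g) = (-f) g := by
    refine ⟨⟨fun g => ?_, fun g => ?_⟩, fun b hb g => ?_⟩
    · rw [Pi.neg_apply, Pi.neg_apply, hf1.1]
    · rw [Pi.neg_apply]
      rcases hf1.2 g with h | h
      · right
        rw [h]
      · left
        rw [h, neg_neg]
    · rw [Pi.neg_apply, Pi.neg_apply, hf2 b hb]
  have h1 := rx_net H hN hi (F + ({-f} + U)) (fun g hg => by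
    rcases Multiset.mem_add.1 hg with hg | hg
    · exact hF g hg
    · rcases Multiset.mem_add.1 hg with hg | hg
      · rw [Multiset.mem_singleton.1 hg]
        exact hfn
      · exact hU1 g hg) (by
      rw [Multiset.card_add, Multiset.card_add, Multiset.card_singleton, hU4, ← add_assoc]
      refine even_of_natAbs ⟨(F.card : ℤ) - q, ?_⟩
      push_cast
      ring) (by
      rw [Multiset.map_add, Multiset.map_add, Multiset.sum_add, Multiset.sum_add,
        Multiset.map_singleton, Multiset.sum_singleton, hs, hU2, avg_neg, hf3, ← neg_smul,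
        ← add_smul, ← add_smul, hs1]
      push_cast
      rw [show (2 * (q : ℚ) + 1 - (F.card : ℚ) + (2 * (r : ℚ) / (rxd D B : ℚ) - 1) +
        (-(2 * (r : ℚ) / (rxd D B : ℚ) - 1) + -(2 * (q : ℚ) + 1 - (F.card : ℚ)))) = 0 by ring,
        zero_smul])
  refine (congrArg (· ∈ R D c κ) ?_).mp h1
  rw [Multiset.map_add, Multiset.map_add, net_add', net_add', Multiset.map_singleton, hU3,
    avg_neg, hf3]
  have h2 : net ({-((2 * (r : ℚ) / (rxd D B : ℚ) - 1) • chi κ)} : Multiset (G → ℚ)) =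
      - sg ((2 * (r : ℚ) / (rxd D B : ℚ) - 1) • chi κ) := sg_neg _
  rw [h2, neg_smul]
  abel

/-- relations between the classes of multiples of `χ` -/
theorem rx_rel (hi : B.index ≤ 12) (hD : ∀ d ∈ D, κ d = 1) (M : Multiset ℕ)
    (hM : ∀ r ∈ M, r ≤ rxd D B) (n : ℤ)
    (hs : (M.map fun r : ℕ => 2 * (r : ℚ) / (rxd D B : ℚ) - 1).sum + n = 0)
    (hE : ∃ z : ℤ, (M.card : ℤ) + n = 2 * z) :
    (M.map fun r : ℕ => sg ((2 * (r : ℚ) / (rxd D B : ℚ) - 1) • chi κ)).sum +
      n • sg (chi κ) ∈ R D c κ := by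
  classical
  have h0 : ∀ r : ℕ, r ≤ rxd D B → ∃ f : G → ℚ, IsType c f ∧
      (∀ b ∈ B, ∀ g, f (b * g) = f g) ∧
      avg D f = (2 * (r : ℚ) / (rxd D B : ℚ) - 1) • chi κ := fun r hr =>
    exists_type_avg H hN hD r hr
  choose! f hf using h0
  obtain ⟨U, hU1, hU2, hU3, hU4⟩ := exists_chi_mult (D := D) H hD n
  have e1 : (M.map f).map (avg D) =
      M.map fun r : ℕ => (2 * (r : ℚ) / (rxd D B : ℚ) - 1) • chi κ := by
    rw [Multiset.map_map]
    exact Multiset.map_congr rfl fun r hr => (hf r (hM r hr)).2.2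
  have e2 : (M.map fun r : ℕ => (2 * (r : ℚ) / (rxd D B : ℚ) - 1) • chi κ).sum =
      (M.map fun r : ℕ => 2 * (r : ℚ) / (rxd D B : ℚ) - 1).sum • chi κ := by
    have h1 := (LinearMap.toSpanSingleton ℚ (G → ℚ) (chi κ)).toAddMonoidHom.map_multiset_sum
      (M.map fun r : ℕ => 2 * (r : ℚ) / (rxd D B : ℚ) - 1)
    rw [Multiset.map_map] at h1
    exact h1.symm
  have h1 := rx_net H hN hi (M.map f + U) (fun g hg => by
    rcases Multiset.mem_add.1 hg with hg | hg
    · obtain ⟨r, hr, rfl⟩ := Multiset.mem_map.1 hg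
      exact ⟨(hf r (hM r hr)).1, (hf r (hM r hr)).2.1⟩
    · exact hU1 g hg) (by
      rw [Multiset.card_add, Multiset.card_map, hU4]
      exact even_of_natAbs hE) (by
      rw [Multiset.map_add, Multiset.sum_add, e1, e2, hU2, ← add_smul, hs, zero_smul])
  rw [Multiset.map_add, net_add', e1, hU3, net_eq_sum, Multiset.map_map] at h1
  exact h1

end

end Pool.Agent.AVG
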