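import Pool.Agent.AVG.RxF

/-!
# AVG: the classes of the multiples of `χ`

`Th D c κ x s` says that `x` is, modulo the group `R`, the class which belongs to `s χ`, a combination of the classes
`z_m` of `χ/m`, `m = 1, 2, 3, 5`, with `m z_m = z_1` modulo `R` for those which occur. Then `x` belongs to `R` if `s = 0`.
-/

set_option linter.unusedSectionVars false
set_option linter.unusedVariables false

namespace Pool.Agent.AVG

open Finset Pool.Agent.AVF

variable {G : Type} [Group G] [Fintype G] {D B : Subgroup G} {c : G} {κ : G →* ℤˣ}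

/-- The class of `r χ`. -/
noncomputable def zs (κ : G →* ℤˣ) (r : ℚ) : (G → ℚ) → ℤ := sg (r • chi κ)

/-- `x` is the class which belongs to `s χ`. -/
def Th (D : Subgroup G) (c : G) (κ : G →* ℤˣ) (x : (G → ℚ) → ℤ) (s : ℚ) : Prop :=
  ∃ a b e n : ℤ, s = a / 2 + b / 3 + e / 5 + n ∧
    x - (a • zs κ (1 / 2) + b • zs κ (1 / 3) + e • zs κ (1 / 5) + n • zs κ 1) ∈ R D c κ ∧
    (a = 0 ∨ (2 : ℤ) • zs κ (1 / 2) - zs κ 1 ∈ R D c κ) ∧
    (b = 0 ∨ (3 : ℤ) • zs κ (1 / 3) - zs κ 1 ∈ R D c κ) ∧
    (e = 0 ∨ (5 : ℤ) • zs κ (1 / 5) - zs κ 1 ∈ R D c κ)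

theorem zs_neg (r : ℚ) : zs κ (-r) = - zs κ r := by
  unfold zs
  rw [neg_smul, sg_neg]

theorem zs_zero : zs κ 0 = 0 := by
  unfold zs
  rw [zero_smul, sg_zero]

theorem th_add {x y : (G → ℚ) → ℤ} {s t : ℚ} (hx : Th D c κ x s) (hy : Th D c κ y t) :
    Th D c κ (x + y) (s + t) := by
  obtain ⟨a, b, e, n, h1, h2, h3, h4, h5⟩ := hx
  obtain ⟨a', b', e', n', h1', h2', h3', h4', h5'⟩ := hy
  refine ⟨a + a', b + b', e + e', n + n', ?_, ?_, ?_, ?_, ?_⟩
  · rw [h1, h1']
    push_cast
    ring
  · refine (congrArg (· ∈ R D c κ) ?_).mp (add_mem h2 h2')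
    simp only [add_smul]
    abel
  · rcases h3 with h | h
    · rcases h3' with h' | h'
      · left
        rw [h, h', add_zero]
      · exact Or.inr h'
    · exact Or.inr h
  · rcases h4 with h | h
    · rcases h4' with h' | h'
      · left
        rw [h, h', add_zero]
      · exact Or.inr h'
    · exact Or.inr h
  · rcases h5 with h | h
    · rcases h5' with h' | h'
      · left
        rw [h, h', add_zero]
      · exact Or.inr h'
    · exact Or.inr h

theorem th_neg {x : (G → ℚ) → ℤ} {s : ℚ} (hx : Th D c κ x s) : Th D c κ (-x) (-s) := by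
  obtain ⟨a, b, e, n, h1, h2, h3, h4, h5⟩ := hx
  refine ⟨-a, -b, -e, -n, ?_, ?_, h3.imp_left fun h => by rw [h, neg_zero],
    h4.imp_left fun h => by rw [h, neg_zero], h5.imp_left fun h => by rw [h, neg_zero]⟩
  · rw [h1]
    push_cast
    ring
  · refine (congrArg (· ∈ R D c κ) ?_).mp (neg_mem h2)
    simp only [neg_smul]
    abel

theorem th_mod {x y : (G → ℚ) → ℤ} {s : ℚ} (hy : Th D c κ y s) (h : x - y ∈ R D c κ) :
    Th D c κ x s := by
  obtain ⟨a, b, e, n, h1, h2, h3⟩ := hy
  refine ⟨a, b, e, n, h1, ?_, h3⟩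
  refine (congrArg (· ∈ R D c κ) ?_).mp (add_mem h h2)
  abel

theorem th_of_mem {x : (G → ℚ) → ℤ} (h : x ∈ R D c κ) : Th D c κ x 0 := by
  refine ⟨0, 0, 0, 0, by simp, ?_, Or.inl rfl, Or.inl rfl, Or.inl rfl⟩
  simpa using h

theorem th_int (n : ℤ) : Th D c κ (n • zs κ 1) n := by
  refine ⟨0, 0, 0, n, by simp, ?_, Or.inl rfl, Or.inl rfl, Or.inl rfl⟩
  simpa using zero_mem (R D c κ)

theorem th_half (h : (2 : ℤ) • zs κ (1 / 2) - zs κ 1 ∈ R D c κ) :
    Th D c κ (zs κ (1 / 2)) (1 / 2) := by
  refine ⟨1, 0, 0, 0, by simp, ?_, Or.inr h, Or.inl rfl, Or.inl rfl⟩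
  simpa using zero_mem (R D c κ)

theorem th_third (h : (3 : ℤ) • zs κ (1 / 3) - zs κ 1 ∈ R D c κ) :
    Th D c κ (zs κ (1 / 3)) (1 / 3) := by
  refine ⟨0, 1, 0, 0, by simp, ?_, Or.inl rfl, Or.inr h, Or.inl rfl⟩
  simpa using zero_mem (R D c κ)

theorem th_fifth (h : (5 : ℤ) • zs κ (1 / 5) - zs κ 1 ∈ R D c κ) :
    Th D c κ (zs κ (1 / 5)) (1 / 5) := by
  refine ⟨0, 0, 1, 0, by simp, ?_, Or.inl rfl, Or.inl rfl, Or.inr h⟩
  simpa using zero_mem (R D c κ)

theorem th_zsmul {x : (G → ℚ) → ℤ} {s : ℚ} (hx : Th D c κ x s) (n : ℕ) :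
    Th D c κ (n • x) (n * s) := by
  induction n with
  | zero => simpa using th_of_mem (zero_mem (R D c κ))
  | succ n ih =>
    have h := th_add ih hx
    rw [add_smul, one_smul]
    push_cast
    rw [add_mul, one_mul]
    exact h

theorem th_sum {ι : Type} (s : Finset ι) (x : ι → (G → ℚ) → ℤ) (t : ι → ℚ)
    (h : ∀ i ∈ s, Th D c κ (x i) (t i)) : Th D c κ (∑ i ∈ s, x i) (∑ i ∈ s, t i) := by
  classical
  induction s using Finset.induction_on with
  | empty => simpa using th_of_mem (zero_mem (R D c κ))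
  | insert a s ha ih =>
    rw [Finset.sum_insert ha, Finset.sum_insert ha]
    exact th_add (h a (Finset.mem_insert_self a s)) (ih fun i hi => h i (Finset.mem_insert_of_mem hi))

theorem th_end {x : (G → ℚ) → ℤ} (hx : Th D c κ x 0) : x ∈ R D c κ := by
  obtain ⟨a, b, e, n, h1, h2, h3, h4, h5⟩ := hx
  have h6 : 15 * a + 10 * b + 6 * e + 30 * n = 0 := by
    have h7 : (15 * a + 10 * b + 6 * e + 30 * n : ℚ) = 0 := by linarith
    exact_mod_cast h7
  obtain ⟨a', ha⟩ : ∃ a', a = 2 * a' := ⟨a / 2, by omega⟩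
  obtain ⟨b', hb⟩ : ∃ b', b = 3 * b' := ⟨b / 3, by omega⟩
  obtain ⟨e', he⟩ : ∃ e', e = 5 * e' := ⟨e / 5, by omega⟩
  have h8 : a' + b' + e' + n = 0 := by omega
  have ha' : a • zs κ (1 / 2) - a' • zs κ 1 ∈ R D c κ := by
    rcases h3 with h | h
    · have h9 : a' = 0 := by omega
      rw [h, h9, zero_smul, zero_smul, sub_zero]
      exact zero_mem _
    · refine (congrArg (· ∈ R D c κ) ?_).mp (zsmul_mem h a')
      rw [smul_sub, smul_smul, ha, mul_comm]
  have hb' : b • zs κ (1 / 3) - b' • zs κ 1 ∈ R D c κ := by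
    rcases h4 with h | h
    · have h9 : b' = 0 := by omega
      rw [h, h9, zero_smul, zero_smul, sub_zero]
      exact zero_mem _
    · refine (congrArg (· ∈ R D c κ) ?_).mp (zsmul_mem h b')
      rw [smul_sub, smul_smul, hb, mul_comm]
  have he' : e • zs κ (1 / 5) - e' • zs κ 1 ∈ R D c κ := by
    rcases h5 with h | h
    · have h9 : e' = 0 := by omega
      rw [h, h9, zero_smul, zero_smul, sub_zero]
      exact zero_mem _
    · refine (congrArg (· ∈ R D c κ) ?_).mp (zsmul_mem h e')
      rw [smul_sub, smul_smul, he, mul_comm]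
  have h9 := add_mem (add_mem (add_mem h2 ha') hb') he'
  refine (congrArg (· ∈ R D c κ) ?_).mp h9
  have h10 : n = -(a' + b' + e') := by omega
  rw [h10, neg_smul, add_smul, add_smul]
  abel

theorem rxd_le (H : RxH B c κ) (hi : B.index ≤ 12) (hD : ∀ d ∈ D, κ d = 1) : rxd D B ≤ 6 := by
  classical
  refine le_trans ?_ (rxT_card H hi)
  have h1 := rxd_mul (D := D) (B := B)
  have h2 : (univ.filter fun d : G => d ∈ D).card ≤
      (rxT B c κ).card * (univ.filter fun d : G => d ∈ D ∧ d ∈ B).card := by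
    have h3 : (univ.filter fun d : G => d ∈ D).card =
        ∑ x ∈ rxT B c κ, ((univ.filter fun d : G => d ∈ D).filter fun d => t1 B c κ d = x).card :=
      Finset.card_eq_sum_card_fiberwise fun d hd => (mem_rxT H).2 ⟨d, hD d (mem_filter.1 hd).2, rfl⟩
    rw [h3, ← smul_eq_mul]
    refine Finset.sum_le_card_nsmul _ _ _ fun x hx => ?_
    by_cases h4 : ∃ d1 ∈ D, t1 B c κ d1 = x
    · obtain ⟨d1, hd1, rfl⟩ := h4
      refine (Finset.card_le_card ?_).trans (Finset.card_image_le
        (s := univ.filter fun d : G => d ∈ D ∧ d ∈ B) (f := (· * d1)))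
      intro d hd
      obtain ⟨hd', hx'⟩ := mem_filter.1 hd
      have hd2 := (mem_filter.1 hd').2
      refine mem_image.2 ⟨d * d1⁻¹, mem_filter.2 ⟨mem_univ _, D.mul_mem hd2 (D.inv_mem hd1), ?_⟩,
        by group⟩
      exact t1_inj H (hD d1 hd1) (hD d hd2) hx'
    · rw [Finset.filter_eq_empty_iff.2, Finset.card_empty]
      · exact Nat.zero_le _
      · intro d hd h
        exact h4 ⟨d, (mem_filter.1 hd).2, h⟩
  rw [← h1] at h2
  exact Nat.le_of_mul_le_mul_right h2 rx_db_pos

/-- the classes of a block -/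
theorem th_block (H : RxH B c κ) (hN : ∀ d ∈ D, ∀ b ∈ B, d * b * d⁻¹ ∈ B) (hi : B.index ≤ 12)
    (hD : ∀ d ∈ D, κ d = 1) {F : Multiset (G → ℚ)}
    (hF : ∀ f ∈ F, IsType c f ∧ ∀ b ∈ B, ∀ g, f (b * g) = f g) {s : ℚ}
    (hs : (F.map (avg D)).sum = s • chi κ) : Th D c κ (net (F.map (avg D))) s := by
  obtain ⟨n, r, hr, h1, h2⟩ := rx_block H hN hi hD hF hs
  have hz : sg (chi κ) = zs κ 1 := by
    unfold zs
    rw [one_smul]
  rw [hz] at h2
  have key : Th D c κ (zs κ (2 * (r : ℚ) / (rxd D B : ℚ) - 1))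
      (2 * (r : ℚ) / (rxd D B : ℚ) - 1) := by
    have hrel := rx_rel H hN hi hD
    rw [hz] at hrel
    change ∀ M : Multiset ℕ, (∀ r ∈ M, r ≤ rxd D B) → ∀ n : ℤ,
      (M.map fun r : ℕ => 2 * (r : ℚ) / (rxd D B : ℚ) - 1).sum + n = 0 →
      (∃ z : ℤ, (M.card : ℤ) + n = 2 * z) →
      (M.map fun r : ℕ => zs κ (2 * (r : ℚ) / (rxd D B : ℚ) - 1)).sum +
        n • zs κ 1 ∈ R D c κ at hrel
    have h6 := rxd_le H hi hD
    have h0 := rxd_pos (D := D) (B := B)
    generalize rxd D B = δ at hrel h6 h0 hr ⊢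
    have hm1 : Th D c κ (zs κ (-1)) (-1) := by
      have h := th_int (D := D) (c := c) (κ := κ) (-1)
      rw [neg_smul, one_smul, ← zs_neg] at h
      exact_mod_cast h
    have hz0 : Th D c κ (zs κ 0) 0 := by
      rw [zs_zero]
      exact th_of_mem (zero_mem _)
    interval_cases δ
    · -- 1
      interval_cases r
      norm_num
      exact hm1
    · -- 2
      interval_cases r
      · norm_num
        exact hm1
      · norm_num
        exact hz0
    · -- 3
      have h3 : (3 : ℤ) • zs κ (1 / 3) - zs κ 1 ∈ R D c κ := by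
        have h := hrel {2, 2, 2} (by intro r hr; fin_cases hr <;> norm_num) (-1)
          (by norm_num) ⟨1, by norm_num⟩
        simp only [Multiset.insert_eq_cons, Multiset.map_cons, Multiset.map_singleton,
          Multiset.sum_cons, Multiset.sum_singleton] at h
        rw [show (2 * ((2 : ℕ) : ℚ) / ((3 : ℕ) : ℚ) - 1) = 1 / 3 by norm_num] at h
        refine (congrArg (· ∈ R D c κ) ?_).mp h
        rw [show (3 : ℤ) = 1 + 1 + 1 by norm_num, add_smul, add_smul, one_smul, neg_smul, one_smul]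
        abel
      have h4 := th_third h3
      have h5 := th_neg h4
      rw [← zs_neg] at h5
      interval_cases r
      · norm_num
        exact hm1
      · norm_num
        norm_num at h5
        exact h5
      · norm_num
        norm_num at h4
        exact h4
    · -- 4
      have h3 : (2 : ℤ) • zs κ (1 / 2) - zs κ 1 ∈ R D c κ := by
        have h := hrel {3, 3, 2} (by intro r hr; fin_cases hr <;> norm_num) (-1)
          (by norm_num) ⟨1, by norm_num⟩
        simp only [Multiset.insert_eq_cons, Multiset.map_cons, Multiset.map_singleton,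
          Multiset.sum_cons, Multiset.sum_singleton] at h
        rw [show (2 * ((3 : ℕ) : ℚ) / ((4 : ℕ) : ℚ) - 1) = 1 / 2 by norm_num,
          show (2 * ((2 : ℕ) : ℚ) / ((4 : ℕ) : ℚ) - 1) = 0 by norm_num, zs_zero] at h
        refine (congrArg (· ∈ R D c κ) ?_).mp h
        rw [show (2 : ℤ) = 1 + 1 by norm_num, add_smul, one_smul, neg_smul, one_smul]
        abel
      have h4 := th_half h3
      have h5 := th_neg h4
      rw [← zs_neg] at h5
      interval_cases r
      · norm_num
        exact hm1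
      · norm_num
        norm_num at h5
        exact h5
      · norm_num
        exact hz0
      · norm_num
        norm_num at h4
        exact h4
    · -- 5
      have h3 : (5 : ℤ) • zs κ (1 / 5) - zs κ 1 ∈ R D c κ := by
        have h := hrel {3, 3, 3, 3, 3} (by intro r hr; fin_cases hr <;> norm_num) (-1)
          (by norm_num) ⟨2, by norm_num⟩
        simp only [Multiset.insert_eq_cons, Multiset.map_cons, Multiset.map_singleton,
          Multiset.sum_cons, Multiset.sum_singleton] at h
        rw [show (2 * ((3 : ℕ) : ℚ) / ((5 : ℕ) : ℚ) - 1) = 1 / 5 by norm_num] at h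
        refine (congrArg (· ∈ R D c κ) ?_).mp h
        rw [show (5 : ℤ) = 1 + 1 + 1 + 1 + 1 by norm_num, add_smul, add_smul, add_smul, add_smul,
          one_smul, neg_smul, one_smul]
        abel
      have h4 := th_fifth h3
      have h5 := th_neg h4
      rw [← zs_neg] at h5
      have h6 : Th D c κ (zs κ (3 / 5)) (3 / 5) := by
        have h := hrel {4, 2, 2, 2} (by intro r hr; fin_cases hr <;> norm_num) 0
          (by norm_num) ⟨2, by norm_num⟩
        simp only [Multiset.insert_eq_cons, Multiset.map_cons, Multiset.map_singleton,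
          Multiset.sum_cons, Multiset.sum_singleton] at h
        rw [show (2 * ((4 : ℕ) : ℚ) / ((5 : ℕ) : ℚ) - 1) = 3 / 5 by norm_num,
          show (2 * ((2 : ℕ) : ℚ) / ((5 : ℕ) : ℚ) - 1) = -(1 / 5) by norm_num, zs_neg,
          zero_smul, add_zero] at h
        have h7 := th_add (th_add h4 h4) h4
        refine th_mod (y := zs κ (1 / 5) + zs κ (1 / 5) + zs κ (1 / 5)) ?_ ?_
        · rw [show (3 / 5 : ℚ) = 1 / 5 + 1 / 5 + 1 / 5 by norm_num]
          exact h7
        · refine (congrArg (· ∈ R D c κ) ?_).mp h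
          abel
      have h7 := th_neg h6
      rw [← zs_neg] at h7
      interval_cases r
      · norm_num
        exact hm1
      · norm_num
        norm_num at h7
        exact h7
      · norm_num
        norm_num at h5
        exact h5
      · norm_num
        norm_num at h4
        exact h4
      · norm_num
        exact h6
    · -- 6
      have h3 : (3 : ℤ) • zs κ (1 / 3) - zs κ 1 ∈ R D c κ := by
        have h := hrel {4, 4, 4} (by intro r hr; fin_cases hr <;> norm_num) (-1)
          (by norm_num) ⟨1, by norm_num⟩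
        simp only [Multiset.insert_eq_cons, Multiset.map_cons, Multiset.map_singleton,
          Multiset.sum_cons, Multiset.sum_singleton] at h
        rw [show (2 * ((4 : ℕ) : ℚ) / ((6 : ℕ) : ℚ) - 1) = 1 / 3 by norm_num] at h
        refine (congrArg (· ∈ R D c κ) ?_).mp h
        rw [show (3 : ℤ) = 1 + 1 + 1 by norm_num, add_smul, add_smul, one_smul, neg_smul, one_smul]
        abel
      have h4 := th_third h3
      have h5 := th_neg h4
      rw [← zs_neg] at h5
      have h6 : Th D c κ (zs κ (2 / 3)) (2 / 3) := by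
        have h := hrel {5, 2, 2, 3} (by intro r hr; fin_cases hr <;> norm_num) 0
          (by norm_num) ⟨2, by norm_num⟩
        simp only [Multiset.insert_eq_cons, Multiset.map_cons, Multiset.map_singleton,
          Multiset.sum_cons, Multiset.sum_singleton] at h
        rw [show (2 * ((5 : ℕ) : ℚ) / ((6 : ℕ) : ℚ) - 1) = 2 / 3 by norm_num,
          show (2 * ((2 : ℕ) : ℚ) / ((6 : ℕ) : ℚ) - 1) = -(1 / 3) by norm_num,
          show (2 * ((3 : ℕ) : ℚ) / ((6 : ℕ) : ℚ) - 1) = 0 by norm_num, zs_neg, zs_zero,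
          zero_smul, add_zero] at h
        have h7 := th_add h4 h4
        refine th_mod (y := zs κ (1 / 3) + zs κ (1 / 3)) ?_ ?_
        · rw [show (2 / 3 : ℚ) = 1 / 3 + 1 / 3 by norm_num]
          exact h7
        · refine (congrArg (· ∈ R D c κ) ?_).mp h
          abel
      have h7 := th_neg h6
      rw [← zs_neg] at h7
      interval_cases r
      · norm_num
        exact hm1
      · norm_num
        norm_num at h7
        exact h7
      · norm_num
        norm_num at h5
        exact h5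
      · norm_num
        exact hz0
      · norm_num
        norm_num at h4
        exact h4
      · norm_num
        exact h6
  refine th_mod (y := n • zs κ 1 + zs κ (2 * (r : ℚ) / (rxd D B : ℚ) - 1)) ?_ h2
  rw [h1]
  exact th_add (th_int n) key

end Pool.Agent.AVG
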