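import Pool.Agent.AVG.RxG
import Pool.Agent.AVG.Clus

/-!
# AVG: the theorem for products which share the elliptic curve with complex multiplication by `ℚ(√-3)`
-/

set_option linter.unusedSectionVars false
set_option linter.unusedVariables false

namespace Pool.Agent.AVG

open Finset Pool.Agent.AVF

variable {G : Type} [Group G] [Fintype G] {D : Subgroup G} {c : G} {κ : G →* ℤˣ}

/-- the values of a weight of dimension at most three are multiples of `1/6` -/
theorem val_six (hc : ∀ g, c * g = g * c) {w : G → ℚ} (hw : IsWeight D c w)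
    (h6 : dim2 D w ≤ 6) : ∃ z : ℤ, 6 * w 1 = z := by
  classical
  by_cases hm : -w ∈ orb D w
  · obtain ⟨d, hd, h⟩ := mem_orb.1 hm
    have h1 := hw.tr_d hd
    rw [h, Pi.neg_apply] at h1
    refine ⟨0, ?_⟩
    have h2 : w 1 = 0 := by linarith
    rw [h2]
    simp
  · have hdisj : Disjoint (orb D w) (orb D (-w)) := by
      rw [Finset.disjoint_left]
      intro x hx hx'
      apply hm
      have h1 := orb_symm (mem_orb_neg.1 hx')
      have h2 : w ∈ orb D (-x) := h1
      have h3 : -w ∈ orb D x := by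
        rw [← neg_neg w] at h2
        exact (mem_orb_neg.1 h2 : - - - w ∈ orb D x) |> fun h => by simpa using h
      exact orb_trans hx h3
    have hsub : orb D w ∪ orb D (-w) ⊆ orb ⊤ w := by
      intro x hx
      rcases mem_union.1 hx with h | h
      · obtain ⟨d, _, rfl⟩ := mem_orb.1 h
        exact mem_orb_top.2 ⟨d, rfl⟩
      · obtain ⟨d, _, rfl⟩ := mem_orb.1 (mem_orb_neg.1 h : -x ∈ orb D w) |> fun ⟨d, hd, h⟩ =>
          (⟨d, hd, by rw [tr_neg, h, neg_neg]⟩ : ∃ d ∈ D, tr d (-w) = x)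
        rw [tr_neg]
        exact neg_mem_orb hw hc (mem_orb_top.2 ⟨d, rfl⟩)
    have hcard := Finset.card_le_card hsub
    rw [Finset.card_union_of_disjoint hdisj, card_orb_neg] at hcard
    have hi := idx_pos D w
    have hk := card_orb_pos D w
    have h3 : idx D w * (orb D w).card ≤ 3 := by
      have h4 : idx D w * (2 * (orb D w).card) ≤ 6 := by
        refine le_trans (Nat.mul_le_mul_left _ ?_) h6
        omega
      have h5 : idx D w * (2 * (orb D w).card) = 2 * (idx D w * (orb D w).card) := by ring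
      omega
    have hden : ((w 1 + 1 / 2) * ((orb D w).card : ℚ)).den ∣ idx D w := by
      have h4 := Finset.dvd_lcm (f := fun g : G =>
        ((w g + 1 / 2) * ((orb D (tr g w)).card : ℚ)).den) (Finset.mem_univ (1 : G))
      rw [tr_one] at h4
      exact h4
    obtain ⟨t, ht⟩ := hden
    obtain ⟨x, hx⟩ : ∃ x : ℚ, x = (w 1 + 1 / 2) * ((orb D w).card : ℚ) := ⟨_, rfl⟩
    rw [← hx] at ht
    have h4 : (w 1 + 1 / 2) * ((idx D w * (orb D w).card : ℕ) : ℚ) = ((x.num * t : ℤ) : ℚ) := by
      have h5 : x * (x.den : ℚ) = x.num := Rat.mul_den_eq_num x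
      rw [ht]
      push_cast
      calc (w 1 + 1 / 2) * ((x.den : ℚ) * t * ((orb D w).card : ℚ))
          = ((w 1 + 1 / 2) * ((orb D w).card : ℚ)) * x.den * t := by ring
        _ = x * x.den * t := by rw [hx]
        _ = x.num * t := by rw [h5]
    have hN : 0 < idx D w * (orb D w).card := Nat.mul_pos hi hk
    generalize idx D w * (orb D w).card = N at h3 h4 hN
    generalize x.num * t = m at h4
    interval_cases N
    · refine ⟨6 * m - 3, ?_⟩
      push_cast at h4 ⊢
      linarith
    · refine ⟨3 * m - 3, ?_⟩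
      push_cast at h4 ⊢
      linarith
    · refine ⟨2 * m - 3, ?_⟩
      push_cast at h4 ⊢
      linarith

/-- the multiples of `χ` as weights -/
theorem wt_mult (hκ : κ c = -1) (hD : ∀ d ∈ D, κ d = 1) {r : ℚ} (h0 : 0 ≤ r) (h1 : r ≤ 1) :
    IsWeight D c (r • chi κ) := by
  refine ⟨fun d hd g => ?_, fun g => ?_, fun g => ?_⟩
  · rw [Pi.smul_apply, Pi.smul_apply, chi_apply, chi_apply, map_mul, hD d hd, one_mul]
  · rw [Pi.smul_apply, Pi.smul_apply, chi_apply, chi_apply, map_mul, hκ, smul_eq_mul, smul_eq_mul]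
    push_cast
    ring
  · rw [Pi.smul_apply, smul_eq_mul, abs_mul, abs_of_nonneg h0]
    have h2 : |chi κ g| = 1 / 2 := by
      rw [chi_apply]
      rcases Int.units_eq_one_or (κ g) with h | h
      · rw [h]
        norm_num
      · rw [h]
        norm_num
    rw [h2]
    linarith

theorem orb_mult (hκ : κ c = -1) (r : ℚ) : orb ⊤ (r • chi κ) = {r • chi κ, -(r • chi κ)} := by
  classical
  ext x
  rw [mem_orb_top, Finset.mem_insert, Finset.mem_singleton]
  constructor
  · rintro ⟨h, rfl⟩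
    rw [tr_smul, tr_chi]
    rcases Int.units_eq_one_or (κ h) with e | e
    · left
      rw [e]
      simp
    · right
      rw [e]
      simp
  · rintro (rfl | rfl)
    · exact ⟨1, tr_one _⟩
    · refine ⟨c, ?_⟩
      rw [tr_smul, tr_chi, hκ]
      simp

theorem card_orb_mult (hκ : κ c = -1) {r : ℚ} (hr : r ≠ 0) : (orb ⊤ (r • chi κ)).card = 2 := by
  rw [orb_mult hκ, Finset.card_pair]
  intro h
  have h1 := congrFun h 1
  rw [Pi.neg_apply, Pi.smul_apply, chi_apply, map_one] at h1
  apply hr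
  simp at h1
  linarith

theorem small_mult (hc : ∀ g, c * g = g * c) (hκ : κ c = -1) (hD : ∀ d ∈ D, κ d = 1) {r : ℚ}
    (hr : r = 1 ∨ r = 1 / 3) {w : G → ℚ} (hw : w ∈ orb ⊤ (r • chi κ)) :
    dim2 D w ≤ 6 ∧ (orb ⊤ w).card = 2 ∧ IsWeight D c w := by
  have h0 : r ≠ 0 := by rcases hr with rfl | rfl <;> norm_num
  have hwt : IsWeight D c (r • chi κ) :=
    wt_mult hκ hD (by rcases hr with rfl | rfl <;> norm_num) (by rcases hr with rfl | rfl <;> norm_num)
  have hcard := card_orb_mult hκ h0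
  have hne : r • chi κ ≠ 0 := by
    intro h
    have h1 := congrFun h 1
    rw [Pi.smul_apply, chi_apply, map_one] at h1
    apply h0
    simp at h1
    exact h1
  refine ⟨?_, by rw [orb_eq hw]; exact hcard, (orb_isSys hwt).wt w hw⟩
  unfold dim2
  rw [idx_orb hw, orb_eq hw, hcard, idx_of_two hc hwt hne hcard, Pi.smul_apply, chi_apply,
    map_one]
  rcases hr with rfl | rfl
  · norm_num
  · norm_num

/-- a set of kind (i) together with some multiples of `χ` -/
theorem net_small (hc : ∀ g, c * g = g * c) (hκ : κ c = -1) (hD : ∀ d ∈ D, κ d = 1)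
    {X : Finset (G → ℚ)} (hX : IsSys D c X) (h6 : ∀ w ∈ X, dim2 D w ≤ 6)
    (hsep : ∀ b ∈ X, ∀ b' ∈ X, 4 < (orb ⊤ b).card → 4 < (orb ⊤ b').card → b' ∉ orb ⊤ b →
      core b ≠ core b') {S : Multiset (G → ℚ)}
    (hS : ∀ w ∈ S, w ∈ X ∨ ∃ r : ℚ, (r = 1 ∨ r = 1 / 3) ∧ w ∈ orb ⊤ (r • chi κ))
    (hs : S.sum = 0) : net S ∈ R D c κ := by
  classical
  have hX' : IsSys D c (X ∪ (orb ⊤ ((1 : ℚ) • chi κ) ∪ orb ⊤ ((1 / 3 : ℚ) • chi κ))) := by
    refine ⟨fun w hw => ?_, fun g w hw => ?_⟩
    · rcases mem_union.1 hw with h | h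
      · exact hX.wt w h
      · rcases mem_union.1 h with h | h
        · exact (small_mult hc hκ hD (Or.inl rfl) h).2.2
        · exact (small_mult hc hκ hD (Or.inr rfl) h).2.2
    · rcases mem_union.1 hw with h | h
      · exact mem_union.2 (Or.inl (hX.st g w h))
      · refine mem_union.2 (Or.inr ?_)
        rcases mem_union.1 h with h | h
        · exact mem_union.2 (Or.inl (tr_mem_orb (Subgroup.mem_top g) h))
        · exact mem_union.2 (Or.inr (tr_mem_orb (Subgroup.mem_top g) h))
  have hcd : ∀ w ∈ (orb ⊤ ((1 : ℚ) • chi κ) ∪ orb ⊤ ((1 / 3 : ℚ) • chi κ)),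
      dim2 D w ≤ 6 ∧ (orb ⊤ w).card = 2 := by
    intro w hw
    rcases mem_union.1 hw with h | h
    · exact ⟨(small_mult hc hκ hD (Or.inl rfl) h).1, (small_mult hc hκ hD (Or.inl rfl) h).2.1⟩
    · exact ⟨(small_mult hc hκ hD (Or.inr rfl) h).1, (small_mult hc hκ hD (Or.inr rfl) h).2.1⟩
  refine net_factors hc hκ hX' (fun w hw => ?_) (fun b hb b' hb' h4 h4' hne => ?_)
    (fun w hw => ?_) hs
  · rcases mem_union.1 hw with h | h
    · exact Or.inl (h6 w h)
    · exact Or.inl (hcd w h).1
  · rcases mem_union.1 hb with h | h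
    · rcases mem_union.1 hb' with h' | h'
      · exact hsep b h b' h' h4 h4' hne
      · rw [(hcd b' h').2] at h4'
        omega
    · rw [(hcd b h).2] at h4
      omega
  · rcases hS w hw with h | ⟨r, rfl | rfl, h⟩
    · exact mem_union.2 (Or.inl h)
    · exact mem_union.2 (Or.inr (mem_union.2 (Or.inl h)))
    · exact mem_union.2 (Or.inr (mem_union.2 (Or.inr h)))

theorem third_mem (hc : ∀ g, c * g = g * c) (hκ : κ c = -1) (hD : ∀ d ∈ D, κ d = 1) :
    (3 : ℤ) • zs κ (1 / 3) - zs κ 1 ∈ R D c κ := by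
  classical
  have h1 := net_small (X := ∅) hc hκ hD ⟨by simp, by simp⟩ (by simp) (by simp)
    (S := {(1 / 3 : ℚ) • chi κ, (1 / 3 : ℚ) • chi κ, (1 / 3 : ℚ) • chi κ, -((1 : ℚ) • chi κ)})
    (fun w hw => by
      right
      rw [Multiset.insert_eq_cons, Multiset.insert_eq_cons, Multiset.insert_eq_cons,
        Multiset.mem_cons, Multiset.mem_cons, Multiset.mem_cons, Multiset.mem_singleton] at hw
      rcases hw with rfl | rfl | rfl | rfl
      · exact ⟨1 / 3, Or.inr rfl, self_mem_orb _ _⟩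
      · exact ⟨1 / 3, Or.inr rfl, self_mem_orb _ _⟩
      · exact ⟨1 / 3, Or.inr rfl, self_mem_orb _ _⟩
      · refine ⟨1, Or.inl rfl, ?_⟩
        rw [orb_mult hκ]
        simp)
    (by
      rw [Multiset.insert_eq_cons, Multiset.insert_eq_cons, Multiset.insert_eq_cons,
        Multiset.sum_cons, Multiset.sum_cons, Multiset.sum_cons, Multiset.sum_singleton,
        ← neg_smul, ← add_smul, ← add_smul, ← add_smul]
      norm_num)
  refine (congrArg (· ∈ R D c κ) ?_).mp h1
  rw [net_eq_sum, Multiset.insert_eq_cons, Multiset.insert_eq_cons, Multiset.insert_eq_cons,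
    Multiset.map_cons, Multiset.map_cons, Multiset.map_cons, Multiset.map_singleton,
    Multiset.sum_cons, Multiset.sum_cons, Multiset.sum_cons, Multiset.sum_singleton, sg_neg]
  unfold zs
  rw [show (3 : ℤ) = 1 + 1 + 1 by norm_num, add_smul, add_smul, one_smul]
  abel

/-- the classes of a part of kind (i) -/
theorem th_small (hc : ∀ g, c * g = g * c) (hκ : κ c = -1) (hD : ∀ d ∈ D, κ d = 1)
    {X : Finset (G → ℚ)} (hX : IsSys D c X) (h6 : ∀ w ∈ X, dim2 D w ≤ 6)
    (hsep : ∀ b ∈ X, ∀ b' ∈ X, 4 < (orb ⊤ b).card → 4 < (orb ⊤ b').card → b' ∉ orb ⊤ b →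
      core b ≠ core b') {S : Multiset (G → ℚ)} (hS : ∀ w ∈ S, w ∈ X) {s : ℚ}
    (hs : S.sum = s • chi κ) : Th D c κ (net S) s := by
  classical
  -- `3 s` is an integer
  obtain ⟨t, ht⟩ : ∃ t : ℤ, 3 * s = t := by
    have h1 : ∀ T : Multiset (G → ℚ), (∀ w ∈ T, w ∈ X) → ∃ z : ℤ, 6 * T.sum 1 = z := by
      intro T
      induction T using Multiset.induction with
      | empty => exact fun _ => ⟨0, by simp⟩
      | cons w T ih =>
        intro hT
        obtain ⟨z, hz⟩ := ih fun v hv => hT v (Multiset.mem_cons_of_mem hv)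
        have hw := hT w (Multiset.mem_cons_self w T)
        obtain ⟨y, hy⟩ := val_six hc (hX.wt w hw) (h6 w hw)
        refine ⟨y + z, ?_⟩
        rw [Multiset.sum_cons, Pi.add_apply, mul_add, hy, hz]
        push_cast
        rfl
    obtain ⟨z, hz⟩ := h1 S hS
    refine ⟨z, ?_⟩
    rw [← hz, hs, Pi.smul_apply, chi_apply, map_one]
    simp
    ring
  have hst : s = (t : ℚ) / 3 := by linarith
  have hthird := third_mem (D := D) hc hκ hD
  have key : ∃ U : Multiset (G → ℚ), (∀ w ∈ U, w ∈ orb ⊤ ((1 / 3 : ℚ) • chi κ)) ∧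
      U.sum = (-(t : ℚ) / 3) • chi κ ∧ net U = -(t • zs κ (1 / 3)) := by
    rcases Int.natAbs_eq t with h | h
    · refine ⟨Multiset.replicate t.natAbs (-((1 / 3 : ℚ) • chi κ)), fun w hw => ?_, ?_, ?_⟩
      · rw [Multiset.eq_of_mem_replicate hw, orb_mult hκ]
        simp
      · rw [Multiset.sum_replicate, ← Nat.cast_smul_eq_nsmul ℚ, ← neg_smul, smul_smul]
        congr 1
        have h1 := congrArg (Int.cast : ℤ → ℚ) h
        rw [Int.cast_natCast] at h1
        rw [h1]
        ring
      · rw [net_eq_sum, Multiset.map_replicate, Multiset.sum_replicate, sg_neg,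
          ← natCast_zsmul, smul_neg, ← h]
        rfl
    · refine ⟨Multiset.replicate t.natAbs ((1 / 3 : ℚ) • chi κ), fun w hw => ?_, ?_, ?_⟩
      · rw [Multiset.eq_of_mem_replicate hw, orb_mult hκ]
        simp
      · rw [Multiset.sum_replicate, ← Nat.cast_smul_eq_nsmul ℚ, smul_smul]
        congr 1
        have h1 := congrArg (Int.cast : ℤ → ℚ) h
        rw [Int.cast_neg, Int.cast_natCast] at h1
        rw [h1]
        ring
      · rw [net_eq_sum, Multiset.map_replicate, Multiset.sum_replicate, ← natCast_zsmul,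
          ← neg_smul]
        congr 1
        omega
  obtain ⟨U, hU1, hU2, hU3⟩ := key
  have h1 := net_small hc hκ hD hX h6 hsep (S := S + U) (fun w hw => by
    rcases Multiset.mem_add.1 hw with h | h
    · exact Or.inl (hS w h)
    · exact Or.inr ⟨1 / 3, Or.inr rfl, hU1 w h⟩) (by
      rw [Multiset.sum_add, hs, hU2, ← add_smul, hst]
      rw [show (t : ℚ) / 3 + -(t : ℚ) / 3 = 0 by ring, zero_smul])
  rw [net_add', hU3] at h1
  refine ⟨0, t, 0, 0, ?_, ?_, Or.inl rfl, Or.inr hthird, Or.inl rfl⟩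
  · rw [hst]
    simp
  · refine (congrArg (· ∈ R D c κ) ?_).mp h1
    simp only [zero_smul, zero_add, add_zero]
    abel

/-- the classes of a part of kind (ii) -/
theorem th_reflex (hc : ∀ g, c * g = g * c) (hκ : κ c = -1) (hD : ∀ d ∈ D, κ d = 1)
    {X : Finset (G → ℚ)} (hR : HasReflex D c κ X) {S : Multiset (G → ℚ)} (hS : ∀ w ∈ S, w ∈ X)
    {s : ℚ} (hs : S.sum = s • chi κ) : Th D c κ (net S) s := by
  classical
  obtain ⟨B, hi, hcc, hker, hN, hav⟩ := hR
  choose! f hf using hav
  have H : RxH B c κ := ⟨hc, hκ, hcc, hker⟩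
  have h1 : (S.map f).map (avg D) = S := by
    rw [Multiset.map_map]
    conv_rhs => rw [← Multiset.map_id S]
    exact Multiset.map_congr rfl fun w hw => (hf w (hS w hw)).2.2
  have h2 := th_block H hN hi hD (F := S.map f) (s := s) (fun g hg => by
    obtain ⟨w, hw, rfl⟩ := Multiset.mem_map.1 hg
    exact ⟨(hf w (hS w hw)).1, (hf w (hS w hw)).2.1⟩) (by rw [h1]; exact hs)
  rw [h1] at h2
  exact h2

theorem net_reflex_nonsplit (hc : ∀ g, c * g = g * c) (hκ : κ c = -1) {d : G} (hd : d ∈ D)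
    (hκd : κ d ≠ 1) {X : Finset (G → ℚ)} (hR : HasReflex D c κ X) {S : Multiset (G → ℚ)}
    (hS : ∀ w ∈ S, w ∈ X) (hs : S.sum = 0) : net S ∈ R D c κ := by
  classical
  obtain ⟨B, hi, hcc, hker, hN, hav⟩ := hR
  choose! f hf using hav
  have H : RxH B c κ := ⟨hc, hκ, hcc, hker⟩
  have h1 : (S.map f).map (avg D) = S := by
    rw [Multiset.map_map]
    conv_rhs => rw [← Multiset.map_id S]
    exact Multiset.map_congr rfl fun w hw => (hf w (hS w hw)).2.2
  have h2 := rx_net_nonsplit H hN hi hd hκd (S.map f) (fun g hg => by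
    obtain ⟨w, hw, rfl⟩ := Multiset.mem_map.1 hg
    exact ⟨(hf w (hS w hw)).1, (hf w (hS w hw)).2.1⟩) (by rw [h1]; exact hs)
  rw [h1] at h2
  exact h2

/-- `net` as a homomorphism -/
private noncomputable def rxh_hom : Multiset (G → ℚ) →+ ((G → ℚ) → ℤ) where
  toFun := net
  map_zero' := net_zero'
  map_add' := net_add'

/-- The theorem for parts. -/
theorem main_parts (hc : ∀ g, c * g = g * c) (hκ : κ c = -1) {X : Finset (G → ℚ)}
    (hX : IsSys D c X) (h : HasParts D c κ X) {S : Multiset (G → ℚ)} (hS : ∀ w ∈ S, w ∈ X)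
    (hE : Even S.card) (hs : S.sum = 0) : Gen2 D c κ S := by
  classical
  obtain ⟨m, Y, h1, h2, h3, h4⟩ := h
  have hY : ∀ j, IsSys D c (Y j) := fun j => ⟨fun w hw => hX.wt w (h1 j w hw).1,
    fun g w hw => (h1 j w hw).2 g⟩
  -- every element different from zero is assigned to one part
  have h5 : ∀ w ∈ X, w ≠ 0 → ∃ j, w ∈ Y j := fun w hw h0 => (h2 w hw).resolve_left h0
  refine gen2_of_mem hc (fun w hw => hX.wt w (hS w hw)) hE ?_
  by_cases hS0 : ∀ w ∈ S, w = 0
  · have h6 : S = Multiset.replicate S.card 0 := Multiset.eq_replicate.2 ⟨rfl, hS0⟩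
    rw [h6, net_eq_sum, Multiset.map_replicate, Multiset.sum_replicate, sg_zero, smul_zero]
    exact zero_mem _
  push Not at hS0
  obtain ⟨w0, hw0, hw0'⟩ := hS0
  obtain ⟨j0, _⟩ := h5 w0 (hS w0 hw0) hw0'
  obtain ⟨p, hp⟩ : ∃ p : (G → ℚ) → Fin m, ∀ w ∈ X, w ≠ 0 → w ∈ Y (p w) := by
    refine ⟨fun w => if hw : w ∈ X ∧ w ≠ 0 then (h5 w hw.1 hw.2).choose else j0, ?_⟩
    intro w hw h0
    show w ∈ Y (if hw : w ∈ X ∧ w ≠ 0 then (h5 w hw.1 hw.2).choose else j0)
    rw [dif_pos ⟨hw, h0⟩]
    exact (h5 w hw h0).choose_spec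
  obtain ⟨T, hT⟩ : ∃ T : Fin m → Multiset (G → ℚ),
      T = fun j => S.filter fun w => w ≠ 0 ∧ p w = j := ⟨_, rfl⟩
  have hdec : S = Multiset.replicate (S.count 0) 0 + ∑ j, T j := by
    ext w
    rw [Multiset.count_add, Multiset.count_sum', Multiset.count_replicate]
    by_cases h0 : w = 0
    · have h1 : ∀ j, (T j).count w = 0 := by
        intro j
        rw [hT]
        exact Multiset.count_filter_of_neg fun h => h.1 h0
      rw [if_pos h0.symm, Finset.sum_eq_zero fun j _ => h1 j, add_zero, h0]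
    · rw [if_neg fun h => h0 h.symm, zero_add, Finset.sum_eq_single (p w)]
      · rw [hT]
        exact (Multiset.count_filter_of_pos ⟨h0, rfl⟩).symm
      · intro k _ hkj
        rw [hT]
        exact Multiset.count_filter_of_neg fun h => hkj h.2.symm
      · intro h
        exact absurd (Finset.mem_univ (p w)) h
  have hTY : ∀ j, ∀ w ∈ T j, w ∈ Y j := by
    intro j w hw
    rw [hT] at hw
    obtain ⟨h6, h7, h8⟩ := Multiset.mem_filter.1 hw
    rw [← h8]
    exact hp w (hS w h6) h7
  have hsum : ∑ j, (T j).sum = 0 := by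
    have h6 : (∑ j, T j).sum = ∑ j, (T j).sum :=
      map_sum (Multiset.sumAddMonoidHom : Multiset (G → ℚ) →+ (G → ℚ)) T Finset.univ
    have h7 := congrArg Multiset.sum hdec
    rw [hs, Multiset.sum_add, Multiset.sum_replicate, smul_zero, zero_add, h6] at h7
    exact h7.symm
  have hT0 := h3 (fun j => (T j).sum) (fun j =>
    multiset_sum_mem _ fun w hw => Submodule.subset_span (hTY j w hw)) hsum
  have hnet : net S = ∑ j, net (T j) := by
    have h6 : net (∑ j, T j) = ∑ j, net (T j) := map_sum (rxh_hom (G := G)) T Finset.univ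
    have h7 := congrArg net hdec
    rw [net_add', h6, net_eq_sum (Multiset.replicate _ _), Multiset.map_replicate,
      Multiset.sum_replicate, sg_zero, smul_zero, zero_add] at h7
    exact h7
  rw [hnet]
  by_cases hD : ∀ d ∈ D, κ d = 1
  · have h6 : ∀ j, ∃ s : ℚ, (T j).sum = s • chi κ ∧ Th D c κ (net (T j)) s := by
      intro j
      rcases h4 j with hcl | hsh
      · rcases hT0 j with h7 | ⟨hsh, s, h7⟩
        · exact ⟨0, by rw [zero_smul]; exact h7,
            th_of_mem (net_cluster hc hκ (hY j) hcl (hTY j) h7)⟩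
        · refine ⟨s, h7, ?_⟩
          rcases hsh with ⟨h8, h9⟩ | h8
          · exact th_small hc hκ hD (hY j) h8 h9 (hTY j) h7
          · exact th_reflex hc hκ hD h8 (hTY j) h7
      · obtain ⟨s, h7⟩ : ∃ s : ℚ, (T j).sum = s • chi κ := by
          rcases hT0 j with h7 | ⟨_, s, h7⟩
          · exact ⟨0, by rw [zero_smul]; exact h7⟩
          · exact ⟨s, h7⟩
        refine ⟨s, h7, ?_⟩
        rcases hsh with ⟨h8, h9⟩ | h8
        · exact th_small hc hκ hD (hY j) h8 h9 (hTY j) h7
        · exact th_reflex hc hκ hD h8 (hTY j) h7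
    choose s hs1 hs2 using h6
    have h7 : ∑ j, s j = 0 := by
      have h8 := congrFun hsum 1
      rw [Finset.sum_apply, Pi.zero_apply] at h8
      have h9 : ∀ j, (T j).sum 1 = s j * (1 / 2) := by
        intro j
        rw [hs1, Pi.smul_apply, chi_apply, map_one]
        simp
      rw [Finset.sum_congr rfl fun j _ => h9 j, ← Finset.sum_mul] at h8
      linarith
    have h8 := th_sum Finset.univ (fun j => net (T j)) s fun j _ => hs2 j
    rw [h7] at h8
    exact th_end h8
  · push Not at hD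
    obtain ⟨d, hd, hκd⟩ := hD
    refine AddSubgroup.sum_mem _ fun j _ => ?_
    have h6 : (T j).sum = 0 := by
      rcases hT0 j with h7 | ⟨_, s, h7⟩
      · exact h7
      · have hw : ∀ U : Multiset (G → ℚ), (∀ w ∈ U, w ∈ Y j) → U.sum (d * 1) = U.sum 1 := by
          intro U
          induction U using Multiset.induction with
          | empty => exact fun _ => rfl
          | cons w U ih =>
            intro hU
            rw [Multiset.sum_cons, Pi.add_apply, Pi.add_apply,
              ih fun v hv => hU v (Multiset.mem_cons_of_mem hv),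
              ((hY j).wt w (hU w (Multiset.mem_cons_self w U))).1 d hd]
        have h8 := hw (T j) (hTY j)
        have h7' : (T j).sum = s • chi κ := h7
        rw [h7', Pi.smul_apply, Pi.smul_apply, mul_one, chi_apply, chi_apply, map_one,
          (Int.units_eq_one_or (κ d)).resolve_left hκd] at h8
        have h9 : s = 0 := by
          rw [smul_eq_mul, smul_eq_mul] at h8
          push_cast at h8
          linarith
        rw [h7', h9, zero_smul]
    rcases h4 j with hcl | hsh | hsh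
    · exact net_cluster hc hκ (hY j) hcl (hTY j) h6
    · exact net_factors hc hκ (hY j) (fun w hw => Or.inl (hsh.1 w hw)) hsh.2 (hTY j) h6
    · exact net_reflex_nonsplit hc hκ hd hκd hsh (hTY j) h6

/-- The main theorem, clauses (1) and (2). -/
theorem main_rx (hc : ∀ g, c * g = g * c) (hκ : κ c = -1) {X : Finset (G → ℚ)}
    (hX : IsSys D c X) (h : ∑ w ∈ X, idx D w ≤ 10 ∨ HasParts D c κ X)
    {S : Multiset (G → ℚ)} (hS : ∀ w ∈ S, w ∈ X) (hE : Even S.card) (hs : S.sum = 0) :
    Gen2 D c κ S := by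
  rcases h with h | h
  · exact main_five hc hκ hX h hS hE hs
  · exact main_parts hc hκ hX h hS hE hs

end Pool.Agent.AVG
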