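import Pool.Agent.AVG.Pc

/-!
# AVG: the squares of the elements which act on an orbit by signs

`sqn b` is normal (the generating set is stable under conjugation) and fixes the orbit of `b`
(`tr (k * k) x = x`).
`sq_small`. Let `B = orb ⊤ b'`, six elements, three pairs `{x, -x}` which `G` permutes. Let `k₀` act by signs on the
orbit of `b` but not on `B`, and let `g` move the three pairs cyclically (`AVF.exists_cyc`). One of `k₀`, `k₀ g k₀⁻¹ g⁻¹` acts by signs on the
orbit of `b` and moves the three pairs of `B` cyclically; call it `k`. Then `sqn b` contains `k * k`, which also moves them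
cyclically, so for every `h` there is `m ∈ sqn b` with `tr h b' = ±tr m b'`, hence
`tr h (pc (sqn b) b') = pc (sqn b) (tr h b') = ±pc (sqn b) b'`, and the orbit of the weight
`pc (sqn b) b'` has at most two elements.
-/

set_option linter.unusedSectionVars false
set_option linter.unusedVariables false

namespace Pool.Agent.AVG

open Finset Pool.Agent.AVF

variable {G : Type} [Group G] [Fintype G] {D : Subgroup G} {c : G}

/-- action by signs on the orbit of `b` -/
private def SqK (b : G → ℚ) (k : G) : Prop := ∀ x ∈ orb ⊤ b, tr k x = x ∨ tr k x = -x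

private theorem sq_orb {b x : G → ℚ} (h : G) (hx : x ∈ orb ⊤ b) : tr h x ∈ orb ⊤ b :=
  tr_mem_orb (Subgroup.mem_top h) hx

private theorem sq_K_inv {b : G → ℚ} {k : G} (hk : SqK b k) : SqK b k⁻¹ := by
  intro x hx
  rcases hk x hx with h | h
  · left
    have h1 := congrArg (tr k⁻¹) h
    rw [tr_inv_tr] at h1
    exact h1.symm
  · right
    have h1 := congrArg (tr k⁻¹) h
    rw [tr_inv_tr, tr_neg] at h1
    rw [← neg_eq_iff_eq_neg]
    exact h1.symm

private theorem sq_K_mul {b : G → ℚ} {k l : G} (hk : SqK b k) (hl : SqK b l) : SqK b (k * l) := by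
  intro x hx
  rw [tr_mul]
  rcases hl x hx with h | h <;> rcases hk x hx with h' | h' <;> rw [h] <;>
    simp only [tr_neg, h', neg_neg] <;> simp

private theorem sq_K_conj {b : G → ℚ} {k : G} (hk : SqK b k) (g : G) : SqK b (g * k * g⁻¹) := by
  intro x hx
  rw [tr_mul, tr_mul]
  rcases hk (tr g⁻¹ x) (sq_orb g⁻¹ hx) with h | h
  · left
    rw [h, tr_tr_inv]
  · right
    rw [h, tr_neg, tr_tr_inv]

theorem sqn_normal (b : G → ℚ) : (sqn b).Normal := by
  constructor
  intro n hn g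
  unfold sqn at hn ⊢
  induction hn using Subgroup.closure_induction with
  | mem x hx =>
    obtain ⟨k, hk, rfl⟩ := hx
    refine Subgroup.subset_closure ⟨g * k * g⁻¹, sq_K_conj hk g, ?_⟩
    group
  | one => simp
  | mul x y _ _ h1 h2 =>
    have h3 := mul_mem h1 h2
    rwa [show g * x * g⁻¹ * (g * y * g⁻¹) = g * (x * y) * g⁻¹ by group] at h3
  | inv x _ h1 =>
    have h3 := inv_mem h1
    rwa [show (g * x * g⁻¹)⁻¹ = g * x⁻¹ * g⁻¹ by group] at h3

theorem sqn_fix {b x : G → ℚ} {k : G} (hk : k ∈ sqn b) (hx : x ∈ orb ⊤ b) : tr k x = x := by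
  have hle : sqn b ≤ core b := by
    unfold sqn
    rw [Subgroup.closure_le]
    rintro _ ⟨l, hl, rfl⟩
    intro y hy
    rw [tr_mul]
    rcases hl y hy with h | h
    · rw [h, h]
    · rw [h, tr_neg, h, neg_neg]
  exact hle hk x hx

private theorem sq_perm (σ γ : Equiv.Perm (Fin 3)) (hσ : ∃ i, σ i ≠ i) (hγ : ∀ i, γ i ≠ i) :
    (∀ i, σ i ≠ i) ∨ ∀ i, (σ * (γ * σ⁻¹ * γ⁻¹)) i ≠ i := by
  revert σ γ
  decide

private theorem sq_trans (σ : Equiv.Perm (Fin 3)) (hσ : ∀ i, σ i ≠ i) (i j : Fin 3) :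
    ∃ m : Fin 3, ((σ * σ) ^ (m : ℕ)) i = j := by
  revert σ i j
  decide

theorem sq_small (hc : ∀ g, c * g = g * c) {b b' : G → ℚ} (hb' : IsWeight D c b')
    (h0 : b' ≠ 0) (h6 : (orb ⊤ b').card = 6)
    (hg : ∃ k, (∀ x ∈ orb ⊤ b, tr k x = x ∨ tr k x = -x) ∧
      ¬ ∀ x ∈ orb ⊤ b', tr k x = x ∨ tr k x = -x) :
    (orb ⊤ (pc (sqn b) b')).card ≤ 4 := by
  classical
  obtain ⟨g, C, hcyc, hC3, hneg, hsub, hcov, -⟩ :=
    exists_cyc hc hb' h0 Nat.prime_three (by norm_num) (h6.trans (by norm_num))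
  -- the normalization
  obtain ⟨nm, hnm⟩ : ∃ nm : (G → ℚ) → (G → ℚ), ∀ x, nm x = if x ∈ C then x else -x :=
    ⟨_, fun _ => rfl⟩
  have hnmC : ∀ x ∈ orb ⊤ b', nm x ∈ C := by
    intro x hx
    rw [hnm]
    split_ifs with h
    · exact h
    · exact (hcov x hx).resolve_left h
  have hnm_self : ∀ x ∈ C, nm x = x := by
    intro x hx
    rw [hnm, if_pos hx]
  have hnm_or : ∀ x, nm x = x ∨ nm x = -x := by
    intro x
    rw [hnm]
    split_ifs
    · exact Or.inl rfl
    · exact Or.inr rfl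
  have hnm_neg : ∀ x ∈ orb ⊤ b', nm (-x) = nm x := by
    intro x hx
    rw [hnm, hnm]
    by_cases h : x ∈ C
    · rw [if_pos h, if_neg (hneg x h), neg_neg]
    · rw [if_neg h, if_pos ((hcov x hx).resolve_left h)]
  have hnm_tr : ∀ (h : G) (x : G → ℚ), x ∈ orb ⊤ b' → nm (tr h (nm x)) = nm (tr h x) := by
    intro h x hx
    rcases hnm_or x with h1 | h1
    · rw [h1]
    · rw [h1, tr_neg, hnm_neg _ (sq_orb h hx)]
  -- the action on the pairs
  let act : MulAction G {w // w ∈ C} :=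
    { smul := fun h w => ⟨nm (tr h w.1), hnmC _ (sq_orb h (hsub w.2))⟩
      one_smul := by
        intro w
        apply Subtype.ext
        change nm (tr 1 w.1) = w.1
        rw [tr_one, hnm_self _ w.2]
      mul_smul := by
        intro h k w
        apply Subtype.ext
        change nm (tr (h * k) w.1) = nm (tr h (nm (tr k w.1)))
        rw [hnm_tr _ _ (sq_orb k (hsub w.2)), tr_mul] }
  have e : {w // w ∈ C} ≃ Fin 3 := Finset.equivFinOfCardEq hC3
  let ρ : G →* Equiv.Perm (Fin 3) :=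
    (e.permCongrHom : Equiv.Perm {w // w ∈ C} →* Equiv.Perm (Fin 3)).comp
      (@MulAction.toPermHom G {w // w ∈ C} _ act)
  have hρ : ∀ (h : G) (w : {w // w ∈ C}), ρ h (e w) = e ⟨nm (tr h w.1), hnmC _ (sq_orb h (hsub w.2))⟩ := by
    intro h w
    change e (_ : {w // w ∈ C}) = _
    congr 1
    change (⟨nm (tr h (e.symm (e w)).1), _⟩ : {w // w ∈ C}) = _
    congr 2
    rw [Equiv.symm_apply_apply]
  have hρfix : ∀ (h : G) (w : {w // w ∈ C}), ρ h (e w) = e w ↔ nm (tr h w.1) = w.1 := by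
    intro h w
    rw [hρ, e.apply_eq_iff_eq, Subtype.ext_iff]
  -- `g` is cyclic
  have hg1 : tr g b' ≠ b' := by
    intro h1
    have h2 : ∀ k : ℕ, tr (g ^ k) b' = b' := by
      intro k
      induction k with
      | zero => rw [pow_zero, tr_one]
      | succ k ih => rw [pow_succ, tr_mul, h1, ih]
    have h3 : C ⊆ {b'} := by
      intro w hw
      obtain ⟨k, hk⟩ := hcyc.tran w hw
      rw [mem_singleton, ← hk, h2]
    have h4 := card_le_card h3
    rw [hC3, card_singleton] at h4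
    omega
  have hγ : ∀ i, ρ g i ≠ i := by
    intro i hi
    obtain ⟨w, rfl⟩ := e.surjective i
    rw [hρfix, hnm_self _ (hcyc.st _ w.2)] at hi
    obtain ⟨k, hk⟩ := hcyc.tran w.1 w.2
    apply hg1
    apply tr_inj (g ^ k)
    rw [← tr_mul, ← pow_succ, pow_succ', tr_mul, hk, hi]
  obtain ⟨k₀, hk₀, hk₀'⟩ := hg
  have hσ : ∃ i, ρ k₀ i ≠ i := by
    by_contra hcon
    push Not at hcon
    apply hk₀'
    intro x hx
    have key : ∀ w ∈ C, tr k₀ w = w ∨ tr k₀ w = -w := by
      intro w hw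
      have h1 := (hρfix k₀ ⟨w, hw⟩).1 (hcon _)
      change nm (tr k₀ w) = w at h1
      rcases hnm_or (tr k₀ w) with h2 | h2
      · left
        rw [← h2, h1]
      · right
        rw [← neg_eq_iff_eq_neg, ← h2, h1]
    rcases hcov x hx with h | h
    · exact key x h
    · rcases key _ h with h1 | h1
      · left
        rw [tr_neg, neg_inj] at h1
        exact h1
      · right
        rw [tr_neg, neg_inj] at h1
        exact h1
  obtain ⟨k, hk, hk'⟩ : ∃ k, SqK b k ∧ ∀ i, ρ k i ≠ i := by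
    rcases sq_perm (ρ k₀) (ρ g) hσ hγ with h | h
    · exact ⟨k₀, hk₀, h⟩
    · refine ⟨k₀ * (g * k₀⁻¹ * g⁻¹), sq_K_mul hk₀ (sq_K_conj (sq_K_inv hk₀) g), ?_⟩
      intro i
      have h1 := h i
      rwa [← map_inv, ← map_inv, ← map_mul, ← map_mul, ← map_mul] at h1
  have hkk : k * k ∈ sqn b := Subgroup.subset_closure ⟨k, hk, rfl⟩
  have hbC : b' ∈ C := hcyc.mem
  have hmain : ∀ h : G, tr h (pc (sqn b) b') = pc (sqn b) b' ∨
      tr h (pc (sqn b) b') = -pc (sqn b) b' := by
    intro h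
    have hhb := sq_orb h (self_mem_orb ⊤ b')
    obtain ⟨j, hj⟩ := sq_trans (ρ k) hk' (e ⟨b', hbC⟩) (e ⟨nm (tr h b'), hnmC _ hhb⟩)
    have hm : (k * k) ^ (j : ℕ) ∈ sqn b := pow_mem hkk _
    rw [← map_mul, ← map_pow, hρ, e.apply_eq_iff_eq, Subtype.ext_iff] at hj
    change nm (tr ((k * k) ^ (j : ℕ)) b') = nm (tr h b') at hj
    have h1 : tr h b' = tr ((k * k) ^ (j : ℕ)) b' ∨ tr h b' = -tr ((k * k) ^ (j : ℕ)) b' := by
      rcases hnm_or (tr ((k * k) ^ (j : ℕ)) b') with h2 | h2 <;>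
        rcases hnm_or (tr h b') with h3 | h3 <;> rw [h2, h3] at hj
      · exact Or.inl hj.symm
      · exact Or.inr (by rw [hj, neg_neg])
      · exact Or.inr hj.symm
      · exact Or.inl (neg_injective hj).symm
    rw [tr_pc (sqn_normal b)]
    rcases h1 with h1 | h1
    · left
      rw [h1, (tr_pc_mem hm b').2]
    · right
      rw [h1, pc_neg, (tr_pc_mem hm b').2]
  have hsub2 : orb ⊤ (pc (sqn b) b') ⊆ {pc (sqn b) b', -pc (sqn b) b'} := by
    intro x hx
    obtain ⟨h, rfl⟩ := mem_orb_top.1 hx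
    rw [mem_insert, mem_singleton]
    exact hmain h
  exact (card_le_card hsub2).trans (card_le_two.trans (by norm_num))

end Pool.Agent.AVG
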