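import Pool.Agent.AVG.ClA
import Pool.Agent.AVG.ClB
import Pool.Agent.AVG.Pc

/-!
# AVG: all relations between surfaces

Plan. Strong induction on the cardinality. `S = 0`: trivial. Let `a ∈ S`, `C = core a` (`core_normal`), `S1 = S.filter (C ≤ core ·)`, `S2` the
rest. `pc C` is the identity on `S1` (`pc_of_fix`) and zero on `S2` (`pc_zero`), so `S1.sum = pc C S.sum = 0`, `S2.sum = 0`.
`net S1 ∈ R` by `class_A` or `class_B`; `net S2 ∈ R` by induction (`a ∉ S2`).
-/

set_option linter.unusedSectionVars false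
set_option linter.unusedVariables false

namespace Pool.Agent.AVG

open Finset Pool.Agent.AVF

variable {G : Type} [Group G] [Fintype G] {D : Subgroup G} {c : G} {κ : G →* ℤˣ}

private theorem surf_aux (hc : ∀ g, c * g = g * c) (hκ : κ c = -1) (n : ℕ) : ∀ S : Multiset (G → ℚ), S.card ≤ n →
    (∀ w ∈ S, IsWeight D c w ∧ (orb ⊤ w).card = 4 ∧ idx D w = 1) → S.sum = 0 → net S ∈ R D c κ := by
  classical
  induction n with
  | zero =>
    intro S hn _ _
    have h0 : S = 0 := Multiset.card_eq_zero.1 (by omega)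
    rw [h0, net_zero']
    exact (R D c κ).zero_mem
  | succ n ih =>
    intro S hn hS hs
    by_cases h0 : S = 0
    · rw [h0, net_zero']
      exact (R D c κ).zero_mem
    obtain ⟨a, ha⟩ := Multiset.exists_mem_of_ne_zero h0
    obtain ⟨ha1, ha2, ha3⟩ := hS a ha
    have hN : (core a).Normal := core_normal a
    set S1 := S.filter (fun w => core a ≤ core w) with hS1
    set S2 := S.filter (fun w => ¬ core a ≤ core w) with hS2
    have hadd : S1 + S2 = S := Multiset.filter_add_not _ S
    have hfix : ∀ w ∈ S1, ∀ g ∈ core a, tr g w = w := by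
      intro w hw g hg
      exact (Multiset.mem_filter.1 hw).2 hg w (self_mem_orb ⊤ w)
    have hp0 : pc (core a) (0 : G → ℚ) = 0 := pc_of_fix fun g _ => tr_zero g
    have e1 : (S1.map (pc (core a))).sum = S1.sum := by
      congr 1
      conv_rhs => rw [← Multiset.map_id S1]
      exact Multiset.map_congr rfl fun w hw => pc_of_fix (hfix w hw)
    have e2 : (S2.map (pc (core a))).sum = 0 := by
      refine Multiset.sum_eq_zero fun x hx => ?_
      obtain ⟨w, hw, rfl⟩ := Multiset.mem_map.1 hx
      obtain ⟨hwS, hwn⟩ := Multiset.mem_filter.1 hw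
      obtain ⟨hw1, hw2, hw3⟩ := hS w hwS
      exact pc_zero hc hN hw1 hw2 hw3 hwn
    have hsum1 : S1.sum = 0 := by
      have h1 := pc_msum (core a) S
      rw [hs, hp0, ← hadd, Multiset.map_add, Multiset.sum_add, e1, e2, add_zero] at h1
      exact h1.symm
    have hsum2 : S2.sum = 0 := by
      rw [← hadd, Multiset.sum_add, hsum1, zero_add] at hs
      exact hs
    have hcard : S2.card ≤ n := by
      have h1 : a ∈ S1 := Multiset.mem_filter.2 ⟨ha, le_refl _⟩
      have h2 : 0 < S1.card := Multiset.card_pos_iff_exists_mem.2 ⟨a, h1⟩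
      have h3 : S1.card + S2.card = S.card := by rw [← Multiset.card_add, hadd]
      omega
    have hm2 : net S2 ∈ R D c κ := ih S2 hcard (fun w hw => hS w (Multiset.mem_filter.1 hw).1) hsum2
    have hSS : ∀ w ∈ S1, IsWeight D c w ∧ idx D w = 1 ∧ ∀ g ∈ core a, tr g w = w := by
      intro w hw
      obtain ⟨hw1, _, hw3⟩ := hS w (Multiset.mem_filter.1 hw).1
      exact ⟨hw1, hw3, hfix w hw⟩
    have hm1 : net S1 ∈ R D c κ := by
      by_cases hD : D ≤ core a
      · exact class_A hc hκ ha1 ha2 ha3 hD hSS hsum1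
      · exact class_B hc hκ ha1 ha2 ha3 hD hSS hsum1
    rw [← hadd, net_add']
    exact (R D c κ).add_mem hm1 hm2

theorem surf_all (hc : ∀ g, c * g = g * c) (hκ : κ c = -1) {S : Multiset (G → ℚ)}
    (hS : ∀ w ∈ S, IsWeight D c w ∧ (orb ⊤ w).card = 4 ∧ idx D w = 1) (hs : S.sum = 0) :
    net S ∈ R D c κ :=
  surf_aux hc hκ S.card S le_rfl hS hs

end Pool.Agent.AVG
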